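import Pool.Agent.H99.TN.Defs

/-! M10: additive lemma. -/

namespace Pool.Agent.H99.TN

open Polynomial

private theorem add_mono {N : ℕ} {x y : ℤ → ℝ}
    (h : ∀ k l k' l' : ℤ, |k| ≤ N → |l| ≤ N → |k'| ≤ N → |l'| ≤ N → k + l < k' + l' →
      x k + y l < x k' + y l') {a b : ℤ} (ha : -(N : ℤ) ≤ a) (hb : b ≤ N) (hab : a ≤ b) :
    x a ≤ x b := by
  rcases hab.eq_or_lt with rfl | hab
  · exact le_rfl
  · have := h a 0 b 0 (abs_le.mpr ⟨by omega, by omega⟩) (by simp)
      (abs_le.mpr ⟨by omega, by omega⟩) (by simp) (by omega)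
    linarith

private theorem add_key {N : ℕ} {x y : ℤ → ℝ}
    (h : ∀ k l k' l' : ℤ, |k| ≤ N → |l| ≤ N → |k'| ≤ N → |l'| ≤ N → k + l < k' + l' →
      x k + y l < x k' + y l') {k k' d : ℤ} (hd : 0 ≤ d) (h1 : -(N : ℤ) ≤ k)
    (h2 : k + d ≤ N) (h3 : -(N : ℤ) ≤ k') (h4 : k' + d + 2 ≤ N) :
    x (k + d) - x k ≤ x (k' + d + 2) - x k' := by
  have e1 := h (k + d) (-(N : ℤ)) k (-(N : ℤ) + d + 1) (abs_le.mpr ⟨by omega, by omega⟩)
    (abs_le.mpr ⟨by omega, by omega⟩) (abs_le.mpr ⟨by omega, by omega⟩)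
    (abs_le.mpr ⟨by omega, by omega⟩) (by omega)
  have e2 := h k' (-(N : ℤ) + d + 1) (k' + d + 2) (-(N : ℤ)) (abs_le.mpr ⟨by omega, by omega⟩)
    (abs_le.mpr ⟨by omega, by omega⟩) (abs_le.mpr ⟨by omega, by omega⟩)
    (abs_le.mpr ⟨by omega, by omega⟩) (by omega)
  linarith

theorem additive_lemma (N : ℕ) (hN : 10 ≤ N) (x y : ℤ → ℝ) (B : ℝ)
    (h : ∀ k l k' l' : ℤ, |k| ≤ N → |l| ≤ N → |k'| ≤ N → |l'| ≤ N → k + l < k' + l' →
      x k + y l < x k' + y l')
    (hx : x N - x (-N) ≤ B) :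
    ∃ γ : ℝ, ∀ k : ℤ, |k| ≤ N → |x k - x 0 - k * γ| ≤ 100 * B / N := by
  have hNr : (10 : ℝ) ≤ N := by exact_mod_cast hN
  -- two-step increments
  have hwin : ∀ k : ℤ, -(N : ℤ) ≤ k → k + 2 ≤ N → ∀ j : ℕ, 4 * j ≤ 2 * N →
      j * (x (k + 2) - x k) ≤ x (-(N : ℤ) + 4 * j) - x (-(N : ℤ)) := by
    intro k h1 h2 j
    induction j with
    | zero => intro _; simp
    | succ j ih =>
      intro hj
      have i1 := ih (by omega)
      have i2 := add_key h (k := k) (k' := -(N : ℤ) + 4 * j) (d := 2) (by norm_num) h1 h2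
        (by omega) (by omega)
      have e : -(N : ℤ) + 4 * j + 2 + 2 = -(N : ℤ) + 4 * ((j + 1 : ℕ) : ℤ) := by push_cast; ring
      rw [e] at i2
      have : ((j + 1 : ℕ) : ℝ) * (x (k + 2) - x k) = j * (x (k + 2) - x k) + (x (k + 2) - x k) := by
        push_cast; ring
      rw [this]
      linarith
  have he2 : ∀ k : ℤ, -(N : ℤ) ≤ k → k + 2 ≤ N → x (k + 2) - x k ≤ 5 / 2 * B / N := by
    intro k h1 h2
    have i1 := hwin k h1 h2 (N / 2) (by omega)
    have i2 : x (-(N : ℤ) + 4 * ((N / 2 : ℕ) : ℤ)) ≤ x N :=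
      add_mono h (by omega) le_rfl (by omega)
    have i3 : 0 ≤ x (k + 2) - x k := by
      have := add_mono h (a := k) (b := k + 2) h1 h2 (by omega)
      linarith
    have i4 : (9 / 20 * N : ℝ) ≤ ((N / 2 : ℕ) : ℝ) := by
      have : N ≤ 2 * (N / 2) + 1 := by omega
      have : (N : ℝ) ≤ 2 * ((N / 2 : ℕ) : ℝ) + 1 := by exact_mod_cast this
      linarith
    have i5 : (9 / 20 * N : ℝ) * (x (k + 2) - x k) ≤ B := by
      calc (9 / 20 * N : ℝ) * (x (k + 2) - x k) ≤ ((N / 2 : ℕ) : ℝ) * (x (k + 2) - x k) :=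
            mul_le_mul_of_nonneg_right i4 i3
        _ ≤ B := by
            have hx' : x (N : ℤ) - x (-(N : ℤ)) ≤ B := hx
            linarith
    have hB : 0 ≤ B := le_trans (by positivity) i5
    rw [le_div_iff₀ (by linarith)]
    nlinarith
  set e : ℝ := 5 / 2 * B / N with he
  -- all increments of the same length agree up to e
  have hcmp : ∀ d k k' : ℤ, 0 ≤ d → d ≤ N → -(N : ℤ) ≤ k → k + d ≤ N → -(N : ℤ) ≤ k' → k' + d ≤ N →
      x (k + d) - x k ≤ x (k' + d) - x k' + e := by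
    intro d k k' hd0 hd h1 h2 h3 h4
    by_cases hc : k' + d + 2 ≤ N
    · have i1 := add_key h hd0 h1 h2 h3 hc
      have i2 := he2 (k' + d) (by omega) hc
      linarith
    · have i1 := add_key h (k := k) (k' := k' - 2) hd0 h1 h2 (by omega) (by omega)
      have i2 := he2 (k' - 2) (by omega) (by omega)
      have e1 : k' - 2 + d + 2 = k' + d := by ring
      have e2 : k' - 2 + 2 = k' := by ring
      rw [e1] at i1
      rw [e2] at i2
      linarith
  have hadd : ∀ d d' : ℕ, d + d' ≤ N →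
      |(x ((d + d' : ℕ) : ℤ) - x 0) - (x (d : ℤ) - x 0) - (x (d' : ℤ) - x 0)| ≤ e := by
    intro d d' hdd
    have i1 := hcmp d d' 0 (by omega) (by omega) (by omega) (by omega) (by omega) (by omega)
    have i2 := hcmp d 0 d' (by omega) (by omega) (by omega) (by omega) (by omega) (by omega)
    have e1 : (d' : ℤ) + (d : ℤ) = ((d + d' : ℕ) : ℤ) := by push_cast; ring
    have e2 : (0 : ℤ) + (d : ℤ) = (d : ℤ) := by ring
    rw [e1, e2] at i1 i2
    rw [abs_le]
    constructor <;> linarith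
  set γ : ℝ := (x N - x 0) / N with hγ
  have hγN : (N : ℝ) * γ = x N - x 0 := by
    rw [hγ]; field_simp
  set Lf : ℕ → ℝ := fun d => x (d : ℤ) - x 0 - d * γ with hLf
  have hL0 : Lf 0 = 0 := by simp [hLf]
  have hLN : Lf N = 0 := by simp only [hLf]; linarith
  have hLadd : ∀ d d' : ℕ, d + d' ≤ N → |Lf (d + d') - Lf d - Lf d'| ≤ e := by
    intro d d' hdd
    have := hadd d d' hdd
    have e1 : Lf (d + d') - Lf d - Lf d' =
        (x ((d + d' : ℕ) : ℤ) - x 0) - (x (d : ℤ) - x 0) - (x (d' : ℤ) - x 0) := by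
      simp only [hLf]; push_cast; ring
    rw [e1]; exact this
  have hLmax : ∀ d : ℕ, d ≤ N → |Lf d| ≤ 3 * e := by
    obtain ⟨d0, hd0, hmax⟩ := Finset.exists_max_image (Finset.range (N + 1)) (fun d => |Lf d|)
      ⟨0, by simp⟩
    have hd0' : d0 ≤ N := by
      have := Finset.mem_range.mp hd0; omega
    have hmax' : ∀ d : ℕ, d ≤ N → |Lf d| ≤ |Lf d0| := fun d hd =>
      hmax d (Finset.mem_range.mpr (by omega))
    have hhalf : ∀ d : ℕ, 2 * d ≤ N → 2 * |Lf d| ≤ |Lf d0| + e := by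
      intro d hd
      have i1 := hLadd d d (by omega)
      have i2 := hmax' (d + d) (by omega)
      have e1 : 2 * Lf d = Lf (d + d) - (Lf (d + d) - Lf d - Lf d) := by ring
      calc 2 * |Lf d| = |2 * Lf d| := by rw [abs_mul]; norm_num
        _ = |Lf (d + d) - (Lf (d + d) - Lf d - Lf d)| := by rw [← e1]
        _ ≤ |Lf (d + d)| + |Lf (d + d) - Lf d - Lf d| := abs_sub _ _
        _ ≤ |Lf d0| + e := add_le_add i2 i1
    have he0 : 0 ≤ e := le_trans (abs_nonneg _) (hLadd 0 0 (by omega))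
    have hb : |Lf d0| ≤ 3 * e := by
      by_cases hc : 2 * d0 ≤ N
      · have := hhalf d0 hc
        linarith
      · have i1 := hLadd d0 (N - d0) (by omega)
        have e1 : d0 + (N - d0) = N := by omega
        rw [e1, hLN] at i1
        have i2 := hhalf (N - d0) (by omega)
        have i3 : |Lf d0| ≤ |Lf (N - d0)| + e := by
          have e2 : Lf d0 = -(0 - Lf d0 - Lf (N - d0)) - Lf (N - d0) := by ring
          calc |Lf d0| = |-(0 - Lf d0 - Lf (N - d0)) - Lf (N - d0)| := by rw [← e2]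
            _ ≤ |-(0 - Lf d0 - Lf (N - d0))| + |Lf (N - d0)| := abs_sub _ _
            _ = |0 - Lf d0 - Lf (N - d0)| + |Lf (N - d0)| := by rw [abs_neg]
            _ ≤ |Lf (N - d0)| + e := by linarith
        linarith
    intro d hd
    exact (hmax' d hd).trans hb
  have he0 : 0 ≤ e := le_trans (abs_nonneg _) (hLadd 0 0 (by omega))
  have hfin : 4 * e ≤ 100 * B / N := by
    have : 100 * B / N = 40 * e := by rw [he]; ring
    rw [this]; linarith
  refine ⟨γ, fun k hk => ?_⟩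
  rw [abs_le] at hk
  rcases le_or_gt 0 k with hk0 | hk0
  · obtain ⟨d, rfl⟩ := Int.eq_ofNat_of_zero_le hk0
    have := hLmax d (by omega)
    have e1 : x (d : ℤ) - x 0 - ((d : ℤ) : ℝ) * γ = Lf d := by simp only [hLf]; push_cast; ring
    rw [e1]
    linarith
  · obtain ⟨d, hd⟩ := Int.eq_ofNat_of_zero_le (show 0 ≤ -k by omega)
    have hkd : k = -(d : ℤ) := by omega
    subst hkd
    have i0 := hLmax d (by omega)
    have i1 := hcmp d (-(d : ℤ)) 0 (by omega) (by omega) (by omega) (by omega) (by omega) (by omega)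
    have i2 := hcmp d 0 (-(d : ℤ)) (by omega) (by omega) (by omega) (by omega) (by omega) (by omega)
    have e1 : -(d : ℤ) + (d : ℤ) = 0 := by ring
    have e2 : (0 : ℤ) + (d : ℤ) = (d : ℤ) := by ring
    rw [e1, e2] at i1 i2
    have e3 : Lf d = x (d : ℤ) - x 0 - d * γ := rfl
    have e4 : ((-(d : ℤ) : ℤ) : ℝ) = -(d : ℝ) := by push_cast; ring
    rw [abs_le] at i0
    rw [e4, abs_le]
    constructor <;> linarith
 
end Pool.Agent.H99.TN
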