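import Pool.Agent.H99.TN.Defs

/-! Algebra of the root products. -/

namespace Pool.Agent.H99.TN

open Polynomial

theorem prod_inv (n : ℕ) (hn : 1 ≤ n) (w : ℕ → ℂ) (A : ℕ → ℂ)
    (h : (∏ i ∈ Finset.range n, (X - C (w i)) : ℂ[X]) =
      X ^ n - ∑ j ∈ Finset.Ico 1 n, C (A j) * X ^ j - 1) :
    (∀ i ∈ Finset.range n, w i ≠ 0) ∧
    (∏ i ∈ Finset.range n, (X - C (w i)⁻¹) : ℂ[X]) =
      X ^ n + ∑ j ∈ Finset.Ico 1 n, C (A j) * X ^ (n - j) - 1 := by
  have hev : ∀ y : ℂ, ∏ i ∈ Finset.range n, (y - w i) =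
      y ^ n - ∑ j ∈ Finset.Ico 1 n, A j * y ^ j - 1 := by
    intro y
    have := congrArg (Polynomial.eval y) h
    simpa [eval_prod, eval_finset_sum] using this
  have h0 : ∏ i ∈ Finset.range n, (-(w i)) = -1 := by
    have := hev 0
    rw [zero_pow (by omega)] at this
    have h2 : ∑ j ∈ Finset.Ico 1 n, A j * (0 : ℂ) ^ j = 0 := by
      apply Finset.sum_eq_zero
      intro j hj
      rw [Finset.mem_Ico] at hj
      rw [zero_pow (by omega), mul_zero]
    rw [h2] at this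
    simpa using this
  have hne : ∀ i ∈ Finset.range n, w i ≠ 0 := by
    intro i hi hw
    have : ∏ i ∈ Finset.range n, (-(w i)) = 0 :=
      Finset.prod_eq_zero hi (by rw [hw, neg_zero])
    rw [this] at h0
    norm_num at h0
  refine ⟨hne, ?_⟩
  apply Polynomial.eq_of_infinite_eval_eq
  have hinf : Set.Infinite {y : ℂ | y ≠ 0} := by
    have : {y : ℂ | y ≠ 0} = {0}ᶜ := by ext; simp
    rw [this]
    exact (Set.finite_singleton 0).infinite_compl
  refine hinf.mono ?_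
  intro y hy
  simp only [Set.mem_setOf_eq] at hy ⊢
  rw [eval_prod]
  have h3 : ∏ i ∈ Finset.range n, (y - (w i)⁻¹) =
      ∏ i ∈ Finset.range n, ((y * (-(w i))⁻¹) * (y⁻¹ - w i)) := by
    apply Finset.prod_congr rfl
    intro i hi
    have := hne i hi
    field_simp
    ring
  have h4 : ∏ i ∈ Finset.range n, (eval y (X - C (w i)⁻¹)) =
      ∏ i ∈ Finset.range n, (y - (w i)⁻¹) := by
    apply Finset.prod_congr rfl
    intro i _
    simp
  rw [h4, h3, Finset.prod_mul_distrib, Finset.prod_mul_distrib, hev y⁻¹, Finset.prod_inv_distrib, h0,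
    Finset.prod_const, Finset.card_range]
  simp only [eval_sub, eval_add, eval_pow, eval_X, eval_finset_sum, eval_mul, eval_C, eval_one]
  have h5 : y ^ n * ∑ j ∈ Finset.Ico 1 n, A j * y⁻¹ ^ j =
      ∑ j ∈ Finset.Ico 1 n, A j * y ^ (n - j) := by
    rw [Finset.mul_sum]
    apply Finset.sum_congr rfl
    intro j hj
    rw [Finset.mem_Ico] at hj
    have h6 : y ^ n = y ^ (n - j) * y ^ j := by
      rw [← pow_add]
      congr 1
      omega
    rw [h6, inv_pow]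
    have : y ^ j ≠ 0 := pow_ne_zero _ hy
    field_simp
  have h7 : y ^ n * y⁻¹ ^ n = 1 := by
    rw [← mul_pow, mul_inv_cancel₀ hy, one_pow]
  have h8 : y ^ n * (-1 : ℂ)⁻¹ * (y⁻¹ ^ n - ∑ j ∈ Finset.Ico 1 n, A j * y⁻¹ ^ j - 1) =
      -(y ^ n * y⁻¹ ^ n) + y ^ n * ∑ j ∈ Finset.Ico 1 n, A j * y⁻¹ ^ j + y ^ n := by
    norm_num
    ring
  rw [h8, h5, h7]
  ring

theorem prod_pair {M : Type*} [CommMonoid M] (m : ℕ) (hm : 1 ≤ m) (f : ℕ → M) :
    ∏ i ∈ Finset.range (2 * m), f i =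
      f 0 * f m * ∏ i ∈ Finset.Ico 1 m, (f i * f (2 * m - i)) := by
  rw [Finset.prod_mul_distrib]
  have h1 : ∏ i ∈ Finset.Ico 1 m, f (2 * m - i) = ∏ i ∈ Finset.Ico (m + 1) (2 * m), f i := by
    rw [Finset.prod_Ico_reflect f 1 (by omega : m ≤ 2 * m + 1)]
    congr 1
    ext x
    simp only [Finset.mem_Ico]
    omega
  rw [h1, Finset.range_eq_Ico, ← Finset.prod_Ico_consecutive f (Nat.zero_le 1) (by omega : 1 ≤ 2 * m),
    ← Finset.prod_Ico_consecutive f (by omega : 1 ≤ m) (by omega : m ≤ 2 * m),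
    ← Finset.prod_Ico_consecutive f (by omega : m ≤ m + 1) (by omega : m + 1 ≤ 2 * m)]
  simp only [Finset.prod_Ico_succ_top, Nat.Ico_succ_singleton, Finset.prod_singleton, zero_add,
    le_refl, Finset.Ico_self, Finset.prod_empty, one_mul]
  have h2 : ∏ i ∈ Finset.Ico 0 1, f i = f 0 := by simp
  ac_rfl

theorem quad_conj (w : ℂ) (hw : w ≠ 0) :
    ((X - C w⁻¹) * (X - C ((starRingEnd ℂ) w)⁻¹) : ℂ[X]) =
      ((X ^ 2 - C (2 * w.re / Complex.normSq w) * X + C (Complex.normSq w)⁻¹ : ℝ[X])).map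
        (algebraMap ℝ ℂ) := by
  have hN : (Complex.normSq w : ℂ) ≠ 0 := by
    exact_mod_cast (Complex.normSq_pos.mpr hw).ne'
  have h1 : w⁻¹ + ((starRingEnd ℂ) w)⁻¹ = ((2 * w.re / Complex.normSq w : ℝ) : ℂ) := by
    push_cast
    have h2 : ((starRingEnd ℂ) w) ≠ 0 := by simpa using hw
    have h3 : (Complex.normSq w : ℂ) = w * (starRingEnd ℂ) w := (Complex.mul_conj w).symm
    have h4 : (2 * w.re : ℂ) = w + (starRingEnd ℂ) w := by
      rw [Complex.add_conj]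
      push_cast
      ring
    rw [h3, h4]
    field_simp
    ring
  have h5 : w⁻¹ * ((starRingEnd ℂ) w)⁻¹ = (((Complex.normSq w)⁻¹ : ℝ) : ℂ) := by
    push_cast
    rw [← mul_inv, Complex.mul_conj]
  simp only [Polynomial.map_add, Polynomial.map_sub, Polynomial.map_mul, Polynomial.map_pow, map_X, map_C]
  have h6 : (algebraMap ℝ ℂ) (2 * w.re / Complex.normSq w) =
      ((2 * w.re / Complex.normSq w : ℝ) : ℂ) := rfl
  have h7 : (algebraMap ℝ ℂ) ((Complex.normSq w)⁻¹) = (((Complex.normSq w)⁻¹ : ℝ) : ℂ) := rfl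
  rw [h6, h7, ← h1, ← h5, C_add, C_mul]
  ring

end Pool.Agent.H99.TN
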