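import Pool.Agent.H99.TN.Defs

/-! M5: grouping J of the 2J quadratic factors into one polynomial without zero coefficients. -/

namespace Pool.Agent.H99.TN

open Polynomial

private theorem coeff_mul_quad (P : ℝ[X]) (l m : ℝ) (k : ℕ) :
    (P * (X ^ 2 - C l * X + C m)).coeff (k + 2) =
      P.coeff k - l * P.coeff (k + 1) + m * P.coeff (k + 2) := by
  have h : P * (X ^ 2 - C l * X + C m) = P * X ^ 2 - C l * (P * X) + C m * P := by ring
  rw [h, coeff_add, coeff_sub, coeff_C_mul, coeff_C_mul, coeff_mul_X_pow, coeff_mul_X]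

private theorem coeff_mul_quad_one (P : ℝ[X]) (l m : ℝ) :
    (P * (X ^ 2 - C l * X + C m)).coeff 1 = - l * P.coeff 0 + m * P.coeff 1 := by
  have h : P * (X ^ 2 - C l * X + C m) = P * X ^ 2 - C l * (P * X) + C m * P := by ring
  rw [h, coeff_add, coeff_sub, coeff_C_mul, coeff_C_mul, coeff_mul_X_pow',
    show (1 : ℕ) = 0 + 1 from rfl, coeff_mul_X]
  simp

private theorem coeff_mul_quad_zero (P : ℝ[X]) (l m : ℝ) :
    (P * (X ^ 2 - C l * X + C m)).coeff 0 = m * P.coeff 0 := by
  have h : (X ^ 2 - C l * X + C m : ℝ[X]).coeff 0 = m := by simp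
  rw [mul_coeff_zero, h, mul_comm]

private theorem quad_monic (l m : ℝ) : (X ^ 2 - C l * X + C m : ℝ[X]).Monic := by
  have h : (X ^ 2 - C l * X + C m : ℝ[X]) = X ^ 2 + (C (-l) * X + C m) := by
    rw [C_neg]; ring
  rw [h]
  apply monic_X_pow_add
  exact lt_of_le_of_lt (degree_linear_le) (by norm_num)

private theorem quad_natDegree (l m : ℝ) : (X ^ 2 - C l * X + C m : ℝ[X]).natDegree = 2 := by
  compute_degree!

private theorem signs {ι : Type*} [DecidableEq ι] (σ : ℝ) (hσ : σ * σ = 1) (l m : ι → ℝ)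
    (s : Finset ι) (hm : ∀ i ∈ s, 0 < m i) (hl : ∀ i ∈ s, 0 ≤ σ * l i) :
    (∀ k, 0 ≤ (∏ i ∈ s, (X ^ 2 - C (l i) * X + C (m i))).coeff (2 * k)) ∧
    (∀ k, σ * (∏ i ∈ s, (X ^ 2 - C (l i) * X + C (m i))).coeff (2 * k + 1) ≤ 0) ∧
    (∀ k ≤ s.card, 0 < (∏ i ∈ s, (X ^ 2 - C (l i) * X + C (m i))).coeff (2 * k)) ∧
    ((∃ i ∈ s, l i ≠ 0) →
      ∀ k < s.card, σ * (∏ i ∈ s, (X ^ 2 - C (l i) * X + C (m i))).coeff (2 * k + 1) < 0) := by
  induction s using Finset.induction_on with
  | empty =>
    refine ⟨fun k => ?_, fun k => ?_, fun k hk => ?_, fun h => ?_⟩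
    · rw [Finset.prod_empty, coeff_one]; split_ifs <;> norm_num
    · rw [Finset.prod_empty, coeff_one, if_neg (by omega)]; simp
    · have : k = 0 := by simpa using hk
      subst this
      simp
    · obtain ⟨i, hi, _⟩ := h; simp at hi
  | insert j s hj ih =>
    have ih' := ih (fun i hi => hm i (Finset.mem_insert_of_mem hi))
      (fun i hi => hl i (Finset.mem_insert_of_mem hi))
    have hmj : 0 < m j := hm j (Finset.mem_insert_self j s)
    have hlj : 0 ≤ σ * l j := hl j (Finset.mem_insert_self j s)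
    rw [Finset.prod_insert hj, mul_comm, Finset.card_insert_of_notMem hj]
    generalize hP : (∏ i ∈ s, (X ^ 2 - C (l i) * X + C (m i))) = P at ih' ⊢
    obtain ⟨h1, h2, h3, h4⟩ := ih'
    have hlm : ∀ c : ℝ, l j * c = (σ * l j) * (σ * c) := by
      intro c
      calc l j * c = (σ * σ) * (l j * c) := by rw [hσ, one_mul]
        _ = _ := by ring
    have he : ∀ k, 0 ≤ - (l j * P.coeff (2 * k + 1)) := by
      intro k
      rw [hlm]
      nlinarith [h2 k]
    refine ⟨fun k => ?_, fun k => ?_, fun k hk => ?_, fun h => ?_⟩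
    · rcases k with _ | k
      · rw [mul_zero, coeff_mul_quad_zero]
        exact mul_nonneg hmj.le (by simpa using h1 0)
      · rw [show 2 * (k + 1) = 2 * k + 2 by ring, coeff_mul_quad]
        have a := h1 k
        have b := mul_nonneg hmj.le (h1 (k + 1))
        rw [show 2 * (k + 1) = 2 * k + 2 by ring] at b
        linarith [he k]
    · rcases k with _ | k
      · rw [mul_zero, zero_add, coeff_mul_quad_one]
        have a := mul_nonneg hlj (h1 0)
        have b := mul_nonneg hmj.le (neg_nonneg.2 (h2 0))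
        simp only [mul_zero, zero_add] at a b
        linarith
      · rw [show 2 * (k + 1) + 1 = (2 * k + 1) + 2 by ring, coeff_mul_quad]
        have a := mul_nonneg hlj (h1 (k + 1))
        have b := mul_nonneg hmj.le (neg_nonneg.2 (h2 (k + 1)))
        have c := h2 k
        rw [show 2 * (k + 1) = 2 * k + 1 + 1 by ring] at a
        rw [show 2 * (k + 1) + 1 = (2 * k + 1) + 2 by ring] at b
        linarith
    · rcases k with _ | k
      · rw [mul_zero, coeff_mul_quad_zero]
        exact mul_pos hmj (by simpa using h3 0 (Nat.zero_le _))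
      · rw [show 2 * (k + 1) = 2 * k + 2 by ring, coeff_mul_quad]
        have a := h3 k (by omega)
        have b := mul_nonneg hmj.le (h1 (k + 1))
        rw [show 2 * (k + 1) = 2 * k + 2 by ring] at b
        linarith [he k]
    · intro k hk
      by_cases hj0 : l j = 0
      · have hs : ∃ i ∈ s, l i ≠ 0 := by
          obtain ⟨i, hi, hli⟩ := h
          rcases Finset.mem_insert.1 hi with rfl | hi
          · exact absurd hj0 hli
          · exact ⟨i, hi, hli⟩
        have h5 := h4 hs
        have hcard : 0 < s.card := by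
          obtain ⟨i, hi, _⟩ := hs
          exact Finset.card_pos.2 ⟨i, hi⟩
        rcases k with _ | k
        · rw [mul_zero, zero_add, coeff_mul_quad_one, hj0]
          have b := mul_pos hmj (neg_pos.2 (h5 0 hcard))
          simp only [mul_zero, zero_add] at b
          linarith
        · rw [show 2 * (k + 1) + 1 = (2 * k + 1) + 2 by ring, coeff_mul_quad, hj0]
          have c := h5 k (by omega)
          have b := mul_nonneg hmj.le (neg_nonneg.2 (h2 (k + 1)))
          rw [show 2 * (k + 1) + 1 = (2 * k + 1) + 2 by ring] at b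
          linarith
      · have hlj' : 0 < σ * l j := by
          rcases hlj.lt_or_eq with h' | h'
          · exact h'
          · exfalso
            have := hlm 1
            rw [← h'] at this
            apply hj0
            linarith
        rcases k with _ | k
        · rw [mul_zero, zero_add, coeff_mul_quad_one]
          have a := mul_pos hlj' (h3 0 (Nat.zero_le _))
          have b := mul_nonneg hmj.le (neg_nonneg.2 (h2 0))
          simp only [mul_zero, zero_add] at a b
          linarith
        · rw [show 2 * (k + 1) + 1 = (2 * k + 1) + 2 by ring, coeff_mul_quad]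
          have a := mul_pos hlj' (h3 (k + 1) (by omega))
          have b := mul_nonneg hmj.le (neg_nonneg.2 (h2 (k + 1)))
          have c := h2 k
          rw [show 2 * (k + 1) = 2 * k + 1 + 1 by ring] at a
          rw [show 2 * (k + 1) + 1 = (2 * k + 1) + 2 by ring] at b
          linarith

theorem quad_group (J : ℕ) (hJ : 2 ≤ J) (l m : Fin (2 * J) → ℝ) (hm : ∀ i, 0 < m i)
    (hI : (Finset.univ.filter (fun i => l i = 0)).card ≤ J - 1) :
    ∃ (CJ : ℝ[X]) (l' m' : ℕ → ℝ), CJ.Monic ∧ CJ.natDegree = 2 * J ∧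
      (∀ k < 2 * J, CJ.coeff k ≠ 0) ∧ (∀ t < J, l' t ≠ 0 ∧ 0 < m' t) ∧
      ∏ i, (X ^ 2 - C (l i) * X + C (m i)) =
        CJ * ∏ t ∈ Finset.range J, (X ^ 2 - C (l' t) * X + C (m' t)) := by
  classical
  -- the choice of the sign
  obtain ⟨σ, hσ, hcard⟩ : ∃ σ : ℝ, σ * σ = 1 ∧
      J ≤ (Finset.univ.filter (fun i => 0 ≤ σ * l i)).card := by
    by_contra hcon
    push Not at hcon
    have h1 := hcon 1 (by norm_num)
    have h2 := hcon (-1) (by norm_num)
    have h3 : (Finset.univ : Finset (Fin (2 * J))) ⊆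
        (Finset.univ.filter (fun i => 0 ≤ 1 * l i)) ∪
          (Finset.univ.filter (fun i => 0 ≤ -1 * l i)) := by
      intro i _
      rw [Finset.mem_union, Finset.mem_filter, Finset.mem_filter]
      rcases le_total 0 (l i) with h | h
      · left; exact ⟨Finset.mem_univ _, by linarith⟩
      · right; exact ⟨Finset.mem_univ _, by linarith⟩
    have h4 := (Finset.card_le_card h3).trans (Finset.card_union_le _ _)
    rw [Finset.card_univ, Fintype.card_fin] at h4
    omega
  have hσ0 : σ ≠ 0 := by
    rintro rfl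
    norm_num at hσ
  have hsub : Finset.univ.filter (fun i => l i = 0) ⊆
      Finset.univ.filter (fun i => 0 ≤ σ * l i) := by
    intro i hi
    rw [Finset.mem_filter] at hi ⊢
    exact ⟨hi.1, by rw [hi.2, mul_zero]⟩
  obtain ⟨s, hZs, hsP, hsc⟩ := Finset.exists_subsuperset_card_eq hsub
    (show (Finset.univ.filter (fun i => l i = 0)).card ≤ J by omega) hcard
  have hsne : ∃ i ∈ s, l i ≠ 0 := by
    by_contra hcon
    push Not at hcon
    have : s ⊆ Finset.univ.filter (fun i => l i = 0) := by
      intro i hi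
      exact Finset.mem_filter.2 ⟨Finset.mem_univ _, hcon i hi⟩
    have := Finset.card_le_card this
    omega
  have hsl : ∀ i ∈ s, 0 ≤ σ * l i := fun i hi => (Finset.mem_filter.1 (hsP hi)).2
  obtain ⟨-, -, h3, h4⟩ := signs σ hσ l m s (fun i _ => hm i) hsl
  have h5 := h4 hsne
  have htc : sᶜ.card = J := by
    rw [Finset.card_compl, Fintype.card_fin, hsc]; omega
  have htl : ∀ i ∈ sᶜ, l i ≠ 0 := by
    intro i hi h0
    exact (Finset.mem_compl.1 hi) (hZs (Finset.mem_filter.2 ⟨Finset.mem_univ _, h0⟩))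
  let e := Finset.equivFinOfCardEq htc
  refine ⟨∏ i ∈ s, (X ^ 2 - C (l i) * X + C (m i)),
    fun t => if h : t < J then l (e.symm ⟨t, h⟩) else 1,
    fun t => if h : t < J then m (e.symm ⟨t, h⟩) else 1, ?_, ?_, ?_, ?_, ?_⟩
  · exact monic_prod_of_monic _ _ (fun i _ => quad_monic _ _)
  · rw [natDegree_prod_of_monic _ _ (fun i _ => quad_monic _ _),
      Finset.sum_congr rfl (fun i _ => quad_natDegree (l i) (m i)), Finset.sum_const, hsc]
    simp [mul_comm]
  · intro k hk
    rcases Nat.even_or_odd' k with ⟨c, rfl | rfl⟩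
    · exact (h3 c (by omega)).ne'
    · intro h0
      have := h5 c (by omega)
      rw [h0, mul_zero] at this
      exact lt_irrefl _ this
  · intro t ht
    simp only [ht, dif_pos]
    exact ⟨htl _ (e.symm ⟨t, ht⟩).2, hm _⟩
  · rw [← Finset.prod_mul_prod_compl s]
    congr 1
    rw [Finset.prod_range, ← Finset.prod_coe_sort]
    rw [← Equiv.prod_comp e.symm]
    apply Finset.prod_congr rfl
    intro t _
    simp [t.2]

end Pool.Agent.H99.TN
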