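import Pool.Agent.H99.TN.Defs

/-! M4: factorisation into quadratics with positive constant term. -/

namespace Pool.Agent.H99.TN

open Polynomial

/-- a monic polynomial which is negative somewhere to the left has a larger root -/
private theorem exists_root_gt (P : ℝ[X]) (hm : P.Monic) (hd : 0 < P.natDegree) (a : ℝ)
    (ha : P.eval a < 0) : ∃ y, a < y ∧ P.eval y = 0 := by
  have hdeg : 0 < P.degree := natDegree_pos_iff_degree_pos.1 hd
  have ht := P.tendsto_atTop_of_leadingCoeff_nonneg hdeg (by rw [hm.leadingCoeff]; norm_num)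
  obtain ⟨b, hb⟩ := (ht.eventually (Filter.eventually_ge_atTop 1)).and
    (Filter.eventually_ge_atTop (a + 1)) |>.exists
  have hab : a ≤ b := by linarith [hb.2]
  have hmem : (0 : ℝ) ∈ Set.Icc (P.eval a) (P.eval b) := ⟨ha.le, by linarith [hb.1]⟩
  obtain ⟨y, hy, hy0⟩ := intermediate_value_Icc hab P.continuous.continuousOn hmem
  refine ⟨y, lt_of_le_of_ne hy.1 ?_, hy0⟩
  rintro rfl
  linarith

private theorem quad_monic (l m : ℝ) : (X ^ 2 - C l * X + C m : ℝ[X]).Monic ∧
    (X ^ 2 - C l * X + C m : ℝ[X]).natDegree = 2 := by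
  have e : (X ^ 2 - C l * X + C m : ℝ[X]) = X ^ 2 + C (-l) * X + C m := by
    rw [C_neg]; ring
  have h2 : (X ^ 2 + C (-l) * X + C m : ℝ[X]) = C 1 * X ^ 2 + C (-l) * X + C m := by
    rw [C_1, one_mul]
  constructor
  · rw [e, h2, Monic, leadingCoeff_quadratic one_ne_zero]
  · rw [e, h2, natDegree_quadratic one_ne_zero]

/-- one quadratic factor with positive constant term -/
private theorem quad_step (P : ℝ[X]) (hm : P.Monic) (hd : 0 < P.natDegree)
    (he : Even P.natDegree) (h0 : 0 < P.eval 0) :
    ∃ l m : ℝ, ∃ Q : ℝ[X], 0 < m ∧ P = (X ^ 2 - C l * X + C m) * Q := by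
  by_cases hroot : ∃ y, P.eval y = 0
  · obtain ⟨y, hy⟩ := hroot
    have hy0 : y ≠ 0 := by
      rintro rfl
      linarith
    obtain ⟨P1, hP1⟩ : (X - C y) ∣ P := dvd_iff_isRoot.2 hy
    have hP1m : P1.Monic := (monic_X_sub_C y).of_mul_monic_left (by rw [← hP1]; exact hm)
    have hdeg : P.natDegree = 1 + P1.natDegree := by
      rw [hP1, (monic_X_sub_C y).natDegree_mul hP1m, natDegree_X_sub_C]
    have hev : P.eval 0 = -y * P1.eval 0 := by
      rw [hP1]
      simp
    have hd1 : 0 < P1.natDegree := by
      rcases Nat.eq_zero_or_pos P1.natDegree with h | h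
      · rw [h] at hdeg
        rw [hdeg] at he
        exact absurd he (by decide)
      · exact h
    obtain ⟨y', hy', hyy⟩ : ∃ y', P1.eval y' = 0 ∧ 0 < y * y' := by
      rcases lt_or_gt_of_ne hy0 with hneg | hpos
      · -- `y < 0`: `P1 (0) > 0`, odd degree
        have h1 : 0 < P1.eval 0 := by
          rw [hev] at h0
          exact (mul_pos_iff_of_pos_left (by linarith)).1 h0
        set R : ℝ[X] := -(P1.comp (-X)) with hR
        have hodd : Odd P1.natDegree := by
          rw [hdeg] at he
          rcases Nat.even_or_odd P1.natDegree with h | h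
          · exact absurd he (by rw [Nat.even_add]; simp [h])
          · exact h
        have hRm : R.Monic := by
          have hc : (P1.comp (-X)).leadingCoeff = -1 := by
            rw [leadingCoeff_comp (by simp), hP1m.leadingCoeff, leadingCoeff_neg, leadingCoeff_X,
              hodd.neg_one_pow]
            norm_num
          rw [hR, Monic, leadingCoeff_neg, hc, neg_neg]
        have hRd : R.natDegree = P1.natDegree := by
          rw [hR, natDegree_neg, natDegree_comp, natDegree_neg, natDegree_X, mul_one]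
        have hR0 : R.eval 0 < 0 := by
          rw [hR]
          simp
          exact h1
        obtain ⟨z, hz, hz0⟩ := exists_root_gt R hRm (by rw [hRd]; exact hd1) 0 hR0
        refine ⟨-z, ?_, by nlinarith⟩
        have : R.eval z = -(P1.eval (-z)) := by
          rw [hR]
          simp
        rw [this] at hz0
        linarith
      · have h1 : P1.eval 0 < 0 := by
          rw [hev] at h0
          by_contra h
          push Not at h
          nlinarith
        obtain ⟨z, hz, hz0⟩ := exists_root_gt P1 hP1m hd1 0 h1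
        exact ⟨z, hz0, by positivity⟩
    obtain ⟨Q, hQ⟩ : (X - C y') ∣ P1 := dvd_iff_isRoot.2 hy'
    refine ⟨y + y', y * y', Q, hyy, ?_⟩
    rw [hP1, hQ, C_add, C_mul]
    ring
  · push Not at hroot
    obtain ⟨z, hz⟩ : ∃ z : ℂ, aeval z P = 0 := by
      have hdc : (P.map (algebraMap ℝ ℂ)).degree ≠ 0 := by
        rw [degree_map, degree_eq_natDegree hm.ne_zero]
        intro h
        have : P.natDegree = 0 := by exact_mod_cast h
        omega
      obtain ⟨z, hz⟩ := Complex.exists_root (f := P.map (algebraMap ℝ ℂ)) (by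
        rw [degree_map, degree_eq_natDegree hm.ne_zero]
        exact_mod_cast hd)
      refine ⟨z, ?_⟩
      rw [IsRoot.def, eval_map_algebraMap] at hz
      exact hz
    have him : z.im ≠ 0 := by
      intro h
      have hzr : z = ((z.re : ℝ) : ℂ) := by
        apply Complex.ext
        · simp
        · simpa using h
      rw [hzr] at hz
      have : aeval ((z.re : ℝ) : ℂ) P = ((P.eval z.re : ℝ) : ℂ) := by
        rw [← Complex.coe_algebraMap, aeval_algebraMap_apply_eq_algebraMap_eval]
      rw [this] at hz
      exact hroot z.re (by exact_mod_cast hz)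
    obtain ⟨Q, hQ⟩ := quadratic_dvd_of_aeval_eq_zero_im_ne_zero P hz him
    refine ⟨2 * z.re, ‖z‖ ^ 2, Q, ?_, hQ⟩
    have : z ≠ 0 := by
      rintro rfl
      exact him rfl
    positivity

theorem quad_factor (d : ℕ) (P : ℝ[X]) (hm : P.Monic) (hd : P.natDegree = 2 * d)
    (h0 : 0 < P.eval 0) :
    ∃ l m : Fin d → ℝ, (∀ i, 0 < m i) ∧ P = ∏ i, (X ^ 2 - C (l i) * X + C (m i)) := by
  induction d generalizing P with
  | zero =>
    refine ⟨Fin.elim0, Fin.elim0, fun i => i.elim0, ?_⟩
    have := (Polynomial.Monic.natDegree_eq_zero hm).1 (by simpa using hd)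
    rw [this]
    simp
  | succ d ih =>
    obtain ⟨l, m, Q, hmpos, hPQ⟩ := quad_step P hm (by omega) ⟨d + 1, by omega⟩ h0
    obtain ⟨hqm, hqd⟩ := quad_monic l m
    have hQm : Q.Monic := hqm.of_mul_monic_left (by rw [← hPQ]; exact hm)
    have hQd : Q.natDegree = 2 * d := by
      have : P.natDegree = 2 + Q.natDegree := by
        rw [hPQ, hqm.natDegree_mul hQm, hqd]
      omega
    have hQ0 : 0 < Q.eval 0 := by
      have : P.eval 0 = m * Q.eval 0 := by
        rw [hPQ]
        simp
      rw [this] at h0
      exact (mul_pos_iff_of_pos_left hmpos).1 h0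
    obtain ⟨l', m', hm', hQ'⟩ := ih Q hQm hQd hQ0
    refine ⟨Fin.cons l l', Fin.cons m m', ?_, ?_⟩
    · intro i
      refine Fin.cases ?_ (fun j => ?_) i
      · simpa using hmpos
      · simpa using hm' j
    · rw [Fin.prod_univ_succ]
      simp only [Fin.cons_zero, Fin.cons_succ]
      rw [← hQ', hPQ]

end Pool.Agent.H99.TN
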