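import Pool.Agent.H99.TN.Defs

/-! M1: characteristic polynomial of a lower Hessenberg matrix. -/

namespace Pool.Agent.H99.TN

open Polynomial

private theorem hess_det (m : ℕ) (M : Matrix (Fin (m + 1)) (Fin (m + 1)) ℝ[X]) (P : ℝ[X])
    (hsup : ∀ i j : Fin (m + 1), (j : ℕ) = i + 1 → M i j = -1)
    (hzero : ∀ i j : Fin (m + 1), (i : ℕ) + 1 < j → M i j = 0) :
    (M.updateCol 0 (Pi.single (Fin.last m) P)).det = P := by
  rw [Matrix.det_succ_column_zero, Finset.sum_eq_single (Fin.last m)]
  · rw [Matrix.updateCol_self, Pi.single_eq_same]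
    have hlow : (Matrix.submatrix (M.updateCol 0 (Pi.single (Fin.last m) P))
        (Fin.last m).succAbove Fin.succ).BlockTriangular OrderDual.toDual := by
      intro i j hij
      have hij' : i < j := hij
      rw [Matrix.submatrix_apply, Matrix.updateCol_ne (Fin.succ_ne_zero j), Fin.succAbove_last]
      refine hzero _ _ ?_
      rw [Fin.val_castSucc, Fin.val_succ]
      have : (i : ℕ) < j := hij'
      omega
    rw [Matrix.det_of_lowerTriangular _ hlow]
    have hd : ∀ i : Fin m, (Matrix.submatrix (M.updateCol 0 (Pi.single (Fin.last m) P))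
        (Fin.last m).succAbove Fin.succ) i i = -1 := by
      intro i
      rw [Matrix.submatrix_apply, Matrix.updateCol_ne (Fin.succ_ne_zero i), Fin.succAbove_last]
      refine hsup _ _ ?_
      rw [Fin.val_castSucc, Fin.val_succ]
    rw [Finset.prod_congr rfl (fun i _ => hd i), Finset.prod_const, Finset.card_univ,
      Fintype.card_fin, Fin.val_last]
    have : ((-1 : ℝ[X]) ^ m) * P * (-1) ^ m = ((-1) ^ m * (-1) ^ m) * P := by ring
    rw [this, ← mul_pow]
    simp
  · intro i _ hi
    rw [Matrix.updateCol_self, Pi.single_eq_of_ne hi]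
    simp
  · intro h
    exact absurd (Finset.mem_univ _) h

theorem hess_charpoly (n : ℕ) (a : ℕ → ℕ → ℝ) (D : ℕ → ℝ[X]) (h0 : D 0 = 1)
    (hD : ∀ k < n, D (k + 1) = X * D k - ∑ j ∈ Finset.range (k + 1), C (a k j) * D j) :
    (Matrix.of fun i j : Fin n => if (j : ℕ) = i + 1 then (1 : ℝ) else
      if (j : ℕ) ≤ i then a i j else 0).charpoly = D n := by
  rcases n with _ | m
  · rw [h0, Matrix.charpoly, Matrix.det_isEmpty]
  obtain ⟨A, hA⟩ : ∃ A : Matrix (Fin (m + 1)) (Fin (m + 1)) ℝ, A = Matrix.of fun i j : Fin (m + 1) =>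
    if (j : ℕ) = i + 1 then (1 : ℝ) else if (j : ℕ) ≤ i then a i j else 0 := ⟨_, rfl⟩
  rw [← hA, Matrix.charpoly]
  have hAij : ∀ i j : Fin (m + 1), A i j = if (j : ℕ) = i + 1 then (1 : ℝ) else
      if (j : ℕ) ≤ i then a i j else 0 := by
    intro i j
    rw [hA, Matrix.of_apply]
  have hne : ∀ i j : Fin (m + 1), i ≠ j → A.charmatrix i j = - C (A i j) :=
    fun i j h => Matrix.charmatrix_apply_ne _ _ _ h
  have hmul : A.charmatrix.mulVec (fun k => D k) = Pi.single (Fin.last m) (D (m + 1)) := by
    funext k
    have h1 : A.charmatrix.mulVec (fun k => D k) k =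
        X * D k - ∑ j : Fin (m + 1), C (A k j) * D j := by
      rw [Matrix.mulVec, dotProduct]
      have h2 : ∀ j : Fin (m + 1), A.charmatrix k j * D j =
          (if j = k then X * D j else 0) - C (A k j) * D j := by
        intro j
        by_cases hjk : j = k
        · subst hjk
          rw [Matrix.charmatrix_apply_eq, if_pos rfl]
          ring
        · rw [hne k j (Ne.symm hjk), if_neg hjk]
          ring
      rw [Finset.sum_congr rfl (fun j _ => h2 j), Finset.sum_sub_distrib, Finset.sum_ite_eq']
      simp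
    have h3 : ∑ j : Fin (m + 1), C (A k j) * D j =
        (if (k : ℕ) + 1 < m + 1 then D (k + 1) else 0) +
        ∑ j ∈ Finset.range ((k : ℕ) + 1), C (a k j) * D j := by
      have h4 : ∀ j : Fin (m + 1), C (A k j) * D j =
          (fun j : ℕ => (if j = (k : ℕ) + 1 then D j else 0) +
            (if j ≤ (k : ℕ) then C (a k j) * D j else 0)) (j : ℕ) := by
        intro j
        rw [hAij]
        by_cases hj : (j : ℕ) = k + 1
        · have hj' : ¬ (j : ℕ) ≤ k := by omega
          simp [hj]
        · by_cases hj' : (j : ℕ) ≤ k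
          · simp [hj, hj']
          · simp [hj, hj']
      rw [Finset.sum_congr rfl (fun j _ => h4 j), Fin.sum_univ_eq_sum_range
        (fun j : ℕ => (if j = (k : ℕ) + 1 then D j else 0) +
            (if j ≤ (k : ℕ) then C (a k j) * D j else 0)) (m + 1), Finset.sum_add_distrib,
        Finset.sum_ite_eq']
      congr 1
      · simp only [Finset.mem_range]
      · rw [← Finset.sum_filter]
        refine Finset.sum_congr ?_ (fun _ _ => rfl)
        ext j
        have := k.2
        simp only [Finset.mem_filter, Finset.mem_range]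
        omega
    rw [h1, h3]
    have h5 := hD k k.2
    by_cases hk : (k : ℕ) + 1 < m + 1
    · rw [if_pos hk, Pi.single_eq_of_ne (fun h => by
        rw [h, Fin.val_last] at hk; omega), h5]
      ring
    · have hk' : k = Fin.last m := by
        apply Fin.ext
        rw [Fin.val_last]
        have := k.2
        omega
      rw [if_neg hk]
      subst hk'
      rw [Pi.single_eq_same]
      rw [Fin.val_last] at h5 ⊢
      rw [h5]
      ring
  have hcr0 : Matrix.cramer A.charmatrix (A.charmatrix.mulVec (fun k => D k)) =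
      A.charmatrix.det • (fun k : Fin (m + 1) => D k) := by
    rw [Matrix.cramer_eq_adjugate_mulVec, Matrix.mulVec_mulVec, Matrix.adjugate_mul,
      Matrix.smul_mulVec, Matrix.one_mulVec]
  have hcr := congrFun hcr0 0
  rw [hmul, Matrix.cramer_apply, Pi.smul_apply, smul_eq_mul] at hcr
  have h00 : D ((0 : Fin (m + 1)) : ℕ) = 1 := h0
  rw [h00, mul_one] at hcr
  rw [← hcr]
  refine hess_det m A.charmatrix (D (m + 1)) ?_ ?_
  · intro i j hij
    rw [hne i j (fun h => by rw [h] at hij; omega), hAij, if_pos hij, C_1]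
  · intro i j hij
    rw [hne i j (fun h => by rw [h] at hij; omega), hAij, if_neg (by omega), if_neg (by omega),
      C_0, neg_zero]

end Pool.Agent.H99.TN
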