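import Pool.Agent.H99.TN.Defs
import Pool.Agent.H99.TN.Hess

/-! M2: realisation of the pattern. -/

namespace Pool.Agent.H99.TN

open Polynomial

/-- the entries of the realisation below the superdiagonal -/
private noncomputable def realA (J L : ℕ) (CJ : ℝ[X]) (l c : ℕ → ℝ) (x y : ℝ) (k j : ℕ) : ℝ :=
  if j = 0 then (if k = 4 * J + 1 then x else if k = 4 * J + 1 + 2 * L then y else 0)
  else if j = 2 then (if 2 ≤ k ∧ k < 2 + 2 * J then -CJ.coeff (2 * J - 1 - (k - 2)) else 0)
  else if 2 + 2 * J ≤ j ∧ j % 2 = 0 then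
    (if k = j then l ((j - (2 + 2 * J)) / 2) else if k = j + 1 then c ((j - (2 + 2 * J)) / 2) else 0)
  else 0

private noncomputable def realG (J L : ℕ) (CJ : ℝ[X]) (l c : ℕ → ℝ) (x y : ℝ) : ℕ → ℝ[X]
  | 0 => X ^ 2 * CJ
  | (t + 1) => (X ^ 2 - C (l t) * X - C (c t)) * realG J L CJ l c x y t -
      (if t + 1 = J then C x else 0) - (if t + 1 = J + L then C y else 0)

private noncomputable def realD (J L : ℕ) (CJ : ℝ[X]) (l c : ℕ → ℝ) (x y : ℝ) (k : ℕ) : ℝ[X] :=
  if k < 2 then X ^ k
  else if k < 2 + 2 * J then X ^ 2 * (divX^[2 * J - (k - 2)] CJ)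
  else if (k - (2 + 2 * J)) % 2 = 0 then realG J L CJ l c x y ((k - (2 + 2 * J)) / 2)
  else (X - C (l ((k - (2 + 2 * J)) / 2))) * realG J L CJ l c x y ((k - (2 + 2 * J)) / 2)

private theorem real_coeff (CJ : ℝ[X]) (r m : ℕ) : (divX^[r] CJ).coeff m = CJ.coeff (m + r) := by
  induction r generalizing m with
  | zero => rfl
  | succ r ih =>
    rw [Function.iterate_succ', Function.comp_apply, coeff_divX, ih]
    congr 1
    omega

private theorem real_top (CJ : ℝ[X]) (d : ℕ) (hm : CJ.Monic) (hd : CJ.natDegree = d) :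
    divX^[d] CJ = 1 := by
  ext m
  rw [real_coeff, coeff_one]
  by_cases h : m = 0
  · rw [if_pos h, h, zero_add, ← hd]
    exact hm.coeff_natDegree
  · rw [if_neg h]
    exact coeff_eq_zero_of_natDegree_lt (by omega)

private theorem real_step (CJ : ℝ[X]) (r : ℕ) :
    divX^[r] CJ = X * divX^[r + 1] CJ + C (CJ.coeff r) := by
  rw [Function.iterate_succ', Function.comp_apply]
  conv_lhs => rw [← divX_mul_X_add (divX^[r] CJ)]
  rw [real_coeff, zero_add, mul_comm]

private theorem realD_two (J L : ℕ) (hJ : 1 ≤ J) (CJ : ℝ[X]) (l c : ℕ → ℝ) (x y : ℝ)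
    (hm : CJ.Monic) (hd : CJ.natDegree = 2 * J) : realD J L CJ l c x y 2 = X ^ 2 := by
  unfold realD
  rw [if_neg (by omega), if_pos (by omega), show 2 * J - (2 - 2) = 2 * J by omega,
    real_top CJ (2 * J) hm hd, mul_one]

private theorem realD_mid (J L : ℕ) (CJ : ℝ[X]) (l c : ℕ → ℝ) (x y : ℝ) (r : ℕ) (hr : r < 2 * J) :
    realD J L CJ l c x y (2 + r) = X ^ 2 * (divX^[2 * J - r] CJ) := by
  unfold realD
  rw [if_neg (by omega), if_pos (by omega), show 2 + r - 2 = r by omega]

private theorem realD_even (J L : ℕ) (CJ : ℝ[X]) (l c : ℕ → ℝ) (x y : ℝ) (t : ℕ) :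
    realD J L CJ l c x y (2 + 2 * J + 2 * t) = realG J L CJ l c x y t := by
  unfold realD
  rw [if_neg (by omega), if_neg (by omega), if_pos (by omega),
    show (2 + 2 * J + 2 * t - (2 + 2 * J)) / 2 = t by omega]

private theorem realD_odd (J L : ℕ) (CJ : ℝ[X]) (l c : ℕ → ℝ) (x y : ℝ) (t : ℕ) :
    realD J L CJ l c x y (2 + 2 * J + 2 * t + 1) = (X - C (l t)) * realG J L CJ l c x y t := by
  unfold realD
  rw [if_neg (by omega), if_neg (by omega), if_neg (by omega),
    show (2 + 2 * J + 2 * t + 1 - (2 + 2 * J)) / 2 = t by omega]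

private theorem real_rec (J L : ℕ) (hJ : 1 ≤ J) (hL : 1 ≤ L) (CJ : ℝ[X]) (l c : ℕ → ℝ) (x y : ℝ)
    (hm : CJ.Monic) (hd : CJ.natDegree = 2 * J) (k : ℕ) (hk : k < 4 * J + 2 + 2 * L) :
    realD J L CJ l c x y (k + 1) = X * realD J L CJ l c x y k -
      ∑ j ∈ Finset.range (k + 1), C (realA J L CJ l c x y k j) * realD J L CJ l c x y j := by
  rcases lt_or_ge k 2 with h2 | h2
  · -- first two rows
    have hs : ∑ j ∈ Finset.range (k + 1), C (realA J L CJ l c x y k j) *
        realD J L CJ l c x y j = 0 := by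
      refine Finset.sum_eq_zero (fun j hj => ?_)
      rw [Finset.mem_range] at hj
      have : realA J L CJ l c x y k j = 0 := by
        unfold realA
        by_cases hj0 : j = 0
        · rw [if_pos hj0, if_neg (by omega), if_neg (by omega)]
        · rw [if_neg hj0, if_neg (by omega), if_neg (by omega)]
      rw [this, C_0, zero_mul]
    rw [hs, sub_zero]
    have hDk : realD J L CJ l c x y k = X ^ k := by
      unfold realD
      rw [if_pos h2]
    rw [hDk]
    rcases Nat.lt_or_ge (k + 1) 2 with h | h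
    · unfold realD
      rw [if_pos h]
      ring
    · have hk1 : k = 1 := by omega
      subst hk1
      rw [realD_two J L hJ CJ l c x y hm hd]
      ring
  rcases lt_or_ge k (2 + 2 * J) with h3 | h3
  · -- companion block
    obtain ⟨r, rfl⟩ : ∃ r, k = 2 + r := ⟨k - 2, by omega⟩
    have hr : r < 2 * J := by omega
    have hs : ∑ j ∈ Finset.range (2 + r + 1), C (realA J L CJ l c x y (2 + r) j) *
        realD J L CJ l c x y j = C (-CJ.coeff (2 * J - 1 - r)) * X ^ 2 := by
      rw [Finset.sum_eq_single 2]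
      · rw [realD_two J L hJ CJ l c x y hm hd]
        congr 2
        unfold realA
        rw [if_neg (by omega), if_pos rfl, if_pos (by omega), show 2 + r - 2 = r by omega]
      · intro j hj hj2
        rw [Finset.mem_range] at hj
        have : realA J L CJ l c x y (2 + r) j = 0 := by
          unfold realA
          by_cases hj0 : j = 0
          · rw [if_pos hj0, if_neg (by omega), if_neg (by omega)]
          · rw [if_neg hj0, if_neg hj2, if_neg (by omega)]
        rw [this, C_0, zero_mul]
      · intro h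
        rw [Finset.mem_range] at h
        omega
    rw [hs, realD_mid J L CJ l c x y r hr]
    have hstep : divX^[2 * J - 1 - r] CJ = X * divX^[2 * J - r] CJ + C (CJ.coeff (2 * J - 1 - r)) := by
      rw [real_step CJ (2 * J - 1 - r), show 2 * J - 1 - r + 1 = 2 * J - r by omega]
    have hnext : realD J L CJ l c x y (2 + r + 1) = X ^ 2 * divX^[2 * J - 1 - r] CJ := by
      rcases Nat.lt_or_ge (r + 1) (2 * J) with h | h
      · have := realD_mid J L CJ l c x y (r + 1) h
        rw [show 2 + r + 1 = 2 + (r + 1) by omega, this,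
          show 2 * J - (r + 1) = 2 * J - 1 - r by omega]
      · have hr' : 2 + r + 1 = 2 + 2 * J + 2 * 0 := by omega
        rw [hr', realD_even, show 2 * J - 1 - r = 0 by omega]
        rfl
    rw [hnext, hstep, C_neg]
    ring
  -- quadratic blocks
  obtain ⟨t, ht⟩ : ∃ t, k = 2 + 2 * J + 2 * t ∨ k = 2 + 2 * J + 2 * t + 1 := by
    refine ⟨(k - (2 + 2 * J)) / 2, ?_⟩
    omega
  rcases ht with rfl | rfl
  · have hs : ∑ j ∈ Finset.range (2 + 2 * J + 2 * t + 1),
        C (realA J L CJ l c x y (2 + 2 * J + 2 * t) j) * realD J L CJ l c x y j =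
        C (l t) * realG J L CJ l c x y t := by
      rw [Finset.sum_eq_single (2 + 2 * J + 2 * t)]
      · rw [realD_even]
        congr 2
        unfold realA
        rw [if_neg (by omega), if_neg (by omega), if_pos (by omega), if_pos rfl,
          show (2 + 2 * J + 2 * t - (2 + 2 * J)) / 2 = t by omega]
      · intro j hj hj2
        rw [Finset.mem_range] at hj
        have : realA J L CJ l c x y (2 + 2 * J + 2 * t) j = 0 := by
          unfold realA
          by_cases hj0 : j = 0
          · rw [if_pos hj0, if_neg (by omega), if_neg (by omega)]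
          · rw [if_neg hj0]
            by_cases hj1 : j = 2
            · rw [if_pos hj1, if_neg (by omega)]
            · rw [if_neg hj1]
              by_cases hj3 : 2 + 2 * J ≤ j ∧ j % 2 = 0
              · rw [if_pos hj3, if_neg (by omega), if_neg (by omega)]
              · rw [if_neg hj3]
        rw [this, C_0, zero_mul]
      · intro h
        rw [Finset.mem_range] at h
        omega
    rw [hs, realD_odd, realD_even]
    ring
  · have hs : ∑ j ∈ Finset.range (2 + 2 * J + 2 * t + 1 + 1),
        C (realA J L CJ l c x y (2 + 2 * J + 2 * t + 1) j) * realD J L CJ l c x y j =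
        ((if t + 1 = J then C x else 0) + (if t + 1 = J + L then C y else 0)) +
          C (c t) * realG J L CJ l c x y t := by
      rw [Finset.sum_eq_add 0 (2 + 2 * J + 2 * t) (by omega)]
      · rw [realD_even]
        congr 2
        · have hD0 : realD J L CJ l c x y 0 = 1 := by
            unfold realD
            rw [if_pos (by omega), pow_zero]
          rw [hD0, mul_one]
          unfold realA
          rw [if_pos rfl]
          by_cases h1 : t + 1 = J
          · rw [if_pos (by omega), if_pos h1, if_neg (by omega), add_zero]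
          · rw [if_neg (by omega), if_neg h1, zero_add]
            by_cases h2' : t + 1 = J + L
            · rw [if_pos (by omega), if_pos h2']
            · rw [if_neg (by omega), if_neg h2', C_0]
        · congr 1
          unfold realA
          rw [if_neg (by omega), if_neg (by omega), if_pos (by omega), if_neg (by omega),
            if_pos rfl, show (2 + 2 * J + 2 * t - (2 + 2 * J)) / 2 = t by omega]
      · intro j hj hj2
        rw [Finset.mem_range] at hj
        have : realA J L CJ l c x y (2 + 2 * J + 2 * t + 1) j = 0 := by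
          unfold realA
          rw [if_neg hj2.1]
          by_cases hj1 : j = 2
          · rw [if_pos hj1, if_neg (by omega)]
          · rw [if_neg hj1]
            by_cases hj3 : 2 + 2 * J ≤ j ∧ j % 2 = 0
            · have := hj2.2
              rw [if_pos hj3, if_neg (by omega), if_neg (by omega)]
            · rw [if_neg hj3]
        rw [this, C_0, zero_mul]
      · intro h
        rw [Finset.mem_range] at h
        omega
      · intro h
        rw [Finset.mem_range] at h
        omega
    rw [hs, realD_odd, show 2 + 2 * J + 2 * t + 1 + 1 = 2 + 2 * J + 2 * (t + 1) by omega, realD_even]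
    rw [realG]
    ring

private theorem realG_low (J L : ℕ) (hL : 1 ≤ L) (CJ : ℝ[X]) (l c : ℕ → ℝ) (x y : ℝ) (t : ℕ)
    (ht : t < J) : realG J L CJ l c x y t =
      X ^ 2 * CJ * ∏ s ∈ Finset.range t, (X ^ 2 - C (l s) * X - C (c s)) := by
  induction t with
  | zero => simp [realG]
  | succ t ih =>
    rw [realG, ih (by omega), if_neg (by omega), if_neg (by omega), Finset.prod_range_succ]
    ring

private theorem realG_J (J L : ℕ) (hJ : 1 ≤ J) (hL : 1 ≤ L) (CJ : ℝ[X]) (l c : ℕ → ℝ) (x y : ℝ) :
    realG J L CJ l c x y J =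
      X ^ 2 * CJ * ∏ s ∈ Finset.range J, (X ^ 2 - C (l s) * X - C (c s)) - C x := by
  obtain ⟨t, rfl⟩ : ∃ t, J = t + 1 := ⟨J - 1, by omega⟩
  rw [realG, realG_low (t + 1) L hL CJ l c x y t (by omega), if_pos rfl, if_neg (by omega),
    Finset.prod_range_succ]
  ring

private theorem realG_high (J L : ℕ) (hJ : 1 ≤ J) (hL : 1 ≤ L) (CJ : ℝ[X]) (l c : ℕ → ℝ) (x y : ℝ)
    (t : ℕ) (ht : t < L) : realG J L CJ l c x y (J + t) =
      (X ^ 2 * CJ * ∏ s ∈ Finset.range J, (X ^ 2 - C (l s) * X - C (c s)) - C x) *
        ∏ s ∈ Finset.Ico J (J + t), (X ^ 2 - C (l s) * X - C (c s)) := by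
  induction t with
  | zero => simp [realG_J J L hJ hL CJ l c x y]
  | succ t ih =>
    rw [show J + (t + 1) = J + t + 1 by omega, realG, ih (by omega), if_neg (by omega),
      if_neg (by omega), Finset.prod_Ico_succ_top (by omega)]
    ring

theorem pat_realize (J L : ℕ) (hJ : 1 ≤ J) (hL : 1 ≤ L) (CJ : ℝ[X]) (l c : ℕ → ℝ) (x y : ℝ)
    (hm : CJ.Monic) (hd : CJ.natDegree = 2 * J) (hC : ∀ k < 2 * J, CJ.coeff k ≠ 0)
    (hl : ∀ t < J + L, l t ≠ 0) (hc : ∀ t < J + L, c t ≠ 0) (hx : x ≠ 0) (hy : y ≠ 0) :
    ∃ A : Matrix (Fin (4 * J + 2 + 2 * L)) (Fin (4 * J + 2 + 2 * L)) ℝ,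
      (∀ i j, A i j ≠ 0 ↔ pat J L i j) ∧
      A.charpoly = (X ^ 2 * CJ * ∏ t ∈ Finset.range J, (X ^ 2 - C (l t) * X - C (c t)) - C x) *
        ∏ t ∈ Finset.Ico J (J + L), (X ^ 2 - C (l t) * X - C (c t)) - C y := by
  refine ⟨Matrix.of fun i j : Fin (4 * J + 2 + 2 * L) => if (j : ℕ) = i + 1 then (1 : ℝ) else
      if (j : ℕ) ≤ i then realA J L CJ l c x y i j else 0, ?_, ?_⟩
  · intro i j
    rw [Matrix.of_apply]
    unfold pat
    have hi := i.2
    have hj := j.2
    obtain ⟨i', hi'⟩ : ∃ i' : ℕ, i' = i := ⟨_, rfl⟩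
    obtain ⟨j', hj'⟩ : ∃ j' : ℕ, j' = j := ⟨_, rfl⟩
    rw [← hi'] at hi ⊢
    rw [← hj'] at hj ⊢
    by_cases h1 : j' = i' + 1
    · rw [if_pos h1]
      simp [h1]
    rw [if_neg h1]
    by_cases h2 : j' ≤ i'
    · rw [if_pos h2]
      unfold realA
      by_cases hj0 : j' = 0
      · rw [if_pos hj0]
        by_cases h3 : i' = 4 * J + 1
        · rw [if_pos h3]
          exact ⟨fun _ => by omega, fun _ => hx⟩
        · rw [if_neg h3]
          by_cases h4 : i' = 4 * J + 1 + 2 * L
          · rw [if_pos h4]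
            exact ⟨fun _ => by omega, fun _ => hy⟩
          · rw [if_neg h4]
            exact ⟨fun h => absurd rfl h, fun h => by omega⟩
      · rw [if_neg hj0]
        by_cases hj2 : j' = 2
        · rw [if_pos hj2]
          by_cases h3 : 2 ≤ i' ∧ i' < 2 + 2 * J
          · rw [if_pos h3]
            exact ⟨fun _ => by omega, fun _ => neg_ne_zero.2 (hC _ (by omega))⟩
          · rw [if_neg h3]
            exact ⟨fun h => absurd rfl h, fun h => by omega⟩
        · rw [if_neg hj2]
          by_cases h3 : 2 + 2 * J ≤ j' ∧ j' % 2 = 0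
          · rw [if_pos h3]
            by_cases h4 : i' = j'
            · rw [if_pos h4]
              exact ⟨fun _ => by omega, fun _ => hl _ (by omega)⟩
            · rw [if_neg h4]
              by_cases h5 : i' = j' + 1
              · rw [if_pos h5]
                exact ⟨fun _ => by omega, fun _ => hc _ (by omega)⟩
              · rw [if_neg h5]
                exact ⟨fun h => absurd rfl h, fun h => by omega⟩
          · rw [if_neg h3]
            exact ⟨fun h => absurd rfl h, fun h => by omega⟩
    · rw [if_neg h2]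
      exact ⟨fun h => absurd rfl h, fun h => by omega⟩
  · rw [hess_charpoly (4 * J + 2 + 2 * L) (realA J L CJ l c x y) (realD J L CJ l c x y) ?_
      (fun k hk => real_rec J L hJ hL CJ l c x y hm hd k hk)]
    · have e : 4 * J + 2 + 2 * L = 2 + 2 * J + 2 * (J + L) := by ring
      rw [e, realD_even]
      obtain ⟨t, rfl⟩ : ∃ t, L = t + 1 := ⟨L - 1, by omega⟩
      rw [show J + (t + 1) = J + t + 1 by omega, realG,
        realG_high J (t + 1) hJ hL CJ l c x y t (by omega), if_neg (by omega), if_pos (by omega),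
        Finset.prod_Ico_succ_top (by omega)]
      ring
    · unfold realD
      rw [if_pos (by omega), pow_zero]

end Pool.Agent.H99.TN
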