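import Pool.Agent.H99.TN.Defs

/-! Scaling of a matrix and of the roots of its characteristic polynomial. -/

namespace Pool.Agent.H99.TN

open Polynomial

theorem charpoly_smul_real {n : ℕ} (A : Matrix (Fin n) (Fin n) ℝ) (s : ℝ) (hs : s ≠ 0) :
    (s • A).charpoly = (A.charpoly).scaleRoots s := by
  apply Polynomial.funext
  intro r
  have h1 : (s • A).charpoly.eval r = s ^ n * A.charpoly.eval (s⁻¹ * r) := by
    rw [Matrix.eval_charpoly, Matrix.eval_charpoly]
    have : (Matrix.scalar (Fin n)) r - s • A =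
        s • ((Matrix.scalar (Fin n)) (s⁻¹ * r) - A) := by
      ext i j
      simp only [Matrix.sub_apply, Matrix.smul_apply, Matrix.scalar_apply, smul_eq_mul]
      by_cases hij : i = j
      · subst hij
        simp only [Matrix.diagonal_apply_eq]
        field_simp
      · simp only [Matrix.diagonal_apply_ne _ hij]
        ring
    rw [this, Matrix.det_smul]
    simp
  have h2 := Polynomial.scaleRoots_eval₂_mul (p := A.charpoly) (RingHom.id ℝ) (s⁻¹ * r) s
  simp only [RingHom.id_apply] at h2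
  have h3 : s * (s⁻¹ * r) = r := by field_simp
  rw [h3, Matrix.charpoly_natDegree_eq_dim, Fintype.card_fin] at h2
  rw [h1]
  exact h2.symm

theorem scale_realize {n : ℕ} (P : Fin n → Fin n → Prop) (p : ℝ[X]) (x : ℝ) (hx : x ≠ 0)
    (A : Matrix (Fin n) (Fin n) ℝ) (h1 : ∀ i j, A i j ≠ 0 ↔ P i j)
    (h2 : A.charpoly = p.scaleRoots x) :
    ∃ A' : Matrix (Fin n) (Fin n) ℝ, (∀ i j, A' i j ≠ 0 ↔ P i j) ∧ A'.charpoly = p := by
  refine ⟨x⁻¹ • A, ?_, ?_⟩
  · intro i j
    rw [← h1 i j]
    simp [hx]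
  · rw [charpoly_smul_real A x⁻¹ (inv_ne_zero hx), h2]
    ext i
    rw [coeff_scaleRoots, coeff_scaleRoots, natDegree_scaleRoots, mul_assoc, ← mul_pow,
      mul_inv_cancel₀ hx, one_pow, mul_one]

end Pool.Agent.H99.TN
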