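import Pool.Agent.H99.TN.Defs

/-! Definitions for the T block. -/

namespace Pool.Agent.H99.TN

open Polynomial

/-- The polynomial of the T block. -/
noncomputable def Tpol (J : ℕ) (w0 wm : ℝ) (g a : Fin (2 * J) → ℝ) : ℝ[X] :=
  (X - C w0⁻¹) * (X - C wm⁻¹) * ∏ i, (X ^ 2 - C (2 * g i / a i) * X + C (a i)⁻¹)

/-- Hypotheses on the inverse roots. -/
structure TData (J : ℕ) (η w0 wm : ℝ) (g a : Fin (2 * J) → ℝ) : Prop where
  h0 : |w0 - 1| ≤ η
  hm : |wm + 1| ≤ η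
  ha : ∀ i, |a i - 1| ≤ η
  hg : ∀ i, (g i) ^ 2 ≤ a i
  hN : 20 * (Finset.univ.filter (fun i => |g i| < 99 / 100)).card ≤
        (Finset.univ.filter (fun i => 99 / 100 ≤ |g i|)).card
  hs : w0 + wm + 2 * ∑ i, g i = 0

end Pool.Agent.H99.TN
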