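import Pool.Agent.H99.TN.Defs
import Pool.Agent.H99.TN.TDefs

/-! M6b: few imaginary root pairs. -/

namespace Pool.Agent.H99.TN

open Polynomial

private lemma timag_aeval (J : ℕ) (w0 wm : ℝ) (g a : Fin (2 * J) → ℝ) (z : ℂ) :
    aeval z (Tpol J w0 wm g a) = (z - (w0 : ℂ)⁻¹) * (z - (wm : ℂ)⁻¹) *
      ∏ i, (z ^ 2 - (2 * g i / a i : ℝ) * z + (a i : ℂ)⁻¹) := by
  unfold Tpol
  simp [map_prod]

private lemma timag_zero (J : ℕ) (w0 wm : ℝ) (g a : Fin (2 * J) → ℝ) :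
    (Tpol J w0 wm g a).eval 0 = w0⁻¹ * wm⁻¹ * ∏ i, (a i)⁻¹ := by
  unfold Tpol
  simp [eval_prod]

/-- The function `F`. -/
private noncomputable def timagF (J : ℕ) (w0 wm : ℝ) (g a : Fin (2 * J) → ℝ) (b : ℝ) : ℝ :=
  (1 + w0 ^ 2 * b) * (1 + wm ^ 2 * b) * ∏ i, ((1 - a i * b) ^ 2 + 4 * (g i) ^ 2 * b)

private lemma timag_lin {w : ℝ} (hw : w ≠ 0) (β : ℝ) :
    Complex.normSq (Complex.I * β - (w : ℂ)⁻¹) = (w⁻¹) ^ 2 * (1 + w ^ 2 * β ^ 2) := by
  rw [← Complex.ofReal_inv, Complex.normSq_apply]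
  simp only [Complex.sub_re, Complex.mul_re, Complex.I_re, Complex.ofReal_re, Complex.I_im,
    Complex.ofReal_im, Complex.sub_im, Complex.mul_im]
  field_simp
  ring

private lemma timag_quad {a : ℝ} (ha : a ≠ 0) (g β : ℝ) :
    Complex.normSq ((Complex.I * β) ^ 2 - (2 * g / a : ℝ) * (Complex.I * β) + (a : ℂ)⁻¹) =
      (a⁻¹) ^ 2 * ((1 - a * β ^ 2) ^ 2 + 4 * g ^ 2 * β ^ 2) := by
  have h : (Complex.I * β) ^ 2 - (2 * g / a : ℝ) * (Complex.I * β) + (a : ℂ)⁻¹ =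
      ((a⁻¹ - β ^ 2 : ℝ) : ℂ) + ((-(2 * g / a * β) : ℝ) : ℂ) * Complex.I := by
    push_cast
    rw [mul_pow, Complex.I_sq]
    ring
  rw [h, Complex.normSq_add_mul_I]
  field_simp
  ring

private lemma timag_normSq (J : ℕ) {w0 wm : ℝ} (h0 : w0 ≠ 0) (hm : wm ≠ 0)
    (g : Fin (2 * J) → ℝ) {a : Fin (2 * J) → ℝ} (ha : ∀ i, a i ≠ 0) (β : ℝ) :
    Complex.normSq (aeval (Complex.I * β) (Tpol J w0 wm g a)) =
      ((Tpol J w0 wm g a).eval 0) ^ 2 * timagF J w0 wm g a (β ^ 2) := by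
  rw [timag_aeval, timag_zero, map_mul, map_mul, map_prod, timag_lin h0, timag_lin hm,
    Finset.prod_congr rfl (fun i _ => timag_quad (ha i) (g i) β), Finset.prod_mul_distrib,
    Finset.prod_pow]
  unfold timagF
  ring

private lemma timag_c {a b : ℝ} (hb : 0 < b) (hb1 : 1 / 2000 ≤ |b - 1|)
    (ha : |a - 1| ≤ 1 / 100000) : 1 ≤ ((1 + 0.9 * b) ^ 2) ^ 20 * (1 - a * b) ^ 2 := by
  have key : 1 ≤ (1 + 0.9 * b) ^ 20 * |1 - a * b| := by
    obtain ⟨ha1, ha2⟩ := abs_le.1 ha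
    rcases le_or_gt b 0.9 with h1 | h1
    · have h2 : 1 + 20 * (0.9 * b) ≤ (1 + 0.9 * b) ^ 20 := by
        have := one_add_mul_le_pow (a := 0.9 * b) (by linarith) 20
        exact_mod_cast this
      have h3 : 1 - 1.001 * b ≤ |1 - a * b| := by
        refine le_trans ?_ (le_abs_self _)
        nlinarith
      have h4 : 0 ≤ 1 - 1.001 * b := by linarith
      calc (1 : ℝ) ≤ (1 + 20 * (0.9 * b)) * (1 - 1.001 * b) := by nlinarith
        _ ≤ _ := mul_le_mul h2 h3 h4 (by positivity)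
    · have h2 : 0.00045 ≤ |1 - a * b| := by
        rcases le_or_gt b 1 with h3 | h3
        · have h4 : b ≤ 0.9995 := by
            rw [abs_of_nonpos (by linarith)] at hb1
            linarith
          refine le_trans ?_ (le_abs_self _)
          nlinarith
        · have h4 : 1.0005 ≤ b := by
            rw [abs_of_pos (by linarith)] at hb1
            linarith
          rw [abs_sub_comm]
          refine le_trans ?_ (le_abs_self _)
          nlinarith
      have h3 : (1.81 : ℝ) ^ 20 ≤ (1 + 0.9 * b) ^ 20 :=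
        pow_le_pow_left₀ (by norm_num) (by linarith) 20
      calc (1 : ℝ) ≤ 1.81 ^ 20 * 0.00045 := by norm_num
        _ ≤ _ := mul_le_mul h3 h2 (by norm_num) (by positivity)
  have h1 : ((1 + 0.9 * b) ^ 2) ^ 20 * (1 - a * b) ^ 2 = ((1 + 0.9 * b) ^ 20 * |1 - a * b|) ^ 2 := by
    rw [mul_pow, sq_abs]; ring
  rw [h1]
  exact one_le_pow₀ key

private lemma timag_prod (J : ℕ) {η w0 wm : ℝ} {g a : Fin (2 * J) → ℝ} (hη : η ≤ 1 / 100000)
    (D : TData J η w0 wm g a) {b : ℝ} (hb : 0 < b) (hb1 : 1 / 2000 ≤ |b - 1|) :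
    1 ≤ ∏ i, ((1 - a i * b) ^ 2 + 4 * (g i) ^ 2 * b) := by
  classical
  have hpos : ∀ i, 0 ≤ (1 - a i * b) ^ 2 + 4 * (g i) ^ 2 * b := fun i => by positivity
  rw [← Finset.prod_filter_mul_prod_filter_not Finset.univ (fun i => 99 / 100 ≤ |g i|)]
  have hfil : (Finset.univ.filter (fun i => ¬ (99 / 100 ≤ |g i|))) =
      (Finset.univ.filter (fun i => |g i| < 99 / 100)) := by
    ext i; simp
  rw [hfil]
  have h1 : ((1 + 0.9 * b) ^ 2) ^ (Finset.univ.filter (fun i => 99 / 100 ≤ |g i|)).card ≤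
      ∏ i ∈ Finset.univ.filter (fun i => 99 / 100 ≤ |g i|),
        ((1 - a i * b) ^ 2 + 4 * (g i) ^ 2 * b) := by
    rw [← Finset.prod_const]
    apply Finset.prod_le_prod
    · intro i _; positivity
    · intro i hi
      rw [Finset.mem_filter] at hi
      have h2 : (99 / 100 : ℝ) ^ 2 ≤ (g i) ^ 2 := by
        rw [← sq_abs (g i)]
        exact pow_le_pow_left₀ (by norm_num) hi.2 2
      obtain ⟨h3, h4⟩ := abs_le.1 ((D.ha i).trans hη)
      have h5 : 0 ≤ (g i ^ 2 - (99 / 100) ^ 2) * b := mul_nonneg (by linarith) hb.le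
      have h6 : 0 ≤ (1 / 100000 - (a i - 1)) * b := mul_nonneg (by linarith) hb.le
      have h7 : (0.9 : ℝ) ^ 2 * b ^ 2 ≤ (a i) ^ 2 * b ^ 2 := by
        apply mul_le_mul_of_nonneg_right _ (by positivity)
        exact pow_le_pow_left₀ (by norm_num) (by linarith) 2
      nlinarith
  have h2 : ∏ i ∈ Finset.univ.filter (fun i => |g i| < 99 / 100), (1 - a i * b) ^ 2 ≤
      ∏ i ∈ Finset.univ.filter (fun i => |g i| < 99 / 100),
        ((1 - a i * b) ^ 2 + 4 * (g i) ^ 2 * b) := by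
    apply Finset.prod_le_prod
    · intro i _; positivity
    · intro i _
      have : 0 ≤ 4 * (g i) ^ 2 * b := by positivity
      linarith
  have h3 : ((1 + 0.9 * b) ^ 2) ^
      (20 * (Finset.univ.filter (fun i => |g i| < 99 / 100)).card) ≤
      ((1 + 0.9 * b) ^ 2) ^ (Finset.univ.filter (fun i => 99 / 100 ≤ |g i|)).card := by
    apply pow_le_pow_right₀ _ D.hN
    apply one_le_pow₀
    linarith
  have hc : ∀ i, 1 ≤ ((1 + 0.9 * b) ^ 2) ^ 20 * (1 - a i * b) ^ 2 := fun i =>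
    timag_c hb hb1 ((D.ha i).trans hη)
  have h4 : ∏ _i ∈ Finset.univ.filter (fun i => |g i| < 99 / 100), (1 : ℝ) ≤
      ∏ i ∈ Finset.univ.filter (fun i => |g i| < 99 / 100),
      (((1 + 0.9 * b) ^ 2) ^ 20 * (1 - a i * b) ^ 2) :=
    Finset.prod_le_prod (fun i _ => zero_le_one) (fun i _ => hc i)
  rw [Finset.prod_const_one] at h4
  rw [Finset.prod_mul_distrib, Finset.prod_const, ← pow_mul] at h4
  calc (1 : ℝ) ≤ _ := h4
    _ ≤ _ := mul_le_mul (h3.trans h1) h2 (Finset.prod_nonneg fun i _ => by positivity)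
        (Finset.prod_nonneg fun i _ => hpos i)

theorem T_imag (J : ℕ) (hJ : 2 ≤ J) : ∃ η : ℝ, 0 < η ∧ ∀ (w0 wm : ℝ) (g a : Fin (2 * J) → ℝ),
    TData J η w0 wm g a → ∀ P : ℝ[X], Tpol J w0 wm g a = X ^ 2 * P +
      C ((Tpol J w0 wm g a).eval 0) →
      ∀ l m : Fin (2 * J) → ℝ, (∀ i, 0 < m i) → P = ∏ i, (X ^ 2 - C (l i) * X + C (m i)) →
      (Finset.univ.filter (fun i => l i = 0)).card ≤ J - 1 := by
  classical
  refine ⟨1 / (100000 * (2 * J + 2)), by positivity, ?_⟩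
  intro w0 wm g a D P hP l m hm hPf
  set η : ℝ := 1 / (100000 * (2 * J + 2)) with hηdef
  have hη0 : 0 < η := by rw [hηdef]; positivity
  have hη : η ≤ 1 / 100000 := by
    rw [hηdef]
    apply one_div_le_one_div_of_le (by norm_num)
    have : (0 : ℝ) ≤ J := Nat.cast_nonneg J
    nlinarith
  obtain ⟨hw1, hw2⟩ := abs_le.1 (D.h0.trans hη)
  obtain ⟨hv1, hv2⟩ := abs_le.1 (D.hm.trans hη)
  have ha1 : ∀ i, 1 - 1 / 100000 ≤ a i := fun i => by
    have := (abs_le.1 ((D.ha i).trans hη)).1; linarith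
  have ha2 : ∀ i, a i ≤ 1 + 1 / 100000 := fun i => by
    have := (abs_le.1 ((D.ha i).trans hη)).2; linarith
  have hw0 : w0 ≠ 0 := by intro h; rw [h] at hw1; norm_num at hw1
  have hwm : wm ≠ 0 := by intro h; rw [h] at hv2; norm_num at hv2
  have ha0 : ∀ i, a i ≠ 0 := fun i => by have := ha1 i; intro h; rw [h] at this; norm_num at this
  set τ : ℝ := (Tpol J w0 wm g a).eval 0 with hτ
  -- the size of τ
  have hτ2 : 1 / 2 ≤ |τ| := by
    rw [hτ, timag_zero, abs_mul, abs_mul, Finset.abs_prod]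
    have h1 : 1 - η ≤ |w0⁻¹| := by
      rw [abs_inv, abs_of_pos (by linarith)]
      have h2 := (abs_le.1 D.h0).2
      rw [le_inv_comm₀ (by linarith) (by linarith), inv_eq_one_div, le_div_iff₀ (by linarith)]
      nlinarith
    have h2 : 1 - η ≤ |wm⁻¹| := by
      rw [abs_inv, abs_of_neg (by linarith)]
      have h2 := (abs_le.1 D.hm).1
      rw [le_inv_comm₀ (by linarith) (by linarith), inv_eq_one_div, le_div_iff₀ (by linarith)]
      nlinarith
    have h3 : (1 - η) ^ (2 * J) ≤ ∏ i, |(a i)⁻¹| := by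
      have h4 : (1 - η) ^ (2 * J) = ∏ _i : Fin (2 * J), (1 - η) := by
        rw [Finset.prod_const, Finset.card_univ, Fintype.card_fin]
      rw [h4]
      apply Finset.prod_le_prod
      · intro i _; linarith
      · intro i _
        rw [abs_inv, abs_of_pos (by linarith [ha1 i])]
        have h2 := (abs_le.1 (D.ha i)).2
        have h5 := ha1 i
        rw [le_inv_comm₀ (by linarith) (by linarith), inv_eq_one_div, le_div_iff₀ (by linarith)]
        nlinarith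
    have h4 : 1 + ((2 * J + 2 : ℕ) : ℝ) * (-η) ≤ (1 + -η) ^ (2 * J + 2) :=
      one_add_mul_le_pow (by linarith) _
    have h5 : ((2 * J + 2 : ℕ) : ℝ) * η = 1 / 100000 := by
      rw [hηdef]; push_cast; field_simp
    have h6 : (1 - η) * (1 - η) * (1 - η) ^ (2 * J) ≤ |w0⁻¹| * |wm⁻¹| * ∏ i, |(a i)⁻¹| := by
      apply mul_le_mul _ h3 (pow_nonneg (by linarith) _) (by positivity)
      exact mul_le_mul h1 h2 (by linarith) (by positivity)
    have h7 : (1 + -η) ^ (2 * J + 2) = (1 - η) * (1 - η) * (1 - η) ^ (2 * J) := by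
      rw [← sub_eq_add_neg]; ring
    rw [h7] at h4
    nlinarith
  have hτ0 : τ ≠ 0 := by intro h; rw [h, abs_zero] at hτ2; norm_num at hτ2
  -- evaluation
  have hevP : ∀ z : ℂ, aeval z P = ∏ i, (z ^ 2 - (l i : ℂ) * z + (m i : ℂ)) := by
    intro z
    rw [hPf]
    simp [map_prod]
  have hevT : ∀ z : ℂ, aeval z (Tpol J w0 wm g a) = z ^ 2 * aeval z P + (τ : ℂ) := by
    intro z
    conv_lhs => rw [hP]
    simp
  -- the zero pairs are close to one
  have hzero : ∀ i, l i = 0 → |m i - 1| < 1 / 2000 := by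
    intro i hi
    by_contra hcon
    rw [not_lt] at hcon
    have hsq : (Real.sqrt (m i)) ^ 2 = m i := Real.sq_sqrt (hm i).le
    have h1 : aeval (Complex.I * (Real.sqrt (m i) : ℝ)) P = 0 := by
      rw [hevP]
      apply Finset.prod_eq_zero (Finset.mem_univ i)
      rw [hi, mul_pow, Complex.I_sq, ← Complex.ofReal_pow, hsq]
      simp
    have h2 : Complex.normSq (aeval (Complex.I * (Real.sqrt (m i) : ℝ)) (Tpol J w0 wm g a)) =
        τ ^ 2 := by
      rw [hevT, h1, mul_zero, zero_add, Complex.normSq_ofReal]; ring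
    rw [timag_normSq J hw0 hwm g ha0, hsq, ← hτ] at h2
    have h3 : timagF J w0 wm g a (m i) = 1 := by
      have h4 : τ ^ 2 ≠ 0 := pow_ne_zero 2 hτ0
      apply mul_left_cancel₀ h4
      rw [h2, mul_one]
    have h4 := timag_prod J hη D (hm i) hcon
    unfold timagF at h3
    have h5 : 1 < (1 + w0 ^ 2 * m i) * (1 + wm ^ 2 * m i) := by
      have h6 : 0 < w0 ^ 2 * m i := mul_pos (by positivity) (hm i)
      have h7 : 0 < wm ^ 2 * m i := mul_pos (by positivity) (hm i)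
      nlinarith
    nlinarith
  -- the roots of the factors
  have hroot : ∀ r : ℂ, aeval r P = 0 → ‖r‖ ≤ 2.8 := by
    intro r hr
    by_contra hcon
    rw [not_le] at hcon
    have h1 : aeval r (Tpol J w0 wm g a) = (τ : ℂ) := by rw [hevT, hr, mul_zero, zero_add]
    have h2 : ‖aeval r (Tpol J w0 wm g a)‖ = |τ| := by rw [h1, Complex.norm_real, Real.norm_eq_abs]
    rw [timag_aeval, hτ, timag_zero, norm_mul, norm_mul, norm_prod, abs_mul, abs_mul,
      Finset.abs_prod] at h2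
    have hinv : ∀ w : ℝ, 1 - 1 / 100000 ≤ |w| → |w⁻¹| ≤ 1.01 := by
      intro w hw
      rw [abs_inv, inv_le_comm₀ (by linarith) (by norm_num)]
      refine le_trans ?_ hw
      norm_num
    have hlin : ∀ w : ℝ, 1 - 1 / 100000 ≤ |w| → |w⁻¹| < ‖r - (w : ℂ)⁻¹‖ := by
      intro w hw
      have h3 := hinv w hw
      have h4 : ‖r‖ - ‖(w : ℂ)⁻¹‖ ≤ ‖r - (w : ℂ)⁻¹‖ := norm_sub_norm_le _ _
      have h5 : ‖(w : ℂ)⁻¹‖ = |w⁻¹| := by
        rw [← Complex.ofReal_inv, Complex.norm_real, Real.norm_eq_abs]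
      rw [h5] at h4
      linarith
    have hb0 : 1 - 1 / 100000 ≤ |w0| := by rw [abs_of_pos (by linarith)]; linarith
    have hbm : 1 - 1 / 100000 ≤ |wm| := by rw [abs_of_neg (by linarith)]; linarith
    have hquad : ∀ i, |(a i)⁻¹| ≤ ‖r ^ 2 - (2 * g i / a i : ℝ) * r + (a i : ℂ)⁻¹‖ := by
      intro i
      have h3 := hinv (a i) (by rw [abs_of_pos (by linarith [ha1 i])]; exact ha1 i)
      have h4 : ‖r ^ 2‖ - ‖(2 * g i / a i : ℝ) * r‖ ≤ ‖r ^ 2 - (2 * g i / a i : ℝ) * r‖ :=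
        norm_sub_norm_le _ _
      have h5 : ‖r ^ 2 - (2 * g i / a i : ℝ) * r‖ - ‖(a i : ℂ)⁻¹‖ ≤
          ‖r ^ 2 - (2 * g i / a i : ℝ) * r + (a i : ℂ)⁻¹‖ := by
        have := norm_sub_norm_le (r ^ 2 - (2 * g i / a i : ℝ) * r) (-((a i : ℂ)⁻¹))
        rwa [norm_neg, sub_neg_eq_add] at this
      have h6 : ‖(a i : ℂ)⁻¹‖ = |(a i)⁻¹| := by
        rw [← Complex.ofReal_inv, Complex.norm_real, Real.norm_eq_abs]
      have h7 : |2 * g i / a i| ≤ 2.01 := by
        rw [abs_div, abs_mul, abs_two, abs_of_pos (show 0 < a i by linarith [ha1 i]),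
          div_le_iff₀ (by linarith [ha1 i])]
        have h8 : |g i| ≤ 1.0001 := by
          apply abs_le_of_sq_le_sq _ (by norm_num)
          refine (D.hg i).trans ((ha2 i).trans ?_)
          norm_num
        have := ha1 i
        nlinarith
      rw [norm_mul, Complex.norm_real, Real.norm_eq_abs, norm_pow] at h4
      rw [h6] at h5
      have h8 : |2 * g i / a i| * ‖r‖ ≤ 2.01 * ‖r‖ := by
        apply mul_le_mul_of_nonneg_right h7 (norm_nonneg _)
      nlinarith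
    have hprod : ∏ i, |(a i)⁻¹| ≤ ∏ i, ‖r ^ 2 - (2 * g i / a i : ℝ) * r + (a i : ℂ)⁻¹‖ :=
      Finset.prod_le_prod (fun i _ => abs_nonneg _) (fun i _ => hquad i)
    have hprod0 : 0 < ∏ i, |(a i)⁻¹| :=
      Finset.prod_pos (fun i _ => abs_pos.2 (inv_ne_zero (ha0 i)))
    have h3 : |w0⁻¹| * |wm⁻¹| < ‖r - (w0 : ℂ)⁻¹‖ * ‖r - (wm : ℂ)⁻¹‖ :=
      mul_lt_mul'' (hlin w0 hb0) (hlin wm hbm) (abs_nonneg _) (abs_nonneg _)
    have h4 : |w0⁻¹| * |wm⁻¹| * ∏ i, |(a i)⁻¹| < ‖r - (w0 : ℂ)⁻¹‖ * ‖r - (wm : ℂ)⁻¹‖ *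
        ∏ i, ‖r ^ 2 - (2 * g i / a i : ℝ) * r + (a i : ℂ)⁻¹‖ :=
      mul_lt_mul h3 hprod hprod0 (by positivity)
    linarith
  -- the point
  obtain ⟨b0, hb0⟩ : ∃ b0 : ℝ, b0 = 1 + 1 / 2000 := ⟨_, rfl⟩
  have hb0pos : 0 < b0 := by rw [hb0]; norm_num
  obtain ⟨z, hz⟩ : ∃ z : ℂ, z = Complex.I * (Real.sqrt b0 : ℝ) := ⟨_, rfl⟩
  have hsq : (Real.sqrt b0) ^ 2 = b0 := Real.sq_sqrt (by rw [hb0]; norm_num)
  have hz2 : z ^ 2 = -(b0 : ℂ) := by
    rw [hz, mul_pow, Complex.I_sq, ← Complex.ofReal_pow, hsq]; ring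
  have hsq1 : Real.sqrt b0 ≤ 1.001 := by
    rw [Real.sqrt_le_left (by norm_num), hb0]; norm_num
  have hzn : ‖z‖ ≤ 1.001 := by
    rw [hz, norm_mul, Complex.norm_I, one_mul, Complex.norm_real, Real.norm_eq_abs,
      abs_of_nonneg (Real.sqrt_nonneg _)]
    exact hsq1
  have hfac : ∀ i, ‖z ^ 2 - (l i : ℂ) * z + (m i : ℂ)‖ ≤ 15 := by
    intro i
    obtain ⟨s, hs⟩ := IsAlgClosed.exists_eq_mul_self (((l i : ℂ)) ^ 2 - 4 * (m i : ℂ))
    have hr : ∀ r : ℂ, r ^ 2 - (l i : ℂ) * r + (m i : ℂ) = 0 → ‖r‖ ≤ 2.8 := by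
      intro r hr
      apply hroot
      rw [hevP]
      exact Finset.prod_eq_zero (Finset.mem_univ i) hr
    have h1 := hr (((l i : ℂ) + s) / 2) (by linear_combination (-1 / 4 : ℂ) * hs)
    have h2 := hr (((l i : ℂ) - s) / 2) (by linear_combination (-1 / 4 : ℂ) * hs)
    have h3 : z ^ 2 - (l i : ℂ) * z + (m i : ℂ) =
        (z - ((l i : ℂ) + s) / 2) * (z - ((l i : ℂ) - s) / 2) := by
      linear_combination (-1 / 4 : ℂ) * hs
    rw [h3, norm_mul]
    have h4 := norm_sub_le z (((l i : ℂ) + s) / 2)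
    have h5 := norm_sub_le z (((l i : ℂ) - s) / 2)
    have h6 : ‖z - ((l i : ℂ) + s) / 2‖ * ‖z - ((l i : ℂ) - s) / 2‖ ≤ 3.81 * 3.81 :=
      mul_le_mul (by linarith) (by linarith) (norm_nonneg _) (by norm_num)
    linarith
  have hfac0 : ∀ i, l i = 0 → ‖z ^ 2 - (l i : ℂ) * z + (m i : ℂ)‖ ≤ 1 / 1000 := by
    intro i hi
    have h1 : z ^ 2 - (l i : ℂ) * z + (m i : ℂ) = ((m i - b0 : ℝ) : ℂ) := by
      rw [hi, hz2]; push_cast; ring
    rw [h1, Complex.norm_real, Real.norm_eq_abs]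
    have h2 := hzero i hi
    rw [abs_lt] at h2
    rw [abs_le, hb0]
    constructor <;> linarith
  -- lower bound
  have hlow : 0.4 ≤ ‖aeval z P‖ := by
    have h1 : 1.9 * |τ| ≤ ‖aeval z (Tpol J w0 wm g a)‖ := by
      apply le_of_sq_le_sq _ (norm_nonneg _)
      rw [← Complex.normSq_eq_norm_sq, hz, timag_normSq J hw0 hwm g ha0, hsq, ← hτ]
      unfold timagF
      have h2 := timag_prod J hη D (b := b0) (by rw [hb0]; norm_num)
        (by rw [hb0]; norm_num [abs_of_pos])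
      have h3 : 1.9 ≤ 1 + w0 ^ 2 * b0 := by rw [hb0]; nlinarith
      have h4 : 1.9 ≤ 1 + wm ^ 2 * b0 := by rw [hb0]; nlinarith
      have h3' : 0 ≤ 1 + w0 ^ 2 * b0 := by positivity
      have h4' : 0 ≤ 1 + wm ^ 2 * b0 := by positivity
      have h5 : (1.9 : ℝ) * 1.9 ≤ (1 + w0 ^ 2 * b0) * (1 + wm ^ 2 * b0) :=
        mul_le_mul h3 h4 (by norm_num) h3'
      have h6 : (1.9 : ℝ) * 1.9 * 1 ≤ (1 + w0 ^ 2 * b0) * (1 + wm ^ 2 * b0) *
          ∏ i, ((1 - a i * b0) ^ 2 + 4 * g i ^ 2 * b0) :=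
        mul_le_mul h5 h2 (by norm_num) (mul_nonneg h3' h4')
      rw [mul_pow, sq_abs]
      have h7 : 0 ≤ τ ^ 2 := sq_nonneg τ
      have h8 := mul_le_mul_of_nonneg_left h6 h7
      calc (1.9 : ℝ) ^ 2 * τ ^ 2 = τ ^ 2 * (1.9 * 1.9 * 1) := by ring
        _ ≤ _ := h8
    rw [hevT] at h1
    have h2 : ‖z ^ 2 * aeval z P + (τ : ℂ)‖ ≤ ‖z ^ 2 * aeval z P‖ + |τ| := by
      refine (norm_add_le _ _).trans (le_of_eq ?_)
      rw [Complex.norm_real, Real.norm_eq_abs]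
    rw [norm_mul, norm_pow] at h2
    have h3 : ‖z‖ ^ 2 ≤ 1.01 :=
      (pow_le_pow_left₀ (norm_nonneg z) hzn 2).trans (by norm_num)
    have h4 : ‖z‖ ^ 2 * ‖aeval z P‖ ≤ 1.01 * ‖aeval z P‖ :=
      mul_le_mul_of_nonneg_right h3 (norm_nonneg _)
    linarith
  -- conclusion
  by_contra hcon
  rw [not_le] at hcon
  have hI : J ≤ (Finset.univ.filter (fun i => l i = 0)).card := by omega
  have hup : ‖aeval z P‖ ≤ (1 / 1000) ^ (Finset.univ.filter (fun i => l i = 0)).card *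
      15 ^ (Finset.univ.filter (fun i => ¬ l i = 0)).card := by
    rw [hevP, norm_prod, ← Finset.prod_filter_mul_prod_filter_not Finset.univ (fun i => l i = 0)]
    apply mul_le_mul
    · rw [← Finset.prod_const]
      apply Finset.prod_le_prod
      · intro i _; exact norm_nonneg _
      · intro i hi
        exact hfac0 i (Finset.mem_filter.1 hi).2
    · rw [← Finset.prod_const]
      apply Finset.prod_le_prod
      · intro i _; exact norm_nonneg _
      · intro i _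
        exact hfac i
    · exact Finset.prod_nonneg (fun i _ => norm_nonneg _)
    · positivity
  have hcard : (Finset.univ.filter (fun i => l i = 0)).card +
      (Finset.univ.filter (fun i => ¬ l i = 0)).card = 2 * J := by
    rw [Finset.card_filter_add_card_filter_not, Finset.card_univ, Fintype.card_fin]
  set I := (Finset.univ.filter (fun i => l i = 0)).card with hIdef
  set I' := (Finset.univ.filter (fun i => ¬ l i = 0)).card with hI'def
  have h1 : ((1 : ℝ) / 1000) ^ I * 15 ^ I' ≤ (1 / 1000) ^ J * 15 ^ J := by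
    apply mul_le_mul
    · exact pow_le_pow_of_le_one (by norm_num) (by norm_num) hI
    · exact pow_le_pow_right₀ (by norm_num) (by omega)
    · positivity
    · positivity
  have h2 : ((1 : ℝ) / 1000) ^ J * 15 ^ J ≤ 15 / 1000 := by
    rw [← mul_pow]
    calc ((1 : ℝ) / 1000 * 15) ^ J ≤ (1 / 1000 * 15) ^ 1 :=
          pow_le_pow_of_le_one (by norm_num) (by norm_num) (by omega)
      _ = _ := by norm_num
  have h3 := hlow.trans (hup.trans (h1.trans h2))
  norm_num at h3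

end Pool.Agent.H99.TN
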