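import Pool.Agent.H99.TN.Defs
import Pool.Agent.H99.TN.TDefs

/-! M6a: shape of the T block. -/

namespace Pool.Agent.H99.TN

open Polynomial

private theorem tshape_coeff_two (p q : ℝ[X]) : (p * q).coeff 2 =
    p.coeff 0 * q.coeff 2 + p.coeff 1 * q.coeff 1 + p.coeff 2 * q.coeff 0 := by
  rw [coeff_mul, Finset.Nat.sum_antidiagonal_eq_sum_range_succ_mk]
  simp [Finset.sum_range_succ]

private theorem tshape_f0 (b c : ℝ) : (X ^ 2 - C b * X + C c : ℝ[X]).coeff 0 = c := by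
  simp

private theorem tshape_f1 (b c : ℝ) : (X ^ 2 - C b * X + C c : ℝ[X]).coeff 1 = -b := by
  simp [coeff_X, coeff_C, coeff_X_pow]

private theorem tshape_f2 (b c : ℝ) : (X ^ 2 - C b * X + C c : ℝ[X]).coeff 2 = 1 := by
  simp [coeff_X, coeff_C, coeff_X_pow]

private theorem tshape_prod {ι : Type*} (s : Finset ι) (g a : ι → ℝ) (ha : ∀ i ∈ s, a i ≠ 0) :
    (∏ i ∈ s, (X ^ 2 - C (2 * g i / a i) * X + C (a i)⁻¹ : ℝ[X])).coeff 0 = ∏ i ∈ s, (a i)⁻¹ ∧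
    (∏ i ∈ s, (X ^ 2 - C (2 * g i / a i) * X + C (a i)⁻¹ : ℝ[X])).coeff 1 =
      (∏ i ∈ s, (a i)⁻¹) * (-2 * ∑ i ∈ s, g i) ∧
    (∏ i ∈ s, (X ^ 2 - C (2 * g i / a i) * X + C (a i)⁻¹ : ℝ[X])).coeff 2 =
      (∏ i ∈ s, (a i)⁻¹) * (∑ i ∈ s, a i + 2 * (∑ i ∈ s, g i) ^ 2 - 2 * ∑ i ∈ s, (g i) ^ 2) := by
  classical
  induction s using Finset.induction_on with
  | empty => simp [coeff_one]
  | insert i s hi ih =>
    obtain ⟨h0, h1, h2⟩ := ih (fun j hj => ha j (Finset.mem_insert_of_mem hj))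
    have hai := ha i (Finset.mem_insert_self i s)
    rw [Finset.prod_insert hi, Finset.prod_insert hi, Finset.sum_insert hi, Finset.sum_insert hi,
      Finset.sum_insert hi]
    refine ⟨?_, ?_, ?_⟩
    · rw [mul_coeff_zero, h0, tshape_f0]
    · rw [mul_coeff_one, h0, h1, tshape_f0, tshape_f1]
      field_simp
      ring
    · rw [tshape_coeff_two, h0, h1, h2, tshape_f0, tshape_f1, tshape_f2]
      field_simp
      ring

private theorem tshape_monic_f (b c : ℝ) : (X ^ 2 - C b * X + C c : ℝ[X]).Monic ∧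
    (X ^ 2 - C b * X + C c : ℝ[X]).natDegree = 2 := by
  have h1 : (X ^ 2 - C b * X + C c : ℝ[X]) = X ^ 2 + (C (-b) * X + C c) := by
    rw [C_neg]; ring
  have h2 : (C (-b) * X + C c : ℝ[X]).degree < (2 : ℕ) := by
    refine lt_of_le_of_lt degree_linear_le ?_
    norm_num
  rw [h1]
  refine ⟨monic_X_pow_add h2, ?_⟩
  refine natDegree_eq_of_degree_eq_some ?_
  rw [degree_add_eq_left_of_degree_lt (by rw [degree_X_pow]; exact h2), degree_X_pow]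

theorem T_shape (J : ℕ) (hJ : 2 ≤ J) : ∃ η : ℝ, 0 < η ∧ ∀ (w0 wm : ℝ) (g a : Fin (2 * J) → ℝ),
    TData J η w0 wm g a → ∃ P : ℝ[X], P.Monic ∧ P.natDegree = 2 * (2 * J) ∧ 0 < P.eval 0 ∧
      (Tpol J w0 wm g a).eval 0 ≠ 0 ∧
      Tpol J w0 wm g a = X ^ 2 * P + C ((Tpol J w0 wm g a).eval 0) := by
  refine ⟨1 / 1000, by norm_num, fun w0 wm g a h => ?_⟩
  obtain ⟨b1, b2⟩ := abs_le.1 h.h0
  obtain ⟨b3, b4⟩ := abs_le.1 h.hm
  have hapos : ∀ i, 0 < a i := fun i => by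
    have := (abs_le.1 (h.ha i)).1
    linarith
  have hw0 : 0 < w0 := by linarith
  have hwm : wm < 0 := by linarith
  have hw0' : w0 ≠ 0 := hw0.ne'
  have hwm' : wm ≠ 0 := hwm.ne
  obtain ⟨Q, hQ⟩ : ∃ Q : ℝ[X], Q = ∏ i, (X ^ 2 - C (2 * g i / a i) * X + C (a i)⁻¹) := ⟨_, rfl⟩
  obtain ⟨q0, q1, q2⟩ := tshape_prod Finset.univ g a (fun i _ => (hapos i).ne')
  rw [← hQ] at q0 q1 q2
  obtain ⟨A, hA⟩ : ∃ A, A = ∏ i, (a i)⁻¹ := ⟨_, rfl⟩
  have hApos : 0 < A := by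
    rw [hA]; exact Finset.prod_pos (fun i _ => inv_pos.2 (hapos i))
  rw [← hA] at q0 q1 q2
  obtain ⟨S, hS⟩ : ∃ S, S = ∑ i, g i := ⟨_, rfl⟩
  have hs := h.hs
  rw [← hS] at q1 q2 hs
  obtain ⟨T, hT⟩ : ∃ T : ℝ[X], T = Tpol J w0 wm g a := ⟨_, rfl⟩
  have hTL : T = (X ^ 2 - C (w0⁻¹ + wm⁻¹) * X + C (w0⁻¹ * wm⁻¹)) * Q := by
    rw [hT, hQ]
    unfold Tpol
    congr 1
    rw [C_add, C_mul]
    ring
  have hT0 : T.coeff 0 = w0⁻¹ * wm⁻¹ * A := by
    rw [hTL, mul_coeff_zero, tshape_f0, q0]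
  have hT1 : T.coeff 1 = 0 := by
    rw [hTL, mul_coeff_one, tshape_f0, tshape_f1, q0, q1]
    have : w0⁻¹ * wm⁻¹ * (A * (-2 * S)) + -(w0⁻¹ + wm⁻¹) * A =
        -(w0⁻¹ * wm⁻¹ * A) * (w0 + wm + 2 * S) := by
      field_simp
      ring
    rw [this, hs, mul_zero]
  have hT2 : T.coeff 2 = (w0⁻¹ * wm⁻¹ * A) *
      (-(w0 ^ 2 + wm ^ 2) / 2 - ∑ i, (2 * (g i) ^ 2 - a i)) := by
    rw [hTL, tshape_coeff_two, tshape_f0, tshape_f1, tshape_f2, q0, q1, q2,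
      Finset.sum_sub_distrib, ← Finset.mul_sum]
    have hS' : S = -(w0 + wm) / 2 := by linarith
    rw [hS']
    field_simp
    ring
  have hneg : w0⁻¹ * wm⁻¹ * A < 0 :=
    mul_neg_of_neg_of_pos (mul_neg_of_pos_of_neg (inv_pos.2 hw0) (inv_lt_zero.2 hwm)) hApos
  -- the sum is nonnegative
  have hsum : 0 ≤ ∑ i, (2 * (g i) ^ 2 - a i) := by
    have hN := h.hN
    obtain ⟨N, hNd⟩ : ∃ N, N = Finset.univ.filter (fun i => 99 / 100 ≤ |g i|) := ⟨_, rfl⟩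
    obtain ⟨F, hFd⟩ : ∃ F, F = Finset.univ.filter (fun i => |g i| < 99 / 100) := ⟨_, rfl⟩
    rw [← hNd, ← hFd] at hN
    have hsplit : ∑ i, (2 * (g i) ^ 2 - a i) = (∑ i ∈ N, (2 * (g i) ^ 2 - a i)) +
        ∑ i ∈ F, (2 * (g i) ^ 2 - a i) := by
      rw [hNd, hFd]
      rw [← Finset.sum_filter_add_sum_filter_not Finset.univ (fun i => 99 / 100 ≤ |g i|)]
      simp only [not_le]
    have h1 : (N.card : ℝ) * (95 / 100) ≤ ∑ i ∈ N, (2 * (g i) ^ 2 - a i) := by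
      rw [← nsmul_eq_mul]
      refine Finset.card_nsmul_le_sum _ _ _ (fun i hi => ?_)
      rw [hNd, Finset.mem_filter] at hi
      have e1 : (99 / 100 : ℝ) ^ 2 ≤ |g i| ^ 2 := by
        have := hi.2
        gcongr
      rw [sq_abs] at e1
      have e2 := (abs_le.1 (h.ha i)).2
      linarith
    have h2 : (F.card : ℝ) * (-(101 / 100)) ≤ ∑ i ∈ F, (2 * (g i) ^ 2 - a i) := by
      rw [← nsmul_eq_mul]
      refine Finset.card_nsmul_le_sum _ _ _ (fun i hi => ?_)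
      have e2 := (abs_le.1 (h.ha i)).2
      nlinarith [sq_nonneg (g i)]
    have h3 : 20 * (F.card : ℝ) ≤ N.card := by exact_mod_cast hN
    rw [hsplit]
    have : (0 : ℝ) ≤ F.card := Nat.cast_nonneg _
    linarith
  have hT2pos : 0 < T.coeff 2 := by
    rw [hT2]
    refine mul_pos_of_neg_of_neg hneg ?_
    have : 0 < w0 ^ 2 := by positivity
    have := sq_nonneg wm
    linarith
  have hQm : Q.Monic ∧ Q.natDegree = 4 * J := by
    rw [hQ]
    refine ⟨monic_prod_of_monic _ _ (fun i _ => (tshape_monic_f _ _).1), ?_⟩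
    rw [natDegree_prod_of_monic _ _ (fun i _ => (tshape_monic_f _ _).1),
      Finset.sum_congr rfl (fun i _ => (tshape_monic_f _ _).2)]
    simp
    ring
  obtain ⟨hL1, hL2⟩ := tshape_monic_f (w0⁻¹ + wm⁻¹) (w0⁻¹ * wm⁻¹)
  have hTm : T.Monic := by rw [hTL]; exact hL1.mul hQm.1
  have hTd : T.natDegree = 4 * J + 2 := by
    rw [hTL, hL1.natDegree_mul hQm.1, hL2, hQm.2]; ring
  have hPd : (divX (divX T)).natDegree = 2 * (2 * J) := by
    rw [natDegree_divX_eq_natDegree_tsub_one, natDegree_divX_eq_natDegree_tsub_one, hTd]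
    omega
  rw [← hT]
  refine ⟨divX (divX T), ?_, hPd, ?_, ?_, ?_⟩
  · rw [Monic, leadingCoeff, hPd, coeff_divX, coeff_divX]
    have := hTm.coeff_natDegree
    rw [hTd] at this
    rw [show 2 * (2 * J) + 1 + 1 = 4 * J + 2 by ring]
    exact this
  · rw [← coeff_zero_eq_eval_zero, coeff_divX, coeff_divX]
    exact hT2pos
  · rw [← coeff_zero_eq_eval_zero, hT0]
    exact hneg.ne
  · rw [← coeff_zero_eq_eval_zero]
    have e1 := divX_mul_X_add T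
    have e2 := divX_mul_X_add (divX T)
    rw [coeff_divX, zero_add, hT1, C_0, add_zero] at e2
    calc T = divX T * X + C (T.coeff 0) := e1.symm
      _ = (divX (divX T) * X) * X + C (T.coeff 0) := by rw [e2]
      _ = X ^ 2 * divX (divX T) + C (T.coeff 0) := by ring

end Pool.Agent.H99.TN
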