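import Pool.Agent.H99.TN.RealFactor
import Pool.Agent.H99.TN.Scale
import Pool.Agent.H99.TN.Real
import Pool.Agent.H99.TN.Quad
import Pool.Agent.H99.TN.Group
import Pool.Agent.H99.TN.TShape
import Pool.Agent.H99.TN.TImag

/-! From a zero of F_S to a matrix. -/

namespace Pool.Agent.H99.TN

open Polynomial

theorem TData.mono {J : ℕ} {η η' w0 wm : ℝ} {g a : Fin (2 * J) → ℝ} (h : TData J η w0 wm g a)
    (hη : η ≤ η') : TData J η' w0 wm g a :=
  ⟨h.h0.trans hη, h.hm.trans hη, fun i => (h.ha i).trans hη, h.hg, h.hN, h.hs⟩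

theorem block_T (J : ℕ) (hJ : 2 ≤ J) : ∃ η : ℝ, 0 < η ∧ ∀ (w0 wm : ℝ) (g a : Fin (2 * J) → ℝ),
    TData J η w0 wm g a → ∃ (x : ℝ) (CJ : ℝ[X]) (l' m' : ℕ → ℝ), x ≠ 0 ∧ CJ.Monic ∧
      CJ.natDegree = 2 * J ∧ (∀ k < 2 * J, CJ.coeff k ≠ 0) ∧ (∀ t < J, l' t ≠ 0 ∧ 0 < m' t) ∧
      Tpol J w0 wm g a = X ^ 2 * CJ *
        ∏ t ∈ Finset.range J, (X ^ 2 - C (l' t) * X + C (m' t)) - C x := by
  obtain ⟨η₁, h1, H1⟩ := T_shape J hJ
  obtain ⟨η₂, h2, H2⟩ := T_imag J hJ
  refine ⟨min η₁ η₂, lt_min h1 h2, ?_⟩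
  intro w0 wm g a hT
  obtain ⟨P, hPm, hPd, hP0, hT0, hTP⟩ := H1 w0 wm g a (hT.mono (min_le_left _ _))
  obtain ⟨l, m, hm, hP⟩ := quad_factor (2 * J) P hPm hPd hP0
  have hI := H2 w0 wm g a (hT.mono (min_le_right _ _)) P hTP l m hm hP
  obtain ⟨CJ, l', m', hCm, hCd, hCc, hlm, hprod⟩ := quad_group J hJ l m hm hI
  refine ⟨-((Tpol J w0 wm g a).eval 0), CJ, l', m', neg_ne_zero.mpr hT0, hCm, hCd, hCc, hlm, ?_⟩
  have h3 : Tpol J w0 wm g a = X ^ 2 * (CJ *
      ∏ t ∈ Finset.range J, (X ^ 2 - C (l' t) * X + C (m' t))) +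
        C ((Tpol J w0 wm g a).eval 0) := by
    rw [← hprod, ← hP]
    exact hTP
  rw [C_neg]
  calc Tpol J w0 wm g a = _ := h3
    _ = _ := by ring

theorem card_filter_equiv {d : ℕ} (S : Finset ℕ) (e : Fin d ≃ S) (P : ℕ → Prop)
    [DecidablePred P] :
    (Finset.univ.filter (fun k => P (e k : ℕ))).card = (S.filter P).card := by
  rw [Finset.card_filter, Finset.card_filter]
  rw [← Finset.sum_coe_sort S (fun i => if P i then 1 else 0)]
  exact Equiv.sum_comp e (fun i : S => if P (i : ℕ) then 1 else 0)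

theorem cc_lower (m i : ℕ) (hodd : m % 2 = 1) (hi : i ∈ Finset.Ico 1 m) :
    1 / (m : ℝ) ≤ |cc m i| := by
  rw [Finset.mem_Ico] at hi
  have hm0 : (0 : ℝ) < m := by exact_mod_cast (by omega : 0 < m)
  unfold cc
  have h1 : Real.cos (Real.pi * i / m) = Real.sin (Real.pi * (m - 2 * i) / (2 * m)) := by
    rw [← Real.cos_pi_div_two_sub]
    congr 1
    field_simp
    ring
  rw [h1]
  have habs : |Real.pi * (m - 2 * i) / (2 * m)| = Real.pi * |(m : ℝ) - 2 * i| / (2 * m) := by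
    rw [abs_div, abs_mul, abs_of_pos Real.pi_pos, abs_of_pos (by positivity : (0 : ℝ) < 2 * m)]
  have hint : (1 : ℝ) ≤ |(m : ℝ) - 2 * i| := by
    have : (1 : ℤ) ≤ |(m : ℤ) - 2 * i| := by
      apply Int.one_le_abs
      omega
    exact_mod_cast this
  have hle : |(m : ℝ) - 2 * i| ≤ m := by
    rw [abs_le]
    have : (i : ℝ) ≤ m := by exact_mod_cast hi.2.le
    have : (0 : ℝ) ≤ i := Nat.cast_nonneg i
    constructor <;> linarith
  have h2 : |Real.sin (Real.pi * (m - 2 * i) / (2 * m))| =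
      Real.sin (Real.pi * |(m : ℝ) - 2 * i| / (2 * m)) := by
    rw [← habs]
    rcases le_or_gt 0 (Real.pi * ((m : ℝ) - 2 * i) / (2 * m)) with h | h
    · rw [abs_of_nonneg h, abs_of_nonneg]
      apply Real.sin_nonneg_of_nonneg_of_le_pi h
      have h3 := habs
      rw [abs_of_nonneg h] at h3
      rw [h3]
      rw [div_le_iff₀ (by positivity)]
      nlinarith [Real.pi_pos]
    · rw [abs_of_neg h, Real.sin_neg, abs_of_nonpos]
      apply Real.sin_nonpos_of_nonpos_of_neg_pi_le h.le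
      have h3 := habs
      rw [abs_of_neg h] at h3
      have h4 : Real.pi * |(m : ℝ) - 2 * i| / (2 * m) ≤ Real.pi := by
        rw [div_le_iff₀ (by positivity)]
        nlinarith [Real.pi_pos]
      linarith
  rw [h2]
  have h5 : 2 / Real.pi * (Real.pi * |(m : ℝ) - 2 * i| / (2 * m)) ≤
      Real.sin (Real.pi * |(m : ℝ) - 2 * i| / (2 * m)) := by
    apply Real.mul_le_sin (by positivity)
    rw [div_le_div_iff₀ (by positivity) (by positivity)]
    nlinarith [Real.pi_pos]
  refine le_trans ?_ h5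
  have h6 : 2 / Real.pi * (Real.pi * |(m : ℝ) - 2 * i| / (2 * m)) = |(m : ℝ) - 2 * i| / m := by
    field_simp
  rw [h6]
  gcongr

theorem assemble (J : ℕ) (hJ : 2 ≤ J) : ∃ ε₀ : ℝ, 0 < ε₀ ∧ ∀ (m L : ℕ), m = 2 * J + 1 + L →
    1 ≤ L → m % 2 = 1 → ∀ (A : ℕ → ℝ) (ε An : ℝ), ε ≤ ε₀ →
    ε ≤ 1 / (100 * ((2 * m : ℕ) : ℝ) ^ 2) →
    (∀ j ∈ Finset.Ico 1 (2 * m), |A j| ≤ ε) → 1 + An ≠ 0 →
    ∀ S : Finset ℕ, Adm m J S → FS m A S = 0 →
    ∃ B : Matrix (Fin (4 * J + 2 + 2 * L)) (Fin (4 * J + 2 + 2 * L)) ℝ,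
      (∀ i j, B i j ≠ 0 ↔ pat J L i j) ∧
      B.charpoly = X ^ (2 * m) + ∑ j ∈ Finset.Ico 1 (2 * m), C (A j) * X ^ (2 * m - j) + C An := by
  obtain ⟨η, hη, H⟩ := block_T J hJ
  refine ⟨min (η / 10) (1 / 1000), by positivity, ?_⟩
  intro m L hmL hL hodd A ε An hε₀ hε hA hAn S hS hF
  have hm1 : 1 ≤ m := by omega
  have hε1 : ε ≤ η / 10 := hε₀.trans (min_le_left _ _)
  have hε2 : ε ≤ 1 / 1000 := hε₀.trans (min_le_right _ _)
  have hε0 : 0 ≤ ε := (abs_nonneg _).trans (hA 1 (Finset.mem_Ico.mpr ⟨le_rfl, by omega⟩))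
  have hAb : ∀ j ∈ Finset.Ico 1 (2 * m), |A j| ≤ 1 / (100 * ((2 * m : ℕ) : ℝ) ^ 2) :=
    fun j hj => (hA j hj).trans hε
  have hnear := rt_near (2 * m) (by omega) A ε hε hA
  have hre : ∀ i, |(rt (2 * m) A i).re - cc m i| ≤ 3 * ε := by
    intro i
    rw [← tw_re m i hm1, ← Complex.sub_re]
    exact (Complex.abs_re_le_norm _).trans (hnear i)
  have hns : ∀ i, |Complex.normSq (rt (2 * m) A i) - 1| ≤ 7 * ε := by
    intro i
    have h1 : |‖rt (2 * m) A i‖ - 1| ≤ 3 * ε := by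
      rw [← norm_tw (2 * m) i]
      exact (abs_norm_sub_norm_le _ _).trans (hnear i)
    rw [Complex.normSq_eq_norm_sq]
    rw [abs_le] at h1 ⊢
    constructor <;> nlinarith [norm_nonneg (rt (2 * m) A i)]
  obtain ⟨hS1, hS2, hS3⟩ := hS
  set e : Fin (2 * J) ≃ S := (S.equivFinOfCardEq hS2).symm with he
  set w0 := (rt (2 * m) A 0).re with hw0
  set wm := (rt (2 * m) A m).re with hwm
  set g : Fin (2 * J) → ℝ := fun k => (rt (2 * m) A (e k)).re with hg
  set a : Fin (2 * J) → ℝ := fun k => Complex.normSq (rt (2 * m) A (e k)) with ha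
  have hsumS : ∑ k, g k = ∑ i ∈ S, (rt (2 * m) A i).re := by
    rw [← Finset.sum_coe_sort S (fun i => (rt (2 * m) A i).re)]
    exact Equiv.sum_comp e (fun i : S => (rt (2 * m) A i).re)
  have hT : TData J η w0 wm g a := by
    refine ⟨?_, ?_, ?_, ?_, ?_, ?_⟩
    · have := hre 0
      rw [show cc m 0 = 1 by simp [cc]] at this
      linarith
    · have := hre m
      rw [show cc m m = -1 by
        unfold cc
        have : (m : ℝ) ≠ 0 := by exact_mod_cast (by omega : m ≠ 0)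
        rw [mul_div_assoc, div_self this, mul_one, Real.cos_pi]] at this
      rw [sub_neg_eq_add] at this
      linarith
    · intro i
      exact (hns _).trans (by linarith)
    · intro i
      simp only [hg, ha, Complex.normSq_apply]
      nlinarith [sq_nonneg (rt (2 * m) A (e i)).im]
    · have h1 : (Finset.univ.filter (fun i => |g i| < 99 / 100)).card ≤
          (Finset.univ.filter (fun k => |cc m (e k : ℕ)| < 999 / 1000)).card := by
        apply Finset.card_le_card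
        intro k hk
        simp only [Finset.mem_filter, Finset.mem_univ, true_and] at hk ⊢
        have := hre (e k)
        have h3 : |cc m (e k : ℕ)| ≤ |g k| + 3 * ε := by
          have h4 : cc m (e k : ℕ) = g k - (g k - cc m (e k)) := by ring
          rw [h4]
          exact (abs_sub _ _).trans (by linarith)
        linarith
      have h2 : (Finset.univ.filter (fun k => 999 / 1000 ≤ |cc m (e k : ℕ)|)).card ≤
          (Finset.univ.filter (fun i => 99 / 100 ≤ |g i|)).card := by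
        apply Finset.card_le_card
        intro k hk
        simp only [Finset.mem_filter, Finset.mem_univ, true_and] at hk ⊢
        have := hre (e k)
        have h3 : |cc m (e k : ℕ)| ≤ |g k| + 3 * ε := by
          have h4 : cc m (e k : ℕ) = g k - (g k - cc m (e k)) := by ring
          rw [h4]
          exact (abs_sub _ _).trans (by linarith)
        linarith
      rw [card_filter_equiv S e (fun i => |cc m i| < 999 / 1000)] at h1
      rw [card_filter_equiv S e (fun i => 999 / 1000 ≤ |cc m i|)] at h2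
      omega
    · have := hF
      unfold FS at this
      rw [hsumS]
      linarith
  obtain ⟨x, CJ, l', m', hx, hCm, hCd, hCc, hlm, hTp⟩ := H w0 wm g a hT
  -- the complement
  set Sc := Finset.Ico 1 m \ S with hSc
  have hcard : Sc.card = L := by
    rw [hSc, Finset.card_sdiff_of_subset hS1, hS2, Nat.card_Ico]
    omega
  set e2 : Fin L ≃ Sc := (Sc.equivFinOfCardEq hcard).symm with he2
  have hL0 : 0 < L := hL
  set idx : ℕ → ℕ := fun t => if h : t - J < L then (e2 ⟨t - J, h⟩ : ℕ) else 1 with hidx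
  set l : ℕ → ℝ := fun t => if t < J then l' t else
    2 * (rt (2 * m) A (idx t)).re / Complex.normSq (rt (2 * m) A (idx t)) with hl
  set c : ℕ → ℝ := fun t => if t < J then -(m' t) else
    -(Complex.normSq (rt (2 * m) A (idx t)))⁻¹ with hc
  have hidx1 : ∀ t < J + L, idx t ∈ Finset.Ico 1 m := by
    intro t ht
    simp only [hidx]
    rw [dif_pos (by omega : t - J < L)]
    exact (Finset.mem_sdiff.mp (e2 ⟨t - J, by omega⟩).2).1
  have hnpos : ∀ i, 0 < Complex.normSq (rt (2 * m) A i) := by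
    intro i
    have := hns i
    rw [abs_le] at this
    linarith
  have hrene : ∀ i ∈ Finset.Ico 1 m, (rt (2 * m) A i).re ≠ 0 := by
    intro i hi h0
    have h1 := hre i
    rw [h0, zero_sub, abs_neg] at h1
    have h2 := cc_lower m i hodd hi
    have hmr : (1 : ℝ) ≤ m := by exact_mod_cast hm1
    have h3 : 3 * ε < 1 / (m : ℝ) := by
      have h4 : ε ≤ 1 / (400 * (m : ℝ) ^ 2) := by
        refine hε.trans (le_of_eq ?_)
        push_cast
        ring
      have h5 : 3 * (1 / (400 * (m : ℝ) ^ 2)) < 1 / (m : ℝ) := by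
        rw [show 3 * (1 / (400 * (m : ℝ) ^ 2)) = (3 / 400 * (m : ℝ)⁻¹) * (m : ℝ)⁻¹ by
          field_simp, one_div]
        have : 3 / 400 * (m : ℝ)⁻¹ < 1 := by
          have : (m : ℝ)⁻¹ ≤ 1 := inv_le_one_of_one_le₀ hmr
          linarith
        have hp : 0 < (m : ℝ)⁻¹ := by positivity
        nlinarith
      linarith
    linarith
  obtain ⟨B, hB1, hB2⟩ := pat_realize J L (by omega) hL CJ l c x (-(1 + An)) hCm hCd hCc
    (by
      intro t ht
      simp only [hl]
      split_ifs with h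
      · exact (hlm t h).1
      · exact div_ne_zero (mul_ne_zero two_ne_zero (hrene _ (hidx1 t ht))) (hnpos _).ne')
    (by
      intro t ht
      simp only [hc]
      split_ifs with h
      · exact neg_ne_zero.mpr (hlm t h).2.ne'
      · exact neg_ne_zero.mpr (inv_ne_zero (hnpos _).ne'))
    hx (neg_ne_zero.mpr hAn)
  refine ⟨B, hB1, ?_⟩
  rw [hB2]
  have hfac := real_factor m hm1 A hAb
  have hp1 : ∏ t ∈ Finset.range J, (X ^ 2 - C (l t) * X - C (c t)) =
      ∏ t ∈ Finset.range J, (X ^ 2 - C (l' t) * X + C (m' t)) := by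
    apply Finset.prod_congr rfl
    intro t ht
    rw [Finset.mem_range] at ht
    simp only [hl, hc, if_pos ht, C_neg]
    ring
  have hp2 : ∏ t ∈ Finset.Ico J (J + L), (X ^ 2 - C (l t) * X - C (c t)) =
      ∏ i ∈ Sc, qd m A i := by
    rw [Finset.prod_Ico_eq_prod_range, show J + L - J = L by omega, Finset.prod_range]
    rw [← Finset.prod_coe_sort Sc (fun i => qd m A i),
      ← Equiv.prod_comp e2 (fun i : Sc => qd m A i)]
    apply Finset.prod_congr rfl
    intro k _
    have h1 : idx (J + k) = (e2 k : ℕ) := by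
      simp only [hidx]
      have h2 : J + (k : ℕ) - J = k := by omega
      rw [dif_pos (by omega : J + (k : ℕ) - J < L)]
      congr 2
      exact Fin.ext h2
    simp only [hl, hc, if_neg (by omega : ¬ J + (k : ℕ) < J), h1, C_neg]
    unfold qd
    ring
  have hp3 : ∏ i ∈ S, qd m A i =
      ∏ k, (X ^ 2 - C (2 * g k / a k) * X + C (a k)⁻¹ : ℝ[X]) := by
    rw [← Finset.prod_coe_sort S (fun i => qd m A i),
      ← Equiv.prod_comp e (fun i : S => qd m A i)]
    rfl
  have hp4 : ∏ i ∈ Finset.Ico 1 m, qd m A i = (∏ i ∈ Sc, qd m A i) * ∏ i ∈ S, qd m A i := by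
    rw [hSc, Finset.prod_sdiff hS1]
  rw [hp1, hp2, ← hTp]
  rw [hp4, hp3] at hfac
  unfold Tpol
  have h9 : (X ^ (2 * m) + ∑ j ∈ Finset.Ico 1 (2 * m), C (A j) * X ^ (2 * m - j) + C An : ℝ[X]) =
      (X ^ (2 * m) + ∑ j ∈ Finset.Ico 1 (2 * m), C (A j) * X ^ (2 * m - j) - 1) + C (1 + An) := by
    rw [C_add, C_1]
    ring
  rw [h9, hfac, C_neg]
  ring

end Pool.Agent.H99.TN
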