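import Pool.Agent.H99.TN.Defs

/-! The combination of coefficients seen by a test function. -/

namespace Pool.Agent.H99.TN

open Polynomial

/-- the combination of coefficients seen by the test function `cos kα - cos (k+2)α` -/
noncomputable def relExpr (m k : ℕ) (A : ℕ → ℝ) : ℝ :=
  A (k - 1) + A (2 * m - k - 1) - A (k + 1) - A (2 * m - k - 3) +
    (if k = 3 then (1 / 2 - 3 / (2 * (2 * m : ℝ))) * (A (2 * m - 2)) ^ 2 else 0)

end Pool.Agent.H99.TN
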