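import Pool.Agent.H99.TN.Defs

/-! M15: a quantitative Vandermonde bound. -/

namespace Pool.Agent.H99.TN

open Polynomial

private theorem vander_aux (r : ℕ) (c q : Fin r → ℝ) (e : ℝ)
    (hq : ∀ i, |q i| ≤ 1)
    (h : ∀ s < r, |∑ i, c i * q i ^ s| ≤ e) (T : Finset (Fin r)) :
    ∀ s : ℕ, s + T.card < r → |∑ l, c l * (∏ t ∈ T, (q l - q t)) * q l ^ s| ≤ 2 ^ T.card * e := by
  classical
  induction T using Finset.induction_on with
  | empty =>
    intro s hs
    simpa using h s (by simpa using hs)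
  | insert a T ha ih =>
    intro s hs
    rw [Finset.card_insert_of_notMem ha] at hs
    have h1 := ih (s + 1) (by omega)
    have h2 := ih s (by omega)
    have e1 : ∑ l, c l * (∏ t ∈ insert a T, (q l - q t)) * q l ^ s =
        ∑ l, c l * (∏ t ∈ T, (q l - q t)) * q l ^ (s + 1) -
          q a * ∑ l, c l * (∏ t ∈ T, (q l - q t)) * q l ^ s := by
      rw [Finset.mul_sum, ← Finset.sum_sub_distrib]
      refine Finset.sum_congr rfl fun l _ => ?_
      rw [Finset.prod_insert ha]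
      ring
    rw [e1, Finset.card_insert_of_notMem ha]
    have h3 : |q a * ∑ l, c l * (∏ t ∈ T, (q l - q t)) * q l ^ s| ≤ 2 ^ T.card * e := by
      rw [abs_mul]
      calc |q a| * |∑ l, c l * (∏ t ∈ T, (q l - q t)) * q l ^ s|
          ≤ 1 * |∑ l, c l * (∏ t ∈ T, (q l - q t)) * q l ^ s| :=
            mul_le_mul_of_nonneg_right (hq a) (abs_nonneg _)
        _ ≤ _ := by rw [one_mul]; exact h2
    calc _ ≤ |∑ l, c l * (∏ t ∈ T, (q l - q t)) * q l ^ (s + 1)| +
          |q a * ∑ l, c l * (∏ t ∈ T, (q l - q t)) * q l ^ s| := abs_sub _ _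
      _ ≤ 2 ^ T.card * e + 2 ^ T.card * e := add_le_add h1 h3
      _ = 2 ^ (T.card + 1) * e := by ring

theorem vander (r : ℕ) (c q : Fin r → ℝ) (δ e : ℝ) (hδ : 0 < δ) (hδ1 : δ ≤ 1)
    (hq : ∀ i, |q i| ≤ 1) (hgap : ∀ i j, i ≠ j → δ ≤ |q i - q j|)
    (h : ∀ s < r, |∑ i, c i * q i ^ s| ≤ e) (i : Fin r) :
    |c i| ≤ (2 / δ) ^ (r - 1) * e := by
  classical
  have hcard : (Finset.univ.erase i).card = r - 1 := by
    rw [Finset.card_erase_of_mem (Finset.mem_univ i), Finset.card_fin]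
  have hr : 0 < r := i.pos
  have h1 := vander_aux r c q e hq h (Finset.univ.erase i) 0 (by rw [hcard]; omega)
  have h2 : ∑ l, c l * (∏ t ∈ Finset.univ.erase i, (q l - q t)) * q l ^ 0 =
      c i * ∏ t ∈ Finset.univ.erase i, (q i - q t) := by
    rw [Finset.sum_eq_single i]
    · simp
    · intro l _ hl
      rw [Finset.prod_eq_zero (i := l) (by simp [hl]) (by simp)]
      simp
    · intro hi
      exact absurd (Finset.mem_univ i) hi
  rw [h2, hcard, abs_mul, Finset.abs_prod] at h1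
  have h3 : δ ^ (r - 1) ≤ ∏ t ∈ Finset.univ.erase i, |q i - q t| := by
    rw [← hcard, ← Finset.prod_const]
    apply Finset.prod_le_prod
    · intro t _
      exact hδ.le
    · intro t ht
      exact hgap i t (Finset.ne_of_mem_erase ht).symm
  have h4 : |c i| * δ ^ (r - 1) ≤ 2 ^ (r - 1) * e :=
    (mul_le_mul_of_nonneg_left h3 (abs_nonneg _)).trans h1
  rw [div_pow, div_mul_eq_mul_div, le_div_iff₀ (pow_pos hδ _)]
  exact h4

end Pool.Agent.H99.TN
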