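import Pool.Agent.H99.TN.Defs
import Pool.Agent.H99.TN.RelDefs
import Pool.Agent.H99.TN.Vander

/-! M16b: extraction of the coefficients. -/

namespace Pool.Agent.H99.TN

open Polynomial

private lemma cb_gap (m : ℕ) (hm : 10 ≤ m) (p q : ℕ) (h : p + 2 ≤ q) (hp : p ≤ 4 * m) :
    1 / (32 * (m : ℝ)) ≤ (1 - 1 / (2 * (m : ℝ))) ^ p - (1 - 1 / (2 * (m : ℝ))) ^ q := by
  have hm0 : (0 : ℝ) < m := by exact_mod_cast (by omega : 0 < m)
  have hm1 : (10 : ℝ) ≤ m := by exact_mod_cast hm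
  set x : ℝ := 1 - 1 / (2 * (m : ℝ)) with hx
  have hi : 1 / (2 * (m : ℝ)) ≤ 1 / 20 := by
    apply one_div_le_one_div_of_le (by norm_num)
    linarith
  have hi0 : 0 < 1 / (2 * (m : ℝ)) := by positivity
  have hx0 : 0 ≤ x := by rw [hx]; linarith
  have hx1 : x ≤ 1 := by rw [hx]; linarith
  have h1 : x ^ q ≤ x ^ (p + 2) := pow_le_pow_of_le_one hx0 hx1 h
  have h2 : 1 / 2 ≤ x ^ m := by
    have := one_add_mul_le_pow (a := -(1 / (2 * (m : ℝ)))) (by linarith) m
    have h3 : (1 : ℝ) + m * -(1 / (2 * (m : ℝ))) = 1 / 2 := by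
      field_simp
      norm_num
    rw [h3] at this
    rw [hx, sub_eq_add_neg]
    exact this
  have h4 : (1 / 16 : ℝ) ≤ x ^ (4 * m) := by
    rw [mul_comm, pow_mul]
    calc (1 / 16 : ℝ) = (1 / 2) ^ 4 := by norm_num
      _ ≤ (x ^ m) ^ 4 := pow_le_pow_left₀ (by norm_num) h2 4
  have h5 : x ^ (4 * m) ≤ x ^ p := pow_le_pow_of_le_one hx0 hx1 hp
  have h6 : (1 / 16 : ℝ) ≤ x ^ p := h4.trans h5
  have h7 : 1 / (2 * (m : ℝ)) ≤ 1 - x ^ 2 := by
    have : 1 - x ^ 2 = (1 / (2 * (m : ℝ))) * (1 + x) := by rw [hx]; ring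
    rw [this]
    nlinarith
  have h8 : 1 / (32 * (m : ℝ)) = 1 / 16 * (1 / (2 * (m : ℝ))) := by field_simp; norm_num
  calc 1 / (32 * (m : ℝ)) = 1 / 16 * (1 / (2 * (m : ℝ))) := h8
    _ ≤ x ^ p * (1 - x ^ 2) := mul_le_mul h6 h7 hi0.le (by positivity)
    _ = x ^ p - x ^ (p + 2) := by ring
    _ ≤ x ^ p - x ^ q := by linarith

private lemma cb_vander (m : ℕ) (hm : 10 ≤ m) (r : ℕ) (c : Fin r → ℝ) (p : Fin r → ℕ) (e : ℝ)
    (hp : ∀ i, p i ≤ 4 * m) (hgap : ∀ i j, i ≠ j → p i + 2 ≤ p j ∨ p j + 2 ≤ p i)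
    (h : ∀ s < r, |∑ i, c i * ((1 - 1 / (2 * (m : ℝ))) ^ s) ^ (p i)| ≤ e) (i : Fin r) :
    |c i| ≤ (64 * m) ^ (r - 1) * e := by
  have hm0 : (0 : ℝ) < m := by exact_mod_cast (by omega : 0 < m)
  have hm1 : (10 : ℝ) ≤ m := by exact_mod_cast hm
  have hi : 1 / (2 * (m : ℝ)) ≤ 1 / 20 := by
    apply one_div_le_one_div_of_le (by norm_num)
    linarith
  have hi0 : 0 < 1 / (2 * (m : ℝ)) := by positivity
  have hx0 : (0 : ℝ) ≤ 1 - 1 / (2 * (m : ℝ)) := by linarith
  have hx1 : 1 - 1 / (2 * (m : ℝ)) ≤ (1 : ℝ) := by linarith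
  have key := vander r c (fun i => (1 - 1 / (2 * (m : ℝ))) ^ (p i)) (1 / (32 * (m : ℝ))) e
    (by positivity)
    (by
      rw [div_le_one (by positivity)]
      linarith)
    (fun i => by
      rw [abs_of_nonneg (pow_nonneg hx0 _)]
      exact pow_le_one₀ hx0 hx1)
    (fun i j hij => by
      rcases hgap i j hij with h1 | h1
      · exact (cb_gap m hm _ _ h1 (hp i)).trans (le_abs_self _)
      · rw [abs_sub_comm]
        exact (cb_gap m hm _ _ h1 (hp j)).trans (le_abs_self _))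
    (fun s hs => by
      have h2 := h s hs
      have h3 : ∑ i, c i * ((1 - 1 / (2 * (m : ℝ))) ^ (p i)) ^ s =
          ∑ i, c i * ((1 - 1 / (2 * (m : ℝ))) ^ s) ^ (p i) := by
        refine Finset.sum_congr rfl fun i _ => ?_
        rw [← pow_mul, ← pow_mul, mul_comm s]
      rw [h3]
      exact h2) i
  have h4 : (2 / (1 / (32 * (m : ℝ)))) = 64 * m := by
    field_simp
    norm_num
  rw [h4] at key
  exact key

theorem coef_bound (m : ℕ) (hm : 10 ≤ m) (a : ℕ → ℝ) (e : ℝ)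
    (h : ∀ s < 5, ∀ k, 2 ≤ k → k + 2 ≤ m →
      |relExpr m k (fun j => a j * ((1 - 1 / (2 * (m : ℝ))) ^ s) ^ j)| ≤ e) :
    (∀ j, 1 ≤ j → j + 3 ≤ 2 * m → |a j| ≤ 2 * (64 * m) ^ 4 * e) ∧
      (a (2 * m - 2)) ^ 2 ≤ 4 * (64 * m) ^ 4 * e := by
  have hm0 : (0 : ℝ) < m := by exact_mod_cast (by omega : 0 < m)
  have hm1 : (10 : ℝ) ≤ m := by exact_mod_cast hm
  have he : 0 ≤ e := (abs_nonneg _).trans (h 0 (by norm_num) 2 le_rfl (by omega))
  have hM : (1 : ℝ) ≤ 64 * m := by linarith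
  have hM4 : (1 : ℝ) ≤ (64 * (m : ℝ)) ^ 4 := one_le_pow₀ hM
  have hM3 : (64 * (m : ℝ)) ^ 3 ≤ (64 * (m : ℝ)) ^ 4 := pow_le_pow_right₀ hM (by norm_num)
  -- k ≠ 3
  have hk4 : ∀ k, 2 ≤ k → k + 3 ≤ m → k ≠ 3 →
      |a (k - 1)| ≤ (64 * m) ^ 4 * e ∧ |a (2 * m - k - 1)| ≤ (64 * m) ^ 4 * e ∧
        |a (k + 1)| ≤ (64 * m) ^ 4 * e ∧ |a (2 * m - k - 3)| ≤ (64 * m) ^ 4 * e := by
    intro k hk hk3 hne
    have key := cb_vander m hm 4 ![a (k - 1), a (2 * m - k - 1), -a (k + 1), -a (2 * m - k - 3)]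
      ![k - 1, 2 * m - k - 1, k + 1, 2 * m - k - 3] e
      (by intro i; fin_cases i <;> simp <;> omega)
      (by
        intro i j hij
        fin_cases i <;> fin_cases j <;> simp at hij ⊢ <;> omega)
      (by
        intro s hs
        have h2 := h s (by omega) k hk (by omega)
        unfold relExpr at h2
        rw [if_neg hne] at h2
        rw [Fin.sum_univ_four]
        simp only [Matrix.cons_val]
        convert h2 using 2
        ring)
    have hb : ∀ i : Fin 4, |![a (k - 1), a (2 * m - k - 1), -a (k + 1), -a (2 * m - k - 3)] i| ≤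
        (64 * m) ^ 4 * e := fun i => (key i).trans (mul_le_mul_of_nonneg_right hM3 he)
    refine ⟨?_, ?_, ?_, ?_⟩
    · simpa using hb 0
    · simpa using hb 1
    · simpa using hb 2
    · simpa using hb 3
  -- k = 3
  have hk5 : |a 2| ≤ (64 * m) ^ 4 * e ∧ |a (2 * m - 3 - 1)| ≤ (64 * m) ^ 4 * e ∧
        |a 4| ≤ (64 * m) ^ 4 * e ∧ |a (2 * m - 3 - 3)| ≤ (64 * m) ^ 4 * e ∧
        |(1 / 2 - 3 / (2 * (2 * m : ℝ))) * (a (2 * m - 2)) ^ 2| ≤ (64 * m) ^ 4 * e := by
    have key := cb_vander m hm 5 ![a (3 - 1), a (2 * m - 3 - 1), -a (3 + 1), -a (2 * m - 3 - 3),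
        (1 / 2 - 3 / (2 * (2 * m : ℝ))) * (a (2 * m - 2)) ^ 2]
      ![3 - 1, 2 * m - 3 - 1, 3 + 1, 2 * m - 3 - 3, 2 * (2 * m - 2)] e
      (by intro i; fin_cases i <;> simp <;> omega)
      (by
        intro i j hij
        fin_cases i <;> fin_cases j <;> simp at hij ⊢ <;> omega)
      (by
        intro s hs
        have h2 := h s (by omega) 3 (by omega) (by omega)
        unfold relExpr at h2
        rw [if_pos rfl] at h2
        rw [Fin.sum_univ_five]
        simp only [Matrix.cons_val]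
        convert h2 using 2
        rw [mul_pow, ← pow_mul ((1 - 1 / (2 * (m : ℝ))) ^ s) (2 * m - 2) 2, mul_comm (2 * m - 2) 2]
        ring)
    refine ⟨?_, ?_, ?_, ?_, ?_⟩
    · simpa using key 0
    · simpa using key 1
    · simpa using key 2
    · simpa using key 3
    · simpa using key 4
  have h1le : (64 * (m : ℝ)) ^ 4 * e ≤ 2 * (64 * m) ^ 4 * e := by nlinarith [mul_nonneg (by positivity : (0:ℝ) ≤ (64 * (m : ℝ)) ^ 4) he]
  refine ⟨?_, ?_⟩
  · -- all j except m - 1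
    have hj1 : ∀ j, 1 ≤ j → j + 3 ≤ 2 * m → j ≠ m - 1 → |a j| ≤ (64 * m) ^ 4 * e := by
      intro j hj hj3 hne
      by_cases hjs : j ≤ m - 2
      · -- j = k - 1 or k + 1
        by_cases hj2 : j = 2
        · subst hj2; exact hk5.1
        by_cases hj4 : j = 4
        · subst hj4; exact hk5.2.2.1
        by_cases hj5 : j ≤ m - 4
        · have := (hk4 (j + 1) (by omega) (by omega) (by omega)).1
          simpa using this
        · have := (hk4 (j - 1) (by omega) (by omega) (by omega)).2.2.1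
          rwa [show j - 1 + 1 = j by omega] at this
      · -- j = 2 m - k - 1 or 2 m - k - 3
        have hjm : m ≤ j := by omega
        by_cases hj2 : j = 2 * m - 4
        · have := hk5.2.1
          rwa [show 2 * m - 3 - 1 = j by omega] at this
        by_cases hj5 : m + 2 ≤ j
        · have := (hk4 (2 * m - j - 1) (by omega) (by omega) (by omega)).2.1
          rwa [show 2 * m - (2 * m - j - 1) - 1 = j by omega] at this
        · have := (hk4 (2 * m - j - 3) (by omega) (by omega) (by omega)).2.2.2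
          rwa [show 2 * m - (2 * m - j - 3) - 3 = j by omega] at this
    intro j hj hj3
    by_cases hne : j = m - 1
    · subst hne
      have h2 := h 0 (by norm_num) (m - 2) (by omega) (by omega)
      unfold relExpr at h2
      rw [if_neg (by omega)] at h2
      simp only [pow_zero, one_pow, mul_one, add_zero] at h2
      rw [show m - 2 - 1 = m - 3 by omega, show 2 * m - (m - 2) - 1 = m + 1 by omega,
        show m - 2 + 1 = m - 1 by omega, show 2 * m - (m - 2) - 3 = m - 1 by omega] at h2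
      have h3 := hj1 (m - 3) (by omega) (by omega) (by omega)
      have h4 := hj1 (m + 1) (by omega) (by omega) (by omega)
      rw [abs_le] at h2 h3 h4 ⊢
      have h5 : e ≤ (64 * (m : ℝ)) ^ 4 * e := by nlinarith
      constructor <;> linarith [h2.1, h2.2, h3.1, h3.2, h4.1, h4.2]
    · exact (hj1 j hj hj3 hne).trans h1le
  · have h2 := hk5.2.2.2.2
    have h3 : (1 / 4 : ℝ) ≤ 1 / 2 - 3 / (2 * (2 * m : ℝ)) := by
      have : 3 / (2 * (2 * m : ℝ)) ≤ 3 / 40 := by
        apply div_le_div_of_nonneg_left (by norm_num) (by norm_num)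
        linarith
      linarith
    rw [abs_mul, abs_of_nonneg (by linarith : (0:ℝ) ≤ 1 / 2 - 3 / (2 * (2 * m : ℝ))),
      abs_of_nonneg (sq_nonneg _)] at h2
    have h4 : (0:ℝ) ≤ (a (2 * m - 2)) ^ 2 := sq_nonneg _
    nlinarith

end Pool.Agent.H99.TN
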