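import Pool.Agent.H99.TN.Defs

/-! M3: the digraph of the pattern. -/

namespace Pool.Agent.H99.TN

open Polynomial

private def cntU (J L : ℕ) : Finset (ℕ × ℕ) :=
  ((((Finset.range (4 * J + 1 + 2 * L)).image fun i => (i, i + 1)) ∪
    ((Finset.range (2 * J)).image fun i => (i + 2, 2))) ∪
    (((Finset.range (J + L)).image fun k => (2 * J + 2 + 2 * k, 2 * J + 2 + 2 * k)) ∪
      ((Finset.range (J + L)).image fun k => (2 * J + 3 + 2 * k, 2 * J + 2 + 2 * k)))) ∪
    {(4 * J + 1, 0), (4 * J + 1 + 2 * L, 0)}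

private theorem cntU_card (J L : ℕ) (hJ : 1 ≤ J) (hL : 1 ≤ L) :
    (cntU J L).card = 2 * (4 * J + 2 + 2 * L) - 1 := by
  unfold cntU
  rw [Finset.card_union_of_disjoint, Finset.card_union_of_disjoint,
    Finset.card_union_of_disjoint, Finset.card_union_of_disjoint, Finset.card_image_of_injective,
    Finset.card_image_of_injective, Finset.card_image_of_injective,
    Finset.card_image_of_injective, Finset.card_pair]
  · simp only [Finset.card_range]
    omega
  · intro h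
    have := congrArg Prod.fst h
    simp only at this
    omega
  · intro a b h
    have := congrArg Prod.fst h
    simp only at this
    omega
  · intro a b h
    have := congrArg Prod.fst h
    simp only at this
    omega
  · intro a b h
    have := congrArg Prod.fst h
    simp only at this
    omega
  · intro a b h
    have := congrArg Prod.fst h
    simp only at this
    omega
  · rw [Finset.disjoint_left]
    rintro ⟨a, b⟩ h1 h2
    simp only [Finset.mem_image, Finset.mem_range, Prod.mk.injEq] at h1 h2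
    obtain ⟨k, _, h3, h4⟩ := h1
    obtain ⟨k', _, h5, h6⟩ := h2
    omega
  · rw [Finset.disjoint_left]
    rintro ⟨a, b⟩ h1 h2
    simp only [Finset.mem_image, Finset.mem_range, Prod.mk.injEq] at h1 h2
    obtain ⟨k, _, h3, h4⟩ := h1
    obtain ⟨k', _, h5, h6⟩ := h2
    omega
  · rw [Finset.disjoint_left]
    rintro ⟨a, b⟩ h1 h2
    simp only [Finset.mem_union, Finset.mem_image, Finset.mem_range, Prod.mk.injEq] at h1 h2
    rcases h1 with ⟨k, _, h3, h4⟩ | ⟨k, _, h3, h4⟩ <;>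
      rcases h2 with ⟨k', _, h5, h6⟩ | ⟨k', _, h5, h6⟩ <;> omega
  · rw [Finset.disjoint_left]
    rintro ⟨a, b⟩ h1 h2
    simp only [Finset.mem_union, Finset.mem_image, Finset.mem_range, Finset.mem_insert,
      Finset.mem_singleton, Prod.mk.injEq] at h1 h2
    rcases h1 with (⟨k, _, h3, h4⟩ | ⟨k, _, h3, h4⟩) | (⟨k, _, h3, h4⟩ | ⟨k, _, h3, h4⟩) <;>
      omega

theorem pat_count (J L : ℕ) (hJ : 1 ≤ J) (hL : 1 ≤ L) :
    Set.ncard {p : Fin (4 * J + 2 + 2 * L) × Fin (4 * J + 2 + 2 * L) | pat J L p.1 p.2} =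
      2 * (4 * J + 2 + 2 * L) - 1 := by
  rw [← cntU_card J L hJ hL, ← Set.ncard_coe_finset]
  have hinj : Function.Injective (fun p : Fin (4 * J + 2 + 2 * L) × Fin (4 * J + 2 + 2 * L) =>
      ((p.1 : ℕ), (p.2 : ℕ))) := by
    rintro ⟨a, b⟩ ⟨a', b'⟩ h
    simp only [Prod.mk.injEq] at h
    exact Prod.ext (Fin.ext h.1) (Fin.ext h.2)
  rw [← Set.ncard_image_of_injective _ hinj]
  congr 1
  ext ⟨a, b⟩
  simp only [cntU, Set.mem_image, Set.mem_ofPred_eq, Finset.coe_union, Finset.coe_image,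
    Finset.coe_range, Finset.coe_insert, Finset.coe_singleton, Set.mem_union, Set.mem_image,
    Set.mem_Iio, Set.mem_insert_iff, Set.mem_singleton_iff, Prod.mk.injEq]
  constructor
  · rintro ⟨⟨⟨i, hi⟩, ⟨j, hj⟩⟩, h, rfl, rfl⟩
    rcases h with h | ⟨h1, h2, h3⟩ | ⟨h1, h2, h3⟩ | ⟨h1, h2⟩
    · simp only at h
      exact Or.inl (Or.inl (Or.inl ⟨i, by omega, rfl, by simpa using h.symm⟩))
    · simp only at h1 h2 h3
      exact Or.inl (Or.inl (Or.inr ⟨i - 2, by omega, by simp only; omega, by simp only; omega⟩))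
    · simp only at h1 h2 h3
      rcases h3 with h3 | h3
      · exact Or.inl (Or.inr (Or.inl ⟨(j - (2 * J + 2)) / 2, by omega, by simp only; omega,
          by simp only; omega⟩))
      · exact Or.inl (Or.inr (Or.inr ⟨(j - (2 * J + 2)) / 2, by omega, by simp only; omega,
          by simp only; omega⟩))
    · simp only at h1 h2
      rcases h2 with h2 | h2
      · exact Or.inr (Or.inl ⟨h2, h1⟩)
      · exact Or.inr (Or.inr ⟨h2, h1⟩)
  · rintro (((⟨k, hk, rfl, rfl⟩ | ⟨k, hk, rfl, rfl⟩) | (⟨k, hk, rfl, rfl⟩ | ⟨k, hk, rfl, rfl⟩)) |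
      (⟨rfl, rfl⟩ | ⟨rfl, rfl⟩))
    · exact ⟨(⟨k, by omega⟩, ⟨k + 1, by omega⟩), Or.inl rfl, rfl, rfl⟩
    · exact ⟨(⟨k + 2, by omega⟩, ⟨2, by omega⟩), Or.inr (Or.inl ⟨rfl, by simp only; omega,
        by simp only; omega⟩), rfl, rfl⟩
    · exact ⟨(⟨2 * J + 2 + 2 * k, by omega⟩, ⟨2 * J + 2 + 2 * k, by omega⟩),
        Or.inr (Or.inr (Or.inl ⟨by simp only; omega, by simp only; omega, Or.inl rfl⟩)), rfl, rfl⟩
    · exact ⟨(⟨2 * J + 3 + 2 * k, by omega⟩, ⟨2 * J + 2 + 2 * k, by omega⟩),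
        Or.inr (Or.inr (Or.inl ⟨by simp only; omega, by simp only; omega,
          Or.inr (by simp only; omega)⟩)), rfl, rfl⟩
    · exact ⟨(⟨4 * J + 1, by omega⟩, ⟨0, by omega⟩), Or.inr (Or.inr (Or.inr ⟨rfl, Or.inl rfl⟩)),
        rfl, rfl⟩
    · exact ⟨(⟨4 * J + 1 + 2 * L, by omega⟩, ⟨0, by omega⟩),
        Or.inr (Or.inr (Or.inr ⟨rfl, Or.inr rfl⟩)), rfl, rfl⟩

private theorem cnt_up (J L : ℕ) {k l : ℕ} (h : k ≤ l) (hl : l < 4 * J + 2 + 2 * L) :
    Relation.ReflTransGen (pat J L) ⟨k, h.trans_lt hl⟩ ⟨l, hl⟩ := by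
  induction l, h using Nat.le_induction with
  | base => exact Relation.ReflTransGen.refl
  | succ l hkl ih => exact (ih (by omega)).tail (Or.inl rfl)

theorem pat_conn (J L : ℕ) (hJ : 1 ≤ J) (hL : 1 ≤ L) (i j : Fin (4 * J + 2 + 2 * L)) :
    Relation.ReflTransGen (pat J L) i j := by
  have h1 := cnt_up J L (k := i) (l := 4 * J + 1 + 2 * L) (by have := i.2; omega) (by omega)
  have h2 := cnt_up J L (k := 0) (l := j) (Nat.zero_le _) j.2
  have h3 : pat J L ⟨4 * J + 1 + 2 * L, by omega⟩ ⟨0, by omega⟩ :=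
    Or.inr (Or.inr (Or.inr ⟨rfl, Or.inr rfl⟩))
  exact (h1.tail h3).trans h2

end Pool.Agent.H99.TN
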