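import Mathlib

/-!
Definitions for the zero-nonzero counterexample with 2n-1 entries (MP_041d78_al, Q2).
Here n = 2m with m odd; the index i of the grid runs over 1 .. m-1 (one index for each
conjugate pair), 0 and m are the two real roots.
-/

namespace Pool.Agent.H99.TN

open Polynomial

noncomputable section

/-- The grid cosine `cos (π i / m)`. -/
def cc (m i : ℕ) : ℝ := Real.cos (Real.pi * i / m)

/-- The `i`-th power of the primitive `n`-th root of unity. -/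
def tw (n i : ℕ) : ℂ := Complex.exp (2 * Real.pi * Complex.I * (i / n))

/-- `∑_{j=1}^{n-1} A_j w^j`. -/
def hsum (n : ℕ) (A : ℕ → ℝ) (w : ℂ) : ℂ := ∑ j ∈ Finset.Ico 1 n, (A j : ℂ) * w ^ j

/-- `w` is the root of `w^n = 1 + ∑ A_j w^j` near the `i`-th root of unity. -/
def IsRt (n : ℕ) (A : ℕ → ℝ) (i : ℕ) (w : ℂ) : Prop :=
  w ^ n = 1 + hsum n A w ∧ ‖w - tw n i‖ ≤ 1 / (4 * n)

/-- The root near the `i`-th root of unity (0 if there is none). -/
def rt (n : ℕ) (A : ℕ → ℝ) (i : ℕ) : ℂ := by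
  classical exact if h : ∃ w, IsRt n A i w then h.choose else 0

/-- The sum of the grid cosines over `S`. -/
def sS (m : ℕ) (S : Finset ℕ) : ℝ := ∑ i ∈ S, cc m i

/-- Half the sum of all inverse roots indexed by the two real ones and by `S`. -/
def FS (m : ℕ) (A : ℕ → ℝ) (S : Finset ℕ) : ℝ :=
  ((rt (2 * m) A 0).re + (rt (2 * m) A m).re) / 2 + ∑ i ∈ S, (rt (2 * m) A i).re

/-- Admissible index sets: `2J` indices, all but a twenty-first part close to the real axis. -/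
def Adm (m J : ℕ) (S : Finset ℕ) : Prop :=
  S ⊆ Finset.Ico 1 m ∧ S.card = 2 * J ∧
    20 * (S.filter (fun i => |cc m i| < 999 / 1000)).card ≤
      (S.filter (fun i => 999 / 1000 ≤ |cc m i|)).card

/-- The zero-nonzero pattern (positions of the nonzero entries), order `4J+2+2L`. -/
def pat (J L : ℕ) (i j : Fin (4 * J + 2 + 2 * L)) : Prop :=
  (j : ℕ) = i + 1 ∨
  ((j : ℕ) = 2 ∧ 2 ≤ (i : ℕ) ∧ (i : ℕ) < 2 + 2 * J) ∨
  (2 + 2 * J ≤ (j : ℕ) ∧ (j : ℕ) % 2 = 0 ∧ ((i : ℕ) = j ∨ (i : ℕ) = j + 1)) ∨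
  ((j : ℕ) = 0 ∧ ((i : ℕ) = 4 * J + 1 ∨ (i : ℕ) = 4 * J + 1 + 2 * L))

end

end Pool.Agent.H99.TN
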