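import Pool.Agent.H99.TN.Defs
import Pool.Agent.H99.TN.Additive

/-! M11: abstract detection theorem. -/

namespace Pool.Agent.H99.TN

open Polynomial

theorem detect_abs : ∃ K : ℝ, 0 < K ∧ ∀ (B Δ c0 gB : ℝ) (x₁ x₂ x₃ x₄ : ℝ → ℝ) (I : Set ℕ)
    (c g : ℕ → ℝ), 1 ≤ B → 0 < Δ → Δ ≤ 1 / 100 → |c0| ≤ 1 / 10 → (∀ i ∈ I, |c i| ≤ 1) →
    (∀ u : ℝ, |u| ≤ 5 / 2 → |x₁ u| ≤ B) →
    (∀ i ∈ I, ∀ u₁ u₂ u₃ u₄ : ℝ, |u₁| ≤ 5 / 2 → |u₂| ≤ 5 / 2 → |u₃| ≤ 5 / 2 → |u₄| ≤ 5 / 2 →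
      (Δ / 2 ≤ c i + c0 + u₁ + u₂ - u₃ - u₄ → 0 < gB + g i + x₁ u₁ + x₂ u₂ + x₃ u₃ + x₄ u₄) ∧
      (c i + c0 + u₁ + u₂ - u₃ - u₄ ≤ -(Δ / 2) →
        gB + g i + x₁ u₁ + x₂ u₂ + x₃ u₃ + x₄ u₄ < 0)) →
    ∃ lam kap : ℝ, ∀ i ∈ I, |g i - lam * c i - kap| ≤ K * B * Δ := by
  refine ⟨1000, by norm_num, ?_⟩
  intro B Δ c0 gB x₁ x₂ x₃ x₄ I c g hB hΔ hΔ1 hc0 hc hx1 hs
  rcases I.eq_empty_or_nonempty with hI | ⟨i0, hi0⟩
  · exact ⟨0, 0, by simp [hI]⟩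
  -- the grid
  set N : ℕ := ⌊(6 / 5 : ℝ) / Δ⌋₊ with hNdef
  have hq : (120 : ℝ) ≤ (6 / 5) / Δ := by
    rw [le_div_iff₀ hΔ]; nlinarith
  have hN1 : (N : ℝ) ≤ (6 / 5) / Δ := Nat.floor_le (by linarith)
  have hN2 : (6 / 5) / Δ < (N : ℝ) + 1 := Nat.lt_floor_add_one _
  have hNΔ : (N : ℝ) * Δ ≤ 6 / 5 := by
    have := mul_le_mul_of_nonneg_right hN1 hΔ.le
    rwa [div_mul_cancel₀ _ hΔ.ne'] at this
  have hNΔ2 : 119 / 100 ≤ (N : ℝ) * Δ := by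
    have := mul_lt_mul_of_pos_right hN2 hΔ
    rw [div_mul_cancel₀ _ hΔ.ne'] at this
    nlinarith
  have hN100 : (100 : ℝ) ≤ N := by linarith
  have hN10 : 10 ≤ N := by
    have : (10 : ℝ) ≤ N := by linarith
    exact_mod_cast this
  have hNpos : (0 : ℝ) < N := by linarith
  have hgrid : ∀ k : ℤ, |k| ≤ (N : ℤ) → |(k : ℝ) * Δ| ≤ 6 / 5 := by
    intro k hk
    rw [abs_mul, abs_of_pos hΔ]
    have : |(k : ℝ)| ≤ N := by exact_mod_cast hk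
    nlinarith
  have hci0 := abs_le.mp (hc i0 hi0)
  have hc0' := abs_le.mp hc0
  obtain ⟨γ, hγ⟩ := additive_lemma N hN10 (fun k => x₁ (k * Δ)) (fun l => x₂ (l * Δ)) (2 * B)
    (by
      intro k l k' l' hk hl hk' hl' hlt
      have h1 := hgrid k hk
      have h2 := hgrid l hl
      have h3 := hgrid k' hk'
      have h4 := hgrid l' hl'
      have h1' := abs_le.mp h1
      have h2' := abs_le.mp h2
      set u : ℝ := (c i0 + c0 + (k * Δ + l * Δ) + Δ / 2) / 2 with hu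
      have hu' : |u| ≤ 5 / 2 := by
        rw [abs_le, hu]
        constructor <;> linarith [h1'.1, h1'.2, h2'.1, h2'.2]
      have hneg := (hs i0 hi0 (k * Δ) (l * Δ) u u (by linarith) (by linarith) hu' hu').2
        (by rw [hu]; linarith)
      have hlt' : (k : ℝ) + l + 1 ≤ k' + l' := by exact_mod_cast hlt
      have hpos := (hs i0 hi0 (k' * Δ) (l' * Δ) u u (by linarith) (by linarith) hu' hu').1
        (by rw [hu]; nlinarith)
      linarith)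
    (by
      have h1 := abs_le.mp (hx1 (((N : ℤ) : ℝ) * Δ) (by
        have := hgrid (N : ℤ) (by simp)
        linarith))
      have h2 := abs_le.mp (hx1 (((-(N : ℤ) : ℤ) : ℝ) * Δ) (by
        have := hgrid (-(N : ℤ)) (by simp)
        linarith))
      linarith [h1.2, h2.1])
  -- bound for γ
  have herr : 100 * (2 * B) / N ≤ 170 * B * Δ := by
    rw [div_le_iff₀ hNpos]
    nlinarith [mul_le_mul_of_nonneg_left hNΔ2 (by linarith : (0 : ℝ) ≤ B)]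
  have herr2 : 100 * (2 * B) / N ≤ 2 * B := by
    rw [div_le_iff₀ hNpos]
    nlinarith
  have hγN := abs_le.mp (hγ (N : ℤ) (by simp))
  have hx0 := abs_le.mp (hx1 (((0 : ℤ) : ℝ) * Δ) (by simp; norm_num))
  have hxN := abs_le.mp (hx1 (((N : ℤ) : ℝ) * Δ) (by
        have := hgrid (N : ℤ) (by simp)
        linarith))
  have hγb : |γ| ≤ 4 * B * Δ := by
    have h1 : |(N : ℝ) * γ| ≤ 4 * B := by
      rw [abs_le]
      push_cast at hγN hx0 hxN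
      constructor <;> linarith [hγN.1, hγN.2, hx0.1, hx0.2, hxN.1, hxN.2]
    rw [abs_mul, abs_of_pos hNpos] at h1
    have h2 : |γ| * ((N : ℝ) * Δ) ≤ 4 * B * Δ := by nlinarith
    nlinarith [abs_nonneg γ]
  set G : ℝ := gB + x₂ 0 + x₃ 0 + x₄ 0 with hG
  set X0 : ℝ := x₁ (((0 : ℤ) : ℝ) * Δ) with hX0
  refine ⟨γ / Δ, -G - X0 + γ * c0 / Δ, ?_⟩
  intro i hi
  have hci := abs_le.mp (hc i hi)
  -- the integer k
  set k : ℤ := ⌈(1 / 2 - (c i + c0) / Δ : ℝ)⌉ with hk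
  have hk1 : (1 / 2 - (c i + c0) / Δ : ℝ) ≤ k := Int.le_ceil _
  have hk2 : (k : ℝ) < 1 / 2 - (c i + c0) / Δ + 1 := Int.ceil_lt_add_one _
  have hk1' : Δ / 2 ≤ k * Δ + c i + c0 := by
    have := mul_le_mul_of_nonneg_right hk1 hΔ.le
    rw [sub_mul, div_mul_cancel₀ _ hΔ.ne'] at this
    linarith
  have hk2' : k * Δ + c i + c0 < 3 * Δ / 2 := by
    have := mul_lt_mul_of_pos_right hk2 hΔ
    rw [add_mul, sub_mul, div_mul_cancel₀ _ hΔ.ne'] at this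
    linarith
  have hkN : |k| ≤ (N : ℤ) := by
    have h1 : |(k : ℝ)| * Δ ≤ N * Δ := by
      rw [← abs_of_pos hΔ, ← abs_mul, abs_of_pos hΔ, abs_le]
      constructor <;> linarith
    have h2 : |(k : ℝ)| ≤ N := le_of_mul_le_mul_right h1 hΔ
    exact_mod_cast h2
  have hk2N : |k - 2| ≤ (N : ℤ) := by
    have h1 : |((k - 2 : ℤ) : ℝ)| * Δ ≤ N * Δ := by
      rw [← abs_of_pos hΔ, ← abs_mul, abs_of_pos hΔ, abs_le]
      push_cast
      constructor <;> linarith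
    have h2 : |((k - 2 : ℤ) : ℝ)| ≤ N := le_of_mul_le_mul_right h1 hΔ
    exact_mod_cast h2
  have hz : |(0 : ℝ)| ≤ 5 / 2 := by simp; norm_num
  have hA := (hs i hi (k * Δ) 0 0 0 (by have := hgrid k hkN; linarith) hz hz hz).1
    (by linarith)
  have hBn := (hs i hi (((k - 2 : ℤ) : ℝ) * Δ) 0 0 0
    (by have := hgrid (k - 2) hk2N; linarith) hz hz hz).2
    (by push_cast; linarith)
  have e1 := abs_le.mp (hγ k hkN)
  have e2 := abs_le.mp (hγ (k - 2) hk2N)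
  have hγb' := abs_le.mp hγb
  -- k γ in terms of c i
  set θ : ℝ := k * Δ + c i + c0 with hθ
  have hkγ : (k : ℝ) * γ = γ / Δ * (θ - c i - c0) := by
    rw [hθ]; field_simp; ring
  have hθγ : |γ / Δ * θ| ≤ 6 * B * Δ := by
    rw [abs_mul, abs_div, abs_of_pos hΔ]
    have h0 : 0 ≤ θ := by linarith
    rw [abs_of_nonneg h0]
    have h1 : |γ| / Δ * θ ≤ |γ| / Δ * (3 * Δ / 2) :=
      mul_le_mul_of_nonneg_left hk2'.le (by positivity)
    have h2 : |γ| / Δ * (3 * Δ / 2) = 3 / 2 * |γ| := by field_simp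
    nlinarith
  have hθγ' := abs_le.mp hθγ
  have hkey : γ / Δ * (θ - c i - c0) = γ / Δ * θ - γ / Δ * c i - γ * c0 / Δ := by
    field_simp
  have hBΔ : 0 < B * Δ := by positivity
  have e2' : ((k - 2 : ℤ) : ℝ) * γ = k * γ - 2 * γ := by push_cast; ring
  rw [e2', hkγ, hkey] at e2
  rw [hkγ, hkey] at e1
  rw [abs_le]
  constructor
  · linarith only [e1.1, e1.2, hγb'.1, hγb'.2, hθγ'.1, hθγ'.2, hA, hG, hBΔ, herr]
  · linarith only [e2.1, e2.2, hγb'.1, hγb'.2, hθγ'.1, hθγ'.2, hBn, hG, hBΔ, herr]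

end Pool.Agent.H99.TN
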