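import Pool.Agent.H99.TN.Defs

/-! Definitions for the digit families and the index systems. -/

namespace Pool.Agent.H99.TN

open Polynomial

/-- folding of an index -/
def core (m i : ℕ) : ℕ := min i (m - i)

/-- the steps of the differences -/
def tt (F k : ℕ) : ℕ := 512 * F * 2 ^ k

/-- the level functions: iterated differences of the grid cosine -/
noncomputable def XX (m F : ℕ) : ℕ → ℕ → ℝ
  | 0, y => cc m y
  | k + 1, y => XX m F k y - XX m F k (y + tt F k)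

/-- amplitude of the level functions -/
noncomputable def rho (m F : ℕ) : ℕ → ℝ
  | 0 => 1
  | k + 1 => 2 * Real.sin (Real.pi / m * tt F k / 2) * rho m F k

/-- middle values of the level functions -/
noncomputable def mid (m F k : ℕ) : ℝ := rho m F k * Real.cos (Real.pi / 4 - k * (Real.pi / 2))

/-- the clusters: index sets whose cosine sum is the level function or its negative -/
def cl (m F : ℕ) : ℕ → ℕ → Bool → Finset ℕ
  | 0, y, σ => if σ then {y} else {m - y}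
  | k + 1, y, σ => cl m F k y σ ∪ cl m F k (y + tt F k) (!σ)

/-- number of residue classes used by one family -/
def nQ (E : ℕ) : ℕ := 32 + E

/-- A system of index sets: a base set `B` and four movable sets. -/
structure Sys (m J d : ℕ) (e L c0 : ℝ) (I : Set ℕ) (B : Finset ℕ)
    (D : Fin 4 → ℝ → Finset ℕ) : Prop where
  hc0 : |c0| ≤ 1 / 10
  sumB : sS m B = c0
  cardD : ∀ f u, |u| ≤ 5 / 2 → (D f u).card = d
  adm : ∀ i ∈ I, ∀ u : Fin 4 → ℝ, (∀ f, |u f| ≤ 5 / 2) →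
    Adm m J (insert i (B ∪ Finset.univ.biUnion fun f => D f (u f)))
  sum : ∀ i ∈ I, ∀ u : Fin 4 → ℝ, (∀ f, |u f| ≤ 5 / 2) → ∀ h : ℕ → ℝ,
    ∑ j ∈ insert i (B ∪ Finset.univ.biUnion fun f => D f (u f)), h j =
      h i + ∑ j ∈ B, h j + ∑ f, ∑ j ∈ D f (u f), h j
  sD0 : ∀ u : ℝ, |u| ≤ 5 / 2 → |sS m (D 0 u) - (L + u)| ≤ e
  sD1 : ∀ u : ℝ, |u| ≤ 5 / 2 → |sS m (D 1 u) - (L + u)| ≤ e
  sD2 : ∀ u : ℝ, |u| ≤ 5 / 2 → |sS m (D 2 u) + (L + u)| ≤ e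
  sD3 : ∀ u : ℝ, |u| ≤ 5 / 2 → |sS m (D 3 u) + (L + u)| ≤ e

/-- The detection property. -/
def DetProp (E J : ℕ) (K : ℝ) (m : ℕ) : Prop :=
  (∀ (g : ℕ → ℝ) (g0 Δ : ℝ), (∀ i ∈ Finset.Ico 1 m, |g i| ≤ 2) → |g0| ≤ 2 →
    K / (m : ℝ) ^ E ≤ Δ → Δ ≤ 1 / 100 →
    (∀ S, Adm m J S → (Δ / 4 ≤ sS m S → 0 < g0 + ∑ i ∈ S, g i) ∧
      (sS m S ≤ -(Δ / 4) → g0 + ∑ i ∈ S, g i < 0)) →
    ∃ lam kap : ℝ, ∀ i ∈ Finset.Ico 1 m, |g i - lam * cc m i - kap| ≤ K * Δ) ∧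
  (∀ Δ : ℝ, K / (m : ℝ) ^ E ≤ Δ → Δ ≤ 1 / 100 →
    (∃ S, Adm m J S ∧ Δ / 4 ≤ sS m S ∧ sS m S ≤ 2 * Δ) ∧
    (∃ S, Adm m J S ∧ -(2 * Δ) ≤ sS m S ∧ sS m S ≤ -(Δ / 4)))

end Pool.Agent.H99.TN
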