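import Pool.Agent.H99.TN.Defs
import Pool.Agent.H99.TN.FDefs

/-! M12b: the clusters. -/

namespace Pool.Agent.H99.TN

open Polynomial

private theorem famC_tt (F k : ℕ) : tt F (k + 1) = tt F k + tt F k := by
  unfold tt
  rw [pow_succ]
  ring

private theorem famC_cc (m y : ℕ) (hm : 0 < m) (hy : y ≤ m) : cc m (m - y) = -cc m y := by
  unfold cc
  have hm' : (m : ℝ) ≠ 0 := by positivity
  rw [Nat.cast_sub hy]
  have h : Real.pi * ((m : ℝ) - y) / m = Real.pi - Real.pi * y / m := by
    field_simp
  rw [h, Real.cos_pi_sub]

theorem cl_props (m F k y : ℕ) (hF : 1 ≤ F) (hy : 1 ≤ y) (hy2 : 2 * (y + tt F k) < m) (σ : Bool) :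
    cl m F k y σ ⊆ Finset.Ico 1 m ∧ (cl m F k y σ).card = 2 ^ k ∧
    (∀ i ∈ cl m F k y σ, y ≤ core m i ∧ core m i < y + tt F k ∧ core m i % F = y % F) ∧
    sS m (cl m F k y σ) = if σ then XX m F k y else -XX m F k y := by
  induction k generalizing y σ with
  | zero =>
    have ht : 1 ≤ tt F 0 := by
      unfold tt
      rw [pow_zero, mul_one]
      omega
    have h1 : core m y = y := by
      unfold core
      exact min_eq_left (by omega)
    have h2 : core m (m - y) = y := by
      unfold core
      rw [Nat.sub_sub_self (by omega)]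
      exact min_eq_right (by omega)
    cases σ
    · have hc : cl m F 0 y false = {m - y} := rfl
      rw [hc]
      refine ⟨?_, by simp, ?_, ?_⟩
      · intro i hi
        rw [Finset.mem_singleton] at hi
        rw [Finset.mem_Ico]
        omega
      · intro i hi
        rw [Finset.mem_singleton] at hi
        subst hi
        rw [h2]
        exact ⟨le_rfl, by omega, rfl⟩
      · unfold sS
        rw [Finset.sum_singleton, famC_cc m y (by omega) (by omega)]
        rfl
    · have hc : cl m F 0 y true = {y} := rfl
      rw [hc]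
      refine ⟨?_, by simp, ?_, ?_⟩
      · intro i hi
        rw [Finset.mem_singleton] at hi
        rw [Finset.mem_Ico]
        omega
      · intro i hi
        rw [Finset.mem_singleton] at hi
        subst hi
        rw [h1]
        exact ⟨le_rfl, by omega, rfl⟩
      · unfold sS
        rw [Finset.sum_singleton]
        rfl
  | succ k ih =>
    rw [famC_tt] at hy2
    obtain ⟨a1, a2, a3, a4⟩ := ih y hy (by omega) σ
    obtain ⟨b1, b2, b3, b4⟩ := ih (y + tt F k) (by omega) (by omega) (!σ)
    have hc : cl m F (k + 1) y σ = cl m F k y σ ∪ cl m F k (y + tt F k) (!σ) := rfl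
    have hdisj : Disjoint (cl m F k y σ) (cl m F k (y + tt F k) (!σ)) := by
      rw [Finset.disjoint_left]
      intro i hi hi2
      have e1 := (a3 i hi).2.1
      have e2 := (b3 i hi2).1
      omega
    rw [hc]
    refine ⟨Finset.union_subset a1 b1, ?_, ?_, ?_⟩
    · rw [Finset.card_union_of_disjoint hdisj, a2, b2, pow_succ]
      ring
    · intro i hi
      rw [famC_tt]
      rcases Finset.mem_union.1 hi with h | h
      · obtain ⟨c1, c2, c3⟩ := a3 i h
        exact ⟨c1, by omega, c3⟩
      · obtain ⟨c1, c2, c3⟩ := b3 i h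
        refine ⟨by omega, by omega, ?_⟩
        rw [c3]
        have : tt F k = F * (512 * 2 ^ k) := by unfold tt; ring
        rw [this, Nat.add_mul_mod_self_left]
    · unfold sS
      rw [Finset.sum_union hdisj]
      have e1 : ∑ x ∈ cl m F k y σ, cc m x = sS m (cl m F k y σ) := rfl
      have e2 : ∑ x ∈ cl m F k (y + tt F k) (!σ), cc m x = sS m (cl m F k (y + tt F k) (!σ)) := rfl
      rw [e1, e2, a4, b4]
      have hX : XX m F (k + 1) y = XX m F k y - XX m F k (y + tt F k) := rfl
      rw [hX]
      cases σ
      · simp only [Bool.not_false, if_true, Bool.false_eq_true, if_false]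
        ring
      · simp only [Bool.not_true, if_true, Bool.false_eq_true, if_false]
        ring

end Pool.Agent.H99.TN
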