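import Pool.Agent.H99.TN.Defs
import Pool.Agent.H99.TN.FDefs

/-! M12a: amplitudes and the target lemma. -/

namespace Pool.Agent.H99.TN

open Polynomial

private lemma fx_small (E F : ℕ) (hF : 1 ≤ F) (m : ℕ) (hm : 204800 * F * 2 ^ E + 1 ≤ m) :
    0 < Real.pi / m ∧ Real.pi / m * (256 * F * 2 ^ E) ≤ 1 / 200 := by
  have hm0 : (0 : ℝ) < m := by exact_mod_cast (by omega : 0 < m)
  have h1 : (204800 * F * 2 ^ E : ℝ) ≤ m := by
    have : ((204800 * F * 2 ^ E + 1 : ℕ) : ℝ) ≤ m := by exact_mod_cast hm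
    push_cast at this
    linarith
  refine ⟨div_pos Real.pi_pos hm0, ?_⟩
  have hFE : (0 : ℝ) < 256 * F * 2 ^ E := by
    have : (0 : ℝ) < F := by exact_mod_cast (by omega : 0 < F)
    positivity
  have h4 := Real.pi_le_four
  rw [div_mul_eq_mul_div, div_le_iff₀ hm0]
  have h5 : Real.pi * (256 * F * 2 ^ E) ≤ 4 * (256 * F * 2 ^ E) :=
    mul_le_mul_of_nonneg_right h4 hFE.le
  linarith

private lemma fx_small_k (E F : ℕ) (hF : 1 ≤ F) (m : ℕ) (hm : 204800 * F * 2 ^ E + 1 ≤ m)
    (k : ℕ) (hk : k ≤ E) : Real.pi / m * (256 * F * 2 ^ k) ≤ 1 / 200 := by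
  obtain ⟨h0, h1⟩ := fx_small E F hF m hm
  refine le_trans ?_ h1
  refine mul_le_mul_of_nonneg_left ?_ h0.le
  have : (2 : ℝ) ^ k ≤ 2 ^ E := pow_le_pow_right₀ (by norm_num) hk
  have hF0 : (0 : ℝ) ≤ 256 * F := by positivity
  exact mul_le_mul_of_nonneg_left this hF0

private lemma fx_arg (m F k : ℕ) :
    Real.pi / m * tt F k / 2 = Real.pi / m * (256 * F * 2 ^ k) := by
  unfold tt
  push_cast
  ring

private lemma fx_argpos (F : ℕ) (hF : 1 ≤ F) (m : ℕ) (hm : 0 < m) (k : ℕ) :
    0 < Real.pi / m * (256 * F * 2 ^ k) := by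
  have hm0 : (0 : ℝ) < m := by exact_mod_cast hm
  have : (0 : ℝ) < F := by exact_mod_cast (by omega : 0 < F)
  have := Real.pi_pos
  positivity

private lemma fx_sin (x : ℝ) (h0 : 0 < x) (h1 : x ≤ 1 / 10) : 99 / 100 * x ≤ Real.sin x := by
  have h2 := Real.sin_gt_sub_cube h0
  have h3 : x ^ 3 ≤ x * (1 / 100) := by
    have h4 : x ^ 2 ≤ 1 / 100 := by nlinarith
    calc x ^ 3 = x * x ^ 2 := by ring
      _ ≤ x * (1 / 100) := mul_le_mul_of_nonneg_left h4 h0.le
  linarith

theorem rho_bounds (E F : ℕ) (hF : 1 ≤ F) : ∃ (K : ℝ) (m0 : ℕ), 0 < K ∧ ∀ m ≥ m0,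
    (∀ k ≤ E, 0 < rho m F k) ∧ rho m F E ≤ K / (m : ℝ) ^ E ∧
    (∀ k < E, rho m F k * (Real.pi / m * F) ≤ 9 / 100 * rho m F (k + 1)) ∧
    32 * (Real.pi / m * F) ≤ 9 / 100 * rho m F 1 := by
  have hF0 : (0 : ℝ) < F := by exact_mod_cast (by omega : 0 < F)
  have hpi := Real.pi_pos
  refine ⟨(Real.pi * (512 * F * 2 ^ E)) ^ E, 204800 * F * 2 ^ E + 1, by positivity, ?_⟩
  intro m hm
  have hm1 : 0 < m := by omega
  have hm0 : (0 : ℝ) < m := by exact_mod_cast hm1
  obtain ⟨hth, hsm⟩ := fx_small E F hF m hm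
  have hx : ∀ k ≤ E, 0 < Real.pi / m * (256 * F * 2 ^ k) ∧
      Real.pi / m * (256 * F * 2 ^ k) ≤ 1 / 10 := fun k hk =>
    ⟨fx_argpos F hF m hm1 k, (fx_small_k E F hF m hm k hk).trans (by norm_num)⟩
  have hsin : ∀ k ≤ E, 99 / 100 * (Real.pi / m * (256 * F * 2 ^ k)) ≤
      Real.sin (Real.pi / m * tt F k / 2) := by
    intro k hk
    rw [fx_arg]
    exact fx_sin _ (hx k hk).1 (hx k hk).2
  have hpos : ∀ k ≤ E, 0 < rho m F k := by
    intro k
    induction k with
    | zero => intro _; simp [rho]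
    | succ k ih =>
        intro hk
        have h1 := ih (by omega)
        have h2 := hsin k (by omega)
        have h3 := (hx k (by omega)).1
        show 0 < 2 * Real.sin (Real.pi / m * tt F k / 2) * rho m F k
        have h4 : 0 < Real.sin (Real.pi / m * tt F k / 2) := by linarith
        positivity
  refine ⟨hpos, ?_, ?_, ?_⟩
  · have hup : ∀ k ≤ E, rho m F k ≤ (Real.pi / m * (512 * F * 2 ^ E)) ^ k := by
      intro k
      induction k with
      | zero => intro _; simp [rho]
      | succ k ih =>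
          intro hk
          have h1 := ih (by omega)
          have h2 := hpos k (by omega)
          have h3 : Real.sin (Real.pi / m * tt F k / 2) ≤ Real.pi / m * (256 * F * 2 ^ E) := by
            refine (Real.sin_le ?_).trans ?_
            · rw [fx_arg]; exact (hx k (by omega)).1.le
            · rw [fx_arg]
              refine mul_le_mul_of_nonneg_left ?_ hth.le
              have : (2 : ℝ) ^ k ≤ 2 ^ E := pow_le_pow_right₀ (by norm_num) (by omega)
              exact mul_le_mul_of_nonneg_left this (by positivity)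
          show 2 * Real.sin (Real.pi / m * tt F k / 2) * rho m F k ≤ _
          rw [pow_succ, mul_comm]
          refine mul_le_mul h1 (by linarith) ?_ (by positivity)
          have h5 := hsin k (by omega)
          have h6 := (hx k (by omega)).1
          linarith
    have h1 := hup E le_rfl
    refine h1.trans (le_of_eq ?_)
    rw [← div_pow]
    congr 1
    ring
  · intro k hk
    have h1 := hsin k hk.le
    have h2 := hpos k hk.le
    show rho m F k * (Real.pi / m * F) ≤
      9 / 100 * (2 * Real.sin (Real.pi / m * tt F k / 2) * rho m F k)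
    have h3 : Real.pi / m * F ≤ 9 / 100 * (2 * Real.sin (Real.pi / m * tt F k / 2)) := by
      have h4 : (1 : ℝ) ≤ 2 ^ k := one_le_pow₀ (by norm_num)
      have h5 : Real.pi / m * F ≤ Real.pi / m * F * 2 ^ k :=
        le_mul_of_one_le_right (by positivity) h4
      have h6 : (0 : ℝ) ≤ Real.pi / m * F := by positivity
      have h7 : Real.pi / m * (256 * F * 2 ^ k) = 256 * (Real.pi / m * F * 2 ^ k) := by ring
      rw [h7] at h1
      linarith
    nlinarith
  · by_cases hE : 0 < E
    · have h1 := hsin 0 (by omega)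
      show 32 * (Real.pi / m * F) ≤ 9 / 100 * (2 * Real.sin (Real.pi / m * tt F 0 / 2) * rho m F 0)
      have h7 : Real.pi / m * (256 * F * 2 ^ 0) = 256 * (Real.pi / m * F) := by ring
      rw [h7] at h1
      have h6 : (0 : ℝ) ≤ Real.pi / m * F := by positivity
      show 32 * (Real.pi / m * F) ≤ 9 / 100 * (2 * Real.sin (Real.pi / m * tt F 0 / 2) * 1)
      linarith
    · have hE0 : E = 0 := by omega
      have h1 := hsin 0 (by omega)
      have h7 : Real.pi / m * (256 * F * 2 ^ 0) = 256 * (Real.pi / m * F) := by ring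
      rw [h7] at h1
      have h6 : (0 : ℝ) ≤ Real.pi / m * F := by positivity
      show 32 * (Real.pi / m * F) ≤ 9 / 100 * (2 * Real.sin (Real.pi / m * tt F 0 / 2) * 1)
      linarith

/-- the phase -/
private noncomputable def ph (m F k : ℕ) : ℝ :=
  Real.pi / m * (256 * F * (2 ^ k - 1)) - k * (Real.pi / 2)

private lemma XX_eq (m F k : ℕ) : ∀ y : ℕ,
    XX m F k y = rho m F k * Real.cos (Real.pi / m * y + ph m F k) := by
  induction k with
  | zero =>
      intro y
      simp only [XX, rho, cc, ph]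
      norm_num
      congr 1
      ring
  | succ k ih =>
      intro y
      show XX m F k y - XX m F k (y + tt F k) =
        2 * Real.sin (Real.pi / m * tt F k / 2) * rho m F k *
          Real.cos (Real.pi / m * y + ph m F (k + 1))
      rw [ih, ih, ← mul_sub, Real.cos_sub_cos]
      have h1 : Real.pi / m * y + ph m F (k + 1) =
          (Real.pi / m * y + ph m F k + Real.pi / m * tt F k / 2) - Real.pi / 2 := by
        rw [fx_arg]
        unfold ph
        push_cast
        ring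
      rw [h1, Real.cos_sub_pi_div_two]
      have h2 : (Real.pi / m * y + ph m F k + (Real.pi / m * ((y + tt F k : ℕ) : ℝ) + ph m F k)) / 2 =
          Real.pi / m * y + ph m F k + Real.pi / m * tt F k / 2 := by
        push_cast
        ring
      have h3 : (Real.pi / m * y + ph m F k - (Real.pi / m * ((y + tt F k : ℕ) : ℝ) + ph m F k)) / 2 =
          -(Real.pi / m * tt F k / 2) := by
        push_cast
        ring
      rw [h2, h3, Real.sin_neg]
      ring

private lemma disc_ivt (g : ℕ → ℝ) (δ : ℝ) (hg : ∀ j, |g (j + 1) - g j| ≤ δ) (a b : ℕ)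
    (hab : a ≤ b) (ha : g a ≤ 0) (hb : 0 ≤ g b) : ∃ j, a ≤ j ∧ j ≤ b ∧ |g j| ≤ δ := by
  have hδ : 0 ≤ δ := (abs_nonneg _).trans (hg 0)
  classical
  have hex : ∃ j, a ≤ j ∧ 0 ≤ g j := ⟨b, hab, hb⟩
  obtain ⟨h1, h2⟩ := Nat.find_spec hex
  have h3 : Nat.find hex ≤ b := Nat.find_le ⟨hab, hb⟩
  refine ⟨Nat.find hex, h1, h3, ?_⟩
  by_cases h4 : Nat.find hex = a
  · rw [h4] at h2 ⊢
    have : g a = 0 := le_antisymm ha h2
    rw [this]; simpa using hδ
  · have h5 : ¬ (a ≤ Nat.find hex - 1 ∧ 0 ≤ g (Nat.find hex - 1)) :=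
      Nat.find_min hex (by omega)
    have h6 : g (Nat.find hex - 1) < 0 := by
      by_contra h
      exact h5 ⟨by omega, not_lt.mp h⟩
    have h7 := hg (Nat.find hex - 1)
    rw [show Nat.find hex - 1 + 1 = Nat.find hex by omega] at h7
    rw [abs_of_nonneg h2]
    have := (abs_le.mp h7).2
    linarith

private lemma disc_ivt' (g : ℕ → ℝ) (δ : ℝ) (hg : ∀ j, |g (j + 1) - g j| ≤ δ) (a b : ℕ)
    (hab : a ≤ b) (h : (g a ≤ 0 ∧ 0 ≤ g b) ∨ (0 ≤ g a ∧ g b ≤ 0)) :
    ∃ j, a ≤ j ∧ j ≤ b ∧ |g j| ≤ δ := by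
  rcases h with h | h
  · exact disc_ivt g δ hg a b hab h.1 h.2
  · obtain ⟨j, h1, h2, h3⟩ := disc_ivt (fun j => -g j) δ
      (fun j => by
        have := hg j
        rw [show -g (j + 1) - -g j = -(g (j + 1) - g j) by ring, abs_neg]
        exact this) a b hab (by simpa using h.1) (by simpa using h.2)
    exact ⟨j, h1, h2, by simpa using h3⟩

private lemma cos_ends (b w : ℝ) (hs : Real.sin b ^ 2 = 1 / 2) (hc : Real.cos b ^ 2 = 1 / 2)
    (hw1 : 149 / 1000 ≤ w) (hw2 : w ≤ 150 / 1000) :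
    (0 < Real.sin b → Real.cos (b + w) ≤ Real.cos b - 9 / 100 ∧
      Real.cos b + 9 / 100 ≤ Real.cos (b - w)) ∧
    (Real.sin b ≤ 0 → Real.cos b + 9 / 100 ≤ Real.cos (b + w) ∧
      Real.cos (b - w) ≤ Real.cos b - 9 / 100) := by
  have h1 : 148 / 1000 ≤ Real.sin w := by
    have h2 := Real.sin_gt_sub_cube (x := w) (by linarith)
    have h3 : w ^ 3 ≤ (150 / 1000) ^ 3 := pow_le_pow_left₀ (by linarith) hw2 3
    norm_num at h3 ⊢
    linarith
  have h2 : 1 - Real.cos w ≤ 1125 / 100000 := by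
    have h3 := Real.one_sub_sq_div_two_le_cos (x := w)
    have h4 : w ^ 2 ≤ (150 / 1000) ^ 2 := pow_le_pow_left₀ (by linarith) hw2 2
    norm_num at h4 ⊢
    linarith
  have h3 : 0 ≤ 1 - Real.cos w := by linarith [Real.cos_le_one w]
  have hca : |Real.cos b| ≤ 708 / 1000 := by
    rw [← sq_le_sq₀ (abs_nonneg _) (by norm_num), sq_abs, hc]
    norm_num
  have hc1 := (abs_le.mp hca).1
  have hc2 := (abs_le.mp hca).2
  have hcc : |Real.cos b * (Real.cos w - 1)| ≤ 797 / 100000 := by
    rw [abs_mul, abs_sub_comm, abs_of_nonneg h3]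
    calc |Real.cos b| * (1 - Real.cos w) ≤ 708 / 1000 * (1125 / 100000) :=
          mul_le_mul hca h2 h3 (by norm_num)
      _ ≤ 797 / 100000 := by norm_num
  have hcc1 := (abs_le.mp hcc).1
  have hcc2 := (abs_le.mp hcc).2
  have e1 : Real.cos (b + w) = Real.cos b + Real.cos b * (Real.cos w - 1) - Real.sin b * Real.sin w := by
    rw [Real.cos_add]; ring
  have e2 : Real.cos (b - w) = Real.cos b + Real.cos b * (Real.cos w - 1) + Real.sin b * Real.sin w := by
    rw [Real.cos_sub]; ring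
  constructor
  · intro hpos
    have h4 : 707 / 1000 ≤ Real.sin b := by
      by_contra h
      have h5 : Real.sin b < 707 / 1000 := not_le.mp h
      nlinarith
    have h5 : 10463 / 100000 ≤ Real.sin b * Real.sin w := by
      calc (10463 / 100000 : ℝ) ≤ 707 / 1000 * (148 / 1000) := by norm_num
        _ ≤ Real.sin b * Real.sin w := mul_le_mul h4 h1 (by norm_num) hpos.le
    rw [e1, e2]
    constructor <;> linarith
  · intro hneg
    have h4 : 707 / 1000 ≤ -Real.sin b := by
      by_contra h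
      have h5 : -Real.sin b < 707 / 1000 := not_le.mp h
      nlinarith
    have h5 : 10463 / 100000 ≤ -Real.sin b * Real.sin w := by
      calc (10463 / 100000 : ℝ) ≤ 707 / 1000 * (148 / 1000) := by norm_num
        _ ≤ -Real.sin b * Real.sin w := mul_le_mul h4 h1 (by norm_num) (by linarith)
    rw [e1, e2]
    constructor <;> linarith

theorem XX_target (E F : ℕ) (hF : 1 ≤ F) : ∃ m0 : ℕ, ∀ m ≥ m0, ∀ k ≤ E, ∀ r < F, ∀ z : ℝ,
    |z - mid m F k| ≤ 9 / 100 * rho m F k →
    ∃ y : ℕ, y % F = r ∧ |Real.pi / m * y - Real.pi / 4| ≤ 16 / 100 ∧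
      |XX m F k y - z| ≤ rho m F k * (Real.pi / m * F) := by
  obtain ⟨K, m0, hK, hb⟩ := rho_bounds E F hF
  refine ⟨max m0 (204800 * F * 2 ^ E + 1), ?_⟩
  intro m hm k hk r hr z hz
  have hm0' : m0 ≤ m := (le_max_left _ _).trans hm
  have hm1' : 204800 * F * 2 ^ E + 1 ≤ m := (le_max_right _ _).trans hm
  have hm1 : 0 < m := by omega
  have hm0 : (0 : ℝ) < m := by exact_mod_cast hm1
  have hF0 : (0 : ℝ) < F := by exact_mod_cast (by omega : 0 < F)
  have hrho := (hb m hm0').1 k hk
  obtain ⟨hth, hsm⟩ := fx_small E F hF m hm1'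
  set θ := Real.pi / m with hθ
  -- small quantities
  have hθF : θ * F ≤ 1 / 1000 := by
    have h1 : (1 : ℝ) ≤ 2 ^ E := one_le_pow₀ (by norm_num)
    have h2 : θ * F ≤ θ * F * 2 ^ E := le_mul_of_one_le_right (by positivity) h1
    have h3 : θ * (256 * F * 2 ^ E) = 256 * (θ * F * 2 ^ E) := by ring
    rw [h3] at hsm
    linarith
  have hθF0 : 0 < θ * F := by positivity
  set ε : ℝ := θ * (256 * F * (2 ^ k - 1)) with hε
  have hε0 : 0 ≤ ε := by
    have h1 : (1 : ℝ) ≤ 2 ^ k := one_le_pow₀ (by norm_num)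
    have : (0 : ℝ) ≤ 2 ^ k - 1 := by linarith
    positivity
  have hε1 : ε ≤ 1 / 200 := by
    refine le_trans ?_ (fx_small_k E F hF m hm1' k hk)
    refine mul_le_mul_of_nonneg_left ?_ hth.le
    have : (0 : ℝ) ≤ 256 * F := by positivity
    nlinarith
  set b : ℝ := Real.pi / 4 - k * (Real.pi / 2) with hbdef
  have hc2 : Real.cos b ^ 2 = 1 / 2 := by
    rw [Real.cos_sq]
    have : 2 * b = Real.pi / 2 - k * Real.pi := by rw [hbdef]; ring
    rw [this, Real.cos_sub, Real.cos_pi_div_two, Real.sin_nat_mul_pi]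
    norm_num
  have hs2 : Real.sin b ^ 2 = 1 / 2 := by
    have := Real.sin_sq_add_cos_sq b
    linarith
  -- the offset
  set W : ℕ → ℝ := fun j => θ * ((r + F * j : ℕ) : ℝ) - Real.pi / 4 + ε with hW
  have hWs : ∀ j, W j = θ * F * j + (θ * r - Real.pi / 4 + ε) := by
    intro j
    simp only [hW]
    push_cast
    ring
  have hXW : ∀ j, XX m F k (r + F * j) = rho m F k * Real.cos (b + W j) := by
    intro j
    rw [XX_eq]
    congr 2
    simp only [hW, hbdef, ph, hε]
    ring
  have hrθ : θ * r ≤ 1 / 1000 := by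
    have : (r : ℝ) ≤ F := by exact_mod_cast hr.le
    exact (mul_le_mul_of_nonneg_left this hth.le).trans hθF
  have hrθ0 : 0 ≤ θ * r := by positivity
  have hpi3 := Real.pi_gt_three
  -- indices
  have hidx : ∀ t : ℝ, -(1 / 2) ≤ t → ∃ j : ℕ, t ≤ W j ∧ W j ≤ t + θ * F ∧
      j = ⌈(t - (θ * r - Real.pi / 4 + ε)) / (θ * F)⌉₊ := by
    intro t ht
    have h0 : 0 ≤ (t - (θ * r - Real.pi / 4 + ε)) / (θ * F) := by
      apply div_nonneg _ hθF0.le
      linarith
    refine ⟨⌈(t - (θ * r - Real.pi / 4 + ε)) / (θ * F)⌉₊, ?_, ?_, rfl⟩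
    · rw [hWs]
      have h1 := Nat.le_ceil ((t - (θ * r - Real.pi / 4 + ε)) / (θ * F))
      rw [div_le_iff₀ hθF0] at h1
      linarith
    · rw [hWs]
      have h1 := Nat.ceil_lt_add_one h0
      have h2 : (⌈(t - (θ * r - Real.pi / 4 + ε)) / (θ * F)⌉₊ : ℝ) * (θ * F) ≤
          ((t - (θ * r - Real.pi / 4 + ε)) / (θ * F) + 1) * (θ * F) :=
        mul_le_mul_of_nonneg_right h1.le hθF0.le
      rw [add_mul, div_mul_cancel₀ _ hθF0.ne'] at h2
      linarith
  obtain ⟨j1, hj1a, hj1b, hj1⟩ := hidx (-(150 / 1000)) (by norm_num)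
  obtain ⟨j2, hj2a, hj2b, hj2⟩ := hidx (149 / 1000) (by norm_num)
  have hj12 : j1 ≤ j2 := by
    rw [hj1, hj2]
    apply Nat.ceil_mono
    apply div_le_div_of_nonneg_right _ hθF0.le
    linarith
  have hWmono : ∀ i j : ℕ, i ≤ j → W i ≤ W j := by
    intro i j hij
    rw [hWs, hWs]
    have : (i : ℝ) ≤ j := by exact_mod_cast hij
    have := mul_le_mul_of_nonneg_left this hθF0.le
    linarith
  -- discrete intermediate value theorem
  set g : ℕ → ℝ := fun j => XX m F k (r + F * j) - z with hg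
  have hstep : ∀ j, |g (j + 1) - g j| ≤ rho m F k * (θ * F) := by
    intro j
    simp only [hg]
    rw [show XX m F k (r + F * (j + 1)) - z - (XX m F k (r + F * j) - z) =
      XX m F k (r + F * (j + 1)) - XX m F k (r + F * j) by ring, hXW, hXW, ← mul_sub, abs_mul,
      abs_of_pos hrho]
    refine mul_le_mul_of_nonneg_left ?_ hrho.le
    have h1 : |Real.cos (b + W (j + 1)) - Real.cos (b + W j)| ≤
        |(b + W (j + 1)) - (b + W j)| := by
      have h2 := Real.cos_sub_cos (b + W (j + 1)) (b + W j)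
      rw [h2, abs_mul, abs_mul]
      have h3 : |Real.sin ((b + W (j + 1) + (b + W j)) / 2)| ≤ 1 := Real.abs_sin_le_one _
      have h4 : |Real.sin ((b + W (j + 1) - (b + W j)) / 2)| ≤
          |(b + W (j + 1) - (b + W j)) / 2| := Real.abs_sin_le_abs
      rw [abs_div, abs_two] at h4
      have h5 : |(-2 : ℝ)| = 2 := by norm_num
      rw [h5]
      calc 2 * |Real.sin ((b + W (j + 1) + (b + W j)) / 2)| *
            |Real.sin ((b + W (j + 1) - (b + W j)) / 2)|
          ≤ 2 * 1 * (|b + W (j + 1) - (b + W j)| / 2) := by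
            refine mul_le_mul ?_ h4 (abs_nonneg _) (by norm_num)
            linarith
        _ = |b + W (j + 1) - (b + W j)| := by ring
    refine h1.trans (le_of_eq ?_)
    rw [show b + W (j + 1) - (b + W j) = θ * F by
      rw [hWs, hWs]
      push_cast
      ring]
    exact abs_of_pos hθF0
  have hz1 := (abs_le.mp hz).1
  have hz2 := (abs_le.mp hz).2
  have hmid : mid m F k = rho m F k * Real.cos b := rfl
  rw [hmid] at hz1 hz2
  have hends : (g j1 ≤ 0 ∧ 0 ≤ g j2) ∨ (0 ≤ g j1 ∧ g j2 ≤ 0) := by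
    have e1 := cos_ends b (-(W j1)) hs2 hc2 (by linarith) (by linarith)
    have e2 := cos_ends b (W j2) hs2 hc2 hj2a (by linarith)
    rw [sub_neg_eq_add] at e1
    by_cases hsb : 0 < Real.sin b
    · right
      have f1 := (e1.1 hsb).2
      have f2 := (e2.1 hsb).1
      constructor
      · simp only [hg]
        rw [hXW]
        have := mul_le_mul_of_nonneg_left f1 hrho.le
        linarith
      · simp only [hg]
        rw [hXW]
        have := mul_le_mul_of_nonneg_left f2 hrho.le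
        linarith
    · left
      have f1 := (e1.2 (not_lt.mp hsb)).2
      have f2 := (e2.2 (not_lt.mp hsb)).1
      constructor
      · simp only [hg]
        rw [hXW]
        have := mul_le_mul_of_nonneg_left f1 hrho.le
        linarith
      · simp only [hg]
        rw [hXW]
        have := mul_le_mul_of_nonneg_left f2 hrho.le
        linarith
  obtain ⟨j, hja, hjb, hj⟩ := disc_ivt' g _ hstep j1 j2 hj12 hends
  refine ⟨r + F * j, ?_, ?_, hj⟩
  · rw [Nat.add_mul_mod_self_left, Nat.mod_eq_of_lt hr]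
  · have h1 := hWmono _ _ hja
    have h2 := hWmono _ _ hjb
    have h3 : θ * ((r + F * j : ℕ) : ℝ) - Real.pi / 4 = W j - ε := by
      simp only [hW]; ring
    rw [h3, abs_le]
    constructor <;> linarith

end Pool.Agent.H99.TN
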