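import Pool.Agent.H99.TN.Defs
import Pool.Agent.H99.TN.FDefs
import Pool.Agent.H99.TN.FamX
import Pool.Agent.H99.TN.FamC

/-! M12: the families. -/

namespace Pool.Agent.H99.TN

open Polynomial

/-- The greedy choice of the movers, in an abstract form. -/
lemma family_greedy {E : ℕ} {X : ℕ → ℕ → ℝ} {P : ℕ → ℕ → Prop} {mu ro : ℕ → ℝ} {δ u : ℝ}
    (h0 : ro 0 = 1) (hu : |u| ≤ 5 / 2)
    (hro : ∀ k < E, ro k * δ ≤ 9 / 100 * ro (k + 1)) (hro1 : 32 * δ ≤ 9 / 100 * ro 1)
    (htar : ∀ k ≤ E, ∀ j < 32 + E, ∀ z : ℝ, |z - mu k| ≤ 9 / 100 * ro k →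
      ∃ y : ℕ, P j y ∧ |X k y - z| ≤ ro k * δ) :
    ∀ n, n ≤ 32 + E → ∃ Y : ℕ → ℕ, (∀ j < n, P j (Y j)) ∧
      |∑ j ∈ Finset.range n, X (j - 31) (Y j) - ∑ j ∈ Finset.range n, mu (j - 31)
        - (min n 32 : ℕ) * u / 32| ≤ if n ≤ 32 then n * δ else ro (n - 32) * δ := by
  intro n
  induction n with
  | zero => intro _; exact ⟨fun _ => 0, by simp, by simp⟩
  | succ n ih =>
    intro hn
    obtain ⟨Y, hY, herr⟩ := ih (by omega)
    rcases Nat.lt_or_ge n 32 with hn32 | hn32
    · -- level zero
      obtain ⟨y, hy, hz⟩ := htar 0 (Nat.zero_le _) n (by omega) (mu 0 + u / 32) (by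
        rw [add_sub_cancel_left, h0, abs_div, abs_of_pos (by norm_num : (0 : ℝ) < 32)]
        linarith)
      refine ⟨Function.update Y n y, ?_, ?_⟩
      · intro j hj
        rcases Nat.lt_succ_iff_lt_or_eq.1 hj with h | h
        · rw [Function.update_of_ne h.ne]; exact hY j h
        · subst h; rw [Function.update_self]; exact hy
      · rw [if_pos (by omega)]
        rw [if_pos (by omega)] at herr
        rw [Finset.sum_range_succ, Finset.sum_range_succ, Function.update_self]
        have e1 : ∑ j ∈ Finset.range n, X (j - 31) (Function.update Y n y j) =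
            ∑ j ∈ Finset.range n, X (j - 31) (Y j) :=
          Finset.sum_congr rfl fun j hj => by
            rw [Function.update_of_ne (Finset.mem_range.1 hj).ne]
        rw [e1, show n - 31 = 0 by omega, min_eq_left (by omega : n + 1 ≤ 32)]
        rw [min_eq_left (by omega : n ≤ 32)] at herr
        rw [h0, one_mul] at hz
        push_cast
        calc _ = |(∑ j ∈ Finset.range n, X (j - 31) (Y j) - ∑ j ∈ Finset.range n, mu (j - 31)
              - (n : ℝ) * u / 32) + (X 0 y - (mu 0 + u / 32))| := by congr 1; ring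
          _ ≤ _ := (abs_add_le _ _).trans (by linarith)
    · -- level k + 1 with n = 32 + k
      obtain ⟨k, rfl⟩ : ∃ k, n = 32 + k := ⟨n - 32, by omega⟩
      obtain ⟨e, he⟩ : ∃ e : ℝ, e = ∑ j ∈ Finset.range (32 + k), X (j - 31) (Y j)
        - ∑ j ∈ Finset.range (32 + k), mu (j - 31) - (min (32 + k) 32 : ℕ) * u / 32 := ⟨_, rfl⟩
      rw [← he] at herr
      have hb : |e| ≤ 9 / 100 * ro (k + 1) := by
        rcases Nat.eq_zero_or_pos k with hk | hk
        · subst hk
          rw [if_pos (by omega)] at herr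
          refine herr.trans (le_trans (le_of_eq ?_) hro1)
          norm_num
        · rw [if_neg (by omega), show 32 + k - 32 = k by omega] at herr
          exact herr.trans (hro k (by omega))
      obtain ⟨y, hy, hz⟩ := htar (k + 1) (by omega) (32 + k) (by omega) (mu (k + 1) - e) (by
        rw [show mu (k + 1) - e - mu (k + 1) = -e by ring, abs_neg]; exact hb)
      refine ⟨Function.update Y (32 + k) y, ?_, ?_⟩
      · intro j hj
        rcases Nat.lt_succ_iff_lt_or_eq.1 hj with h | h
        · rw [Function.update_of_ne h.ne]; exact hY j h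
        · subst h; rw [Function.update_self]; exact hy
      · rw [if_neg (by omega), Finset.sum_range_succ, Finset.sum_range_succ,
          Function.update_self]
        have e1 : ∑ j ∈ Finset.range (32 + k), X (j - 31) (Function.update Y (32 + k) y j) =
            ∑ j ∈ Finset.range (32 + k), X (j - 31) (Y j) :=
          Finset.sum_congr rfl fun j hj => by
            rw [Function.update_of_ne (Finset.mem_range.1 hj).ne]
        rw [e1, show 32 + k - 31 = k + 1 by omega, show 32 + k + 1 - 32 = k + 1 by omega,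
          show min (32 + k + 1) 32 = min (32 + k) 32 by omega]
        calc _ = |X (k + 1) y - (mu (k + 1) - e)| := by rw [he]; congr 1; ring
          _ ≤ _ := hz

lemma sum_two_pow_sub (E : ℕ) :
    ∑ j ∈ Finset.range (32 + E), 2 ^ (j - 31) = 32 + (2 ^ (E + 1) - 2) := by
  induction E with
  | zero => decide
  | succ E ih =>
    rw [show 32 + (E + 1) = 32 + E + 1 by omega, Finset.sum_range_succ, ih,
      show 32 + E - 31 = E + 1 by omega]
    have h1 : 2 ^ (E + 1 + 1) = 2 * 2 ^ (E + 1) := by rw [pow_succ]; ring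
    have h2 : 2 ≤ 2 ^ (E + 1) := by
      calc 2 = 2 ^ 1 := rfl
        _ ≤ 2 ^ (E + 1) := Nat.pow_le_pow_right (by norm_num) (by omega)
    omega

lemma tt_mono {F a b : ℕ} (h : a ≤ b) : tt F a ≤ tt F b := by
  unfold tt
  exact Nat.mul_le_mul_left _ (Nat.pow_le_pow_right (by norm_num) h)

theorem family (E F : ℕ) (hF : 1 ≤ F) : ∃ (K : ℝ) (m0 : ℕ), 0 < K ∧ ∀ m ≥ m0,
    ∃ L : ℝ, ∀ (r : ℕ), r + nQ E ≤ F → ∀ σ : Bool, ∀ u : ℝ, |u| ≤ 5 / 2 →
      ∃ D : Finset ℕ, D ⊆ Finset.Ico 1 m ∧ D.card = 32 + (2 ^ (E + 1) - 2) ∧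
        (∀ i ∈ D, m / 10 ≤ core m i ∧ core m i ≤ m / 3 ∧ r ≤ core m i % F ∧
          core m i % F < r + nQ E) ∧
        |sS m D - (if σ then L + u else -(L + u))| ≤ K / (m : ℝ) ^ (E + 1) := by
  obtain ⟨K, m1, hK, hm1⟩ := rho_bounds E F hF
  obtain ⟨m2, hm2⟩ := XX_target E F hF
  refine ⟨32 * K * Real.pi * F, m1 + m2 + 1000 * (tt F E + 1), by positivity, fun m hm => ?_⟩
  obtain ⟨r1, r2, r3, r4⟩ := hm1 m (le_trans (by rw [add_assoc]; exact Nat.le_add_right _ _) hm)
  have t := hm2 m (le_trans ((Nat.le_add_left _ _).trans (Nat.le_add_right _ _)) hm)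
  have hmT : 1000 * (tt F E + 1) ≤ m := le_trans (Nat.le_add_left _ _) hm
  have hm0 : (0 : ℝ) < m := by
    have : 0 < m := by omega
    exact_mod_cast this
  refine ⟨∑ j ∈ Finset.range (32 + E), mid m F (j - 31), fun r hr σ u hu => ?_⟩
  unfold nQ at hr
  have hδ : 0 ≤ Real.pi / m * F := by positivity
  obtain ⟨Y, hY, herr⟩ := family_greedy (E := E) (X := fun k y => XX m F k y)
    (P := fun j y => y % F = r + j ∧ |Real.pi / m * y - Real.pi / 4| ≤ 16 / 100)
    (mu := fun k => mid m F k) (ro := fun k => rho m F k) (δ := Real.pi / m * F) (u := u)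
    rfl hu r3 r4 (by
      intro k hk j hj z hz
      obtain ⟨y, hy1, hy2, hy3⟩ := t k hk (r + j) (by omega) z hz
      exact ⟨y, ⟨hy1, hy2⟩, hy3⟩) (32 + E) le_rfl
  -- position of the movers
  have hpos : ∀ j < 32 + E, m ≤ 10 * Y j ∧ 3 * (Y j + tt F E) ≤ m := by
    intro j hj
    have h := (hY j hj).2
    rw [abs_le] at h
    have hpi1 := Real.pi_gt_d2
    have hpi2 := Real.pi_lt_d2
    have e1 : Real.pi / m * Y j = Real.pi * (Y j / m) := by ring
    rw [e1] at h
    have a1 : (19 : ℝ) / 100 ≤ Y j / m := by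
      by_contra hlt
      push Not at hlt
      have : Real.pi * ((Y j : ℝ) / m) ≤ Real.pi * (19 / 100) := by gcongr
      linarith [h.1]
    have a2 : (Y j : ℝ) / m ≤ 31 / 100 := by
      by_contra hlt
      push Not at hlt
      have : Real.pi * (31 / 100) ≤ Real.pi * ((Y j : ℝ) / m) := by gcongr
      linarith [h.2]
    rw [le_div_iff₀ hm0] at a1
    rw [div_le_iff₀ hm0] at a2
    have b : (1000 : ℝ) * (tt F E + 1) ≤ m := by exact_mod_cast hmT
    constructor
    · have : (m : ℝ) ≤ 10 * Y j := by linarith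
      exact_mod_cast this
    · have : (3 : ℝ) * (Y j + tt F E) ≤ m := by linarith
      exact_mod_cast this
  have hcl : ∀ j < 32 + E, _ := fun j hj => cl_props m F (j - 31) (Y j) hF
    (by have := (hpos j hj).1; omega)
    (by
      have := (hpos j hj).2
      have h2 : tt F (j - 31) ≤ tt F E := tt_mono (by omega)
      omega) σ
  have hdis : (Finset.range (32 + E) : Set ℕ).PairwiseDisjoint
      (fun j => cl m F (j - 31) (Y j) σ) := by
    intro a ha b hb hab
    rw [Function.onFun, Finset.disjoint_left]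
    intro i hia hib
    have ha' : a < 32 + E := by simpa using ha
    have hb' : b < 32 + E := by simpa using hb
    have h1 := ((hcl a ha').2.2.1 i hia).2.2
    have h2 := ((hcl b hb').2.2.1 i hib).2.2
    have h3 := (hY a ha').1
    have h4 := (hY b hb').1
    omega
  refine ⟨(Finset.range (32 + E)).biUnion fun j => cl m F (j - 31) (Y j) σ, ?_, ?_, ?_, ?_⟩
  · intro i hi
    rw [Finset.mem_biUnion] at hi
    obtain ⟨j, hj, hij⟩ := hi
    exact (hcl j (Finset.mem_range.1 hj)).1 hij
  · rw [Finset.card_biUnion hdis, ← sum_two_pow_sub]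
    exact Finset.sum_congr rfl fun j hj => (hcl j (Finset.mem_range.1 hj)).2.1
  · intro i hi
    rw [Finset.mem_biUnion] at hi
    obtain ⟨j, hj, hij⟩ := hi
    have hj' := Finset.mem_range.1 hj
    obtain ⟨k1, k2, k3⟩ := (hcl j hj').2.2.1 i hij
    have h1 := hpos j hj'
    have h2 : tt F (j - 31) ≤ tt F E := tt_mono (by omega)
    have h3 := (hY j hj').1
    unfold nQ
    refine ⟨by omega, by omega, by omega, by omega⟩
  · have hs : sS m ((Finset.range (32 + E)).biUnion fun j => cl m F (j - 31) (Y j) σ) =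
        if σ then ∑ j ∈ Finset.range (32 + E), XX m F (j - 31) (Y j)
        else -∑ j ∈ Finset.range (32 + E), XX m F (j - 31) (Y j) := by
      unfold sS
      rw [Finset.sum_biUnion hdis]
      have : ∀ j ∈ Finset.range (32 + E), ∑ i ∈ cl m F (j - 31) (Y j) σ, cc m i =
          if σ then XX m F (j - 31) (Y j) else -XX m F (j - 31) (Y j) := fun j hj =>
        (hcl j (Finset.mem_range.1 hj)).2.2.2
      rw [Finset.sum_congr rfl this]
      cases σ
      · simp
      · simp
    have hfin : |∑ j ∈ Finset.range (32 + E), XX m F (j - 31) (Y j)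
        - (∑ j ∈ Finset.range (32 + E), mid m F (j - 31) + u)|
        ≤ 32 * K * Real.pi * F / (m : ℝ) ^ (E + 1) := by
      rw [min_eq_right (by omega : 32 ≤ 32 + E)] at herr
      have e0 : ∑ j ∈ Finset.range (32 + E), XX m F (j - 31) (Y j)
        - (∑ j ∈ Finset.range (32 + E), mid m F (j - 31) + u) =
        ∑ j ∈ Finset.range (32 + E), XX m F (j - 31) (Y j)
        - ∑ j ∈ Finset.range (32 + E), mid m F (j - 31) - ((32 : ℕ) : ℝ) * u / 32 := by
        push_cast; ring
      rw [e0]
      refine herr.trans ?_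
      have hb : 32 * (rho m F E * (Real.pi / m * F)) ≤
          32 * K * Real.pi * F / (m : ℝ) ^ (E + 1) := by
        calc 32 * (rho m F E * (Real.pi / m * F)) ≤
              32 * (K / (m : ℝ) ^ E * (Real.pi / m * F)) := by gcongr
          _ = _ := by rw [pow_succ]; field_simp
      refine le_trans ?_ hb
      rcases Nat.eq_zero_or_pos E with hE | hE
      · subst hE
        rw [if_pos (by omega)]
        simp [rho]
      · rw [if_neg (by omega), show 32 + E - 32 = E by omega]
        have := mul_nonneg (r1 E le_rfl).le hδ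
        linarith
    rw [hs]
    cases σ
    · simp only [Bool.false_eq_true, if_false]
      rw [show ∀ a b : ℝ, -a - -b = -(a - b) by intros; ring, abs_neg]
      exact hfin
    · simp only [if_true]
      exact hfin

end Pool.Agent.H99.TN
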