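import Pool.Agent.H99.TN.Defs
import Pool.Agent.H99.TN.FDefs
import Pool.Agent.H99.TN.Family

/-! M13a: existence of the two systems. -/

namespace Pool.Agent.H99.TN

open Polynomial

/-- The symmetric base set. -/
def Stt (m a q : ℕ) : Finset ℕ :=
  Finset.Ioc a (a + q) ∪ (Finset.Ioc a (a + q)).image fun c => m - c

lemma cc_refl {m i : ℕ} (hm : 0 < m) (h : i ≤ m) : cc m (m - i) = -cc m i := by
  unfold cc
  rw [Nat.cast_sub h, ← Real.cos_pi_sub]
  congr 1
  have : (m : ℝ) ≠ 0 := by exact_mod_cast hm.ne'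
  field_simp

lemma Stt_dis {m a q : ℕ} (h : 2 * (a + q) < m) :
    Disjoint (Finset.Ioc a (a + q)) ((Finset.Ioc a (a + q)).image fun c => m - c) := by
  rw [Finset.disjoint_left]
  intro i hi hi'
  rw [Finset.mem_image] at hi'
  obtain ⟨c, hc, hci⟩ := hi'
  rw [Finset.mem_Ioc] at hi hc
  omega

lemma Stt_inj {m a q : ℕ} (h : 2 * (a + q) < m) :
    Set.InjOn (fun c => m - c) (Finset.Ioc a (a + q) : Set ℕ) := by
  intro x hx y hy hxy
  rw [Finset.coe_Ioc, Set.mem_Ioc] at hx hy
  simp only at hxy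
  omega

lemma Stt_card {m a q : ℕ} (h : 2 * (a + q) < m) : (Stt m a q).card = 2 * q := by
  unfold Stt
  rw [Finset.card_union_of_disjoint (Stt_dis h), Finset.card_image_of_injOn (Stt_inj h),
    Nat.card_Ioc]
  omega

lemma Stt_core {m a q : ℕ} (h : 2 * (a + q) < m) {i : ℕ} (hi : i ∈ Stt m a q) :
    i ∈ Finset.Ico 1 m ∧ a < core m i ∧ core m i ≤ a + q := by
  unfold Stt at hi
  rw [Finset.mem_union, Finset.mem_image] at hi
  unfold core
  rw [Finset.mem_Ico]
  rcases hi with hi | ⟨c, hc, hci⟩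
  · rw [Finset.mem_Ioc] at hi; omega
  · rw [Finset.mem_Ioc] at hc; omega

lemma Stt_sum {m a q : ℕ} (h : 2 * (a + q) < m) : sS m (Stt m a q) = 0 := by
  unfold sS Stt
  rw [Finset.sum_union (Stt_dis h), Finset.sum_image (Stt_inj h), ← Finset.sum_add_distrib]
  apply Finset.sum_eq_zero
  intro c hc
  rw [Finset.mem_Ioc] at hc
  rw [cc_refl (by omega) (by omega)]
  ring

lemma Stt_near {m a q : ℕ} (h : 2 * (a + q) < m)
    (hn : ∀ c, c ≤ a + q → 999 / 1000 ≤ cc m c) {i : ℕ} (hi : i ∈ Stt m a q) :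
    999 / 1000 ≤ |cc m i| := by
  unfold Stt at hi
  rw [Finset.mem_union, Finset.mem_image] at hi
  rcases hi with hi | ⟨c, hc, hci⟩
  · rw [Finset.mem_Ioc] at hi
    exact (hn i hi.2).trans (le_abs_self _)
  · rw [Finset.mem_Ioc] at hc
    rw [← hci, cc_refl (by omega) (by omega), abs_neg]
    exact (hn c hc.2).trans (le_abs_self _)

/-- The set of indices which can be added to a system. -/
def addSet (m a q e0 F R N : ℕ) : Set ℕ :=
  {i | i ∈ Finset.Ico 1 m ∧ ¬(a < core m i ∧ core m i ≤ a + q) ∧ core m i ≠ e0 ∧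
    ¬(m / 10 ≤ core m i ∧ core m i ≤ m / 3 ∧ R ≤ core m i % F ∧ core m i % F < R + 4 * N)}

lemma mkSys {m J d q N F a e0 R : ℕ} {L e : ℝ} (Df : ℕ → Bool → ℝ → Finset ℕ)
    (hJ : J = q + 1 + 2 * d) (hq : q = 10 * (2 + 4 * d))
    (hDf : ∀ r, r + N ≤ F → ∀ σ : Bool, ∀ u : ℝ, |u| ≤ 5 / 2 → Df r σ u ⊆ Finset.Ico 1 m ∧
      (Df r σ u).card = d ∧
      (∀ i ∈ Df r σ u, m / 10 ≤ core m i ∧ core m i ≤ m / 3 ∧ r ≤ core m i % F ∧
          core m i % F < r + N) ∧
      |sS m (Df r σ u) - (if σ then L + u else -(L + u))| ≤ e)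
    (hR : R + 4 * N ≤ F) (haq : a + q < m / 10) (he0 : m / 3 < e0) (he0' : 2 * e0 < m)
    (hcc : |cc m e0| ≤ 1 / 10) (hnear : ∀ c, c ≤ a + q → 999 / 1000 ≤ cc m c) :
    Sys m J d e L (cc m e0) (addSet m a q e0 F R N) (insert e0 (Stt m a q))
      (fun f u => Df (R + f * N) (decide (f.val < 2)) u) := by
  have hlt : 2 * (a + q) < m := by omega
  have hDf' : ∀ (f : Fin 4) (u : ℝ), |u| ≤ 5 / 2 →
      Df (R + f * N) (decide (f.val < 2)) u ⊆ Finset.Ico 1 m ∧
      (Df (R + f * N) (decide (f.val < 2)) u).card = d ∧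
      (∀ i ∈ Df (R + f * N) (decide (f.val < 2)) u, m / 10 ≤ core m i ∧ core m i ≤ m / 3 ∧
        R + f * N ≤ core m i % F ∧ core m i % F < R + f * N + N) ∧
      |sS m (Df (R + f * N) (decide (f.val < 2)) u) -
        (if decide (f.val < 2) then L + u else -(L + u))| ≤ e := by
    intro f u hu
    refine hDf _ ?_ _ u hu
    have : (f : ℕ) * N ≤ 3 * N := Nat.mul_le_mul_right _ (by omega)
    omega
  have hecore : core m e0 = e0 := by unfold core; omega
  have heS : e0 ∉ Stt m a q := by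
    intro h
    have := (Stt_core hlt h).2
    rw [hecore] at this
    omega
  have hsumB : sS m (insert e0 (Stt m a q)) = cc m e0 := by
    unfold sS
    rw [Finset.sum_insert heS]
    have := Stt_sum hlt
    unfold sS at this
    rw [this, add_zero]
  -- disjointness
  have dis1 : ∀ u : Fin 4 → ℝ, (∀ f, |u f| ≤ 5 / 2) →
      ((Finset.univ : Finset (Fin 4)) : Set (Fin 4)).PairwiseDisjoint
        (fun f => Df (R + f * N) (decide (f.val < 2)) (u f)) := by
    intro u hu f _ g _ hfg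
    rw [Function.onFun, Finset.disjoint_left]
    intro i hi hi'
    have h1 := (hDf' f (u f) (hu f)).2.2.1 i hi
    have h2 := (hDf' g (u g) (hu g)).2.2.1 i hi'
    have hne : (f : ℕ) ≠ g := fun h => hfg (Fin.ext h)
    rcases Nat.lt_or_gt_of_ne hne with h | h
    · have : ((f : ℕ) + 1) * N ≤ g * N := Nat.mul_le_mul_right _ h
      rw [add_mul, one_mul] at this
      omega
    · have : ((g : ℕ) + 1) * N ≤ f * N := Nat.mul_le_mul_right _ h
      rw [add_mul, one_mul] at this
      omega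
  have dis2 : ∀ u : Fin 4 → ℝ, (∀ f, |u f| ≤ 5 / 2) →
      Disjoint (insert e0 (Stt m a q))
        (Finset.univ.biUnion fun f : Fin 4 => Df (R + f * N) (decide (f.val < 2)) (u f)) := by
    intro u hu
    rw [Finset.disjoint_left]
    intro i hi hi'
    rw [Finset.mem_biUnion] at hi'
    obtain ⟨f, _, hf⟩ := hi'
    have h1 := (hDf' f (u f) (hu f)).2.2.1 i hf
    rw [Finset.mem_insert] at hi
    rcases hi with rfl | hi
    · rw [hecore] at h1; omega
    · have := (Stt_core hlt hi).2; omega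
  have dis3 : ∀ i ∈ addSet m a q e0 F R N, ∀ u : Fin 4 → ℝ, (∀ f, |u f| ≤ 5 / 2) →
      i ∉ insert e0 (Stt m a q) ∪
        (Finset.univ.biUnion fun f : Fin 4 => Df (R + f * N) (decide (f.val < 2)) (u f)) := by
    intro i hi u hu h
    obtain ⟨_, hi2, hi3, hi4⟩ := hi
    rw [Finset.mem_union, Finset.mem_insert, Finset.mem_biUnion] at h
    rcases h with (rfl | h) | ⟨f, _, hf⟩
    · exact hi3 hecore
    · exact hi2 (Stt_core hlt h).2
    · have h1 := (hDf' f (u f) (hu f)).2.2.1 i hf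
      apply hi4
      have : (f : ℕ) * N ≤ 3 * N := Nat.mul_le_mul_right _ (by omega)
      omega
  have hsum : ∀ i ∈ addSet m a q e0 F R N, ∀ u : Fin 4 → ℝ, (∀ f, |u f| ≤ 5 / 2) →
      ∀ h : ℕ → ℝ,
      ∑ j ∈ insert i (insert e0 (Stt m a q) ∪
        (Finset.univ.biUnion fun f : Fin 4 => Df (R + f * N) (decide (f.val < 2)) (u f))), h j =
        h i + ∑ j ∈ insert e0 (Stt m a q), h j +
          ∑ f : Fin 4, ∑ j ∈ Df (R + f * N) (decide (f.val < 2)) (u f), h j := by
    intro i hi u hu h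
    rw [Finset.sum_insert (dis3 i hi u hu), Finset.sum_union (dis2 u hu),
      Finset.sum_biUnion (dis1 u hu), add_assoc]
  refine
    { hc0 := hcc
      sumB := hsumB
      cardD := fun f u hu => (hDf' f u hu).2.1
      adm := ?_
      sum := hsum
      sD0 := ?_
      sD1 := ?_
      sD2 := ?_
      sD3 := ?_ }
  · intro i hi u hu
    refine ⟨?_, ?_, ?_⟩
    · intro j hj
      rw [Finset.mem_insert, Finset.mem_union, Finset.mem_insert, Finset.mem_biUnion] at hj
      rcases hj with rfl | (rfl | hj) | ⟨f, _, hf⟩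
      · exact hi.1
      · rw [Finset.mem_Ico]; omega
      · exact (Stt_core hlt hj).1
      · exact (hDf' f (u f) (hu f)).1 hf
    · rw [Finset.card_insert_of_notMem (dis3 i hi u hu),
        Finset.card_union_of_disjoint (dis2 u hu), Finset.card_biUnion (dis1 u hu),
        Finset.card_insert_of_notMem heS, Stt_card hlt,
        Finset.sum_congr rfl fun f _ => (hDf' f (u f) (hu f)).2.1, Finset.sum_const,
        Finset.card_univ, Fintype.card_fin, smul_eq_mul]
      omega
    · have h1 : ((insert i (insert e0 (Stt m a q) ∪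
          (Finset.univ.biUnion fun f : Fin 4 => Df (R + f * N) (decide (f.val < 2))
            (u f)))).filter (fun j => |cc m j| < 999 / 1000)).card ≤ 2 + 4 * d := by
        calc _ ≤ (insert i (insert e0
              (Finset.univ.biUnion fun f : Fin 4 => Df (R + f * N) (decide (f.val < 2))
                (u f)))).card := by
              apply Finset.card_le_card
              intro j hj
              rw [Finset.mem_filter, Finset.mem_insert, Finset.mem_union, Finset.mem_insert] at hj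
              rw [Finset.mem_insert, Finset.mem_insert]
              obtain ⟨hj, hj'⟩ := hj
              rcases hj with hj | (hj | hj) | hj
              · exact Or.inl hj
              · exact Or.inr (Or.inl hj)
              · exact absurd (Stt_near hlt hnear hj) (not_le.2 hj')
              · exact Or.inr (Or.inr hj)
          _ ≤ _ := by
              refine (Finset.card_insert_le _ _).trans ?_
              have := Finset.card_insert_le e0
                (Finset.univ.biUnion fun f : Fin 4 => Df (R + f * N) (decide (f.val < 2)) (u f))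
              rw [Finset.card_biUnion (dis1 u hu),
                Finset.sum_congr rfl fun f _ => (hDf' f (u f) (hu f)).2.1, Finset.sum_const,
                Finset.card_univ, Fintype.card_fin, smul_eq_mul] at this
              omega
      have h2 : 2 * q ≤ ((insert i (insert e0 (Stt m a q) ∪
          (Finset.univ.biUnion fun f : Fin 4 => Df (R + f * N) (decide (f.val < 2))
            (u f)))).filter (fun j => 999 / 1000 ≤ |cc m j|)).card := by
        rw [← Stt_card hlt]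
        apply Finset.card_le_card
        intro j hj
        rw [Finset.mem_filter, Finset.mem_insert, Finset.mem_union, Finset.mem_insert]
        exact ⟨Or.inr (Or.inl (Or.inr hj)), Stt_near hlt hnear hj⟩
      omega
  · intro u hu
    have := (hDf' 0 u hu).2.2.2
    simpa using this
  · intro u hu
    have := (hDf' 1 u hu).2.2.2
    simpa using this
  · intro u hu
    have := (hDf' 2 u hu).2.2.2
    have e : decide (((2 : Fin 4) : ℕ) < 2) = false := by decide
    rw [e] at this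
    simp only [Bool.false_eq_true, if_false] at this
    rw [sub_neg_eq_add] at this
    simpa using this
  · intro u hu
    have := (hDf' 3 u hu).2.2.2
    have e : decide (((3 : Fin 4) : ℕ) < 2) = false := by decide
    rw [e] at this
    simp only [Bool.false_eq_true, if_false] at this
    rw [sub_neg_eq_add] at this
    simpa using this

/-- cosine near zero -/
lemma cc_near {m c : ℕ} (h : 100 * c ≤ m) (hm : 0 < m) : 999 / 1000 ≤ cc m c := by
  unfold cc
  have hm0 : (0 : ℝ) < m := by exact_mod_cast hm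
  have hpi := Real.pi_lt_d2
  have hpi0 := Real.pi_pos
  have h1 : Real.pi * c / m ≤ 4 / 100 := by
    rw [div_le_iff₀ hm0]
    have : (100 : ℝ) * c ≤ m := by exact_mod_cast h
    have hc : (0 : ℝ) ≤ c := by positivity
    nlinarith
  have h0 : 0 ≤ Real.pi * c / m := by positivity
  have := Real.one_sub_sq_div_two_le_cos (x := Real.pi * c / m)
  nlinarith

/-- cosine near `π/2` -/
lemma cc_mid {m e0 : ℕ} (h : 2 * e0 < m) (h' : m ≤ 2 * e0 + 3) (hm : 100 ≤ m) :
    |cc m e0| ≤ 1 / 10 := by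
  unfold cc
  have hm0 : (0 : ℝ) < m := by
    have : 0 < m := by omega
    exact_mod_cast this
  have hpi := Real.pi_lt_d2
  have hpi0 := Real.pi_pos
  have e : Real.cos (Real.pi * e0 / m) = Real.sin (Real.pi / 2 - Real.pi * e0 / m) := by
    rw [Real.sin_pi_div_two_sub]
  have e2 : Real.pi / 2 - Real.pi * e0 / m = Real.pi * (m - 2 * e0) / (2 * m) := by
    field_simp
  have a1 : (0 : ℝ) ≤ m - 2 * e0 := by
    have : (2 : ℝ) * e0 < m := by exact_mod_cast h
    linarith
  have a2 : (m : ℝ) - 2 * e0 ≤ 3 := by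
    have : (m : ℝ) ≤ 2 * e0 + 3 := by exact_mod_cast h'
    linarith
  have h0 : 0 ≤ Real.pi * (m - 2 * e0) / (2 * m) := by positivity
  have h1 : Real.pi * (m - 2 * e0) / (2 * m) ≤ 1 / 10 := by
    rw [div_le_iff₀ (by positivity)]
    have : (100 : ℝ) ≤ m := by exact_mod_cast hm
    nlinarith
  have hpi3 := Real.pi_gt_three
  rw [e, e2, abs_of_nonneg (Real.sin_nonneg_of_nonneg_of_le_pi h0 (by linarith))]
  exact (Real.sin_le h0).trans h1

theorem sys_exists (E : ℕ) : ∃ (J d : ℕ) (K : ℝ) (m0 : ℕ), 2 ≤ J ∧ 0 < K ∧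
    ∀ m ≥ m0, m % 2 = 1 → ∃ (L c₁ c₂ : ℝ) (I₁ I₂ : Set ℕ) (B₁ B₂ : Finset ℕ)
      (D₁ D₂ : Fin 4 → ℝ → Finset ℕ),
      Sys m J d (K / (m : ℝ) ^ (E + 1)) L c₁ I₁ B₁ D₁ ∧
      Sys m J d (K / (m : ℝ) ^ (E + 1)) L c₂ I₂ B₂ D₂ ∧
      (∀ i ∈ Finset.Ico 1 m, i ∈ I₁ ∨ i ∈ I₂) ∧
      ∃ i₁ i₂ : ℕ, i₁ ∈ I₁ ∧ i₁ ∈ I₂ ∧ i₂ ∈ I₁ ∧ i₂ ∈ I₂ ∧ 1 ≤ cc m i₁ - cc m i₂ := by
  obtain ⟨N, hN⟩ : ∃ N, N = nQ E := ⟨_, rfl⟩
  obtain ⟨F, hF⟩ : ∃ F, F = 8 * N := ⟨_, rfl⟩
  obtain ⟨d, hd⟩ : ∃ d, d = 32 + (2 ^ (E + 1) - 2) := ⟨_, rfl⟩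
  obtain ⟨q, hq⟩ : ∃ q, q = 10 * (2 + 4 * d) := ⟨_, rfl⟩
  have hN1 : 1 ≤ N := by rw [hN]; unfold nQ; omega
  obtain ⟨K, m1, hK, hfam⟩ := family E F (by omega)
  refine ⟨q + 1 + 2 * d, d, K, m1 + 1000 * (q + 1), by omega, hK, fun m hm hodd => ?_⟩
  obtain ⟨L, hL⟩ := hfam m (by omega)
  rw [← hN, ← hd] at hL
  choose! Df h1 h2 h3 h4 using hL
  have hDf : ∀ r, r + N ≤ F → ∀ σ : Bool, ∀ u : ℝ, |u| ≤ 5 / 2 → Df r σ u ⊆ Finset.Ico 1 m ∧
      (Df r σ u).card = d ∧
      (∀ i ∈ Df r σ u, m / 10 ≤ core m i ∧ core m i ≤ m / 3 ∧ r ≤ core m i % F ∧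
          core m i % F < r + N) ∧
      |sS m (Df r σ u) - (if σ then L + u else -(L + u))| ≤ K / (m : ℝ) ^ (E + 1) :=
    fun r hr σ u hu => ⟨h1 r hr σ u hu, h2 r hr σ u hu, h3 r hr σ u hu, h4 r hr σ u hu⟩
  have hnear : ∀ c, c ≤ 2 * q → 999 / 1000 ≤ cc m c := fun c hc =>
    cc_near (by omega) (by omega)
  have hFlt : ∀ x, x % F < 8 * N := fun x => by rw [← hF]; exact Nat.mod_lt _ (by omega)
  have S1 := mkSys (m := m) (J := q + 1 + 2 * d) (a := 0) (e0 := (m - 1) / 2) (R := 0)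
    (L := L) (e := K / (m : ℝ) ^ (E + 1)) Df rfl hq hDf (by omega) (by omega) (by omega)
    (by omega) (cc_mid (by omega) (by omega) (by omega)) (fun c hc => hnear c (by omega))
  have S2 := mkSys (m := m) (J := q + 1 + 2 * d) (a := q) (e0 := (m - 3) / 2) (R := 4 * N)
    (L := L) (e := K / (m : ℝ) ^ (E + 1)) Df rfl hq hDf (by omega) (by omega) (by omega)
    (by omega) (cc_mid (by omega) (by omega) (by omega)) (fun c hc => hnear c (by omega))
  have hmem : ∀ i, 2 * q < i → i < m / 10 → (i ∈ addSet m 0 q ((m - 1) / 2) F 0 N ∧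
      i ∈ addSet m q q ((m - 3) / 2) F (4 * N) N) ∧ (m - i ∈ addSet m 0 q ((m - 1) / 2) F 0 N ∧
      m - i ∈ addSet m q q ((m - 3) / 2) F (4 * N) N) := by
    intro i hi1 hi2
    have c1 : core m i = i := by unfold core; omega
    have c2 : core m (m - i) = i := by unfold core; omega
    unfold addSet
    simp only [Set.mem_ofPred_eq, Finset.mem_Ico, c1, c2]
    refine ⟨⟨⟨by omega, by omega, by omega, by omega⟩, ⟨by omega, by omega, by omega, by omega⟩⟩,
      ⟨⟨by omega, by omega, by omega, by omega⟩, ⟨by omega, by omega, by omega, by omega⟩⟩⟩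
  refine ⟨L, _, _, _, _, _, _, _, _, S1, S2, ?_, ?_⟩
  · intro i hi
    have hFl := hFlt (core m i)
    have hi' := hi
    rw [Finset.mem_Ico] at hi'
    by_cases hA : i ∈ addSet m 0 q ((m - 1) / 2) F 0 N
    · exact Or.inl hA
    · right
      unfold addSet at hA ⊢
      simp only [Set.mem_ofPred_eq] at hA ⊢
      by_contra hB
      generalize core m i % F = y at *
      generalize core m i = x at *
      have hB' : ¬(¬(q < x ∧ x ≤ q + q) ∧ x ≠ (m - 3) / 2 ∧
        ¬(m / 10 ≤ x ∧ x ≤ m / 3 ∧ 4 * N ≤ y ∧ y < 4 * N + 4 * N)) := fun h => hB ⟨hi, h⟩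
      have hA' : ¬(¬(0 < x ∧ x ≤ 0 + q) ∧ x ≠ (m - 1) / 2 ∧
        ¬(m / 10 ≤ x ∧ x ≤ m / 3 ∧ 0 ≤ y ∧ y < 0 + 4 * N)) := fun h => hA ⟨hi, h⟩
      omega
  · have k := hmem (m / 100) (by omega) (by omega)
    refine ⟨m / 100, m - m / 100, k.1.1, k.1.2, k.2.1, k.2.2, ?_⟩
    rw [cc_refl (by omega) (by omega)]
    have := cc_near (m := m) (c := m / 100) (by omega) (by omega)
    linarith

end Pool.Agent.H99.TN
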