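import Pool.Agent.H99.TN.Defs
import Pool.Agent.H99.TN.FDefs
import Pool.Agent.H99.TN.SysEx
import Pool.Agent.H99.TN.DetAbs

/-! M13: the detection theorem. -/

namespace Pool.Agent.H99.TN

open Polynomial

/-- the sum of the cosines over a set of a system -/
lemma dt_sum {m J d : ℕ} {e L c0 : ℝ} {I : Set ℕ} {B : Finset ℕ} {D : Fin 4 → ℝ → Finset ℕ}
    (hS : Sys m J d e L c0 I B D) {i : ℕ} (hi : i ∈ I) (u : Fin 4 → ℝ)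
    (hu : ∀ f, |u f| ≤ 5 / 2) :
    |sS m (insert i (B ∪ Finset.univ.biUnion fun f => D f (u f))) -
      (cc m i + c0 + u 0 + u 1 - u 2 - u 3)| ≤ 4 * e := by
  have h1 := hS.sum i hi u hu (cc m)
  have h2 : sS m (insert i (B ∪ Finset.univ.biUnion fun f => D f (u f))) =
      cc m i + sS m B + (sS m (D 0 (u 0)) + sS m (D 1 (u 1)) + sS m (D 2 (u 2)) +
        sS m (D 3 (u 3))) := by
    unfold sS
    rw [h1, Fin.sum_univ_four]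
  have h3 := abs_le.1 (hS.sD0 (u 0) (hu 0))
  have h4 := abs_le.1 (hS.sD1 (u 1) (hu 1))
  have h5 := abs_le.1 (hS.sD2 (u 2) (hu 2))
  have h6 := abs_le.1 (hS.sD3 (u 3) (hu 3))
  rw [h2, hS.sumB]
  rw [abs_le]
  constructor <;> linarith [h3.1, h3.2, h4.1, h4.2, h5.1, h5.2, h6.1, h6.2]

/-- the part of the detection property coming from one system -/
lemma dt_one {K₁ : ℝ} (hdet : ∀ (B Δ c0 gB : ℝ) (x₁ x₂ x₃ x₄ : ℝ → ℝ) (I : Set ℕ)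
    (c g : ℕ → ℝ), 1 ≤ B → 0 < Δ → Δ ≤ 1 / 100 → |c0| ≤ 1 / 10 → (∀ i ∈ I, |c i| ≤ 1) →
    (∀ u : ℝ, |u| ≤ 5 / 2 → |x₁ u| ≤ B) →
    (∀ i ∈ I, ∀ u₁ u₂ u₃ u₄ : ℝ, |u₁| ≤ 5 / 2 → |u₂| ≤ 5 / 2 → |u₃| ≤ 5 / 2 → |u₄| ≤ 5 / 2 →
      (Δ / 2 ≤ c i + c0 + u₁ + u₂ - u₃ - u₄ → 0 < gB + g i + x₁ u₁ + x₂ u₂ + x₃ u₃ + x₄ u₄) ∧
      (c i + c0 + u₁ + u₂ - u₃ - u₄ ≤ -(Δ / 2) →
        gB + g i + x₁ u₁ + x₂ u₂ + x₃ u₃ + x₄ u₄ < 0)) →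
    ∃ lam kap : ℝ, ∀ i ∈ I, |g i - lam * c i - kap| ≤ K₁ * B * Δ)
    {m J d : ℕ} {e L c0 : ℝ} {I : Set ℕ} {B : Finset ℕ} {D : Fin 4 → ℝ → Finset ℕ}
    (hS : Sys m J d e L c0 I B D) {i₀ : ℕ} (hi₀ : i₀ ∈ I)
    (g : ℕ → ℝ) (g0 Δ : ℝ) (hg : ∀ i ∈ Finset.Ico 1 m, |g i| ≤ 2)
    (hΔ : 0 < Δ) (hΔ1 : Δ ≤ 1 / 100) (he : 4 * e ≤ Δ / 4)
    (hs : ∀ S, Adm m J S → (Δ / 4 ≤ sS m S → 0 < g0 + ∑ i ∈ S, g i) ∧
      (sS m S ≤ -(Δ / 4) → g0 + ∑ i ∈ S, g i < 0)) :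
    ∃ lam kap : ℝ, ∀ i ∈ I, |g i - lam * cc m i - kap| ≤ K₁ * (2 * d + 1) * Δ := by
  apply hdet (2 * d + 1) Δ c0 (g0 + ∑ j ∈ B, g j) (fun u => ∑ j ∈ D 0 u, g j)
    (fun u => ∑ j ∈ D 1 u, g j) (fun u => ∑ j ∈ D 2 u, g j) (fun u => ∑ j ∈ D 3 u, g j)
    I (cc m) g
  · have : (0 : ℝ) ≤ d := Nat.cast_nonneg d
    linarith
  · exact hΔ
  · exact hΔ1
  · exact hS.hc0
  · intro i _
    exact Real.abs_cos_le_one _
  · intro u hu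
    have hsub : D 0 u ⊆ Finset.Ico 1 m := by
      have h := (hS.adm i₀ hi₀ (fun f => if f = 0 then u else 0) (by
        intro f
        by_cases hf : f = 0
        · simp [hf, hu]
        · simp [hf]
          norm_num)).1
      intro j hj
      apply h
      rw [Finset.mem_insert, Finset.mem_union, Finset.mem_biUnion]
      right
      right
      exact ⟨0, Finset.mem_univ _, by simpa using hj⟩
    calc |∑ j ∈ D 0 u, g j| ≤ ∑ j ∈ D 0 u, |g j| := Finset.abs_sum_le_sum_abs _ _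
      _ ≤ ∑ j ∈ D 0 u, (2 : ℝ) := Finset.sum_le_sum fun j hj => hg j (hsub hj)
      _ = 2 * d := by
        rw [Finset.sum_const, hS.cardD 0 u hu, nsmul_eq_mul]
        ring
      _ ≤ 2 * d + 1 := by linarith
  · intro i hi u₁ u₂ u₃ u₄ h1 h2 h3 h4
    have hu : ∀ f : Fin 4, |(![u₁, u₂, u₃, u₄] : Fin 4 → ℝ) f| ≤ 5 / 2 := by
      intro f
      fin_cases f <;> simp <;> assumption
    have hadm := hS.adm i hi ![u₁, u₂, u₃, u₄] hu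
    have hsum := hS.sum i hi ![u₁, u₂, u₃, u₄] hu g
    have hcs := abs_le.1 (dt_sum hS hi ![u₁, u₂, u₃, u₄] hu)
    have hss := hs _ hadm
    rw [hsum, Fin.sum_univ_four] at hss
    have e0 : (![u₁, u₂, u₃, u₄] : Fin 4 → ℝ) 0 = u₁ := rfl
    have e1 : (![u₁, u₂, u₃, u₄] : Fin 4 → ℝ) 1 = u₂ := rfl
    have e2 : (![u₁, u₂, u₃, u₄] : Fin 4 → ℝ) 2 = u₃ := rfl
    have e3 : (![u₁, u₂, u₃, u₄] : Fin 4 → ℝ) 3 = u₄ := rfl
    rw [e0, e1, e2, e3] at hss hcs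
    constructor
    · intro h
      have := hss.1 (by linarith [hcs.1, hcs.2])
      linarith
    · intro h
      have := hss.2 (by linarith [hcs.1, hcs.2])
      linarith

/-- a set of a system with prescribed cosine sum -/
lemma dt_two {m J d : ℕ} {e L c0 : ℝ} {I : Set ℕ} {B : Finset ℕ} {D : Fin 4 → ℝ → Finset ℕ}
    (hS : Sys m J d e L c0 I B D) {i₀ : ℕ} (hi₀ : i₀ ∈ I) (s : ℝ) (hs : |s| ≤ 1 / 100) :
    ∃ S, Adm m J S ∧ |sS m S - s| ≤ 4 * e := by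
  have hc : |cc m i₀| ≤ 1 := Real.abs_cos_le_one _
  have hu : ∀ f : Fin 4, |(![s - cc m i₀ - c0, 0, 0, 0] : Fin 4 → ℝ) f| ≤ 5 / 2 := by
    intro f
    have h1 := abs_le.1 hc
    have h2 := abs_le.1 hS.hc0
    have h3 := abs_le.1 hs
    fin_cases f
    · show |s - cc m i₀ - c0| ≤ 5 / 2
      rw [abs_le]
      constructor <;> linarith [h1.1, h1.2, h2.1, h2.2, h3.1, h3.2]
    · show |(0 : ℝ)| ≤ 5 / 2
      norm_num
    · show |(0 : ℝ)| ≤ 5 / 2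
      norm_num
    · show |(0 : ℝ)| ≤ 5 / 2
      norm_num
  refine ⟨_, hS.adm i₀ hi₀ _ hu, ?_⟩
  have h := dt_sum hS hi₀ _ hu
  have e0 : (![s - cc m i₀ - c0, 0, 0, 0] : Fin 4 → ℝ) 0 = s - cc m i₀ - c0 := rfl
  have e1 : (![s - cc m i₀ - c0, 0, 0, 0] : Fin 4 → ℝ) 1 = 0 := rfl
  have e2 : (![s - cc m i₀ - c0, 0, 0, 0] : Fin 4 → ℝ) 2 = 0 := rfl
  have e3 : (![s - cc m i₀ - c0, 0, 0, 0] : Fin 4 → ℝ) 3 = 0 := rfl
  rw [e0, e1, e2, e3] at h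
  have h' : cc m i₀ + c0 + (s - cc m i₀ - c0) + 0 - 0 - 0 = s := by ring
  rw [h'] at h
  exact h

theorem detect (E : ℕ) (hE : 1 ≤ E) : ∃ (J : ℕ) (K : ℝ) (m0 : ℕ), 2 ≤ J ∧ 0 < K ∧
    ∀ m ≥ m0, m % 2 = 1 → DetProp E J K m := by
  obtain ⟨J, d, K₀, m0, hJ, hK₀, H⟩ := sys_exists E
  obtain ⟨K₁, hK₁, hdet⟩ := detect_abs
  have hd : (0 : ℝ) ≤ d := Nat.cast_nonneg d
  have hA : 0 < K₁ * (2 * d + 1) := by positivity
  refine ⟨J, 16 * K₀ + 11 * (K₁ * (2 * d + 1)), m0, hJ, by positivity, ?_⟩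
  intro m hm hodd
  obtain ⟨L, c₁, c₂, I₁, I₂, B₁, B₂, D₁, D₂, hS₁, hS₂, hcov, i₁, i₂, h11, h12, h21, h22, hcc⟩ :=
    H m hm hodd
  have hm1 : 1 ≤ m := by omega
  have hmR : (1 : ℝ) ≤ m := by exact_mod_cast hm1
  have hpow : (0 : ℝ) < (m : ℝ) ^ E := by positivity
  have hpow1 : (m : ℝ) ^ E ≤ (m : ℝ) ^ (E + 1) := pow_le_pow_right₀ hmR (Nat.le_succ E)
  have hee : ∀ Δ : ℝ, (16 * K₀ + 11 * (K₁ * (2 * d + 1))) / (m : ℝ) ^ E ≤ Δ →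
      0 < Δ ∧ 4 * (K₀ / (m : ℝ) ^ (E + 1)) ≤ Δ / 4 := by
    intro Δ hΔ
    have h1 : 0 < (16 * K₀ + 11 * (K₁ * (2 * d + 1))) / (m : ℝ) ^ E := by positivity
    refine ⟨lt_of_lt_of_le h1 hΔ, ?_⟩
    have h2 : K₀ / (m : ℝ) ^ (E + 1) ≤ K₀ / (m : ℝ) ^ E :=
      div_le_div_of_nonneg_left hK₀.le hpow hpow1
    have h3 : 16 * (K₀ / (m : ℝ) ^ E) ≤ (16 * K₀ + 11 * (K₁ * (2 * d + 1))) / (m : ℝ) ^ E := by
      rw [← mul_div_assoc]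
      apply div_le_div_of_nonneg_right _ hpow.le
      linarith
    linarith
  constructor
  · intro g g0 Δ hg hg0 hΔ hΔ1 hs
    obtain ⟨hΔ0, he⟩ := hee Δ hΔ
    obtain ⟨l₁, k₁, h₁⟩ := dt_one hdet hS₁ h11 g g0 Δ hg hΔ0 hΔ1 he hs
    obtain ⟨l₂, k₂, h₂⟩ := dt_one hdet hS₂ h12 g g0 Δ hg hΔ0 hΔ1 he hs
    refine ⟨l₁, k₁, ?_⟩
    intro i hi
    set A := K₁ * (2 * d + 1) with hAdef
    have hAΔ : 0 < A * Δ := mul_pos hA hΔ0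
    have hfin : A * Δ * 11 ≤ (16 * K₀ + 11 * A) * Δ := by
      have : 0 ≤ 16 * K₀ * Δ := by positivity
      nlinarith
    rcases hcov i hi with hi' | hi'
    · refine (h₁ i hi').trans ?_
      linarith
    · have p1 := abs_le.1 (h₁ i₁ h11)
      have p2 := abs_le.1 (h₁ i₂ h21)
      have q1 := abs_le.1 (h₂ i₁ h12)
      have q2 := abs_le.1 (h₂ i₂ h22)
      have q3 := abs_le.1 (h₂ i hi')
      have hl : |(l₁ - l₂) * (cc m i₁ - cc m i₂)| ≤ 4 * (A * Δ) := by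
        rw [abs_le]
        constructor <;> nlinarith [p1.1, p1.2, p2.1, p2.2, q1.1, q1.2, q2.1, q2.2]
      have hl2 : |l₁ - l₂| ≤ 4 * (A * Δ) := by
        rw [abs_mul, abs_of_pos (by linarith : 0 < cc m i₁ - cc m i₂)] at hl
        have := abs_nonneg (l₁ - l₂)
        nlinarith
      have hcb : ∀ j, |(l₁ - l₂) * cc m j| ≤ 4 * (A * Δ) := by
        intro j
        rw [abs_mul]
        have h1 : |cc m j| ≤ 1 := Real.abs_cos_le_one _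
        calc |l₁ - l₂| * |cc m j| ≤ |l₁ - l₂| * 1 :=
              mul_le_mul_of_nonneg_left h1 (abs_nonneg _)
          _ ≤ 4 * (A * Δ) := by linarith
      have hk : |k₁ - k₂| ≤ 6 * (A * Δ) := by
        have h1 := abs_le.1 (hcb i₁)
        rw [abs_le]
        constructor <;> nlinarith [h1.1, h1.2, p1.1, p1.2, q1.1, q1.2]
      have h5 := abs_le.1 (hcb i)
      have h6 := abs_le.1 hk
      refine le_trans ?_ hfin
      rw [abs_le]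
      constructor <;> nlinarith [h5.1, h5.2, h6.1, h6.2, q3.1, q3.2]
  · intro Δ hΔ hΔ1
    obtain ⟨hΔ0, he⟩ := hee Δ hΔ
    constructor
    · obtain ⟨S, hS, hs⟩ := dt_two hS₁ h11 Δ (by rw [abs_of_pos hΔ0]; exact hΔ1)
      have h := abs_le.1 hs
      exact ⟨S, hS, by linarith [h.1], by linarith [h.2]⟩
    · obtain ⟨S, hS, hs⟩ := dt_two hS₁ h11 (-Δ) (by rw [abs_neg, abs_of_pos hΔ0]; exact hΔ1)
      have h := abs_le.1 hs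
      exact ⟨S, hS, by linarith [h.1], by linarith [h.2]⟩

end Pool.Agent.H99.TN
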