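import Pool.Agent.H99.TN.Defs

/-! M14: orthogonality. -/

namespace Pool.Agent.H99.TN

open Polynomial

private theorem tele (θ : ℝ) (M : ℕ) (hM : 1 ≤ M) :
    2 * Real.sin (θ / 2) * ∑ i ∈ Finset.Ico 1 M, Real.cos (i * θ) =
      Real.sin (M * θ - θ / 2) - Real.sin (θ / 2) := by
  induction M, hM using Nat.le_induction with
  | base =>
    have : ((1 : ℕ) : ℝ) * θ - θ / 2 = θ / 2 := by push_cast; ring
    rw [this]
    simp
  | succ M hM ih =>
    rw [Finset.sum_Ico_succ_top hM, mul_add, ih]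
    have e1 : ((M + 1 : ℕ) : ℝ) * θ - θ / 2 = M * θ + θ / 2 := by push_cast; ring
    rw [e1, Real.sin_add, Real.sin_sub]
    ring

private theorem Dsum (m : ℕ) (hm : 2 ≤ m) (j : ℤ) :
    ∑ i ∈ Finset.Ico 1 m, Real.cos (i * (Real.pi * j / m)) =
      m * (if (2 * m : ℤ) ∣ j then 1 else 0) - (1 + Real.cos (Real.pi * j)) / 2 := by
  have hm0 : (m : ℝ) ≠ 0 := by positivity
  by_cases hj : (2 * m : ℤ) ∣ j
  · rw [if_pos hj]
    obtain ⟨t, rfl⟩ := hj
    have h1 : ∀ i ∈ Finset.Ico 1 m, Real.cos (i * (Real.pi * ((2 * m * t : ℤ) : ℝ) / m)) = 1 := by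
      intro i _
      have : (i : ℝ) * (Real.pi * ((2 * m * t : ℤ) : ℝ) / m) = ((i * t : ℤ) : ℝ) * (2 * Real.pi) := by
        push_cast
        field_simp
      rw [this, Real.cos_int_mul_two_pi]
    rw [Finset.sum_congr rfl h1]
    have h2 : Real.cos (Real.pi * ((2 * m * t : ℤ) : ℝ)) = 1 := by
      have : Real.pi * ((2 * m * t : ℤ) : ℝ) = ((m * t : ℤ) : ℝ) * (2 * Real.pi) := by
        push_cast
        ring
      rw [this, Real.cos_int_mul_two_pi]
    rw [h2]
    simp
    rw [Nat.cast_sub (by omega)]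
    simp
  · rw [if_neg hj]
    have hs : Real.sin (Real.pi * j / m / 2) ≠ 0 := by
      intro h
      rw [Real.sin_eq_zero_iff] at h
      obtain ⟨n, hn⟩ := h
      apply hj
      refine ⟨n, ?_⟩
      have h1 : (n : ℝ) * Real.pi * (2 * m) = Real.pi * j := by
        rw [hn]
        field_simp
      have h2 : Real.pi * ((j : ℝ) - 2 * m * n) = 0 := by linarith
      have h3 : (j : ℝ) - 2 * m * n = 0 := by
        rcases mul_eq_zero.1 h2 with h | h
        · exact absurd h Real.pi_ne_zero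
        · exact h
      have h4 : (j : ℝ) = 2 * m * n := by linarith
      exact_mod_cast h4
    have h1 := tele (Real.pi * j / m) m (by omega)
    have h2 : (m : ℝ) * (Real.pi * j / m) - Real.pi * j / m / 2 =
        Real.pi * j - Real.pi * j / m / 2 := by
      field_simp
    have h3 : Real.sin (Real.pi * j) = 0 := by
      rw [mul_comm]
      exact Real.sin_int_mul_pi j
    rw [h2, Real.sin_sub, h3] at h1
    have h4 : 2 * Real.sin (Real.pi * j / m / 2) *
        (∑ i ∈ Finset.Ico 1 m, Real.cos (i * (Real.pi * j / m)) +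
          (1 + Real.cos (Real.pi * j)) / 2) = 0 := by
      rw [mul_add, h1]
      ring
    rcases mul_eq_zero.1 h4 with h | h
    · exact absurd h (mul_ne_zero two_ne_zero hs)
    · linarith

private theorem Ssum (m k l : ℕ) (hm : 2 ≤ m) :
    ∑ i ∈ Finset.Ico 1 m, cc m (k * i) * cc m (l * i) =
      (m / 2) * ((if (2 * m : ℤ) ∣ ((k : ℤ) - l) then 1 else 0) +
        (if (2 * m : ℤ) ∣ ((k : ℤ) + l) then 1 else 0)) -
      (1 + Real.cos (Real.pi * (k + l))) / 2 := by
  have h1 := Dsum m hm ((k : ℤ) - l)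
  have h2 := Dsum m hm ((k : ℤ) + l)
  have h3 : Real.cos (Real.pi * (((k : ℤ) - l : ℤ) : ℝ)) = Real.cos (Real.pi * (k + l)) := by
    have : Real.pi * ((k : ℝ) + l) = Real.pi * (((k : ℤ) - l : ℤ) : ℝ) + (l : ℤ) * (2 * Real.pi) := by
      push_cast
      ring
    rw [this, Real.cos_add_int_mul_two_pi]
  rw [h3] at h1
  have h4 : Real.cos (Real.pi * (((k : ℤ) + l : ℤ) : ℝ)) = Real.cos (Real.pi * (k + l)) := by
    push_cast
    rfl
  rw [h4] at h2
  have h5 : ∑ i ∈ Finset.Ico 1 m, cc m (k * i) * cc m (l * i) =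
      (∑ i ∈ Finset.Ico 1 m, Real.cos (i * (Real.pi * (((k : ℤ) - l : ℤ) : ℝ) / m)) +
        ∑ i ∈ Finset.Ico 1 m, Real.cos (i * (Real.pi * (((k : ℤ) + l : ℤ) : ℝ) / m))) / 2 := by
    rw [← Finset.sum_add_distrib, Finset.sum_div]
    refine Finset.sum_congr rfl fun i _ => ?_
    unfold cc
    have e1 : (i : ℝ) * (Real.pi * (((k : ℤ) - l : ℤ) : ℝ) / m) =
        Real.pi * ((k * i : ℕ) : ℝ) / m - Real.pi * ((l * i : ℕ) : ℝ) / m := by
      push_cast
      ring
    have e2 : (i : ℝ) * (Real.pi * (((k : ℤ) + l : ℤ) : ℝ) / m) =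
        Real.pi * ((k * i : ℕ) : ℝ) / m + Real.pi * ((l * i : ℕ) : ℝ) / m := by
      push_cast
      ring
    rw [e1, e2, Real.cos_sub, Real.cos_add]
    ring
  rw [h5, h1, h2]
  ring

theorem dft (m k l : ℕ) (hm : 2 ≤ m) (hk : 1 ≤ k) (hk2 : k + 2 ≤ m) (hl : l ≤ 2 * m) :
    ∑ i ∈ Finset.Ico 1 m, (cc m (k * i) - cc m ((k + 2) * i)) * cc m (l * i) =
      (m / 2) * (((if l = k then 1 else 0) + (if l + k = 2 * m then 1 else 0) : ℝ) -
        ((if l = k + 2 then 1 else 0) + (if l + (k + 2) = 2 * m then 1 else 0) : ℝ)) := by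
  have hdiv : ∀ k' : ℕ, 1 ≤ k' → k' ≤ m →
      (((2 * m : ℤ) ∣ ((k' : ℤ) - l) ↔ l = k') ∧ ((2 * m : ℤ) ∣ ((k' : ℤ) + l) ↔ l + k' = 2 * m)) := by
    intro k' h1 h2
    constructor
    · constructor
      · rintro ⟨t, ht⟩
        have h3 : -1 < t := by
          by_contra h
          have : t ≤ -1 := by omega
          nlinarith
        have h4 : t < 1 := by
          by_contra h
          have : 1 ≤ t := by omega
          nlinarith
        have h5 : t = 0 := by omega
        subst h5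
        omega
      · rintro rfl
        simp
    · constructor
      · rintro ⟨t, ht⟩
        have h3 : 0 < t := by
          by_contra h
          have : t ≤ 0 := by omega
          nlinarith
        have h4 : t < 2 := by
          by_contra h
          have : 2 ≤ t := by omega
          nlinarith
        have h5 : t = 1 := by omega
        subst h5
        omega
      · intro h
        refine ⟨1, ?_⟩
        omega
  have e1 : ∑ i ∈ Finset.Ico 1 m, (cc m (k * i) - cc m ((k + 2) * i)) * cc m (l * i) =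
      ∑ i ∈ Finset.Ico 1 m, cc m (k * i) * cc m (l * i) -
        ∑ i ∈ Finset.Ico 1 m, cc m ((k + 2) * i) * cc m (l * i) := by
    rw [← Finset.sum_sub_distrib]
    exact Finset.sum_congr rfl fun i _ => by ring
  have h3 : Real.cos (Real.pi * (((k + 2 : ℕ) : ℝ) + l)) = Real.cos (Real.pi * (k + l)) := by
    have : Real.pi * (((k + 2 : ℕ) : ℝ) + l) = Real.pi * (k + l) + 2 * Real.pi := by
      push_cast
      ring
    rw [this, Real.cos_add_two_pi]
  have d1 := hdiv k hk (by omega)
  have d2 := hdiv (k + 2) (by omega) hk2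
  rw [e1, Ssum m k l hm, Ssum m (k + 2) l hm, h3]
  simp only [d1.1, d1.2, d2.1, d2.2]
  ring

end Pool.Agent.H99.TN
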