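import Pool.Agent.H99.TN.Defs

/-! M8a: existence of the roots near the roots of unity. -/

namespace Pool.Agent.H99.TN

open Polynomial

theorem RtExists.tw_pow (n : ℕ) (hn : 2 ≤ n) (i : ℕ) : tw n i ^ n = 1 := by
  have hn0 : (n : ℂ) ≠ 0 := by
    have : n ≠ 0 := by omega
    exact_mod_cast this
  unfold tw
  rw [← Complex.exp_nat_mul, Complex.exp_eq_one_iff]
  refine ⟨i, ?_⟩
  field_simp
  push_cast
  ring

theorem RtExists.norm_tw (n : ℕ) (hn : 2 ≤ n) (i : ℕ) : ‖tw n i‖ = 1 := by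
  have h := RtExists.tw_pow n hn i
  have h2 : ‖tw n i‖ ^ n = 1 := by rw [← norm_pow, h, norm_one]
  exact (pow_eq_one_iff_of_nonneg (norm_nonneg _) (by omega)).mp h2

theorem RtExists.norm_pow_sub_one (t : ℂ) (k : ℕ) :
    ‖(1 + t) ^ k - 1‖ ≤ (1 + ‖t‖) ^ k - 1 := by
  induction k with
  | zero => simp
  | succ k ih =>
    have h1 : (1 + t) ^ (k + 1) - 1 = (1 + t) ^ k * t + ((1 + t) ^ k - 1) := by ring
    have h2 : ‖1 + t‖ ≤ 1 + ‖t‖ := by
      refine (norm_add_le _ _).trans ?_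
      simp
    have h3 : ‖1 + t‖ ^ k ≤ (1 + ‖t‖) ^ k := pow_le_pow_left₀ (norm_nonneg _) h2 k
    rw [h1]
    refine (norm_add_le _ _).trans ?_
    rw [norm_mul, norm_pow]
    have h4 : ‖1 + t‖ ^ k * ‖t‖ ≤ (1 + ‖t‖) ^ k * ‖t‖ :=
      mul_le_mul_of_nonneg_right h3 (norm_nonneg _)
    calc ‖1 + t‖ ^ k * ‖t‖ + ‖(1 + t) ^ k - 1‖
        ≤ (1 + ‖t‖) ^ k * ‖t‖ + ((1 + ‖t‖) ^ k - 1) := add_le_add h4 ih
      _ = (1 + ‖t‖) ^ (k + 1) - 1 := by ring

theorem RtExists.pow_bound (n : ℕ) (hn : 2 ≤ n) (r : ℝ) (hr0 : 0 ≤ r)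
    (hr : r ≤ 3 / (100 * n ^ 2)) (k : ℕ) (hk : k ≤ n) : (1 + r) ^ k ≤ 102 / 100 := by
  have hn2 : (2 : ℝ) ≤ n := by exact_mod_cast hn
  have h1 : (1 + r) ^ k ≤ (1 + r) ^ n := pow_le_pow_right₀ (by linarith) hk
  have h2 : (1 + r) ^ n ≤ Real.exp r ^ n := by
    apply pow_le_pow_left₀ (by linarith)
    have := Real.add_one_le_exp r
    linarith
  have h3 : Real.exp r ^ n = Real.exp (n * r) := by rw [Real.exp_nat_mul]
  have h4 : (n : ℝ) * r ≤ 3 / 200 := by
    have h5 : (n : ℝ) * r ≤ n * (3 / (100 * n ^ 2)) := mul_le_mul_of_nonneg_left hr (by linarith)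
    have h6 : (n : ℝ) * (3 / (100 * n ^ 2)) = 3 / (100 * n) := by
      field_simp
    have h7 : 3 / (100 * (n : ℝ)) ≤ 3 / 200 := by
      apply div_le_div_of_nonneg_left (by norm_num) (by norm_num)
      linarith
    linarith
  have h8 : Real.exp (n * r) ≤ Real.exp (3 / 200) := Real.exp_le_exp.mpr h4
  have h9 : 1 - 3 / 200 ≤ Real.exp (-(3 / 200)) := by
    have := Real.add_one_le_exp (-(3 / 200) : ℝ)
    linarith
  have h10 : Real.exp (3 / 200) * Real.exp (-(3 / 200)) = 1 := by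
    rw [← Real.exp_add]
    simp
  have h11 : Real.exp (3 / 200) ≤ 102 / 100 := by
    have hpos := Real.exp_pos (3 / 200)
    nlinarith
  linarith

theorem isRt_exists (n : ℕ) (hn : 2 ≤ n) (A : ℕ → ℝ) (ε : ℝ) (hε : ε ≤ 1 / (100 * n ^ 2))
    (hA : ∀ j ∈ Finset.Ico 1 n, |A j| ≤ ε) (i : ℕ) :
    ∃ w, IsRt n A i w ∧ ‖w - tw n i‖ ≤ 3 * ε := by
  have hn2 : (2 : ℝ) ≤ n := by exact_mod_cast hn
  have hn0 : (0 : ℝ) < n := by linarith
  have hnC : (n : ℂ) ≠ 0 := by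
    have : n ≠ 0 := by omega
    exact_mod_cast this
  have hε0 : 0 ≤ ε := (abs_nonneg _).trans (hA 1 (by simp; omega))
  set ζ := tw n i with hζdef
  have hζn : ζ ^ n = 1 := RtExists.tw_pow n hn i
  have hζ : ‖ζ‖ = 1 := RtExists.norm_tw n hn i
  have hr : 3 * ε ≤ 3 / (100 * n ^ 2) := by
    have : 3 * (1 / (100 * (n : ℝ) ^ 2)) = 3 / (100 * n ^ 2) := by ring
    linarith
  have hpow : ∀ t : ℂ, ‖t‖ ≤ 3 * ε → ∀ k ≤ n, (1 + ‖t‖) ^ k ≤ 102 / 100 := fun t ht k hk =>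
    RtExists.pow_bound n hn ‖t‖ (norm_nonneg _) (ht.trans hr) k hk
  have hpow' : ∀ t : ℂ, ‖t‖ ≤ 3 * ε → ∀ k ≤ n, ‖ζ * (1 + t)‖ ^ k ≤ 102 / 100 := by
    intro t ht k hk
    refine le_trans ?_ (hpow t ht k hk)
    apply pow_le_pow_left₀ (norm_nonneg _)
    rw [norm_mul, hζ, one_mul]
    refine (norm_add_le _ _).trans ?_
    simp
  let F : ℂ → ℂ := fun t => t - ((1 + t) ^ n - 1 - hsum n A (ζ * (1 + t))) / n
  let F' : ℂ → ℂ := fun t => 1 - ((n : ℂ) * (1 + t) ^ (n - 1) -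
    ∑ j ∈ Finset.Ico 1 n, (A j : ℂ) * (j * (ζ * (1 + t)) ^ (j - 1) * ζ)) / n
  have hderiv : ∀ t, HasDerivAt F (F' t) t := by
    intro t
    have h1 : HasDerivAt (fun t : ℂ => (1 + t)) 1 t := (hasDerivAt_id t).const_add 1
    have h2 : HasDerivAt (fun t : ℂ => (1 + t) ^ n) ((n : ℂ) * (1 + t) ^ (n - 1)) t := by
      have := h1.fun_pow n
      simpa using this
    have h3 : HasDerivAt (fun t : ℂ => ζ * (1 + t)) ζ t := by
      have := h1.const_mul ζ
      simpa using this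
    have h4 : HasDerivAt (fun t : ℂ => hsum n A (ζ * (1 + t)))
        (∑ j ∈ Finset.Ico 1 n, (A j : ℂ) * (j * (ζ * (1 + t)) ^ (j - 1) * ζ)) t := by
      unfold hsum
      apply HasDerivAt.fun_sum
      intro j _
      exact (h3.fun_pow j).const_mul _
    exact (hasDerivAt_id t).sub (((h2.sub_const 1).sub h4).div_const _)
  have hF'bound : ∀ t ∈ Metric.closedBall (0 : ℂ) (3 * ε), ‖F' t‖ ≤ 1 / 2 := by
    intro t ht
    have ht' : ‖t‖ ≤ 3 * ε := by simpa using ht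
    have e1 : F' t = -((1 + t) ^ (n - 1) - 1) +
        (∑ j ∈ Finset.Ico 1 n, (A j : ℂ) * (j * (ζ * (1 + t)) ^ (j - 1) * ζ)) / n := by
      simp only [F']
      rw [sub_div, mul_div_cancel_left₀ _ hnC]
      ring
    rw [e1]
    have e2 : ‖-((1 + t) ^ (n - 1) - 1)‖ ≤ 2 / 100 := by
      rw [norm_neg]
      have h5 := RtExists.norm_pow_sub_one t (n - 1)
      have h6 := hpow t ht' (n - 1) (by omega)
      linarith
    have e3 : ‖(∑ j ∈ Finset.Ico 1 n, (A j : ℂ) * (j * (ζ * (1 + t)) ^ (j - 1) * ζ)) / n‖ ≤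
        102 / 10000 := by
      rw [norm_div, Complex.norm_natCast, div_le_iff₀ hn0]
      have h7 : ‖∑ j ∈ Finset.Ico 1 n, (A j : ℂ) * (j * (ζ * (1 + t)) ^ (j - 1) * ζ)‖ ≤
          ∑ j ∈ Finset.Ico 1 n, ε * (n * (102 / 100)) := by
        refine (norm_sum_le _ _).trans (Finset.sum_le_sum ?_)
        intro j hj
        have hj' := Finset.mem_Ico.mp hj
        rw [norm_mul, norm_mul, norm_mul, norm_pow, hζ, mul_one, Complex.norm_natCast,
          Complex.norm_real, Real.norm_eq_abs]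
        apply mul_le_mul (hA j hj) _ (by positivity) hε0
        apply mul_le_mul _ (hpow' t ht' (j - 1) (by omega)) (by positivity) (by positivity)
        exact_mod_cast hj'.2.le
      refine h7.trans ?_
      rw [Finset.sum_const, nsmul_eq_mul, Nat.card_Ico]
      have h8 : ((n - 1 : ℕ) : ℝ) ≤ n := by
        have : n - 1 ≤ n := Nat.sub_le _ _
        exact_mod_cast this
      have h9 : ε * (n * (102 / 100)) * n ≤ 102 / 10000 := by
        have h10 : ε * (n : ℝ) ^ 2 ≤ 1 / 100 := by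
          calc ε * (n : ℝ) ^ 2 ≤ 1 / (100 * n ^ 2) * (n : ℝ) ^ 2 :=
                mul_le_mul_of_nonneg_right hε (by positivity)
            _ = 1 / 100 := by field_simp
        nlinarith
      have h11 : 0 ≤ ε * (n * (102 / 100)) := by positivity
      calc ((n - 1 : ℕ) : ℝ) * (ε * (n * (102 / 100))) ≤ n * (ε * (n * (102 / 100))) :=
            mul_le_mul_of_nonneg_right h8 h11
        _ = ε * (n * (102 / 100)) * n := by ring
        _ ≤ 102 / 10000 := h9
        _ ≤ 102 / 10000 * n := by nlinarith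
    calc ‖-((1 + t) ^ (n - 1) - 1) +
        (∑ j ∈ Finset.Ico 1 n, (A j : ℂ) * (j * (ζ * (1 + t)) ^ (j - 1) * ζ)) / n‖
        ≤ 2 / 100 + 102 / 10000 := (norm_add_le _ _).trans (add_le_add e2 e3)
      _ ≤ 1 / 2 := by norm_num
  have hlip : ∀ s ∈ Metric.closedBall (0 : ℂ) (3 * ε), ∀ t ∈ Metric.closedBall (0 : ℂ) (3 * ε),
      ‖F s - F t‖ ≤ 1 / 2 * ‖s - t‖ := by
    intro s hs t ht
    exact (convex_closedBall (0 : ℂ) (3 * ε)).norm_image_sub_le_of_norm_hasDerivWithin_le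
      (fun x _ => (hderiv x).hasDerivWithinAt) hF'bound ht hs
  have hF0 : ‖F 0‖ ≤ ε := by
    have e1 : F 0 = hsum n A ζ / n := by
      simp only [F, add_zero, one_pow, mul_one]
      ring
    rw [e1, norm_div, Complex.norm_natCast, div_le_iff₀ hn0]
    unfold hsum
    refine (norm_sum_le _ _).trans ?_
    have h7 : ∑ j ∈ Finset.Ico 1 n, ‖(A j : ℂ) * ζ ^ j‖ ≤ ∑ j ∈ Finset.Ico 1 n, ε := by
      apply Finset.sum_le_sum
      intro j hj
      rw [norm_mul, norm_pow, hζ, one_pow, mul_one, Complex.norm_real, Real.norm_eq_abs]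
      exact hA j hj
    refine h7.trans ?_
    rw [Finset.sum_const, nsmul_eq_mul, Nat.card_Ico, mul_comm]
    apply mul_le_mul_of_nonneg_left _ hε0
    have : n - 1 ≤ n := Nat.sub_le _ _
    exact_mod_cast this
  have h0mem : (0 : ℂ) ∈ Metric.closedBall (0 : ℂ) (3 * ε) := by
    simp [hε0]
  have hmaps : Set.MapsTo F (Metric.closedBall (0 : ℂ) (3 * ε))
      (Metric.closedBall (0 : ℂ) (3 * ε)) := by
    intro t ht
    have ht' : ‖t‖ ≤ 3 * ε := by simpa using ht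
    have h1 := hlip t ht 0 h0mem
    rw [sub_zero] at h1
    have h2 : ‖F t‖ ≤ ‖F t - F 0‖ + ‖F 0‖ := by
      have := norm_add_le (F t - F 0) (F 0)
      simpa using this
    rw [mem_closedBall_zero_iff]
    linarith
  have hcontr : ContractingWith (1 / 2 : NNReal) (hmaps.restrict F _ _) := by
    refine ⟨?_, ?_⟩
    · rw [← NNReal.coe_lt_coe]
      norm_num
    · apply LipschitzWith.of_dist_le_mul
      rintro ⟨s, hs⟩ ⟨t, ht⟩
      have := hlip s hs t ht
      rw [Subtype.dist_eq, Subtype.dist_eq]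
      simp only [Set.MapsTo.val_restrict_apply, dist_eq_norm]
      simpa using this
  obtain ⟨t, ht, hfix, -⟩ := ContractingWith.exists_fixedPoint'
    (Metric.isClosed_closedBall.isComplete) hmaps hcontr h0mem (edist_ne_top _ _)
  have ht' : ‖t‖ ≤ 3 * ε := by simpa using ht
  have hfix' : F t = t := hfix
  have heq : (1 + t) ^ n - 1 - hsum n A (ζ * (1 + t)) = 0 := by
    have h1 : ((1 + t) ^ n - 1 - hsum n A (ζ * (1 + t))) / n = 0 := by
      have h2 : t - ((1 + t) ^ n - 1 - hsum n A (ζ * (1 + t))) / n = t := hfix'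
      linear_combination -h2
    rcases div_eq_zero_iff.mp h1 with h | h
    · exact h
    · exact absurd h hnC
  have hnorm : ‖ζ * (1 + t) - ζ‖ ≤ 3 * ε := by
    have : ζ * (1 + t) - ζ = ζ * t := by ring
    rw [this, norm_mul, hζ, one_mul]
    exact ht'
  refine ⟨ζ * (1 + t), ⟨?_, ?_⟩, hnorm⟩
  · rw [mul_pow, hζn, one_mul]
    linear_combination heq
  · refine hnorm.trans (hr.trans ?_)
    rw [div_le_div_iff₀ (by positivity) (by positivity)]
    nlinarith

end Pool.Agent.H99.TN
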