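import Pool.Agent.H99.TN.Defs

/-! M8b: uniqueness and Lipschitz dependence. -/

namespace Pool.Agent.H99.TN

open Polynomial

private lemma mul_near (x y : ℂ) (X Y : ℝ) (hx : ‖x - 1‖ ≤ X - 1) (hy : ‖y - 1‖ ≤ Y - 1) :
    ‖x * y - 1‖ ≤ X * Y - 1 := by
  have h : x * y - 1 = (x - 1) * (y - 1) + (x - 1) + (y - 1) := by ring
  have h0 := norm_nonneg (x - 1)
  have h1 := norm_nonneg (y - 1)
  calc ‖x * y - 1‖ = ‖(x - 1) * (y - 1) + (x - 1) + (y - 1)‖ := by rw [h]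
    _ ≤ ‖(x - 1) * (y - 1)‖ + ‖x - 1‖ + ‖y - 1‖ := norm_add₃_le
    _ = ‖x - 1‖ * ‖y - 1‖ + ‖x - 1‖ + ‖y - 1‖ := by rw [norm_mul]
    _ ≤ (X - 1) * (Y - 1) + (X - 1) + (Y - 1) := by
        have := mul_le_mul hx hy h1 (by linarith)
        linarith
    _ = X * Y - 1 := by ring

private lemma pow_near (x : ℂ) (X : ℝ) (hx : ‖x - 1‖ ≤ X - 1) (k : ℕ) :
    ‖x ^ k - 1‖ ≤ X ^ k - 1 := by
  induction k with
  | zero => simp
  | succ k ih =>
      rw [pow_succ, pow_succ]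
      exact mul_near _ _ _ _ ih hx

private lemma pow_bd (n : ℕ) (hn : 2 ≤ n) (k : ℕ) (hk : k ≤ n) :
    (1 + 1 / (4 * (n : ℝ))) ^ k ≤ 4 / 3 := by
  have hn0 : (0 : ℝ) < n := by exact_mod_cast (by omega : 0 < n)
  have h1 : (1 : ℝ) ≤ 1 + 1 / (4 * (n : ℝ)) := by
    have : (0 : ℝ) < 1 / (4 * (n : ℝ)) := by positivity
    linarith
  have h2 : (1 + 1 / (4 * (n : ℝ))) ^ k ≤ (1 + 1 / (4 * (n : ℝ))) ^ n := pow_le_pow_right₀ h1 hk
  have h3 : (1 + 1 / (4 * (n : ℝ))) ≤ Real.exp (1 / (4 * (n : ℝ))) := by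
    have := Real.add_one_le_exp (1 / (4 * (n : ℝ)))
    linarith
  have h4 : (1 + 1 / (4 * (n : ℝ))) ^ n ≤ Real.exp (1 / 4) := by
    calc (1 + 1 / (4 * (n : ℝ))) ^ n ≤ (Real.exp (1 / (4 * (n : ℝ)))) ^ n :=
          pow_le_pow_left₀ (by linarith) h3 n
      _ = Real.exp (n * (1 / (4 * (n : ℝ)))) := by rw [← Real.exp_nat_mul]
      _ = Real.exp (1 / 4) := by
          congr 1
          field_simp
  have h5 : Real.exp (1 / 4) ≤ 4 / 3 := by
    have h6 := Real.add_one_le_exp (-(1 / 4) : ℝ)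
    have h7 : Real.exp (-(1 / 4) : ℝ) = (Real.exp (1 / 4))⁻¹ := Real.exp_neg _
    have h8 : (0 : ℝ) < Real.exp (1 / 4) := Real.exp_pos _
    rw [h7] at h6
    have h9 : (3 / 4 : ℝ) ≤ (Real.exp (1 / 4))⁻¹ := by linarith
    have h10 : Real.exp (1 / 4) * (Real.exp (1 / 4))⁻¹ = 1 := mul_inv_cancel₀ h8.ne'
    nlinarith
  linarith

private lemma tw_norm (n i : ℕ) : ‖tw n i‖ = 1 := by
  unfold tw
  have : (2 * Real.pi * Complex.I * (i / n) : ℂ) = ((2 * Real.pi * (i / n) : ℝ) : ℂ) * Complex.I := by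
    push_cast
    ring
  rw [this, Complex.norm_exp_ofReal_mul_I]

theorem isRt_lip (n : ℕ) (hn : 2 ≤ n) (A B : ℕ → ℝ)
    (hA : ∀ j ∈ Finset.Ico 1 n, |A j| ≤ 1 / (100 * n ^ 2))
    (hB : ∀ j ∈ Finset.Ico 1 n, |B j| ≤ 1 / (100 * n ^ 2)) (i : ℕ) (w v : ℂ)
    (hw : IsRt n A i w) (hv : IsRt n B i v) :
    ‖w - v‖ ≤ 2 * ∑ j ∈ Finset.Ico 1 n, |A j - B j| := by
  obtain ⟨hw1, hw2⟩ := hw
  obtain ⟨hv1, hv2⟩ := hv
  set z := tw n i with hz
  have hz1 : ‖z‖ = 1 := tw_norm n i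
  have hz0 : z ≠ 0 := by
    intro h
    rw [h] at hz1
    simp at hz1
  have hn0 : (0 : ℝ) < n := by exact_mod_cast (by omega : 0 < n)
  have hn2 : (2 : ℝ) ≤ n := by exact_mod_cast hn
  set X : ℝ := 1 + 1 / (4 * (n : ℝ)) with hX
  have hX1 : 1 ≤ X := by
    have : (0 : ℝ) < 1 / (4 * (n : ℝ)) := by positivity
    linarith
  -- normalised points
  set a := w / z with ha
  set b := v / z with hb
  have hwa : w = z * a := by rw [ha]; field_simp
  have hvb : v = z * b := by rw [hb]; field_simp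
  have ha1 : ‖a - 1‖ ≤ X - 1 := by
    have : a - 1 = (w - z) / z := by rw [ha]; field_simp
    rw [this, norm_div, hz1, div_one, hX]
    linarith
  have hb1 : ‖b - 1‖ ≤ X - 1 := by
    have : b - 1 = (v - z) / z := by rw [hb]; field_simp
    rw [this, norm_div, hz1, div_one, hX]
    linarith
  -- each product is near 1
  have hprod : ∀ k l : ℕ, k + l ≤ n → ‖a ^ k * b ^ l - 1‖ ≤ 1 / 3 := by
    intro k l hkl
    have h1 := mul_near _ _ _ _ (pow_near a X ha1 k) (pow_near b X hb1 l)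
    rw [← pow_add] at h1
    have h2 := pow_bd n hn (k + l) hkl
    rw [← hX] at h2
    linarith
  have hnb : ∀ l : ℕ, l ≤ n → ‖v ^ l‖ ≤ 4 / 3 := by
    intro l hl
    have h1 := hprod 0 l (by omega)
    rw [pow_zero, one_mul] at h1
    rw [hvb, mul_pow, norm_mul, norm_pow, hz1, one_pow, one_mul]
    calc ‖b ^ l‖ = ‖(b ^ l - 1) + 1‖ := by ring_nf
      _ ≤ ‖b ^ l - 1‖ + ‖(1 : ℂ)‖ := norm_add_le _ _
      _ ≤ 4 / 3 := by rw [norm_one]; linarith
  -- difference of powers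
  have hpow : ∀ j : ℕ, j ≤ n → ‖w ^ j - v ^ j‖ ≤ j * (4 / 3) * ‖w - v‖ := by
    intro j hj
    rw [← Commute.geom_sum₂_mul (Commute.all w v) j, norm_mul]
    refine mul_le_mul_of_nonneg_right ?_ (norm_nonneg _)
    calc ‖∑ k ∈ Finset.range j, w ^ k * v ^ (j - 1 - k)‖
        ≤ ∑ k ∈ Finset.range j, ‖w ^ k * v ^ (j - 1 - k)‖ := norm_sum_le _ _
      _ ≤ ∑ k ∈ Finset.range j, (4 / 3 : ℝ) := by
          refine Finset.sum_le_sum fun k hk => ?_
          have hk' := Finset.mem_range.mp hk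
          have h1 := hprod k (j - 1 - k) (by omega)
          have h2 : w ^ k * v ^ (j - 1 - k) = z ^ (j - 1) * (a ^ k * b ^ (j - 1 - k)) := by
            have h3 : z ^ (j - 1) = z ^ k * z ^ (j - 1 - k) := by
              rw [← pow_add]; congr 1; omega
            rw [hwa, hvb, mul_pow, mul_pow, h3]
            ring
          rw [h2, norm_mul, norm_pow, hz1, one_pow, one_mul]
          calc ‖a ^ k * b ^ (j - 1 - k)‖ = ‖(a ^ k * b ^ (j - 1 - k) - 1) + 1‖ := by ring_nf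
            _ ≤ ‖a ^ k * b ^ (j - 1 - k) - 1‖ + ‖(1 : ℂ)‖ := norm_add_le _ _
            _ ≤ 4 / 3 := by rw [norm_one]; linarith
      _ = j * (4 / 3) := by simp
  -- lower bound
  have hlow : n * (2 / 3) * ‖w - v‖ ≤ ‖w ^ n - v ^ n‖ := by
    rw [← Commute.geom_sum₂_mul (Commute.all w v) n, norm_mul]
    refine mul_le_mul_of_nonneg_right ?_ (norm_nonneg _)
    have h1 : ∑ k ∈ Finset.range n, w ^ k * v ^ (n - 1 - k) =
        z ^ (n - 1) * ((n : ℂ) + ∑ k ∈ Finset.range n, (a ^ k * b ^ (n - 1 - k) - 1)) := by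
      rw [Finset.sum_sub_distrib]
      simp only [Finset.sum_const, Finset.card_range, nsmul_eq_mul, mul_one]
      rw [show (n : ℂ) + (∑ k ∈ Finset.range n, a ^ k * b ^ (n - 1 - k) - n) =
        ∑ k ∈ Finset.range n, a ^ k * b ^ (n - 1 - k) by ring, Finset.mul_sum]
      refine Finset.sum_congr rfl fun k hk => ?_
      have hk' := Finset.mem_range.mp hk
      have h3 : z ^ (n - 1) = z ^ k * z ^ (n - 1 - k) := by
        rw [← pow_add]; congr 1; omega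
      rw [hwa, hvb, mul_pow, mul_pow, h3]
      ring
    rw [h1, norm_mul, norm_pow, hz1, one_pow, one_mul]
    have h2 : ‖∑ k ∈ Finset.range n, (a ^ k * b ^ (n - 1 - k) - 1)‖ ≤ n * (1 / 3) := by
      calc ‖∑ k ∈ Finset.range n, (a ^ k * b ^ (n - 1 - k) - 1)‖
          ≤ ∑ k ∈ Finset.range n, ‖a ^ k * b ^ (n - 1 - k) - 1‖ := norm_sum_le _ _
        _ ≤ ∑ k ∈ Finset.range n, (1 / 3 : ℝ) := by
            refine Finset.sum_le_sum fun k hk => ?_
            have hk' := Finset.mem_range.mp hk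
            exact hprod k (n - 1 - k) (by omega)
        _ = n * (1 / 3) := by simp
    have h3 : ‖(n : ℂ)‖ = n := by simp
    have h4 : ‖(n : ℂ)‖ ≤ ‖(n : ℂ) + ∑ k ∈ Finset.range n, (a ^ k * b ^ (n - 1 - k) - 1)‖ +
        ‖∑ k ∈ Finset.range n, (a ^ k * b ^ (n - 1 - k) - 1)‖ := by
      calc ‖(n : ℂ)‖ = ‖((n : ℂ) + ∑ k ∈ Finset.range n, (a ^ k * b ^ (n - 1 - k) - 1)) -
            ∑ k ∈ Finset.range n, (a ^ k * b ^ (n - 1 - k) - 1)‖ := by
              congr 1; ring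
        _ ≤ _ := norm_sub_le _ _
    rw [h3] at h4
    linarith
  -- upper bound
  have hup : ‖w ^ n - v ^ n‖ ≤ 1 / 75 * ‖w - v‖ + 4 / 3 * ∑ j ∈ Finset.Ico 1 n, |A j - B j| := by
    have h1 : w ^ n - v ^ n = (∑ j ∈ Finset.Ico 1 n, (A j : ℂ) * (w ^ j - v ^ j)) +
        ∑ j ∈ Finset.Ico 1 n, ((A j - B j : ℝ) : ℂ) * v ^ j := by
      rw [hw1, hv1, hsum, hsum, ← Finset.sum_add_distrib]
      rw [show (1 + ∑ j ∈ Finset.Ico 1 n, (A j : ℂ) * w ^ j - (1 + ∑ j ∈ Finset.Ico 1 n, (B j : ℂ) * v ^ j)) =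
        ∑ j ∈ Finset.Ico 1 n, (A j : ℂ) * w ^ j - ∑ j ∈ Finset.Ico 1 n, (B j : ℂ) * v ^ j by ring,
        ← Finset.sum_sub_distrib]
      refine Finset.sum_congr rfl fun j _ => ?_
      push_cast
      ring
    rw [h1]
    refine (norm_add_le _ _).trans (add_le_add ?_ ?_)
    · calc ‖∑ j ∈ Finset.Ico 1 n, (A j : ℂ) * (w ^ j - v ^ j)‖
          ≤ ∑ j ∈ Finset.Ico 1 n, ‖(A j : ℂ) * (w ^ j - v ^ j)‖ := norm_sum_le _ _
        _ ≤ ∑ j ∈ Finset.Ico 1 n, (1 / (75 * n) * ‖w - v‖ : ℝ) := by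
            refine Finset.sum_le_sum fun j hj => ?_
            have hj' := Finset.mem_Ico.mp hj
            rw [norm_mul, Complex.norm_real, Real.norm_eq_abs]
            have h2 := hpow j (by omega)
            have h3 := hA j hj
            have h4 : (j : ℝ) ≤ n := by exact_mod_cast (by omega : j ≤ n)
            have h5 : (0 : ℝ) ≤ ‖w - v‖ := norm_nonneg _
            calc |A j| * ‖w ^ j - v ^ j‖ ≤ 1 / (100 * n ^ 2) * (n * (4 / 3) * ‖w - v‖) := by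
                  refine mul_le_mul h3 (h2.trans ?_) (norm_nonneg _) (by positivity)
                  have : (j : ℝ) * (4 / 3) ≤ n * (4 / 3) := by linarith
                  exact mul_le_mul_of_nonneg_right this h5
              _ = 1 / (75 * n) * ‖w - v‖ := by
                  field_simp
                  ring
        _ = (n - 1 : ℕ) * (1 / (75 * n) * ‖w - v‖) := by simp
        _ ≤ 1 / 75 * ‖w - v‖ := by
            have h2 : ((n - 1 : ℕ) : ℝ) ≤ n := by exact_mod_cast (by omega : n - 1 ≤ n)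
            have h5 : (0 : ℝ) ≤ 1 / (75 * n) * ‖w - v‖ := by positivity
            calc ((n - 1 : ℕ) : ℝ) * (1 / (75 * n) * ‖w - v‖) ≤ n * (1 / (75 * n) * ‖w - v‖) :=
                  mul_le_mul_of_nonneg_right h2 h5
              _ = 1 / 75 * ‖w - v‖ := by field_simp
    · calc ‖∑ j ∈ Finset.Ico 1 n, ((A j - B j : ℝ) : ℂ) * v ^ j‖
          ≤ ∑ j ∈ Finset.Ico 1 n, ‖((A j - B j : ℝ) : ℂ) * v ^ j‖ := norm_sum_le _ _
        _ ≤ ∑ j ∈ Finset.Ico 1 n, 4 / 3 * |A j - B j| := by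
            refine Finset.sum_le_sum fun j hj => ?_
            have hj' := Finset.mem_Ico.mp hj
            rw [norm_mul, Complex.norm_real, Real.norm_eq_abs, mul_comm]
            exact mul_le_mul_of_nonneg_right (hnb j (by omega)) (abs_nonneg _)
        _ = 4 / 3 * ∑ j ∈ Finset.Ico 1 n, |A j - B j| := by rw [Finset.mul_sum]
  have hS : 0 ≤ ∑ j ∈ Finset.Ico 1 n, |A j - B j| := Finset.sum_nonneg fun _ _ => abs_nonneg _
  have hd : (0 : ℝ) ≤ ‖w - v‖ := norm_nonneg _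
  have h1 : (2 : ℝ) * (2 / 3) * ‖w - v‖ ≤ n * (2 / 3) * ‖w - v‖ := by
    refine mul_le_mul_of_nonneg_right ?_ hd
    linarith
  nlinarith

end Pool.Agent.H99.TN
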