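import Pool.Agent.H99.TN.Defs
import Pool.Agent.H99.TN.RtExists
import Pool.Agent.H99.TN.RtLip

/-! M9: second order expansion of the roots. -/

namespace Pool.Agent.H99.TN

open Polynomial

private theorem tri5 (a b c d e : ℂ) :
    ‖a + b + c + d + e‖ ≤ ‖a‖ + ‖b‖ + ‖c‖ + ‖d‖ + ‖e‖ := by
  have h1 := norm_add_le (a + b + c + d) e
  have h2 := norm_add_le (a + b + c) d
  have h3 := norm_add_le (a + b) c
  have h4 := norm_add_le a b
  linarith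

private theorem exp3 (x : ℂ) (hx : ‖x‖ ≤ 1) : ‖Complex.exp x - 1 - x - x ^ 2 / 2‖ ≤ ‖x‖ ^ 3 := by
  have h := Complex.exp_bound hx (n := 3) (by norm_num)
  have e1 : ∑ m ∈ Finset.range 3, x ^ m / (m.factorial : ℂ) = 1 + x + x ^ 2 / 2 := by
    simp [Finset.sum_range_succ, Nat.factorial]
  rw [e1] at h
  have e2 : Complex.exp x - 1 - x - x ^ 2 / 2 = Complex.exp x - (1 + x + x ^ 2 / 2) := by ring
  rw [e2]
  refine h.trans ?_
  have h0 : 0 ≤ ‖x‖ ^ 3 := by positivity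
  have : (((3 : ℕ).succ : ℝ) * (((3 : ℕ).factorial : ℝ) * ((3 : ℕ) : ℝ))⁻¹) ≤ 1 := by
    norm_num [Nat.factorial]
  nlinarith

private theorem log3 (q : ℂ) (hq : ‖q‖ ≤ 1 / 2) :
    ‖Complex.log (1 - q) + q + q ^ 2 / 2‖ ≤ ‖q‖ ^ 3 := by
  have h := Complex.norm_log_sub_logTaylor_le 2 (z := -q) (by rw [norm_neg]; linarith)
  have e1 : Complex.logTaylor (2 + 1) (-q) = -q - q ^ 2 / 2 := by
    simp [Complex.logTaylor_succ, Complex.logTaylor_zero]; ring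
  rw [e1, norm_neg] at h
  have e2 : Complex.log (1 - q) + q + q ^ 2 / 2 = Complex.log (1 + -q) - (-q - q ^ 2 / 2) := by
    ring_nf
  rw [e2]
  refine h.trans ?_
  have h0 : 0 ≤ ‖q‖ ^ 3 := by positivity
  have h1 : (1 - ‖q‖)⁻¹ ≤ 2 := by
    rw [inv_le_comm₀ (by linarith) (by norm_num)]; linarith
  have h2 : ‖q‖ ^ (2 + 1) * (1 - ‖q‖)⁻¹ ≤ ‖q‖ ^ 3 * 2 := mul_le_mul_of_nonneg_left h1 h0
  calc ‖q‖ ^ (2 + 1) * (1 - ‖q‖)⁻¹ / (((2 : ℕ) : ℝ) + 1) ≤ ‖q‖ ^ 3 * 2 / (((2 : ℕ) : ℝ) + 1) := by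
        gcongr
    _ ≤ ‖q‖ ^ 3 := by
        rw [div_le_iff₀ (by norm_num)]; push_cast; linarith

private theorem log2 (H : ℂ) (hH : ‖H‖ ≤ 1 / 2) : ‖Complex.log (1 + H) - H‖ ≤ ‖H‖ ^ 2 := by
  have h := Complex.norm_log_one_add_sub_self_le (z := H) (by linarith)
  refine h.trans ?_
  have h0 : 0 ≤ ‖H‖ ^ 2 := by positivity
  have h1 : (1 - ‖H‖)⁻¹ ≤ 2 := by
    rw [inv_le_comm₀ (by linarith) (by norm_num)]; linarith
  have h2 : ‖H‖ ^ 2 * (1 - ‖H‖)⁻¹ ≤ ‖H‖ ^ 2 * 2 := mul_le_mul_of_nonneg_left h1 h0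
  linarith

private theorem core_expand (n : ℕ) (hn : 4 ≤ n) (z w a H H0 : ℂ) (ε η : ℝ)
    (hz : ‖z‖ = 1) (hzn : z ^ n = 1) (hη0 : 0 ≤ η) (hηε : η ≤ ε) (hε : ε ≤ 1 / (100 * n ^ 2))
    (hw : ‖w - z‖ ≤ 3 * ε) (ha : ‖a‖ ≤ ε) (hH : ‖H‖ ≤ 2 * n * η)
    (hHH : ‖H - H0‖ ≤ 6 * n ^ 2 * ε * η) (hH0 : ‖H0‖ ≤ n * η)
    (heq : w ^ n * (1 - a * w⁻¹ ^ 2) = 1 + H) :
    ‖w - z - z / n * (H0 + a * z⁻¹ ^ 2 + a ^ 2 * z⁻¹ ^ 4 * (1 / 2 - 3 / (2 * n)))‖ ≤
      200 * (n * ε * η + ε ^ 3) := by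
  have hn' : (4 : ℝ) ≤ n := by exact_mod_cast hn
  have hnpos : (0 : ℝ) < n := by linarith
  have hnC : (n : ℂ) ≠ 0 := by
    have : n ≠ 0 := by omega
    exact_mod_cast this
  have hε0 : 0 ≤ ε := hη0.trans hηε
  have hε2 : (n : ℝ) ^ 2 * ε ≤ 1 / 100 := by
    rw [le_div_iff₀ (by positivity)] at hε
    linarith
  have hε1 : (n : ℝ) * ε ≤ 1 / 400 := by nlinarith
  have hεs : ε ≤ 1 / 1600 := by nlinarith
  have hz0 : z ≠ 0 := by
    intro h; rw [h, norm_zero] at hz; norm_num at hz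
  have hzi : ‖z⁻¹‖ = 1 := by rw [norm_inv, hz, inv_one]
  have hd : ‖(w - z) / z‖ ≤ 3 * ε := by rw [norm_div, hz, div_one]; exact hw
  set u : ℂ := Complex.log (1 + (w - z) / z) with hu
  have hu1 : ‖u‖ ≤ 5 * ε := by
    have := Complex.norm_log_one_add_half_le_self (z := (w - z) / z) (by linarith)
    linarith
  have hne : 1 + (w - z) / z ≠ 0 := by
    intro h
    have h1 : (w - z) / z = -1 := by linear_combination h
    rw [h1, norm_neg, norm_one] at hd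
    linarith
  have hexp : Complex.exp u = 1 + (w - z) / z := Complex.exp_log hne
  have hwe : w = z * Complex.exp u := by
    rw [hexp]; field_simp; ring
  have hwi : w⁻¹ = z⁻¹ * Complex.exp (-u) := by
    rw [hwe, mul_inv, Complex.exp_neg]
  have hwn : w ^ n = Complex.exp (n * u) := by
    rw [hwe, mul_pow, hzn, one_mul, ← Complex.exp_nat_mul]
  -- the quantity q
  set q : ℂ := a * w⁻¹ ^ 2 with hq
  have hqe : q = a * z⁻¹ ^ 2 * Complex.exp (-(2 * u)) := by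
    rw [hq, hwi, mul_pow, ← Complex.exp_nat_mul]
    have : ((2 : ℕ) : ℂ) * -u = -(2 * u) := by push_cast; ring
    rw [this]; ring
  have hqe2 : q ^ 2 = a ^ 2 * z⁻¹ ^ 4 * Complex.exp (-(4 * u)) := by
    rw [hqe, mul_pow, ← Complex.exp_nat_mul]
    have : ((2 : ℕ) : ℂ) * -(2 * u) = -(4 * u) := by push_cast; ring
    rw [this]; ring
  have hwnorm : 1 / 2 ≤ ‖w‖ := by
    have h1 : ‖z‖ ≤ ‖w‖ + ‖w - z‖ := by
      have : z = w - (w - z) := by ring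
      calc ‖z‖ = ‖w - (w - z)‖ := by rw [← this]
        _ ≤ ‖w‖ + ‖w - z‖ := norm_sub_le _ _
    rw [hz] at h1
    linarith
  have hwinorm : ‖w⁻¹‖ ≤ 2 := by
    rw [norm_inv, inv_le_comm₀ (by linarith) (by norm_num)]
    linarith
  have hqn : ‖q‖ ≤ 4 * ε := by
    rw [hq, norm_mul, norm_pow]
    have : ‖w⁻¹‖ ^ 2 ≤ 4 := by
      have h0 := norm_nonneg w⁻¹
      nlinarith
    calc ‖a‖ * ‖w⁻¹‖ ^ 2 ≤ ε * 4 := mul_le_mul ha this (by positivity) hε0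
      _ = 4 * ε := by ring
  have hq1 : ‖q‖ ≤ 1 / 2 := by linarith
  have h1q : 1 - q ≠ 0 := by
    intro h
    have h1 : q = 1 := by linear_combination -h
    rw [h1, norm_one] at hq1
    linarith
  have hlq : ‖Complex.log (1 - q)‖ ≤ 6 * ε := by
    have := Complex.norm_log_one_add_half_le_self (z := -q) (by rw [norm_neg]; exact hq1)
    rw [norm_neg, ← sub_eq_add_neg] at this
    linarith
  have hHs : ‖H‖ ≤ 1 / 2 := by
    have : 2 * (n : ℝ) * η ≤ 2 * n * ε := by gcongr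
    linarith
  have hlog : Complex.log (1 + H) = n * u + Complex.log (1 - q) := by
    rw [← heq, hwn]
    have e1 : Complex.exp (n * u) * (1 - q) = Complex.exp (n * u + Complex.log (1 - q)) := by
      rw [Complex.exp_add, Complex.exp_log h1q]
    rw [e1]
    have hnorm : ‖(n : ℂ) * u + Complex.log (1 - q)‖ ≤ 1 := by
      have h1 := norm_add_le ((n : ℂ) * u) (Complex.log (1 - q))
      rw [norm_mul, Complex.norm_natCast] at h1
      have h2 : (n : ℝ) * ‖u‖ ≤ n * (5 * ε) := by gcongr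
      linarith
    have him := (Complex.abs_im_le_norm ((n : ℂ) * u + Complex.log (1 - q))).trans hnorm
    rw [abs_le] at him
    have hpi := Real.pi_gt_three
    exact Complex.log_exp (by linarith) (by linarith)
  -- individual bounds
  have b1 : ‖Complex.log (1 + H) - H‖ ≤ 4 * n ^ 2 * ε * η := by
    refine (log2 H hHs).trans ?_
    have h0 := norm_nonneg H
    have h1 : ‖H‖ ^ 2 ≤ (2 * n * η) ^ 2 := by gcongr
    refine h1.trans ?_
    have h2 : η * η ≤ ε * η := by gcongr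
    have h3 : (2 * (n : ℝ) * η) ^ 2 = 4 * n ^ 2 * (η * η) := by ring
    rw [h3]
    calc 4 * (n : ℝ) ^ 2 * (η * η) ≤ 4 * (n : ℝ) ^ 2 * (ε * η) := by gcongr
      _ = 4 * n ^ 2 * ε * η := by ring
  have b2 : ‖Complex.log (1 - q) + q + q ^ 2 / 2‖ ≤ 64 * ε ^ 3 := by
    refine (log3 q hq1).trans ?_
    calc ‖q‖ ^ 3 ≤ (4 * ε) ^ 3 := by gcongr
      _ = 64 * ε ^ 3 := by ring
  have b3 : ‖q - a * z⁻¹ ^ 2 * (1 - 2 * u)‖ ≤ 100 * ε ^ 3 := by
    have e1 : q - a * z⁻¹ ^ 2 * (1 - 2 * u) =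
        a * z⁻¹ ^ 2 * (Complex.exp (-(2 * u)) - 1 - (-(2 * u))) := by rw [hqe]; ring
    rw [e1, norm_mul, norm_mul, norm_pow, hzi, one_pow, mul_one]
    have h2u : ‖-(2 * u)‖ ≤ 10 * ε := by
      rw [norm_neg, norm_mul]; norm_num; linarith
    have h3 := Complex.norm_exp_sub_one_sub_id_le (x := -(2 * u)) (by linarith)
    have h4 : ‖-(2 * u)‖ ^ 2 ≤ (10 * ε) ^ 2 := by gcongr
    calc ‖a‖ * ‖Complex.exp (-(2 * u)) - 1 - (-(2 * u))‖ ≤ ε * (10 * ε) ^ 2 :=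
          mul_le_mul ha (h3.trans h4) (norm_nonneg _) hε0
      _ = 100 * ε ^ 3 := by ring
  have b4 : ‖q ^ 2 - a ^ 2 * z⁻¹ ^ 4‖ ≤ 40 * ε ^ 3 := by
    have e1 : q ^ 2 - a ^ 2 * z⁻¹ ^ 4 = a ^ 2 * z⁻¹ ^ 4 * (Complex.exp (-(4 * u)) - 1) := by
      rw [hqe2]; ring
    rw [e1, norm_mul, norm_mul, norm_pow, norm_pow, hzi, one_pow, mul_one]
    have h2u : ‖-(4 * u)‖ ≤ 20 * ε := by
      rw [norm_neg, norm_mul]; norm_num; linarith
    have h3 := Complex.norm_exp_sub_one_le (x := -(4 * u)) (by linarith)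
    have h4 : ‖a‖ ^ 2 ≤ ε ^ 2 := by gcongr
    calc ‖a‖ ^ 2 * ‖Complex.exp (-(4 * u)) - 1‖ ≤ ε ^ 2 * (2 * (20 * ε)) :=
          mul_le_mul h4 (h3.trans (by linarith)) (norm_nonneg _) (by positivity)
      _ = 40 * ε ^ 3 := by ring
  -- first form of n u
  have hR1 : ‖(n : ℂ) * u - (H0 + a * z⁻¹ ^ 2 * (1 - 2 * u) + a ^ 2 * z⁻¹ ^ 4 / 2)‖ ≤
      10 * n ^ 2 * ε * η + 184 * ε ^ 3 := by
    have e1 : (n : ℂ) * u - (H0 + a * z⁻¹ ^ 2 * (1 - 2 * u) + a ^ 2 * z⁻¹ ^ 4 / 2) =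
        (Complex.log (1 + H) - H) + (H - H0) + (-(Complex.log (1 - q) + q + q ^ 2 / 2)) +
          (q - a * z⁻¹ ^ 2 * (1 - 2 * u)) + (q ^ 2 - a ^ 2 * z⁻¹ ^ 4) / 2 := by
      rw [hlog]; ring
    rw [e1]
    refine (tri5 _ _ _ _ _).trans ?_
    rw [norm_neg]
    have h5 : ‖(q ^ 2 - a ^ 2 * z⁻¹ ^ 4) / 2‖ ≤ 20 * ε ^ 3 := by
      have h2 : ‖(2 : ℂ)‖ = 2 := by norm_num
      rw [norm_div, h2]; linarith
    linarith
  set v : ℂ := a * z⁻¹ ^ 2 / n with hv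
  have hvn : ‖v‖ ≤ ε / 4 := by
    rw [hv, norm_div, norm_mul, norm_pow, hzi, one_pow, mul_one, Complex.norm_natCast]
    calc ‖a‖ / n ≤ ε / n := by gcongr
      _ ≤ ε / 4 := by gcongr
  have hε3 : 184 * ε ^ 3 ≤ ε ^ 2 := by
    have : ε ^ 2 * (184 * ε) ≤ ε ^ 2 * 1 := by
      apply mul_le_mul_of_nonneg_left _ (by positivity)
      linarith
    calc 184 * ε ^ 3 = ε ^ 2 * (184 * ε) := by ring
      _ ≤ ε ^ 2 := by linarith
  have huv : ‖u - v‖ ≤ 2 * η + 3 * ε ^ 2 := by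
    have e1 : (n : ℂ) * (u - v) =
        ((n : ℂ) * u - (H0 + a * z⁻¹ ^ 2 * (1 - 2 * u) + a ^ 2 * z⁻¹ ^ 4 / 2)) + H0 +
          (-(2 * a * z⁻¹ ^ 2 * u)) + a ^ 2 * z⁻¹ ^ 4 / 2 + 0 := by
      rw [hv]; field_simp; ring
    have h1 : ‖(n : ℂ) * (u - v)‖ ≤ 10 * n ^ 2 * ε * η + 184 * ε ^ 3 + n * η + 10 * ε ^ 2 + ε ^ 2 / 2 := by
      rw [e1]
      refine (tri5 _ _ _ _ _).trans ?_
      rw [norm_neg, norm_zero]
      have h6 : ‖2 * a * z⁻¹ ^ 2 * u‖ ≤ 10 * ε ^ 2 := by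
        rw [norm_mul, norm_mul, norm_mul, norm_pow, hzi, one_pow, mul_one]
        calc ‖(2 : ℂ)‖ * ‖a‖ * ‖u‖ ≤ 2 * ε * (5 * ε) := by
              apply mul_le_mul _ hu1 (norm_nonneg _) (by positivity)
              norm_num; exact ha
          _ = 10 * ε ^ 2 := by ring
      have h7 : ‖a ^ 2 * z⁻¹ ^ 4 / 2‖ ≤ ε ^ 2 / 2 := by
        rw [norm_div, norm_mul, norm_pow, norm_pow, hzi, one_pow, mul_one]
        have : ‖a‖ ^ 2 ≤ ε ^ 2 := by gcongr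
        norm_num; linarith
      linarith
    have h2 : ‖(n : ℂ) * (u - v)‖ = n * ‖u - v‖ := by rw [norm_mul, Complex.norm_natCast]
    rw [h2] at h1
    have h3 : 10 * (n : ℝ) ^ 2 * ε * η ≤ η / 10 := by
      have : ((n : ℝ) ^ 2 * ε) * (10 * η) ≤ 1 / 100 * (10 * η) := by gcongr
      calc 10 * (n : ℝ) ^ 2 * ε * η = ((n : ℝ) ^ 2 * ε) * (10 * η) := by ring
        _ ≤ 1 / 100 * (10 * η) := this
        _ = η / 10 := by ring
    have h4 : (n : ℝ) * ‖u - v‖ ≤ n * (2 * η + 3 * ε ^ 2) := by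
      have h5 : η / 10 ≤ n * η := by nlinarith
      have h6 : 12 * ε ^ 2 ≤ n * (3 * ε ^ 2) := by
        have : 0 ≤ ε ^ 2 := by positivity
        nlinarith
      nlinarith
    exact le_of_mul_le_mul_left h4 hnpos
  have hR2 : ‖(n : ℂ) * u - (H0 + a * z⁻¹ ^ 2 + a ^ 2 * z⁻¹ ^ 4 * (1 / 2 - 2 / n))‖ ≤
      14 * n ^ 2 * ε * η + 190 * ε ^ 3 := by
    have e1 : (n : ℂ) * u - (H0 + a * z⁻¹ ^ 2 + a ^ 2 * z⁻¹ ^ 4 * (1 / 2 - 2 / n)) =
        ((n : ℂ) * u - (H0 + a * z⁻¹ ^ 2 * (1 - 2 * u) + a ^ 2 * z⁻¹ ^ 4 / 2)) +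
          (-(2 * a * z⁻¹ ^ 2 * (u - v))) := by
      rw [hv]; field_simp; ring
    rw [e1]
    refine (norm_add_le _ _).trans ?_
    rw [norm_neg]
    have h6 : ‖2 * a * z⁻¹ ^ 2 * (u - v)‖ ≤ 2 * ε * (2 * η + 3 * ε ^ 2) := by
      rw [norm_mul, norm_mul, norm_mul, norm_pow, hzi, one_pow, mul_one]
      apply mul_le_mul _ huv (norm_nonneg _) (by positivity)
      norm_num; exact ha
    have h7 : 4 * ε * η ≤ 4 * n ^ 2 * ε * η := by
      have h8 : (1 : ℝ) ≤ n ^ 2 := by nlinarith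
      have h9 : 0 ≤ ε * η := by positivity
      nlinarith
    nlinarith
  have hu2 : ‖u ^ 2 - v ^ 2‖ ≤ 12 * ε * η + 18 * ε ^ 3 := by
    have e1 : u ^ 2 - v ^ 2 = (u - v) * (u + v) := by ring
    rw [e1, norm_mul]
    have h1 : ‖u + v‖ ≤ 6 * ε := by
      have := norm_add_le u v
      linarith
    calc ‖u - v‖ * ‖u + v‖ ≤ (2 * η + 3 * ε ^ 2) * (6 * ε) :=
          mul_le_mul huv h1 (norm_nonneg _) (by positivity)
      _ = 12 * ε * η + 18 * ε ^ 3 := by ring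
  have hu3 : ‖Complex.exp u - 1 - u - u ^ 2 / 2‖ ≤ 125 * ε ^ 3 := by
    refine (exp3 u (by linarith)).trans ?_
    calc ‖u‖ ^ 3 ≤ (5 * ε) ^ 3 := by gcongr
      _ = 125 * ε ^ 3 := by ring
  -- conclusion
  have hfin : w - z - z / n * (H0 + a * z⁻¹ ^ 2 + a ^ 2 * z⁻¹ ^ 4 * (1 / 2 - 3 / (2 * n))) =
      z * ((Complex.exp u - 1 - u - u ^ 2 / 2) +
        ((n : ℂ) * u - (H0 + a * z⁻¹ ^ 2 + a ^ 2 * z⁻¹ ^ 4 * (1 / 2 - 2 / n))) / n +
          (u ^ 2 - v ^ 2) / 2 + 0 + 0) := by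
    conv_lhs => rw [hwe]
    rw [hv]; field_simp; ring
  rw [hfin, norm_mul, hz, one_mul]
  refine (tri5 _ _ _ _ _).trans ?_
  rw [norm_zero, norm_div, Complex.norm_natCast, norm_div]
  have h8 : ‖(n : ℂ) * u - (H0 + a * z⁻¹ ^ 2 + a ^ 2 * z⁻¹ ^ 4 * (1 / 2 - 2 / n))‖ / n ≤
      14 * n * ε * η + 48 * ε ^ 3 := by
    rw [div_le_iff₀ hnpos]
    refine hR2.trans ?_
    have : 0 ≤ ε ^ 3 := by positivity
    nlinarith
  have h9 : ‖u ^ 2 - v ^ 2‖ / ‖(2 : ℂ)‖ ≤ 6 * ε * η + 9 * ε ^ 3 := by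
    rw [div_le_iff₀ (by norm_num)]
    norm_num; linarith
  have h10 : 6 * ε * η ≤ 6 * n * ε * η := by
    have h9 : 0 ≤ ε * η := by positivity
    nlinarith
  have h11 : 0 ≤ n * ε * η := by positivity
  have h12 : 0 ≤ ε ^ 3 := by positivity
  linarith

private theorem tw_norm (n i : ℕ) : ‖tw n i‖ = 1 := by
  have : (2 * Real.pi * Complex.I * (i / n) : ℂ) = ((2 * Real.pi * i / n : ℝ) : ℂ) * Complex.I := by
    push_cast; ring
  rw [tw, this, Complex.norm_exp_ofReal_mul_I]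

private theorem tw_pow_re (n i k : ℕ) :
    (tw n i ^ k).re = Real.cos (k * (2 * Real.pi * i / n)) := by
  rw [tw, ← Complex.exp_nat_mul]
  have : ((k : ℂ) * (2 * Real.pi * Complex.I * (i / n))) =
      ((k * (2 * Real.pi * i / n) : ℝ) : ℂ) * Complex.I := by
    push_cast; ring
  rw [this, Complex.exp_ofReal_mul_I_re]

private theorem tw_inv_pow_re (n i k : ℕ) :
    ((tw n i)⁻¹ ^ k).re = Real.cos (k * (2 * Real.pi * i / n)) := by
  rw [tw, ← Complex.exp_neg, ← Complex.exp_nat_mul]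
  have : ((k : ℂ) * -(2 * Real.pi * Complex.I * (i / n))) =
      ((-(k * (2 * Real.pi * i / n)) : ℝ) : ℂ) * Complex.I := by
    push_cast; ring
  rw [this, Complex.exp_ofReal_mul_I_re, Real.cos_neg]

private theorem tw_pow_n (n i : ℕ) (hn : n ≠ 0) : tw n i ^ n = 1 := by
  rw [tw, ← Complex.exp_nat_mul]
  have hnC : (n : ℂ) ≠ 0 := by exact_mod_cast hn
  have : ((n : ℂ) * (2 * Real.pi * Complex.I * (i / n))) = i * (2 * Real.pi * Complex.I) := by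
    field_simp
  rw [this, Complex.exp_nat_mul_two_pi_mul_I]

theorem rt_expand : ∃ K : ℝ, 0 < K ∧ ∀ (n : ℕ) (_ : 4 ≤ n) (A : ℕ → ℝ) (ε η : ℝ),
    ε ≤ 1 / (100 * n ^ 2) → η ≤ ε →
    (∀ j ∈ Finset.Ico 1 n, j ≠ n - 2 → |A j| ≤ η) → |A (n - 2)| ≤ ε →
    ∀ i : ℕ, |(rt n A i).re - (Real.cos (2 * Real.pi * i / n) +
        (1 / n) * (∑ j ∈ Finset.Ico 1 n, A j * Real.cos ((j + 1) * (2 * Real.pi * i / n)) +
          (1 / 2 - 3 / (2 * n)) * (A (n - 2)) ^ 2 * Real.cos (3 * (2 * Real.pi * i / n))))| ≤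
      K * (n * ε * η + ε ^ 3) := by
  refine ⟨200, by norm_num, ?_⟩
  intro n hn A ε η hε hηε hA hA2 i
  have hn' : (4 : ℝ) ≤ n := by exact_mod_cast hn
  have hnpos : (0 : ℝ) < n := by linarith
  have hn0 : n ≠ 0 := by omega
  have hη0 : 0 ≤ η := (abs_nonneg _).trans (hA 1 (Finset.mem_Ico.mpr ⟨le_rfl, by omega⟩) (by omega))
  have hε0 : 0 ≤ ε := hη0.trans hηε
  have hε2 : (n : ℝ) ^ 2 * ε ≤ 1 / 100 := by
    have h := hε
    rw [le_div_iff₀ (by positivity)] at h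
    linarith
  have hε1 : (n : ℝ) * ε ≤ 1 / 400 := by nlinarith
  have hAall : ∀ j ∈ Finset.Ico 1 n, |A j| ≤ ε := by
    intro j hj
    by_cases h : j = n - 2
    · rw [h]; exact hA2
    · exact (hA j hj h).trans hηε
  have hAall' : ∀ j ∈ Finset.Ico 1 n, |A j| ≤ 1 / (100 * n ^ 2) := fun j hj =>
    (hAall j hj).trans hε
  -- the root
  obtain ⟨w0, hw0, hw0'⟩ := isRt_exists n (by omega) A ε hε hAall i
  have hrt : IsRt n A i (rt n A i) := by
    have hex : ∃ w, IsRt n A i w := ⟨w0, hw0⟩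
    unfold rt
    rw [dif_pos hex]
    exact hex.choose_spec
  have hww : rt n A i = w0 := by
    have := isRt_lip n (by omega) A A hAall' hAall' i (rt n A i) w0 hrt hw0
    simp only [sub_self, abs_zero, Finset.sum_const_zero, mul_zero] at this
    exact sub_eq_zero.mp (norm_le_zero_iff.mp this)
  set w : ℂ := rt n A i with hwdef
  rw [← hww] at hw0'
  set z : ℂ := tw n i with hzdef
  have hz : ‖z‖ = 1 := tw_norm n i
  have hzn : z ^ n = 1 := tw_pow_n n i hn0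
  have hz0 : z ≠ 0 := by
    intro h; rw [h, norm_zero] at hz; norm_num at hz
  have hwn1 : ‖w‖ ≤ 1 + 3 * ε := by
    have : w = z + (w - z) := by ring
    calc ‖w‖ = ‖z + (w - z)‖ := by rw [← this]
      _ ≤ ‖z‖ + ‖w - z‖ := norm_add_le _ _
      _ ≤ 1 + 3 * ε := by linarith
  have hwpow : ∀ j : ℕ, j ≤ n → ‖w‖ ^ j ≤ 2 := by
    intro j hj
    have h1 : ‖w‖ ^ j ≤ (1 + 3 * ε) ^ j := by gcongr
    have h2 : (1 + 3 * ε) ^ j ≤ (1 + 3 * ε) ^ n := by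
      apply pow_le_pow_right₀ (by linarith) hj
    have h3 : (1 + 3 * ε) ^ n ≤ Real.exp (3 * ε) ^ n := by
      gcongr
      have := Real.add_one_le_exp (3 * ε)
      linarith
    have h4 : Real.exp (3 * ε) ^ n = Real.exp (n * (3 * ε)) := (Real.exp_nat_mul _ _).symm
    have h5 : Real.exp (n * (3 * ε)) ≤ 2 := by
      have h6 : n * (3 * ε) ≤ 1 / 2 := by nlinarith
      have h7 : Real.exp (n * (3 * ε)) ≤ Real.exp (1 / 2) := Real.exp_le_exp.mpr h6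
      have h8 : Real.exp (1 / 2) ^ 2 ≤ 2 ^ 2 := by
        rw [← Real.exp_nat_mul]
        have := Real.exp_one_lt_d9
        norm_num
        linarith
      have h9 : Real.exp (1 / 2) ≤ 2 := by
        exact le_of_sq_le_sq h8 (by norm_num)
      exact h7.trans h9
    linarith
  have hdiff : ∀ j : ℕ, j ≤ n → ‖w ^ j - z ^ j‖ ≤ 6 * j * ε := by
    intro j
    induction j with
    | zero => intro _; simp
    | succ j ih =>
      intro hj
      have i1 := ih (by omega)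
      have e1 : w ^ (j + 1) - z ^ (j + 1) = w ^ j * (w - z) + (w ^ j - z ^ j) * z := by ring
      rw [e1]
      refine (norm_add_le _ _).trans ?_
      rw [norm_mul, norm_mul, norm_pow, hz, mul_one]
      have i2 : ‖w‖ ^ j * ‖w - z‖ ≤ 2 * (3 * ε) :=
        mul_le_mul (hwpow j (by omega)) hw0' (norm_nonneg _) (by norm_num)
      push_cast
      linarith
  -- the sums without the special index
  set S : Finset ℕ := (Finset.Ico 1 n).erase (n - 2) with hS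
  have hmem : n - 2 ∈ Finset.Ico 1 n := Finset.mem_Ico.mpr ⟨by omega, by omega⟩
  have hScard : (S.card : ℝ) ≤ n := by
    have h1 : S.card ≤ (Finset.Ico 1 n).card := Finset.card_le_card (Finset.erase_subset _ _)
    rw [Nat.card_Ico] at h1
    have : S.card ≤ n := by omega
    exact_mod_cast this
  have hSA : ∀ j ∈ S, |A j| ≤ η := by
    intro j hj
    rw [hS, Finset.mem_erase] at hj
    exact hA j hj.2 hj.1
  have hSn : ∀ j ∈ S, j ≤ n := by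
    intro j hj
    rw [hS, Finset.mem_erase, Finset.mem_Ico] at hj
    omega
  set H : ℂ := ∑ j ∈ S, (A j : ℂ) * w ^ j with hH
  set H0 : ℂ := ∑ j ∈ S, (A j : ℂ) * z ^ j with hH0
  have hHn : ‖H‖ ≤ 2 * n * η := by
    rw [hH]
    refine (norm_sum_le_of_le S (f := fun j => (A j : ℂ) * w ^ j) (n := fun _ => η * 2) ?_).trans ?_
    · intro j hj
      rw [norm_mul, Complex.norm_real, norm_pow]
      exact mul_le_mul (hSA j hj) (hwpow j (hSn j hj)) (by positivity) hη0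
    · rw [Finset.sum_const, nsmul_eq_mul]
      have : (S.card : ℝ) * (η * 2) ≤ n * (η * 2) := by gcongr
      linarith
  have hH0n : ‖H0‖ ≤ n * η := by
    rw [hH0]
    refine (norm_sum_le_of_le S (f := fun j => (A j : ℂ) * z ^ j) (n := fun _ => η) ?_).trans ?_
    · intro j hj
      rw [norm_mul, Complex.norm_real, norm_pow, hz, one_pow, mul_one]
      exact hSA j hj
    · rw [Finset.sum_const, nsmul_eq_mul]
      gcongr
  have hHH : ‖H - H0‖ ≤ 6 * n ^ 2 * ε * η := by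
    rw [hH, hH0, ← Finset.sum_sub_distrib]
    refine (norm_sum_le_of_le S (f := fun j => (A j : ℂ) * w ^ j - (A j : ℂ) * z ^ j)
      (n := fun _ => η * (6 * n * ε)) ?_).trans ?_
    · intro j hj
      rw [← mul_sub, norm_mul, Complex.norm_real]
      have h1 : ‖w ^ j - z ^ j‖ ≤ 6 * n * ε := by
        refine (hdiff j (hSn j hj)).trans ?_
        have : (j : ℝ) ≤ n := by exact_mod_cast hSn j hj
        gcongr
      exact mul_le_mul (hSA j hj) h1 (norm_nonneg _) hη0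
    · rw [Finset.sum_const, nsmul_eq_mul]
      have : (S.card : ℝ) * (η * (6 * n * ε)) ≤ n * (η * (6 * n * ε)) := by gcongr
      calc (S.card : ℝ) * (η * (6 * n * ε)) ≤ n * (η * (6 * n * ε)) := this
        _ = 6 * n ^ 2 * ε * η := by ring
  have hw0ne : w ≠ 0 := by
    intro h
    have h1 : ‖w - z‖ = 1 := by rw [h, zero_sub, norm_neg, hz]
    have : ε ≤ 1 / 1600 := by nlinarith
    linarith
  have heq : w ^ n * (1 - (A (n - 2) : ℂ) * w⁻¹ ^ 2) = 1 + H := by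
    have h1 : w ^ n = 1 + hsum n A w := hrt.1
    have h2 : hsum n A w = (A (n - 2) : ℂ) * w ^ (n - 2) + H := by
      rw [hsum, hH, hS, ← Finset.add_sum_erase _ _ hmem]
    have h3 : w ^ n * w⁻¹ ^ 2 = w ^ (n - 2) := by
      have h4 : w ^ n = w ^ (n - 2) * w ^ 2 := by
        rw [← pow_add]; congr 1; omega
      rw [h4, mul_assoc, ← mul_pow, mul_inv_cancel₀ hw0ne, one_pow, mul_one]
    calc w ^ n * (1 - (A (n - 2) : ℂ) * w⁻¹ ^ 2) = w ^ n - (A (n - 2) : ℂ) * (w ^ n * w⁻¹ ^ 2) := by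
          ring
      _ = 1 + H := by rw [h3, h1, h2]; ring
  have hcore := core_expand n hn z w (A (n - 2) : ℂ) H H0 ε η hz hzn hη0 hηε hε hw0'
    (by rw [Complex.norm_real]; exact hA2) hHn hHH hH0n heq
  refine le_trans ?_ hcore
  refine le_trans (le_of_eq ?_) (Complex.abs_re_le_norm _)
  congr 1
  -- real part
  have hzi : z⁻¹ = z ^ (n - 1) := by
    have h1 : z ^ (n - 1) * z = 1 := by
      rw [← pow_succ, show n - 1 + 1 = n by omega, hzn]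
    exact (eq_inv_of_mul_eq_one_left h1).symm
  have hmain : z / n * (H0 + (A (n - 2) : ℂ) * z⁻¹ ^ 2 +
      (A (n - 2) : ℂ) ^ 2 * z⁻¹ ^ 4 * (1 / 2 - 3 / (2 * n))) =
      ((1 / n : ℝ) : ℂ) * (∑ j ∈ Finset.Ico 1 n, (A j : ℂ) * z ^ (j + 1) +
        (((1 / 2 - 3 / (2 * n)) * (A (n - 2)) ^ 2 : ℝ) : ℂ) * z⁻¹ ^ 3) := by
    have h1 : ∑ j ∈ Finset.Ico 1 n, (A j : ℂ) * z ^ (j + 1) = z * H0 + (A (n - 2) : ℂ) * z⁻¹ := by
      rw [hH0, hS, ← Finset.add_sum_erase _ _ hmem, Finset.mul_sum, hzi,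
        show n - 2 + 1 = n - 1 by omega, add_comm]
      congr 1
      apply Finset.sum_congr rfl
      intro j _
      ring
    rw [h1]
    have h2 : z * z⁻¹ = 1 := mul_inv_cancel₀ hz0
    have h3 : z * z⁻¹ ^ 2 = z⁻¹ := by rw [pow_two, ← mul_assoc, h2, one_mul]
    have h4 : z * z⁻¹ ^ 4 = z⁻¹ ^ 3 := by
      rw [show (4 : ℕ) = 1 + 3 by norm_num, pow_add, pow_one, ← mul_assoc, h2, one_mul]
    calc z / n * (H0 + (A (n - 2) : ℂ) * z⁻¹ ^ 2 +
          (A (n - 2) : ℂ) ^ 2 * z⁻¹ ^ 4 * (1 / 2 - 3 / (2 * n)))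
        = (1 / n) * (z * H0 + (A (n - 2) : ℂ) * (z * z⁻¹ ^ 2) +
          (A (n - 2) : ℂ) ^ 2 * (z * z⁻¹ ^ 4) * (1 / 2 - 3 / (2 * n))) := by ring
      _ = _ := by rw [h3, h4]; push_cast; ring
  rw [hmain, Complex.sub_re, Complex.sub_re, Complex.re_ofReal_mul, Complex.add_re,
    Complex.re_ofReal_mul, Complex.re_sum]
  have hzre : z.re = Real.cos (2 * Real.pi * i / n) := by
    have := tw_pow_re n i 1
    rw [pow_one, Nat.cast_one, one_mul] at this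
    exact this
  have hz3 : (z⁻¹ ^ 3).re = Real.cos (3 * (2 * Real.pi * i / n)) := by
    have := tw_inv_pow_re n i 3
    exact_mod_cast this
  have hsumre : ∑ j ∈ Finset.Ico 1 n, ((A j : ℂ) * z ^ (j + 1)).re =
      ∑ j ∈ Finset.Ico 1 n, A j * Real.cos ((j + 1) * (2 * Real.pi * i / n)) := by
    apply Finset.sum_congr rfl
    intro j _
    rw [Complex.re_ofReal_mul, tw_pow_re]
    push_cast; ring_nf
  rw [hzre, hz3, hsumre]
  ring

end Pool.Agent.H99.TN
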