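import Pool.Agent.H99.TN.Defs
import Pool.Agent.H99.TN.RelDefs
import Pool.Agent.H99.TN.Dft

/-! M16a: the test relation. -/

namespace Pool.Agent.H99.TN

open Polynomial

theorem testRel_abs (m k i : ℕ) : |cc m (k * i) - cc m ((k + 2) * i)| ≤ 2 := by
  have h1 := Real.neg_one_le_cos (Real.pi * ((k * i : ℕ) : ℝ) / m)
  have h2 := Real.cos_le_one (Real.pi * ((k * i : ℕ) : ℝ) / m)
  have h3 := Real.neg_one_le_cos (Real.pi * (((k + 2) * i : ℕ) : ℝ) / m)
  have h4 := Real.cos_le_one (Real.pi * (((k + 2) * i : ℕ) : ℝ) / m)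
  unfold cc
  rw [abs_le]
  constructor <;> linarith

theorem testRel_zero (m k : ℕ) (hm : 10 ≤ m) (hk : 2 ≤ k) (hk2 : k + 2 ≤ m) (l : ℕ) (hl : l ≤ 1) :
    ∑ i ∈ Finset.Ico 1 m, (cc m (k * i) - cc m ((k + 2) * i)) * cc m (l * i) = 0 := by
  rw [dft m k l (by omega) (by omega) hk2 (by omega), if_neg (by omega), if_neg (by omega),
    if_neg (by omega), if_neg (by omega)]
  ring

theorem testRel_three (m k : ℕ) (hm : 10 ≤ m) (hk : 2 ≤ k) (hk2 : k + 2 ≤ m) :
    ∑ i ∈ Finset.Ico 1 m, (cc m (k * i) - cc m ((k + 2) * i)) * cc m (3 * i) =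
      (m / 2) * (if k = 3 then 1 else 0) := by
  rw [dft m k 3 (by omega) (by omega) hk2 (by omega), if_neg (show ¬ (3 + k = 2 * m) by omega),
    if_neg (show ¬ (3 = k + 2) by omega), if_neg (show ¬ (3 + (k + 2) = 2 * m) by omega)]
  by_cases h : k = 3
  · rw [if_pos h, if_pos h.symm]
    ring
  · rw [if_neg h, if_neg (fun h' => h h'.symm)]
    ring

theorem testRel_sum (m k : ℕ) (hm : 10 ≤ m) (hk : 2 ≤ k) (hk2 : k + 2 ≤ m) (A : ℕ → ℝ) :
    ∑ i ∈ Finset.Ico 1 m, (cc m (k * i) - cc m ((k + 2) * i)) *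
      (∑ j ∈ Finset.Ico 1 (2 * m), A j * cc m ((j + 1) * i)) =
      (m / 2) * (A (k - 1) + A (2 * m - k - 1) - A (k + 1) - A (2 * m - k - 3)) := by
  have e1 : ∑ i ∈ Finset.Ico 1 m, (cc m (k * i) - cc m ((k + 2) * i)) *
      (∑ j ∈ Finset.Ico 1 (2 * m), A j * cc m ((j + 1) * i)) =
      ∑ j ∈ Finset.Ico 1 (2 * m), A j * ∑ i ∈ Finset.Ico 1 m,
        (cc m (k * i) - cc m ((k + 2) * i)) * cc m ((j + 1) * i) := by
    simp only [Finset.mul_sum]
    rw [Finset.sum_comm]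
    apply Finset.sum_congr rfl
    intro j _
    apply Finset.sum_congr rfl
    intro i _
    ring
  rw [e1]
  have e2 : ∀ j ∈ Finset.Ico 1 (2 * m), A j * ∑ i ∈ Finset.Ico 1 m,
        (cc m (k * i) - cc m ((k + 2) * i)) * cc m ((j + 1) * i) =
      (m / 2) * ((if j = k - 1 then A j else 0) + (if j = 2 * m - k - 1 then A j else 0) -
        (if j = k + 1 then A j else 0) - (if j = 2 * m - k - 3 then A j else 0)) := by
    intro j hj
    rw [Finset.mem_Ico] at hj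
    rw [dft m k (j + 1) (by omega) (by omega) hk2 (by omega)]
    have c1 : (j + 1 = k) ↔ (j = k - 1) := by omega
    have c2 : (j + 1 + k = 2 * m) ↔ (j = 2 * m - k - 1) := by omega
    have c3 : (j + 1 = k + 2) ↔ (j = k + 1) := by omega
    have c4 : (j + 1 + (k + 2) = 2 * m) ↔ (j = 2 * m - k - 3) := by omega
    simp only [c1, c2, c3, c4]
    have d : ∀ (p : Prop) [Decidable p], (if p then A j else 0) = A j * (if p then (1 : ℝ) else 0) := by
      intro p _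
      split_ifs <;> simp
    rw [d (j = k - 1), d (j = 2 * m - k - 1), d (j = k + 1), d (j = 2 * m - k - 3)]
    ring
  rw [Finset.sum_congr rfl e2, ← Finset.mul_sum, Finset.sum_sub_distrib, Finset.sum_sub_distrib,
    Finset.sum_add_distrib, Finset.sum_ite_eq', Finset.sum_ite_eq', Finset.sum_ite_eq',
    Finset.sum_ite_eq', if_pos (by rw [Finset.mem_Ico]; omega), if_pos (by rw [Finset.mem_Ico]; omega),
    if_pos (by rw [Finset.mem_Ico]; omega), if_pos (by rw [Finset.mem_Ico]; omega)]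

theorem testRel_bound (m k : ℕ) (f : ℕ → ℝ) (e : ℝ)
    (h : ∀ i ∈ Finset.Ico 1 m, |f i| ≤ e) :
    |∑ i ∈ Finset.Ico 1 m, (cc m (k * i) - cc m ((k + 2) * i)) * f i| ≤ ((m - 1 : ℕ) : ℝ) * (2 * e) := by
  refine (Finset.abs_sum_le_sum_abs _ _).trans ?_
  have h1 : ∀ i ∈ Finset.Ico 1 m, |(cc m (k * i) - cc m ((k + 2) * i)) * f i| ≤ 2 * e := by
    intro i hi
    rw [abs_mul]
    exact mul_le_mul (testRel_abs m k i) (h i hi) (abs_nonneg _) (by norm_num)
  refine (Finset.sum_le_sum h1).trans (le_of_eq ?_)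
  rw [Finset.sum_const, Nat.card_Ico, nsmul_eq_mul]

theorem test_rel (m k : ℕ) (hm : 10 ≤ m) (hk : 2 ≤ k) (hk2 : k + 2 ≤ m) (A g : ℕ → ℝ)
    (lam kap e err : ℝ)
    (h1 : ∀ i ∈ Finset.Ico 1 m, |g i - lam * cc m i - kap| ≤ e)
    (h2 : ∀ i ∈ Finset.Ico 1 m, |g i - (cc m i + (1 / (2 * m)) *
      (∑ j ∈ Finset.Ico 1 (2 * m), A j * cc m ((j + 1) * i) +
        (1 / 2 - 3 / (2 * (2 * m : ℝ))) * (A (2 * m - 2)) ^ 2 * cc m (3 * i)))| ≤ err) :
    |relExpr m k A| ≤ 8 * m * (e + err) := by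
  have hm0 : (0 : ℝ) < m := by
    have : 0 < m := by omega
    exact_mod_cast this
  have h0 := testRel_zero m k hm hk hk2 0 (by norm_num)
  have h01 := testRel_zero m k hm hk hk2 1 le_rfl
  have hcc0 : ∀ i, cc m (0 * i) = 1 := by
    intro i
    unfold cc
    simp
  have hb1 := testRel_bound m k (fun i => g i - lam * cc m i - kap) e h1
  have hb2 := testRel_bound m k (fun i => g i - (cc m i + (1 / (2 * m)) *
      (∑ j ∈ Finset.Ico 1 (2 * m), A j * cc m ((j + 1) * i) +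
        (1 / 2 - 3 / (2 * (2 * m : ℝ))) * (A (2 * m - 2)) ^ 2 * cc m (3 * i)))) err h2
  set W : ℕ → ℝ := fun i => cc m (k * i) - cc m ((k + 2) * i) with hW
  set G : ℝ := ∑ i ∈ Finset.Ico 1 m, W i * g i with hG
  have z0 : ∑ i ∈ Finset.Ico 1 m, W i = 0 := by
    rw [← h0]
    apply Finset.sum_congr rfl
    intro i _
    rw [hcc0, mul_one]
  have z1 : ∑ i ∈ Finset.Ico 1 m, W i * cc m i = 0 := by
    rw [← h01]
    apply Finset.sum_congr rfl
    intro i _
    rw [one_mul]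
  have e1 : ∑ i ∈ Finset.Ico 1 m, (cc m (k * i) - cc m ((k + 2) * i)) * (g i - lam * cc m i - kap) = G := by
    have : ∀ i ∈ Finset.Ico 1 m, (cc m (k * i) - cc m ((k + 2) * i)) * (g i - lam * cc m i - kap) =
        W i * g i - lam * (W i * cc m i) - kap * W i := by
      intro i _
      rw [hW]
      ring
    rw [Finset.sum_congr rfl this, Finset.sum_sub_distrib, Finset.sum_sub_distrib, ← Finset.mul_sum,
      ← Finset.mul_sum, z0, z1]
    ring
  have e2 : ∑ i ∈ Finset.Ico 1 m, (cc m (k * i) - cc m ((k + 2) * i)) * (g i - (cc m i + (1 / (2 * m)) *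
      (∑ j ∈ Finset.Ico 1 (2 * m), A j * cc m ((j + 1) * i) +
        (1 / 2 - 3 / (2 * (2 * m : ℝ))) * (A (2 * m - 2)) ^ 2 * cc m (3 * i)))) =
      G - relExpr m k A / 4 := by
    have : ∀ i ∈ Finset.Ico 1 m, (cc m (k * i) - cc m ((k + 2) * i)) * (g i - (cc m i + (1 / (2 * m)) *
      (∑ j ∈ Finset.Ico 1 (2 * m), A j * cc m ((j + 1) * i) +
        (1 / 2 - 3 / (2 * (2 * m : ℝ))) * (A (2 * m - 2)) ^ 2 * cc m (3 * i)))) =
        W i * g i - W i * cc m i -
        (1 / (2 * m)) * (W i * ∑ j ∈ Finset.Ico 1 (2 * m), A j * cc m ((j + 1) * i)) -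
        (1 / (2 * m)) * ((1 / 2 - 3 / (2 * (2 * m : ℝ))) * (A (2 * m - 2)) ^ 2) * (W i * cc m (3 * i)) := by
      intro i _
      rw [hW]
      ring
    rw [Finset.sum_congr rfl this, Finset.sum_sub_distrib, Finset.sum_sub_distrib, Finset.sum_sub_distrib,
      ← Finset.mul_sum, ← Finset.mul_sum, z1]
    have s1 : ∑ i ∈ Finset.Ico 1 m, W i * ∑ j ∈ Finset.Ico 1 (2 * m), A j * cc m ((j + 1) * i) = _ :=
      testRel_sum m k hm hk hk2 A
    have s2 : ∑ i ∈ Finset.Ico 1 m, W i * cc m (3 * i) = _ := testRel_three m k hm hk hk2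
    rw [s1, s2]
    unfold relExpr
    split_ifs
    · field_simp
      ring
    · field_simp
      ring
  rw [e1] at hb1
  rw [e2] at hb2
  have hee : 0 ≤ e + err := by
    have a1 := (abs_nonneg _).trans (h1 1 (by rw [Finset.mem_Ico]; omega))
    have a2 := (abs_nonneg _).trans (h2 1 (by rw [Finset.mem_Ico]; omega))
    linarith
  have hm1 : ((m - 1 : ℕ) : ℝ) ≤ m := by exact_mod_cast Nat.sub_le _ _
  have hr : |relExpr m k A / 4| ≤ ((m - 1 : ℕ) : ℝ) * (2 * e) + ((m - 1 : ℕ) : ℝ) * (2 * err) := by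
    calc |relExpr m k A / 4| = |G - (G - relExpr m k A / 4)| := by rw [sub_sub_cancel]
      _ ≤ |G| + |G - relExpr m k A / 4| := abs_sub _ _
      _ ≤ _ := add_le_add hb1 hb2
  rw [abs_div, abs_of_pos (show (0 : ℝ) < 4 by norm_num)] at hr
  have h8 : ((m - 1 : ℕ) : ℝ) * (e + err) ≤ m * (e + err) := mul_le_mul_of_nonneg_right hm1 hee
  rw [div_le_iff₀ (by norm_num)] at hr
  nlinarith

end Pool.Agent.H99.TN
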