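import Pool.Agent.H99.TN.Defs
import Pool.Agent.H99.TN.FDefs
import Pool.Agent.H99.TN.Expand
import Pool.Agent.H99.TN.TestRel
import Pool.Agent.H99.TN.CoefBound

/-! M16: Lemma Z. -/

namespace Pool.Agent.H99.TN

open Polynomial

theorem z_expand_m (K : ℝ) (hexp : ∀ (n : ℕ) (_ : 4 ≤ n) (A : ℕ → ℝ) (ε η : ℝ),
    ε ≤ 1 / (100 * n ^ 2) → η ≤ ε →
    (∀ j ∈ Finset.Ico 1 n, j ≠ n - 2 → |A j| ≤ η) → |A (n - 2)| ≤ ε →
    ∀ i : ℕ, |(rt n A i).re - (Real.cos (2 * Real.pi * i / n) +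
        (1 / n) * (∑ j ∈ Finset.Ico 1 n, A j * Real.cos ((j + 1) * (2 * Real.pi * i / n)) +
          (1 / 2 - 3 / (2 * n)) * (A (n - 2)) ^ 2 * Real.cos (3 * (2 * Real.pi * i / n))))| ≤
      K * (n * ε * η + ε ^ 3)) (m : ℕ) (hm : 2 ≤ m) (A : ℕ → ℝ) (ε η : ℝ)
    (h1 : ε ≤ 1 / (400 * (m : ℝ) ^ 2)) (h2 : η ≤ ε)
    (h3 : ∀ j ∈ Finset.Ico 1 (2 * m), j ≠ 2 * m - 2 → |A j| ≤ η) (h4 : |A (2 * m - 2)| ≤ ε)
    (i : ℕ) :
    |(rt (2 * m) A i).re - (cc m i + (1 / (2 * m)) *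
      (∑ j ∈ Finset.Ico 1 (2 * m), A j * cc m ((j + 1) * i) +
        (1 / 2 - 3 / (2 * (2 * m : ℝ))) * (A (2 * m - 2)) ^ 2 * cc m (3 * i)))| ≤
      K * (2 * m * ε * η + ε ^ 3) := by
  have hm0 : (0 : ℝ) < m := by exact_mod_cast (by omega : 0 < m)
  have key : ∀ x : ℝ, x * (2 * Real.pi * i / ((2 * m : ℕ) : ℝ)) = Real.pi * (x * i) / m := by
    intro x
    push_cast
    field_simp
  have h := hexp (2 * m) (by omega) A ε η (by
    push_cast
    refine h1.trans (le_of_eq ?_)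
    ring) h2 h3 h4 i
  have e0 : Real.cos (2 * Real.pi * i / ((2 * m : ℕ) : ℝ)) = cc m i := by
    unfold cc
    congr 1
    have := key 1
    rw [one_mul, one_mul] at this
    exact this
  have e1 : ∀ j : ℕ, Real.cos (((j : ℝ) + 1) * (2 * Real.pi * i / ((2 * m : ℕ) : ℝ))) =
      cc m ((j + 1) * i) := by
    intro j
    unfold cc
    rw [key]
    push_cast
    rfl
  have e3 : Real.cos (3 * (2 * Real.pi * i / ((2 * m : ℕ) : ℝ))) = cc m (3 * i) := by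
    unfold cc
    rw [key]
    push_cast
    rfl
  rw [e0, e3] at h
  simp only [e1] at h
  push_cast at h
  exact h

theorem z_cc_le (m i : ℕ) : |cc m i| ≤ 1 := Real.abs_cos_le_one _

theorem z_cc_zero (m : ℕ) : cc m 0 = 1 := by simp [cc]

theorem z_cc_m (m : ℕ) (hm : 0 < m) : cc m m = -1 := by
  have hm0 : (m : ℝ) ≠ 0 := by exact_mod_cast hm.ne'
  unfold cc
  rw [mul_div_assoc, div_self hm0, mul_one, Real.cos_pi]

theorem z_cc_two (m i : ℕ) (hm : 0 < m) : cc m ((2 * m - 1 + 1) * i) = 1 := by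
  have hm0 : (m : ℝ) ≠ 0 := by exact_mod_cast hm.ne'
  have h1 : 2 * m - 1 + 1 = 2 * m := by omega
  rw [h1]
  unfold cc
  have : Real.pi * ((2 * m * i : ℕ) : ℝ) / m = (i : ℝ) * (2 * Real.pi) := by
    push_cast
    field_simp
  rw [this]
  exact Real.cos_nat_mul_two_pi i

theorem z_cc_one (m i : ℕ) (hm : 0 < m) : cc m ((2 * m - 2 + 1) * i) = cc m i := by
  have hm0 : (m : ℝ) ≠ 0 := by exact_mod_cast hm.ne'
  have h1 : 2 * m - 2 + 1 = 2 * m - 1 := by omega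
  rw [h1]
  unfold cc
  have : Real.pi * (((2 * m - 1) * i : ℕ) : ℝ) / m =
      (i : ℝ) * (2 * Real.pi) - Real.pi * i / m := by
    have h2 : ((2 * m - 1 : ℕ) : ℝ) = 2 * m - 1 := by
      rw [Nat.cast_sub (by omega)]
      push_cast
      ring
    rw [Nat.cast_mul, h2]
    field_simp
  rw [this, Real.cos_nat_mul_two_pi_sub]

theorem z_rt_re (n : ℕ) (hn : 1 ≤ n) (A : ℕ → ℝ) (i : ℕ) : |(rt n A i).re| ≤ 2 := by
  unfold rt
  by_cases h : ∃ w, IsRt n A i w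
  · rw [dif_pos h]
    have h1 := h.choose_spec.2
    have hn0 : (1 : ℝ) ≤ n := by exact_mod_cast hn
    have h2 : ‖tw n i‖ = 1 := by
      unfold tw
      have : (2 * Real.pi * Complex.I * (i / n) : ℂ) =
          ((2 * Real.pi * (i / n) : ℝ) : ℂ) * Complex.I := by
        push_cast
        ring
      rw [this, Complex.norm_exp_ofReal_mul_I]
    have h3 : (1 : ℝ) / (4 * n) ≤ 1 := by
      rw [div_le_one (by positivity)]
      linarith
    calc |(h.choose).re| ≤ ‖h.choose‖ := Complex.abs_re_le_norm _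
      _ = ‖(h.choose - tw n i) + tw n i‖ := by rw [sub_add_cancel]
      _ ≤ ‖h.choose - tw n i‖ + ‖tw n i‖ := norm_add_le _ _
      _ ≤ 2 := by rw [h2]; linarith
  · rw [dif_neg h]
    simp

/-- the bound of the relations -/
theorem z_rel (K' : ℝ) (hexp : ∀ (n : ℕ) (_ : 4 ≤ n) (A : ℕ → ℝ) (ε η : ℝ),
    ε ≤ 1 / (100 * n ^ 2) → η ≤ ε →
    (∀ j ∈ Finset.Ico 1 n, j ≠ n - 2 → |A j| ≤ η) → |A (n - 2)| ≤ ε →
    ∀ i : ℕ, |(rt n A i).re - (Real.cos (2 * Real.pi * i / n) +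
        (1 / n) * (∑ j ∈ Finset.Ico 1 n, A j * Real.cos ((j + 1) * (2 * Real.pi * i / n)) +
          (1 / 2 - 3 / (2 * n)) * (A (n - 2)) ^ 2 * Real.cos (3 * (2 * Real.pi * i / n))))| ≤
      K' * (n * ε * η + ε ^ 3)) (E J m : ℕ) (K : ℝ) (hm : 10 ≤ m)
    (hD : DetProp E J K m) (a : ℕ → ℝ) (ε η Δ : ℝ)
    (h1 : ε ≤ 1 / (400 * (m : ℝ) ^ 2)) (h2 : η ≤ ε)
    (h3 : ∀ j ∈ Finset.Ico 1 (2 * m), j ≠ 2 * m - 2 → |a j| ≤ η) (h4 : |a (2 * m - 2)| ≤ ε)
    (hΔ1 : K / (m : ℝ) ^ E ≤ Δ) (hΔ0 : 0 < Δ) (hΔ2 : Δ ≤ 1 / 100)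
    (H : ∀ S, Adm m J S → Δ / 4 ≤ |sS m S| → ∀ x : ℝ, 0 < x → x ≤ 1 →
      0 < FS m (fun j => a j * x ^ j) S * sS m S) (x : ℝ) (hx0 : 0 < x) (hx1 : x ≤ 1)
    (k : ℕ) (hk : 2 ≤ k) (hk2 : k + 2 ≤ m) :
    |relExpr m k (fun j => a j * x ^ j)| ≤
      8 * m * (K * Δ + K' * (2 * m * ε * η + ε ^ 3)) := by
  set A : ℕ → ℝ := fun j => a j * x ^ j with hA
  have hAa : ∀ j, |A j| ≤ |a j| := by
    intro j
    rw [hA]
    simp only
    rw [abs_mul, abs_of_pos (pow_pos hx0 j)]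
    calc |a j| * x ^ j ≤ |a j| * 1 :=
          mul_le_mul_of_nonneg_left (pow_le_one₀ hx0.le hx1) (abs_nonneg _)
      _ = |a j| := mul_one _
  have hg : ∀ i : ℕ, |(rt (2 * m) A i).re| ≤ 2 := fun i => z_rt_re _ (by omega) _ _
  have hg0 : |((rt (2 * m) A 0).re + (rt (2 * m) A m).re) / 2| ≤ 2 := by
    have h5 := abs_le.mp (hg 0)
    have h6 := abs_le.mp (hg m)
    rw [abs_le]
    constructor <;> linarith [h5.1, h5.2, h6.1, h6.2]
  obtain ⟨lam, kap, hlk⟩ := hD.1 (fun i => (rt (2 * m) A i).re)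
    (((rt (2 * m) A 0).re + (rt (2 * m) A m).re) / 2) Δ (fun i _ => hg i) hg0 hΔ1 hΔ2 (by
      intro S hS
      constructor
      · intro hs
        have hs0 : 0 < sS m S := by linarith
        have h5 := H S hS (by rw [abs_of_pos hs0]; exact hs) x hx0 hx1
        exact (pos_iff_pos_of_mul_pos h5).mpr hs0
      · intro hs
        have hs0 : sS m S < 0 := by linarith
        have h5 := H S hS (by rw [abs_of_neg hs0]; linarith) x hx0 hx1
        by_contra hc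
        have hc' : 0 ≤ FS m A S := not_lt.mp hc
        have : FS m A S * sS m S ≤ 0 := mul_nonpos_of_nonneg_of_nonpos hc' hs0.le
        linarith)
  exact test_rel m k hm hk hk2 A (fun i => (rt (2 * m) A i).re) lam kap (K * Δ)
    (K' * (2 * m * ε * η + ε ^ 3)) hlk (fun i _ =>
      z_expand_m K' hexp m (by omega) A ε η h1 h2
        (fun j hj hj2 => (hAa j).trans (h3 j hj hj2)) ((hAa _).trans h4) i)

/-- the first order expansion of the real parts when the other coefficients are small -/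
theorem z_single (m : ℕ) (hm : 10 ≤ m) (a : ℕ → ℝ) (G e4 err : ℝ) (i : ℕ)
    (he4 : 0 ≤ e4)
    (hG : |G - (cc m i + (1 / (2 * m)) *
      (∑ j ∈ Finset.Ico 1 (2 * m), a j * cc m ((j + 1) * i) +
        (1 / 2 - 3 / (2 * (2 * m : ℝ))) * (a (2 * m - 2)) ^ 2 * cc m (3 * i)))| ≤ err)
    (h1 : ∀ j, 1 ≤ j → j + 3 ≤ 2 * m → |a j| ≤ e4)
    (h2 : (a (2 * m - 2)) ^ 2 ≤ 2 * e4) :
    |G - (cc m i * (1 + a (2 * m - 2) / (2 * m)) + a (2 * m - 1) / (2 * m))| ≤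
      2 * e4 + err := by
  have hmR : (10 : ℝ) ≤ m := by exact_mod_cast hm
  have hm0 : (0 : ℝ) < m := by linarith
  have hsplit : ∑ j ∈ Finset.Ico 1 (2 * m), a j * cc m ((j + 1) * i) =
      (∑ j ∈ Finset.Ico 1 (2 * m - 2), a j * cc m ((j + 1) * i)) +
        a (2 * m - 2) * cc m i + a (2 * m - 1) := by
    have e1 : 2 * m = (2 * m - 2) + 1 + 1 := by omega
    have e2 : Finset.Ico 1 (2 * m) = Finset.Ico 1 ((2 * m - 2) + 1 + 1) := by
      congr 1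
    rw [e2, Finset.sum_Ico_succ_top (by omega), Finset.sum_Ico_succ_top (by omega)]
    have e3 : 2 * m - 2 + 1 = 2 * m - 1 := by omega
    rw [z_cc_one m i (by omega), e3, z_cc_two m i (by omega), mul_one]
  have hs : |∑ j ∈ Finset.Ico 1 (2 * m - 2), a j * cc m ((j + 1) * i)| ≤ 2 * m * e4 := by
    calc |∑ j ∈ Finset.Ico 1 (2 * m - 2), a j * cc m ((j + 1) * i)|
        ≤ ∑ j ∈ Finset.Ico 1 (2 * m - 2), |a j * cc m ((j + 1) * i)| :=
          Finset.abs_sum_le_sum_abs _ _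
      _ ≤ ∑ j ∈ Finset.Ico 1 (2 * m - 2), e4 := by
          refine Finset.sum_le_sum fun j hj => ?_
          rw [Finset.mem_Ico] at hj
          rw [abs_mul]
          calc |a j| * |cc m ((j + 1) * i)| ≤ e4 * 1 :=
                mul_le_mul (h1 j hj.1 (by omega)) (z_cc_le _ _) (abs_nonneg _) he4
            _ = e4 := mul_one _
      _ = ((2 * m - 2 - 1 : ℕ) : ℝ) * e4 := by
          rw [Finset.sum_const, Nat.card_Ico, nsmul_eq_mul]
      _ ≤ 2 * m * e4 := by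
          refine mul_le_mul_of_nonneg_right ?_ he4
          have : ((2 * m - 2 - 1 : ℕ) : ℝ) ≤ ((2 * m : ℕ) : ℝ) := by
            exact_mod_cast (by omega : 2 * m - 2 - 1 ≤ 2 * m)
          refine this.trans (le_of_eq ?_)
          push_cast
          ring
  have hq : |(1 / 2 - 3 / (2 * (2 * m : ℝ))) * (a (2 * m - 2)) ^ 2 * cc m (3 * i)| ≤
      2 * m * e4 := by
    have h5 : |(1 / 2 - 3 / (2 * (2 * m : ℝ)))| ≤ 1 := by
      have h6 : 3 / (2 * (2 * m : ℝ)) ≤ 1 / 2 := by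
        rw [div_le_div_iff₀ (by positivity) (by norm_num)]
        linarith
      have h7 : 0 ≤ 3 / (2 * (2 * m : ℝ)) := by positivity
      rw [abs_le]
      constructor <;> linarith
    rw [abs_mul, abs_mul, abs_of_nonneg (sq_nonneg (a (2 * m - 2)))]
    calc |(1 / 2 - 3 / (2 * (2 * m : ℝ)))| * a (2 * m - 2) ^ 2 * |cc m (3 * i)|
        ≤ 1 * (2 * e4) * 1 := by
          refine mul_le_mul (mul_le_mul h5 h2 (sq_nonneg _) zero_le_one) (z_cc_le _ _)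
            (abs_nonneg _) (by positivity)
      _ = 2 * e4 := by ring
      _ ≤ 2 * m * e4 := by
          refine mul_le_mul_of_nonneg_right ?_ he4
          linarith
  set T0 := ∑ j ∈ Finset.Ico 1 (2 * m - 2), a j * cc m ((j + 1) * i) with hT0
  set Q := (1 / 2 - 3 / (2 * (2 * m : ℝ))) * (a (2 * m - 2)) ^ 2 * cc m (3 * i) with hQ
  rw [hsplit] at hG
  have e5 : G - (cc m i * (1 + a (2 * m - 2) / (2 * m)) + a (2 * m - 1) / (2 * m)) =
      (G - (cc m i + (1 / (2 * m)) * ((T0 + a (2 * m - 2) * cc m i + a (2 * m - 1)) + Q))) +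
        (1 / (2 * m)) * (T0 + Q) := by
    field_simp
    ring
  rw [e5]
  have h8 : |(1 / (2 * (m : ℝ))) * (T0 + Q)| ≤ 2 * e4 := by
    rw [abs_mul, abs_of_pos (by positivity : (0 : ℝ) < 1 / (2 * m))]
    have h9 : |T0 + Q| ≤ 2 * m * e4 + 2 * m * e4 := (abs_add_le _ _).trans (add_le_add hs hq)
    calc 1 / (2 * (m : ℝ)) * |T0 + Q| ≤ 1 / (2 * (m : ℝ)) * (2 * m * e4 + 2 * m * e4) :=
          mul_le_mul_of_nonneg_left h9 (by positivity)
      _ = 2 * e4 := by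
          field_simp
          ring
  calc _ ≤ _ := abs_add_le _ _
    _ ≤ err + 2 * e4 := add_le_add hG h8
    _ = 2 * e4 + err := by ring

/-- expansion of `FS` -/
theorem z_FS (m J : ℕ) (hm : 10 ≤ m) (a : ℕ → ℝ) (e : ℝ) (S : Finset ℕ) (hS : S.card = 2 * J)
    (h : ∀ i, |(rt (2 * m) a i).re -
      (cc m i * (1 + a (2 * m - 2) / (2 * m)) + a (2 * m - 1) / (2 * m))| ≤ e) :
    |FS m a S - ((1 + a (2 * m - 2) / (2 * m)) * sS m S +
      (2 * J + 1) * (a (2 * m - 1) / (2 * m)))| ≤ (2 * J + 1) * e := by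
  set c := a (2 * m - 2) / (2 * m) with hc
  set b := a (2 * m - 1) / (2 * m) with hb
  have h0 := h 0
  have hm' := h m
  rw [z_cc_zero] at h0
  rw [z_cc_m m (by omega)] at hm'
  have hsum : |∑ i ∈ S, ((rt (2 * m) a i).re - (cc m i * (1 + c) + b))| ≤ 2 * J * e := by
    calc _ ≤ ∑ i ∈ S, |(rt (2 * m) a i).re - (cc m i * (1 + c) + b)| :=
          Finset.abs_sum_le_sum_abs _ _
      _ ≤ ∑ _i ∈ S, e := Finset.sum_le_sum fun i _ => h i
      _ = 2 * J * e := by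
          rw [Finset.sum_const, hS, nsmul_eq_mul]
          push_cast
          ring
  have e1 : ∑ i ∈ S, ((rt (2 * m) a i).re - (cc m i * (1 + c) + b)) =
      ∑ i ∈ S, (rt (2 * m) a i).re - (sS m S * (1 + c) + 2 * J * b) := by
    rw [Finset.sum_sub_distrib, Finset.sum_add_distrib, ← Finset.sum_mul, Finset.sum_const, hS,
      nsmul_eq_mul]
    unfold sS
    push_cast
    ring
  rw [e1] at hsum
  unfold FS
  rw [abs_le] at *
  constructor <;> linarith [h0.1, h0.2, hm'.1, hm'.2, hsum.1, hsum.2]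

/-- the final real inequalities -/
theorem z_fin (K K' M ε η Δ : ℝ) (hK : 0 < K) (hK' : 0 < K')
    (hM : 2 ^ 32 * ((K + 1) * (K' + 1)) ≤ M) (hε0 : 0 < ε) (hε : ε ≤ 1 / (2 * M) ^ 9)
    (hη0 : 0 ≤ η) (hΔ0 : 0 < Δ)
    (hΔ : Δ ≤ ε ^ 2 / M ^ 8)
    (hη : η ≤ 2 * M * (4 * Δ + 2 * (2 * (64 * M) ^ 4 *
      (8 * M * (K * Δ + K' * (2 * M * ε * η + ε ^ 3)))) + K' * (2 * M * ε * η + ε ^ 3))) :
    η < ε ∧ 4 * (64 * M) ^ 4 * (8 * M * (K * Δ + K' * (2 * M * ε * η + ε ^ 3))) < ε ^ 2 := by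
  have hM1 : 2 ^ 32 * (K + 1) ≤ M := by
    refine le_trans ?_ hM
    have : (K + 1) * 1 ≤ (K + 1) * (K' + 1) :=
      mul_le_mul_of_nonneg_left (by linarith) (by linarith)
    linarith
  have hM2 : 2 ^ 32 * (K' + 1) ≤ M := by
    refine le_trans ?_ hM
    have : 1 * (K' + 1) ≤ (K + 1) * (K' + 1) :=
      mul_le_mul_of_nonneg_right (by linarith) (by linarith)
    linarith
  have hM3 : (2 : ℝ) ^ 32 ≤ M := by linarith
  have hM0 : (1 : ℝ) ≤ M := by linarith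
  have hMp : (0 : ℝ) < M := by linarith
  have P8 : M ^ 8 * Δ ≤ ε ^ 2 := by
    rw [le_div_iff₀ (by positivity)] at hΔ
    linarith
  have P9 : M ^ 9 * ε ≤ 1 / 512 := by
    rw [le_div_iff₀ (by positivity)] at hε
    have : (2 * M) ^ 9 = 512 * M ^ 9 := by ring
    rw [this] at hε
    linarith
  have P7 : M ^ 7 * Δ ≤ ε ^ 2 / 8 := by
    have h1 : 8 * (M ^ 7 * Δ) ≤ M * (M ^ 7 * Δ) :=
      mul_le_mul_of_nonneg_right (by linarith) (by positivity)
    have h2 : M * (M ^ 7 * Δ) = M ^ 8 * Δ := by ring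
    linarith
  have P6 : M ^ 6 * Δ ≤ ε ^ 2 / 8 := by
    have h1 : M ^ 6 * Δ ≤ M ^ 7 * Δ :=
      mul_le_mul_of_nonneg_right (pow_le_pow_right₀ hM0 (by norm_num)) hΔ0.le
    linarith
  have Q8 : M ^ 8 * ε ≤ 1 / 512 := by
    have h1 : M ^ 8 * ε ≤ M ^ 9 * ε :=
      mul_le_mul_of_nonneg_right (pow_le_pow_right₀ hM0 (by norm_num)) hε0.le
    linarith
  have Q7 : M ^ 7 * ε ≤ 1 / 512 := by
    have h1 : M ^ 7 * ε ≤ M ^ 9 * ε :=
      mul_le_mul_of_nonneg_right (pow_le_pow_right₀ hM0 (by norm_num)) hε0.le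
    linarith
  have Q6 : M ^ 6 * ε ≤ 1 / 512 := by
    have h1 : M ^ 6 * ε ≤ M ^ 9 * ε :=
      mul_le_mul_of_nonneg_right (pow_le_pow_right₀ hM0 (by norm_num)) hε0.le
    linarith
  have Q0 : ε ≤ 1 / 512 := by
    have h1 : 1 * ε ≤ M ^ 9 * ε :=
      mul_le_mul_of_nonneg_right (one_le_pow₀ hM0) hε0.le
    linarith
  set r := 2 * M * ε * η + ε ^ 3 with hr
  have hr0 : 0 ≤ r := by positivity
  have r7 : M ^ 7 * r ≤ 2 * (1 / 512 * η) + 1 / 512 * ε ^ 2 := by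
    have h1 : M ^ 7 * r = 2 * (M ^ 8 * ε * η) + M ^ 7 * ε * ε ^ 2 := by
      rw [hr]
      ring
    rw [h1]
    have h2 : M ^ 8 * ε * η ≤ 1 / 512 * η := mul_le_mul_of_nonneg_right Q8 hη0
    have h3 : M ^ 7 * ε * ε ^ 2 ≤ 1 / 512 * ε ^ 2 := mul_le_mul_of_nonneg_right Q7 (sq_nonneg _)
    linarith
  have T1 : 2 ^ 31 * K' * (M ^ 6 * r) ≤ M ^ 7 * r / 2 := by
    have h1 : 2 ^ 31 * K' * (M ^ 6 * r) ≤ M / 2 * (M ^ 6 * r) :=
      mul_le_mul_of_nonneg_right (by linarith) (by positivity)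
    have h2 : M / 2 * (M ^ 6 * r) = M ^ 7 * r / 2 := by ring
    linarith
  have T2 : 2 ^ 30 * (K + 1) * (M ^ 6 * Δ) ≤ M ^ 7 * Δ / 4 := by
    have h1 : 2 ^ 30 * (K + 1) * (M ^ 6 * Δ) ≤ M / 4 * (M ^ 6 * Δ) :=
      mul_le_mul_of_nonneg_right (by linarith) (by positivity)
    have h2 : M / 4 * (M ^ 6 * Δ) = M ^ 7 * Δ / 4 := by ring
    linarith
  have T3 : M * Δ ≤ M ^ 6 * Δ := by
    refine mul_le_mul_of_nonneg_right ?_ hΔ0.le
    calc M = M ^ 1 := (pow_one M).symm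
      _ ≤ M ^ 6 := pow_le_pow_right₀ hM0 (by norm_num)
  have T4 : M * (K' * r) ≤ M ^ 6 * (K' * r) := by
    refine mul_le_mul_of_nonneg_right ?_ (by positivity)
    calc M = M ^ 1 := (pow_one M).symm
      _ ≤ M ^ 6 := pow_le_pow_right₀ hM0 (by norm_num)
  have hηs : η ≤ ε ^ 2 / 16 := by
    have h1 : 2 * M * (4 * Δ + 2 * (2 * (64 * M) ^ 4 * (8 * M * (K * Δ + K' * r))) + K' * r) =
        8 * (M * Δ) + 2 ^ 30 * K * (M ^ 6 * Δ) + 2 ^ 30 * (M ^ 6 * (K' * r)) +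
          2 * (M * (K' * r)) := by ring
    rw [h1] at hη
    have h2 : 0 ≤ M ^ 6 * Δ := by positivity
    have h3 : 0 ≤ M ^ 6 * (K' * r) := by positivity
    have h4 : 2 ^ 31 * K' * (M ^ 6 * r) = 2 ^ 31 * (M ^ 6 * (K' * r)) := by ring
    have h5 : 2 ^ 30 * (K + 1) * (M ^ 6 * Δ) = 2 ^ 30 * K * (M ^ 6 * Δ) +
        2 ^ 30 * (M ^ 6 * Δ) := by ring
    have h6 : 0 ≤ ε ^ 2 := sq_nonneg _
    linarith
  constructor
  · have h1 : ε ^ 2 ≤ ε * 1 := by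
      rw [sq]
      exact mul_le_mul_of_nonneg_left (by linarith) hε0.le
    linarith
  · have h1 : 4 * (64 * M) ^ 4 * (8 * M * (K * Δ + K' * r)) =
        2 ^ 29 * K * (M ^ 5 * Δ) + 2 ^ 29 * K' * (M ^ 5 * r) := by ring
    rw [h1]
    have h2 : 2 ^ 29 * K * (M ^ 5 * Δ) ≤ M ^ 6 * Δ / 8 := by
      have h3 : 2 ^ 29 * K * (M ^ 5 * Δ) ≤ M / 8 * (M ^ 5 * Δ) :=
        mul_le_mul_of_nonneg_right (by linarith) (by positivity)
      have h4 : M / 8 * (M ^ 5 * Δ) = M ^ 6 * Δ / 8 := by ring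
      linarith
    have h3 : 2 ^ 29 * K' * (M ^ 5 * r) ≤ M ^ 7 * r / 8 := by
      have h3 : 2 ^ 29 * K' * (M ^ 5 * r) ≤ M / 8 * (M ^ 5 * r) :=
        mul_le_mul_of_nonneg_right (by linarith) (by positivity)
      have h4 : M / 8 * (M ^ 5 * r) = M ^ 6 * r / 8 := by ring
      have h5 : M ^ 6 * r ≤ M ^ 7 * r :=
        mul_le_mul_of_nonneg_right (pow_le_pow_right₀ hM0 (by norm_num)) hr0
      linarith
    have h4 : 0 < ε ^ 2 := by positivity
    linarith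

theorem lemmaZ (E J : ℕ) (K : ℝ) (hK : 0 < K) : ∃ m1 : ℕ, ∀ m ≥ m1, m % 2 = 1 →
    DetProp E J K m → ∀ (a : ℕ → ℝ) (ε Δ : ℝ), 0 < ε → ε ≤ 1 / (2 * (m : ℝ)) ^ 9 →
    (∀ j ∈ Finset.Ico 1 (2 * m), |a j| ≤ ε) → (∃ j ∈ Finset.Ico 1 (2 * m), |a j| = ε) →
    K / (m : ℝ) ^ E ≤ Δ → Δ ≤ ε ^ 2 / (m : ℝ) ^ 8 →
    ∃ S, Adm m J S ∧ Δ / 4 ≤ |sS m S| ∧ ∃ x : ℝ, 0 < x ∧ x ≤ 1 ∧
      FS m (fun j => a j * x ^ j) S * sS m S ≤ 0 := by
  obtain ⟨K', hK', hexp⟩ := rt_expand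
  refine ⟨⌈2 ^ 32 * ((K + 1) * (K' + 1))⌉₊ + 10, ?_⟩
  intro m hm _ hD a ε Δ hε0 hε ha hae hΔ1 hΔ2
  have hm10 : 10 ≤ m := by omega
  have hM : 2 ^ 32 * ((K + 1) * (K' + 1)) ≤ (m : ℝ) := by
    have h1 := Nat.le_ceil (2 ^ 32 * ((K + 1) * (K' + 1)))
    have h2 : ((⌈2 ^ 32 * ((K + 1) * (K' + 1))⌉₊ : ℕ) : ℝ) ≤ (m : ℝ) := by
      exact_mod_cast (by omega : ⌈2 ^ 32 * ((K + 1) * (K' + 1))⌉₊ ≤ m)
    exact h1.trans h2
  have hmR : (10 : ℝ) ≤ m := by exact_mod_cast hm10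
  have hm0 : (0 : ℝ) < m := by linarith
  have hΔ0 : 0 < Δ := lt_of_lt_of_le (by positivity) hΔ1
  by_contra hcon
  push Not at hcon
  -- the maximum of the other coefficients
  obtain ⟨j0, hj0, hj0max⟩ := Finset.exists_max_image
    ((Finset.Ico 1 (2 * m)).filter (fun j => j ≠ 2 * m - 2)) (fun j => |a j|)
    ⟨1, by simp only [Finset.mem_filter, Finset.mem_Ico]; omega⟩
  rw [Finset.mem_filter] at hj0
  set η := |a j0| with hη
  have hη0 : 0 ≤ η := abs_nonneg _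
  have hηε : η ≤ ε := ha j0 hj0.1
  have h3 : ∀ j ∈ Finset.Ico 1 (2 * m), j ≠ 2 * m - 2 → |a j| ≤ η := fun j hj hj2 =>
    hj0max j (Finset.mem_filter.mpr ⟨hj, hj2⟩)
  have h4 : |a (2 * m - 2)| ≤ ε := ha _ (by rw [Finset.mem_Ico]; omega)
  have hεs : ε ≤ 1 / (400 * (m : ℝ) ^ 2) := by
    refine hε.trans ?_
    refine one_div_le_one_div_of_le (by positivity) ?_
    have h5 : (2 * (m : ℝ)) ^ 9 = 512 * (m : ℝ) ^ 7 * (m : ℝ) ^ 2 := by ring
    rw [h5]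
    have h6 : (1 : ℝ) ≤ (m : ℝ) ^ 7 := one_le_pow₀ (by linarith)
    refine mul_le_mul_of_nonneg_right ?_ (by positivity)
    linarith
  have hε1 : ε ≤ 1 / 400 := by
    refine hεs.trans ?_
    refine one_div_le_one_div_of_le (by norm_num) ?_
    have h6 : (1 : ℝ) ≤ (m : ℝ) ^ 2 := one_le_pow₀ (by linarith)
    linarith
  have hΔ3 : Δ ≤ 1 / 100 := by
    refine hΔ2.trans ?_
    have h6 : (1 : ℝ) ≤ (m : ℝ) ^ 8 := one_le_pow₀ (by linarith)
    have h7 : ε ^ 2 ≤ 1 / 100 := by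
      have : ε ^ 2 ≤ ε * 1 := by
        rw [sq]
        exact mul_le_mul_of_nonneg_left (by linarith) hε0.le
      linarith
    calc ε ^ 2 / (m : ℝ) ^ 8 ≤ ε ^ 2 / 1 :=
          div_le_div_of_nonneg_left (sq_nonneg _) one_pos h6
      _ ≤ 1 / 100 := by rw [div_one]; exact h7
  have H : ∀ S, Adm m J S → Δ / 4 ≤ |sS m S| → ∀ x : ℝ, 0 < x → x ≤ 1 →
      0 < FS m (fun j => a j * x ^ j) S * sS m S := hcon
  set r := 2 * (m : ℝ) * ε * η + ε ^ 3 with hr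
  set e3 := 8 * (m : ℝ) * (K * Δ + K' * r) with he3
  have hr0 : 0 ≤ r := by positivity
  have hcb := coef_bound m hm10 a e3 (by
    intro s _ k hk hk2
    have hx0 : 0 < 1 - 1 / (2 * (m : ℝ)) := by
      have : 1 / (2 * (m : ℝ)) ≤ 1 / 2 := one_div_le_one_div_of_le (by norm_num) (by linarith)
      linarith
    have hx1 : 1 - 1 / (2 * (m : ℝ)) ≤ 1 := by
      have : 0 ≤ 1 / (2 * (m : ℝ)) := by positivity
      linarith
    exact z_rel K' hexp E J m K hm10 hD a ε η Δ hεs hηε h3 h4 hΔ1 hΔ0 hΔ3 H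
      ((1 - 1 / (2 * (m : ℝ))) ^ s) (pow_pos hx0 s) (pow_le_one₀ hx0.le hx1) k hk hk2)
  set e4 := 2 * (64 * (m : ℝ)) ^ 4 * e3 with he4
  have he30 : 0 ≤ e3 := by positivity
  have he40 : 0 ≤ e4 := by positivity
  have hsq : (a (2 * m - 2)) ^ 2 ≤ 2 * e4 := by
    refine hcb.2.trans (le_of_eq ?_)
    rw [he4]
    ring
  have hsing : ∀ i, |(rt (2 * m) a i).re -
      (cc m i * (1 + a (2 * m - 2) / (2 * m)) + a (2 * m - 1) / (2 * m))| ≤
        2 * e4 + K' * r := fun i =>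
    z_single m hm10 a _ e4 (K' * r) i he40
      (z_expand_m K' hexp m (by omega) a ε η hεs hηε h3 h4 i) hcb.1 hsq
  have hFS : ∀ S, Adm m J S → |FS m a S - ((1 + a (2 * m - 2) / (2 * m)) * sS m S +
      (2 * J + 1) * (a (2 * m - 1) / (2 * m)))| ≤ (2 * J + 1) * (2 * e4 + K' * r) :=
    fun S hS => z_FS m J hm10 a _ S hS.2.1 hsing
  have hone : (fun j => a j * (1 : ℝ) ^ j) = a := by
    funext j
    rw [one_pow, mul_one]
  have hJ0 : (0 : ℝ) ≤ J := Nat.cast_nonneg _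
  have hc1 : |a (2 * m - 2) / (2 * m)| ≤ 1 := by
    rw [abs_div, abs_of_pos (by positivity : (0 : ℝ) < 2 * m), div_le_one (by positivity)]
    linarith
  have hc2 := abs_le.mp hc1
  -- bound of the last coefficient
  obtain ⟨⟨Sp, hSp, hSp1, hSp2⟩, ⟨Sm, hSm, hSm1, hSm2⟩⟩ := hD.2 Δ hΔ1 hΔ3
  have hlast : |a (2 * m - 1)| ≤ 2 * m * (4 * Δ + (2 * e4 + K' * r)) := by
    set b := a (2 * m - 1) / (2 * (m : ℝ)) with hb
    have hE : 0 ≤ 2 * e4 + K' * r := by positivity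
    have hbb : |b| ≤ 4 * Δ + (2 * e4 + K' * r) := by
      rw [abs_le]
      constructor
      · have h5 := H Sp hSp (hSp1.trans (le_abs_self _)) 1 one_pos le_rfl
        rw [hone] at h5
        have h6 : 0 < FS m a Sp := (pos_iff_pos_of_mul_pos h5).mpr (by linarith)
        have h7 := (abs_le.mp (hFS Sp hSp)).2
        have h8 : (1 + a (2 * m - 2) / (2 * m)) * sS m Sp ≤ 2 * (2 * Δ) :=
          mul_le_mul (by linarith [hc2.2]) hSp2 (by linarith) (by norm_num)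
        have h9 : 0 < (2 * J + 1) * (b + (4 * Δ + (2 * e4 + K' * r))) := by
          have h10 : 4 * Δ ≤ (2 * J + 1) * (4 * Δ) := by
            have : 0 ≤ 2 * (J : ℝ) * (4 * Δ) := by positivity
            linarith
          have h11 : (2 * (J : ℝ) + 1) * (b + (4 * Δ + (2 * e4 + K' * r))) =
            (2 * J + 1) * b + (2 * J + 1) * (4 * Δ) + (2 * J + 1) * (2 * e4 + K' * r) := by ring
          rw [h11]
          linarith
        have h10 : 0 < b + (4 * Δ + (2 * e4 + K' * r)) :=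
          (pos_iff_pos_of_mul_pos h9).mp (by positivity)
        linarith
      · have hneg : sS m Sm < 0 := by linarith
        have h5 := H Sm hSm (by rw [abs_of_neg hneg]; linarith) 1 one_pos le_rfl
        rw [hone] at h5
        have h6 : FS m a Sm < 0 := by
          by_contra hc
          have : FS m a Sm * sS m Sm ≤ 0 :=
            mul_nonpos_of_nonneg_of_nonpos (not_lt.mp hc) hneg.le
          linarith
        have h7 := (abs_le.mp (hFS Sm hSm)).1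
        have h8 : (1 + a (2 * m - 2) / (2 * m)) * (-sS m Sm) ≤ 2 * (2 * Δ) :=
          mul_le_mul (by linarith [hc2.2]) (by linarith) (by linarith) (by norm_num)
        have h9 : 0 < (2 * J + 1) * ((4 * Δ + (2 * e4 + K' * r)) - b) := by
          have h10 : 4 * Δ ≤ (2 * J + 1) * (4 * Δ) := by
            have : 0 ≤ 2 * (J : ℝ) * (4 * Δ) := by positivity
            linarith
          have h11 : (2 * (J : ℝ) + 1) * ((4 * Δ + (2 * e4 + K' * r)) - b) =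
            (2 * J + 1) * (4 * Δ) + (2 * J + 1) * (2 * e4 + K' * r) - (2 * J + 1) * b := by ring
          rw [h11]
          linarith
        have h10 : 0 < (4 * Δ + (2 * e4 + K' * r)) - b :=
          (pos_iff_pos_of_mul_pos h9).mp (by positivity)
        linarith
    have h5 : a (2 * m - 1) = 2 * m * b := by
      rw [hb]
      field_simp
    rw [h5, abs_mul, abs_of_pos (by positivity : (0 : ℝ) < 2 * m)]
    exact mul_le_mul_of_nonneg_left hbb (by positivity)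
  have hηb : η ≤ 2 * m * (4 * Δ + 2 * e4 + K' * r) := by
    have hj1 := hj0.1
    rw [Finset.mem_Ico] at hj1
    rcases Nat.lt_or_ge (j0 + 2) (2 * m) with hlt | hge
    · have h5 : η ≤ e4 := hcb.1 j0 hj1.1 (by omega)
      have h6 : 0 ≤ 2 * m * (4 * Δ + K' * r) := by positivity
      have h7 : 1 * e4 ≤ (4 * m) * e4 := mul_le_mul_of_nonneg_right (by linarith) he40
      have h8 : 2 * (m : ℝ) * (4 * Δ + 2 * e4 + K' * r) =
        2 * m * (4 * Δ + K' * r) + (4 * m) * e4 := by ring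
      rw [h8]
      linarith
    · have h5 : j0 = 2 * m - 1 := by
        have := hj0.2
        omega
      have h6 : η ≤ 2 * m * (4 * Δ + (2 * e4 + K' * r)) := by
        rw [hη, h5]
        exact hlast
      have h7 : 2 * (m : ℝ) * (4 * Δ + (2 * e4 + K' * r)) =
        2 * m * (4 * Δ + 2 * e4 + K' * r) := by ring
      rw [← h7]
      exact h6
  have hfin := z_fin K K' m ε η Δ hK hK' hM hε0 hε hη0 hΔ0 hΔ2 hηb
  obtain ⟨j1, hj1, hj1e⟩ := hae
  by_cases hj : j1 = 2 * m - 2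
  · rw [hj] at hj1e
    have h5 : (a (2 * m - 2)) ^ 2 = ε ^ 2 := by rw [← hj1e, sq_abs]
    have h6 := hcb.2
    rw [h5] at h6
    linarith [hfin.2]
  · have h5 := h3 j1 hj1 hj
    rw [hj1e] at h5
    linarith [hfin.1]

end Pool.Agent.H99.TN
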