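import Pool.Agent.H99.TN.RtBasic
import Pool.Agent.H99.TN.LemmaZ

/-! Existence of a good scale and a good index set for every polynomial. -/

namespace Pool.Agent.H99.TN

open Polynomial

theorem scale_exists (n : ℕ) (a : ℕ → ℝ) (ε : ℝ) (hε : 0 < ε)
    (h : ∃ j ∈ Finset.Ico 1 n, a j ≠ 0) :
    ∃ x : ℝ, 0 < x ∧ (∀ j ∈ Finset.Ico 1 n, |a j * x ^ j| ≤ ε) ∧
      ∃ j ∈ Finset.Ico 1 n, |a j * x ^ j| = ε := by
  classical
  obtain ⟨j₁, hj₁, hj₁'⟩ := h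
  have hne : ((Finset.Ico 1 n).filter (fun j => a j ≠ 0)).Nonempty :=
    ⟨j₁, Finset.mem_filter.mpr ⟨hj₁, hj₁'⟩⟩
  obtain ⟨j₀, hj₀, hmin⟩ := Finset.exists_min_image _
    (fun j => (ε / |a j|) ^ ((1 : ℝ) / j)) hne
  rw [Finset.mem_filter, Finset.mem_Ico] at hj₀
  have hpos : ∀ j, a j ≠ 0 → 0 < ε / |a j| := fun j hj => div_pos hε (abs_pos.mpr hj)
  have hpow : ∀ j, 1 ≤ j → a j ≠ 0 → ((ε / |a j|) ^ ((1 : ℝ) / j)) ^ j = ε / |a j| := by
    intro j hj ha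
    rw [← Real.rpow_natCast, ← Real.rpow_mul (hpos j ha).le, one_div, inv_mul_cancel₀, Real.rpow_one]
    exact_mod_cast (by omega : j ≠ 0)
  refine ⟨(ε / |a j₀|) ^ ((1 : ℝ) / j₀), Real.rpow_pos_of_pos (hpos j₀ hj₀.2) _, ?_, ?_⟩
  · intro j hj
    rw [abs_mul, abs_of_pos (pow_pos (Real.rpow_pos_of_pos (hpos j₀ hj₀.2) _) j)]
    by_cases ha : a j = 0
    · rw [ha, abs_zero, zero_mul]
      exact hε.le
    · have h1 := hmin j (Finset.mem_filter.mpr ⟨hj, ha⟩)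
      rw [Finset.mem_Ico] at hj
      have h2 : ((ε / |a j₀|) ^ ((1 : ℝ) / j₀)) ^ j ≤ ε / |a j| := by
        rw [← hpow j hj.1 ha]
        exact pow_le_pow_left₀ (Real.rpow_pos_of_pos (hpos j₀ hj₀.2) _).le h1 j
      calc |a j| * ((ε / |a j₀|) ^ ((1 : ℝ) / j₀)) ^ j ≤ |a j| * (ε / |a j|) :=
            mul_le_mul_of_nonneg_left h2 (abs_nonneg _)
        _ = ε := by
            have : |a j| ≠ 0 := abs_ne_zero.mpr ha
            field_simp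
  · refine ⟨j₀, Finset.mem_Ico.mpr hj₀.1, ?_⟩
    rw [abs_mul, abs_of_pos (pow_pos (Real.rpow_pos_of_pos (hpos j₀ hj₀.2) _) j₀),
      hpow j₀ hj₀.1.1 hj₀.2]
    have : |a j₀| ≠ 0 := abs_ne_zero.mpr hj₀.2
    field_simp

theorem zero_of_sign (m : ℕ) (hm : 1 ≤ m) (a : ℕ → ℝ)
    (hA : ∀ j ∈ Finset.Ico 1 (2 * m), |a j| ≤ 1 / (100 * ((2 * m : ℕ) : ℝ) ^ 2)) (S : Finset ℕ)
    (hs : sS m S ≠ 0) (x : ℝ) (hx0 : 0 < x) (hx1 : x ≤ 1)
    (h : FS m (fun j => a j * x ^ j) S * sS m S ≤ 0) :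
    ∃ t : ℝ, 0 < t ∧ t ≤ 1 ∧ FS m (fun j => a j * t ^ j) S = 0 := by
  have hc := (FS_cont m hm a hA S).mono (Set.Icc_subset_Icc_right hx1)
  have h0 : FS m (fun j => a j * (0 : ℝ) ^ j) S = sS m S := by
    apply FS_zero m hm
    intro j hj
    rw [Finset.mem_Ico] at hj
    rw [zero_pow (by omega), mul_zero]
  have key : ∃ t ∈ Set.Icc (0 : ℝ) x, FS m (fun j => a j * t ^ j) S = 0 := by
    rcases lt_or_gt_of_ne hs with hneg | hpos
    · have h1 : 0 ≤ FS m (fun j => a j * x ^ j) S := by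
        by_contra hcon
        push Not at hcon
        nlinarith
      have := intermediate_value_Icc hx0.le hc
      have h2 : (0 : ℝ) ∈ Set.Icc (FS m (fun j => a j * (0 : ℝ) ^ j) S)
          (FS m (fun j => a j * x ^ j) S) := ⟨by rw [h0]; exact hneg.le, h1⟩
      exact this h2
    · have h1 : FS m (fun j => a j * x ^ j) S ≤ 0 := by
        by_contra hcon
        push Not at hcon
        nlinarith
      have := intermediate_value_Icc' hx0.le hc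
      have h2 : (0 : ℝ) ∈ Set.Icc (FS m (fun j => a j * x ^ j) S)
          (FS m (fun j => a j * (0 : ℝ) ^ j) S) := ⟨h1, by rw [h0]; exact hpos.le⟩
      exact this h2
  obtain ⟨t, ⟨ht0, ht1⟩, ht⟩ := key
  refine ⟨t, ?_, ht1.trans hx1, ht⟩
  rcases eq_or_lt_of_le ht0 with h3 | h3
  · exfalso
    rw [← h3] at ht
    rw [h0] at ht
    exact hs ht
  · exact h3

/-- symmetric index set -/
theorem sym_set (J : ℕ) : ∃ m0 : ℕ, ∀ m ≥ m0, ∃ S, Adm m J S ∧ sS m S = 0 := by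
  refine ⟨200 * (J + 1), ?_⟩
  intro m hm
  set S := Finset.Ico 1 (J + 1) ∪ Finset.Ico (m - J) m with hS
  have hdisj : Disjoint (Finset.Ico 1 (J + 1)) (Finset.Ico (m - J) m) := by
    rw [Finset.disjoint_left]
    intro i hi hi2
    rw [Finset.mem_Ico] at hi hi2
    omega
  have hm0 : (0 : ℝ) < m := by exact_mod_cast (by omega : 0 < m)
  have hsmall : ∀ i, i ≤ J → 999 / 1000 ≤ cc m i := by
    intro i hi
    unfold cc
    have h1 := Real.one_sub_sq_div_two_le_cos (x := Real.pi * i / m)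
    have h2 : Real.pi * i / m ≤ 4 / 200 := by
      rw [div_le_div_iff₀ hm0 (by norm_num)]
      have h3 : (200 : ℝ) * i ≤ m := by
        have : 200 * i ≤ m := by omega
        exact_mod_cast this
      have h4 : Real.pi ≤ 4 := Real.pi_le_four
      have h5 : (0 : ℝ) ≤ i := Nat.cast_nonneg i
      nlinarith
    have h0 : 0 ≤ Real.pi * i / m := by positivity
    nlinarith
  have hrefl : ∀ i, i ≤ m → cc m (m - i) = -cc m i := by
    intro i hi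
    unfold cc
    rw [Nat.cast_sub hi]
    have : Real.pi * ((m : ℝ) - i) / m = Real.pi - Real.pi * i / m := by
      field_simp
    rw [this, Real.cos_pi_sub]
  have hbig : ∀ i ∈ S, 999 / 1000 ≤ |cc m i| := by
    intro i hi
    rw [hS, Finset.mem_union, Finset.mem_Ico, Finset.mem_Ico] at hi
    rcases hi with hi | hi
    · exact (hsmall i (by omega)).trans (le_abs_self _)
    · have h1 : cc m i = -cc m (m - i) := by
        have := hrefl (m - i) (by omega)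
        rw [show m - (m - i) = i by omega] at this
        exact this
      rw [h1, abs_neg]
      exact (hsmall (m - i) (by omega)).trans (le_abs_self _)
  refine ⟨S, ⟨?_, ?_, ?_⟩, ?_⟩
  · intro i hi
    rw [hS, Finset.mem_union, Finset.mem_Ico, Finset.mem_Ico] at hi
    rw [Finset.mem_Ico]
    omega
  · rw [hS, Finset.card_union_of_disjoint hdisj, Nat.card_Ico, Nat.card_Ico]
    omega
  · have h1 : S.filter (fun i => |cc m i| < 999 / 1000) = ∅ := by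
      rw [Finset.filter_eq_empty_iff]
      intro i hi hcon
      linarith [hbig i hi]
    rw [h1, Finset.card_empty]
    omega
  · unfold sS
    rw [hS, Finset.sum_union hdisj]
    have h1 : ∑ i ∈ Finset.Ico (m - J) m, cc m i = ∑ i ∈ Finset.Ico 1 (J + 1), cc m (m - i) := by
      rw [Finset.sum_Ico_reflect (cc m) 1 (by omega : J + 1 ≤ m + 1)]
      congr 1
      ext x
      simp only [Finset.mem_Ico]
      omega
    rw [h1, ← Finset.sum_add_distrib]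
    apply Finset.sum_eq_zero
    intro i hi
    rw [Finset.mem_Ico] at hi
    rw [hrefl i (by omega)]
    ring

/-- a good scale and index set -/
def GoodPt (m J : ℕ) (a : ℕ → ℝ) (x : ℝ) (S : Finset ℕ) : Prop :=
  0 < x ∧ (∀ j ∈ Finset.Ico 1 (2 * m), |a j * x ^ j| ≤ 1 / (2 * (m : ℝ)) ^ 9) ∧
    1 + a (2 * m) * x ^ (2 * m) ≠ 0 ∧ Adm m J S ∧ FS m (fun j => a j * x ^ j) S = 0

theorem good_exists (J : ℕ) (K : ℝ) (hK : 0 < K) (m0 : ℕ)
    (hD : ∀ m ≥ m0, m % 2 = 1 → DetProp 67 J K m) :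
    ∃ m1 : ℕ, ∀ m ≥ m1, m % 2 = 1 → ∀ a : ℕ → ℝ, ∃ x S, GoodPt m J a x S := by
  obtain ⟨mZ, hZ⟩ := lemmaZ 67 J K hK
  obtain ⟨mS, hS⟩ := sym_set J
  obtain ⟨mK, hmK⟩ := exists_nat_ge K
  refine ⟨m0 + mZ + mS + mK + 2 ^ 20 + 24 * (2 * J + 1), ?_⟩
  intro m hm hodd a
  have hm1 : 1 ≤ m := by omega
  have hmr : (2 : ℝ) ^ 20 ≤ m := by
    have : 2 ^ 20 ≤ m := by omega
    exact_mod_cast this
  have hmr1 : (1 : ℝ) ≤ m := by linarith [(by norm_num : (1 : ℝ) ≤ 2 ^ 20)]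
  have hmpos : (0 : ℝ) < m := by linarith
  have hmK' : K ≤ m := hmK.trans (by exact_mod_cast (by omega : mK ≤ m))
  have hmJ : (24 * (2 * J + 1) : ℝ) ≤ m := by
    have : 24 * (2 * J + 1) ≤ m := by omega
    exact_mod_cast this
  have hDm := hD m (by omega) hodd
  have hsm : (1 : ℝ) / (2 * (m : ℝ)) ^ 9 ≤ 1 / (100 * ((2 * m : ℕ) : ℝ) ^ 2) := by
    push_cast
    apply one_div_le_one_div_of_le (by positivity)
    have h7 : (100 : ℝ) ≤ (2 * (m : ℝ)) ^ 7 := by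
      have : (2 : ℝ) ^ 7 ≤ (2 * (m : ℝ)) ^ 7 := by
        apply pow_le_pow_left₀ (by norm_num)
        linarith
      linarith [(by norm_num : (100 : ℝ) ≤ 2 ^ 7)]
    calc 100 * (2 * (m : ℝ)) ^ 2 ≤ (2 * (m : ℝ)) ^ 7 * (2 * (m : ℝ)) ^ 2 := by
          apply mul_le_mul_of_nonneg_right h7 (by positivity)
      _ = (2 * (m : ℝ)) ^ 9 := by ring
  by_cases hall : ∃ j ∈ Finset.Ico 1 (2 * m), a j ≠ 0
  swap
  · push Not at hall
    obtain ⟨S, hS1, hS2⟩ := hS m (by omega)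
    have hgen : ∀ x : ℝ, 0 < x → 1 + a (2 * m) * x ^ (2 * m) ≠ 0 → GoodPt m J a x S := by
      intro x hx hx2
      refine ⟨hx, ?_, hx2, hS1, ?_⟩
      · intro j hj
        rw [hall j hj, zero_mul, abs_zero]
        positivity
      · rw [FS_zero m hm1 _ (fun j hj => by rw [hall j hj, zero_mul]) S, hS2]
    by_cases h1 : 1 + a (2 * m) * (1 : ℝ) ^ (2 * m) ≠ 0
    · exact ⟨1, S, hgen 1 one_pos h1⟩
    · push Not at h1
      refine ⟨2, S, hgen 2 two_pos ?_⟩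
      rw [one_pow, mul_one] at h1
      have h2 : a (2 * m) = -1 := by linarith
      rw [h2]
      have h3 : (1 : ℝ) < 2 ^ (2 * m) := one_lt_pow₀ (by norm_num) (by omega)
      intro h4
      linarith
  -- first application
  have hε : (0 : ℝ) < 1 / (2 * (m : ℝ)) ^ 9 := by positivity
  obtain ⟨x₁, hx₁, hb₁, he₁⟩ := scale_exists (2 * m) a _ hε hall
  have hΔ : (1 : ℝ) / m ^ 27 ≤ (1 / (2 * (m : ℝ)) ^ 9) ^ 2 / (m : ℝ) ^ 8 := by
    rw [div_pow, one_pow, div_div]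
    apply one_div_le_one_div_of_le (by positivity)
    calc ((2 * (m : ℝ)) ^ 9) ^ 2 * (m : ℝ) ^ 8 = 2 ^ 18 * (m : ℝ) ^ 26 := by ring
      _ ≤ m * (m : ℝ) ^ 26 := by
          apply mul_le_mul_of_nonneg_right _ (by positivity)
          linarith [(by norm_num : (2 : ℝ) ^ 18 ≤ 2 ^ 20)]
      _ = (m : ℝ) ^ 27 := by ring
  have hKΔ : K / (m : ℝ) ^ 67 ≤ 1 / (m : ℝ) ^ 66 := by
    rw [div_le_div_iff₀ (by positivity) (by positivity)]
    calc K * (m : ℝ) ^ 66 ≤ m * (m : ℝ) ^ 66 :=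
          mul_le_mul_of_nonneg_right hmK' (by positivity)
      _ = 1 * (m : ℝ) ^ 67 := by ring
  have h6627 : (1 : ℝ) / (m : ℝ) ^ 66 ≤ 1 / (m : ℝ) ^ 27 := by
    apply one_div_le_one_div_of_le (by positivity)
    exact pow_le_pow_right₀ hmr1 (by norm_num)
  obtain ⟨S₁, hA₁, hs₁, y₁, hy₁, hy₁', hF₁⟩ := hZ m (by omega) hodd hDm
    (fun j => a j * x₁ ^ j) (1 / (2 * (m : ℝ)) ^ 9) (1 / (m : ℝ) ^ 27) hε le_rfl hb₁ he₁
    (hKΔ.trans h6627) hΔ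
  have hs₁' : sS m S₁ ≠ 0 := by
    intro h0
    rw [h0, abs_zero] at hs₁
    have : (0 : ℝ) < 1 / (m : ℝ) ^ 27 / 4 := by positivity
    linarith
  obtain ⟨t₁, ht₁, ht₁', hz₁⟩ := zero_of_sign m hm1 (fun j => a j * x₁ ^ j)
    (fun j hj => (hb₁ j hj).trans hsm) S₁ hs₁' y₁ hy₁ hy₁' hF₁
  have hcomb : ∀ (x t : ℝ), (fun j => a j * x ^ j * t ^ j) = fun j => a j * (x * t) ^ j := by
    intro x t
    funext j
    rw [mul_pow, mul_assoc]
  rw [hcomb] at hz₁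
  have hbX : ∀ (x t : ℝ), 0 < x → 0 < t → t ≤ 1 → ∀ B : ℝ,
      (∀ j ∈ Finset.Ico 1 (2 * m), |a j * x ^ j| ≤ B) →
      ∀ j ∈ Finset.Ico 1 (2 * m), |a j * (x * t) ^ j| ≤ B := by
    intro x t hx ht ht1 B hB j hj
    rw [mul_pow, ← mul_assoc, abs_mul, abs_of_pos (pow_pos ht j)]
    calc |a j * x ^ j| * t ^ j ≤ |a j * x ^ j| * 1 :=
          mul_le_mul_of_nonneg_left (pow_le_one₀ ht.le ht1) (abs_nonneg _)
      _ ≤ B := by rw [mul_one]; exact hB j hj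
  set X₁ := x₁ * t₁ with hX₁
  have hX₁pos : 0 < X₁ := mul_pos hx₁ ht₁
  have hbX₁ := hbX x₁ t₁ hx₁ ht₁ ht₁' _ hb₁
  by_cases hgood : 1 + a (2 * m) * X₁ ^ (2 * m) ≠ 0
  · exact ⟨X₁, S₁, hX₁pos, hbX₁, hgood, hA₁, hz₁⟩
  push Not at hgood
  -- second application
  set ρ : ℝ := (1 / 2 : ℝ) ^ ((1 : ℝ) / ((2 * m : ℕ) : ℝ)) with hρ
  have hρ0 : 0 < ρ := Real.rpow_pos_of_pos (by norm_num) _
  have hρn : ρ ^ (2 * m) = 1 / 2 := by
    rw [hρ, ← Real.rpow_natCast, ← Real.rpow_mul (by norm_num), one_div, one_div,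
      inv_mul_cancel₀ (by exact_mod_cast (by omega : 2 * m ≠ 0)), Real.rpow_one]
  have hρ1 : ρ < 1 := by
    by_contra hcon
    push Not at hcon
    have : 1 ≤ ρ ^ (2 * m) := one_le_pow₀ hcon
    rw [hρn] at this
    norm_num at this
  have hbX₀ := hbX X₁ ρ hX₁pos hρ0 hρ1.le _ hbX₁
  obtain ⟨j₀, hj₀, hmax⟩ := Finset.exists_max_image (Finset.Ico 1 (2 * m))
    (fun j => |a j * (X₁ * ρ) ^ j|) ⟨1, Finset.mem_Ico.mpr ⟨le_rfl, by omega⟩⟩
  set ε₂ := |a j₀ * (X₁ * ρ) ^ j₀| with hε₂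
  -- lower bound of ε₂
  have hP1 : ∀ j ∈ Finset.Ico 1 (2 * m), |a j * X₁ ^ j| ≤ 2 * ε₂ := by
    intro j hj
    have h1 : |a j * (X₁ * ρ) ^ j| ≤ ε₂ := hmax j hj
    rw [mul_pow, ← mul_assoc, abs_mul, abs_of_pos (pow_pos hρ0 j)] at h1
    have h2 : 1 / 2 ≤ ρ ^ j := by
      rw [← hρn]
      rw [Finset.mem_Ico] at hj
      exact pow_le_pow_of_le_one hρ0.le hρ1.le hj.2.le
    have h3 : |a j * X₁ ^ j| * (1 / 2) ≤ |a j * X₁ ^ j| * ρ ^ j :=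
      mul_le_mul_of_nonneg_left h2 (abs_nonneg _)
    linarith
  have hε₂le : ε₂ ≤ 1 / (2 * (m : ℝ)) ^ 9 := hbX₀ j₀ hj₀
  have hFn := FS_near m hm1 (fun j => a j * X₁ ^ j) (min (2 * ε₂) (1 / (2 * (m : ℝ)) ^ 9))
    ((min_le_right _ _).trans hsm) (fun j hj => le_min (hP1 j hj) (hbX₁ j hj)) S₁
  rw [hz₁, zero_sub, abs_neg, hA₁.2.1] at hFn
  have hε₂low : 1 / (m : ℝ) ^ 28 ≤ ε₂ := by
    have h1 : 1 / (m : ℝ) ^ 27 / 4 ≤ ((2 * J : ℕ) + 1 : ℝ) * (3 * (2 * ε₂)) := by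
      refine hs₁.trans (hFn.trans ?_)
      apply mul_le_mul_of_nonneg_left _ (by positivity)
      linarith [min_le_left (2 * ε₂) (1 / (2 * (m : ℝ)) ^ 9)]
    push_cast at h1
    have h2 : 1 / (m : ℝ) ^ 27 ≤ 24 * (2 * J + 1) * ε₂ := by linarith
    have hε₂0 : 0 ≤ ε₂ := abs_nonneg _
    have h3 : 1 / (m : ℝ) ^ 27 ≤ m * ε₂ := h2.trans (mul_le_mul_of_nonneg_right hmJ hε₂0)
    have h4 : 1 / (m : ℝ) ^ 28 = (1 / (m : ℝ) ^ 27) / m := by
      field_simp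
    rw [h4, div_le_iff₀ hmpos]
    linarith
  have hε₂pos : 0 < ε₂ := lt_of_lt_of_le (by positivity) hε₂low
  have hΔ₂ : (1 : ℝ) / m ^ 66 ≤ ε₂ ^ 2 / (m : ℝ) ^ 8 := by
    have h1 : (1 / (m : ℝ) ^ 28) ^ 2 ≤ ε₂ ^ 2 := pow_le_pow_left₀ (by positivity) hε₂low 2
    calc (1 : ℝ) / m ^ 66 ≤ 1 / (m : ℝ) ^ 64 := by
          apply one_div_le_one_div_of_le (by positivity)
          exact pow_le_pow_right₀ hmr1 (by norm_num)
      _ = (1 / (m : ℝ) ^ 28) ^ 2 / (m : ℝ) ^ 8 := by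
          rw [div_pow, one_pow, div_div, ← pow_mul, ← pow_add]
      _ ≤ ε₂ ^ 2 / (m : ℝ) ^ 8 := by
          apply div_le_div_of_nonneg_right h1 (by positivity)
  obtain ⟨S₂, hA₂, hs₂, y₂, hy₂, hy₂', hF₂⟩ := hZ m (by omega) hodd hDm
    (fun j => a j * (X₁ * ρ) ^ j) ε₂ (1 / (m : ℝ) ^ 66) hε₂pos hε₂le hmax ⟨j₀, hj₀, rfl⟩
    hKΔ hΔ₂
  have hs₂' : sS m S₂ ≠ 0 := by
    intro h0
    rw [h0, abs_zero] at hs₂
    have : (0 : ℝ) < 1 / (m : ℝ) ^ 66 / 4 := by positivity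
    linarith
  obtain ⟨t₂, ht₂, ht₂', hz₂⟩ := zero_of_sign m hm1 (fun j => a j * (X₁ * ρ) ^ j)
    (fun j hj => (hbX₀ j hj).trans hsm) S₂ hs₂' y₂ hy₂ hy₂' hF₂
  rw [hcomb] at hz₂
  have hX₀pos : 0 < X₁ * ρ := mul_pos hX₁pos hρ0
  refine ⟨X₁ * ρ * t₂, S₂, mul_pos hX₀pos ht₂, hbX (X₁ * ρ) t₂ hX₀pos ht₂ ht₂' _ hbX₀, ?_, hA₂,
    hz₂⟩
  intro hcon
  have h1 : a (2 * m) * X₁ ^ (2 * m) = -1 := by linarith
  have h2 : a (2 * m) * (X₁ * ρ * t₂) ^ (2 * m) = -1 := by linarith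
  have h3 : (X₁ * ρ * t₂) ^ (2 * m) < X₁ ^ (2 * m) := by
    apply pow_lt_pow_left₀ _ (mul_pos hX₀pos ht₂).le (by omega)
    calc X₁ * ρ * t₂ ≤ X₁ * ρ * 1 := mul_le_mul_of_nonneg_left ht₂' hX₀pos.le
      _ < X₁ := by
          rw [mul_one]
          calc X₁ * ρ < X₁ * 1 := mul_lt_mul_of_pos_left hρ1 hX₁pos
            _ = X₁ := mul_one _
  have h4 : a (2 * m) < 0 := by
    by_contra hcon2
    push Not at hcon2
    have : 0 ≤ a (2 * m) * X₁ ^ (2 * m) := mul_nonneg hcon2 (pow_pos hX₁pos _).le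
    linarith
  nlinarith

end Pool.Agent.H99.TN
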