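import Pool.Agent.H99.TN.Good
import Pool.Agent.H99.TN.Assemble
import Pool.Agent.H99.TN.Count
import Pool.Agent.H99.TN.Detect

/-! The main theorem: irreducible spectrally arbitrary zero-nonzero patterns with 2n-1 entries. -/

namespace Pool.Agent.H99.TN

open Polynomial

theorem scaleRoots_expand (m : ℕ) (hm : 1 ≤ m) (p : ℝ[X]) (hp : p.Monic)
    (hd : p.natDegree = 2 * m) (x : ℝ) :
    p.scaleRoots x = X ^ (2 * m) +
      ∑ j ∈ Finset.Ico 1 (2 * m), C (p.coeff (2 * m - j) * x ^ j) * X ^ (2 * m - j) +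
        C (p.coeff (2 * m - 2 * m) * x ^ (2 * m)) := by
  have h1 : (p.scaleRoots x).natDegree = 2 * m := by rw [natDegree_scaleRoots, hd]
  rw [(p.scaleRoots x).as_sum_range_C_mul_X_pow, h1, Finset.sum_range_succ, Finset.range_eq_Ico,
    Finset.sum_eq_sum_Ico_succ_bot (by omega : 0 < 2 * m)]
  simp only [coeff_scaleRoots, hd, Nat.sub_self, Nat.sub_zero, pow_zero, mul_one, zero_add]
  have h2 : p.coeff (2 * m) = 1 := by
    rw [← hd]
    exact hp
  rw [h2, C_1, one_mul]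
  have h3 : ∑ j ∈ Finset.Ico 1 (2 * m), C (p.coeff (2 * m - j) * x ^ j) * X ^ (2 * m - j) =
      ∑ j ∈ Finset.Ico 1 (2 * m), C (p.coeff j * x ^ (2 * m - j)) * X ^ j := by
    have := Finset.sum_Ico_reflect (fun j => C (p.coeff j * x ^ (2 * m - j)) * X ^ j : ℕ → ℝ[X]) 1
      (by omega : 2 * m ≤ 2 * m + 1)
    have h4 : Finset.Ico (2 * m + 1 - 2 * m) (2 * m + 1 - 1) = Finset.Ico 1 (2 * m) := by
      congr 1
      omega
    rw [h4] at this
    rw [← this]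
    apply Finset.sum_congr rfl
    intro j hj
    rw [Finset.mem_Ico] at hj
    have h5 : 2 * m - (2 * m - j) = j := by omega
    rw [h5]
  rw [h3]
  ring

theorem main_real : ∃ N : ℕ, ∀ n : ℕ, N ≤ n → n % 4 = 2 →
    ∃ P : Fin n → Fin n → Prop,
      (∀ p : ℝ[X], p.Monic → p.natDegree = n →
        ∃ A : Matrix (Fin n) (Fin n) ℝ, (∀ i j, A i j ≠ 0 ↔ P i j) ∧ A.charpoly = p) ∧
      (∀ i j, Relation.ReflTransGen P i j) ∧
      Set.ncard {q : Fin n × Fin n | P q.1 q.2} = 2 * n - 1 := by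
  obtain ⟨J, K, m0, hJ, hK, hD⟩ := detect 67 (by norm_num)
  obtain ⟨m1, hG⟩ := good_exists J K hK m0 hD
  obtain ⟨ε₀, hε₀, hAss⟩ := assemble J hJ
  obtain ⟨k₀, hk₀⟩ := exists_nat_gt (1 / ε₀)
  refine ⟨4 * J + 4 + 2 * m1 + 2 * k₀ + 100, ?_⟩
  intro n hn hn4
  obtain ⟨L, hL1, hnL⟩ : ∃ L : ℕ, 1 ≤ L ∧ n = 4 * J + 2 + 2 * L :=
    ⟨n / 2 - 2 * J - 1, by omega, by omega⟩
  subst hnL
  set m := 2 * J + 1 + L with hmdef
  have h2m : 4 * J + 2 + 2 * L = 2 * m := by omega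
  have hodd : m % 2 = 1 := by omega
  have hm1 : 1 ≤ m := by omega
  have hmr : (50 : ℝ) ≤ m := by
    have : 50 ≤ m := by omega
    exact_mod_cast this
  refine ⟨pat J L, ?_, pat_conn J L (by omega) hL1, pat_count J L (by omega) hL1⟩
  intro p hp hpd
  rw [h2m] at hpd
  obtain ⟨x, S, hx, hb, hne, hS, hF⟩ := hG m (by omega) hodd (fun j => p.coeff (2 * m - j))
  have hsm : (1 : ℝ) / (2 * (m : ℝ)) ^ 9 ≤ 1 / (100 * ((2 * m : ℕ) : ℝ) ^ 2) := by
    push_cast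
    apply one_div_le_one_div_of_le (by positivity)
    have h7 : (100 : ℝ) ≤ (2 * (m : ℝ)) ^ 7 := by
      have : (100 : ℝ) ^ 1 ≤ (2 * (m : ℝ)) ^ 7 := by
        calc (100 : ℝ) ^ 1 ≤ (2 * (m : ℝ)) ^ 1 := by
              rw [pow_one, pow_one]
              linarith
          _ ≤ (2 * (m : ℝ)) ^ 7 := by
              apply pow_le_pow_right₀ _ (by norm_num)
              linarith
      simpa using this
    calc 100 * (2 * (m : ℝ)) ^ 2 ≤ (2 * (m : ℝ)) ^ 7 * (2 * (m : ℝ)) ^ 2 := by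
          apply mul_le_mul_of_nonneg_right h7 (by positivity)
      _ = (2 * (m : ℝ)) ^ 9 := by ring
  have hε : (1 : ℝ) / (2 * (m : ℝ)) ^ 9 ≤ ε₀ := by
    have h1 : (k₀ : ℝ) ≤ m := by
      have : k₀ ≤ m := by omega
      exact_mod_cast this
    have h2 : 1 / ε₀ ≤ (2 * (m : ℝ)) ^ 9 := by
      calc 1 / ε₀ ≤ k₀ := hk₀.le
        _ ≤ 2 * (m : ℝ) := by linarith
        _ = (2 * (m : ℝ)) ^ 1 := (pow_one _).symm
        _ ≤ (2 * (m : ℝ)) ^ 9 := by
            apply pow_le_pow_right₀ _ (by norm_num)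
            linarith
    rw [div_le_iff₀ (by positivity)]
    rw [div_le_iff₀ hε₀] at h2
    linarith
  obtain ⟨B, hB1, hB2⟩ := hAss m L hmdef hL1 hodd (fun j => p.coeff (2 * m - j) * x ^ j)
    (1 / (2 * (m : ℝ)) ^ 9) (p.coeff (2 * m - 2 * m) * x ^ (2 * m)) hε hsm hb hne S hS hF
  apply scale_realize (pat J L) p x hx.ne' B hB1
  rw [hB2, scaleRoots_expand m hm1 p hp hpd x]

end Pool.Agent.H99.TN
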