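import Pool.Agent.H99.TN.RtBasic
import Pool.Agent.H99.TN.Alg

/-! Real factorisation of the normalised polynomial. -/

namespace Pool.Agent.H99.TN

open Polynomial

/-- the real quadratic factor of the i-th pair -/
noncomputable def qd (m : ℕ) (A : ℕ → ℝ) (i : ℕ) : ℝ[X] :=
  X ^ 2 - C (2 * (rt (2 * m) A i).re / Complex.normSq (rt (2 * m) A i)) * X +
    C (Complex.normSq (rt (2 * m) A i))⁻¹

theorem real_factor (m : ℕ) (hm : 1 ≤ m) (A : ℕ → ℝ)
    (hA : ∀ j ∈ Finset.Ico 1 (2 * m), |A j| ≤ 1 / (100 * ((2 * m : ℕ) : ℝ) ^ 2)) :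
    (X ^ (2 * m) + ∑ j ∈ Finset.Ico 1 (2 * m), C (A j) * X ^ (2 * m - j) - 1 : ℝ[X]) =
      (X - C ((rt (2 * m) A 0).re)⁻¹) * (X - C ((rt (2 * m) A m).re)⁻¹) *
        ∏ i ∈ Finset.Ico 1 m, qd m A i := by
  have hprod := rt_prod (2 * m) (by omega) A hA
  obtain ⟨hne, hinv⟩ := prod_inv (2 * m) (by omega) (rt (2 * m) A) (fun j => (A j : ℂ)) hprod
  apply Polynomial.map_injective (algebraMap ℝ ℂ) Complex.ofReal_injective
  have hL : ((X ^ (2 * m) + ∑ j ∈ Finset.Ico 1 (2 * m), C (A j) * X ^ (2 * m - j) - 1 : ℝ[X])).map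
      (algebraMap ℝ ℂ) =
      X ^ (2 * m) + ∑ j ∈ Finset.Ico 1 (2 * m), C (A j : ℂ) * X ^ (2 * m - j) - 1 := by
    simp [Polynomial.map_sum]
  rw [hL, ← hinv, prod_pair m hm]
  simp only [Polynomial.map_mul, Polynomial.map_prod]
  congr 1
  · congr 1
    · rw [Polynomial.map_sub, map_X, map_C]
      congr 2
      rw [rt_zero_real (2 * m) (by omega) A hA]
      simp
    · rw [Polynomial.map_sub, map_X, map_C]
      congr 2
      rw [rt_m_real m hm A hA]
      simp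
  · apply Finset.prod_congr rfl
    intro i hi
    rw [Finset.mem_Ico] at hi
    rw [rt_conj (2 * m) (by omega) A hA i (by omega)]
    unfold qd
    exact quad_conj _ (hne i (Finset.mem_range.mpr (by omega)))

end Pool.Agent.H99.TN
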