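import Pool.Agent.H99.TN.Defs
import Pool.Agent.H99.TN.RtExists
import Pool.Agent.H99.TN.RtLip

/-! M8c: product formula and conjugation. -/

namespace Pool.Agent.H99.TN

open Polynomial

theorem RtProd.isRt_rt (n : ℕ) (hn : 2 ≤ n) (A : ℕ → ℝ)
    (hA : ∀ j ∈ Finset.Ico 1 n, |A j| ≤ 1 / (100 * n ^ 2)) (i : ℕ) : IsRt n A i (rt n A i) := by
  have hex : ∃ w, IsRt n A i w := by
    obtain ⟨w, hw, -⟩ := isRt_exists n hn A (1 / (100 * n ^ 2)) le_rfl hA i
    exact ⟨w, hw⟩
  have h : rt n A i = hex.choose := by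
    unfold rt
    rw [dif_pos hex]
  rw [h]
  exact hex.choose_spec

theorem RtProd.tw_eq_pow (n i : ℕ) :
    tw n i = Complex.exp (2 * Real.pi * Complex.I / n) ^ i := by
  unfold tw
  rw [← Complex.exp_nat_mul]
  congr 1
  ring

theorem RtProd.tw_inj (n : ℕ) (hn : 2 ≤ n) (i j : ℕ) (hi : i < n) (hj : j < n)
    (h : tw n i = tw n j) : i = j := by
  rw [RtProd.tw_eq_pow, RtProd.tw_eq_pow] at h
  exact (Complex.isPrimitiveRoot_exp n (by omega)).pow_inj hi hj h

theorem RtProd.tw_pow (n : ℕ) (hn : 2 ≤ n) (i : ℕ) : tw n i ^ n = 1 := by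
  rw [RtProd.tw_eq_pow, ← pow_mul, Nat.mul_comm i n, pow_mul,
    (Complex.isPrimitiveRoot_exp n (by omega)).pow_eq_one, one_pow]

theorem RtProd.norm_tw (n : ℕ) (hn : 2 ≤ n) (i : ℕ) : ‖tw n i‖ = 1 := by
  have h := RtProd.tw_pow n hn i
  have h2 : ‖tw n i‖ ^ n = 1 := by rw [← norm_pow, h, norm_one]
  exact (pow_eq_one_iff_of_nonneg (norm_nonneg _) (by omega)).mp h2

theorem RtProd.norm_pow_sub_one_le (z : ℂ) (hz : ‖z‖ = 1) (k : ℕ) :
    ‖z ^ k - 1‖ ≤ k * ‖z - 1‖ := by
  induction k with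
  | zero => simp
  | succ k ih =>
    have h1 : z ^ (k + 1) - 1 = z ^ k * (z - 1) + (z ^ k - 1) := by ring
    rw [h1]
    refine (norm_add_le _ _).trans ?_
    rw [norm_mul, norm_pow, hz, one_pow, one_mul]
    push_cast
    linarith

/-- Distinct `n`-th roots of unity are at distance at least `1 / n`. -/
theorem RtProd.dist_roots (n : ℕ) (hn : 2 ≤ n) (a b : ℂ) (ha : a ^ n = 1) (hb : b ^ n = 1)
    (han : ‖a‖ = 1) (hbn : ‖b‖ = 1) (hab : a ≠ b) : 1 / (n : ℝ) ≤ ‖a - b‖ := by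
  have hn0 : (0 : ℝ) < n := by
    have : 0 < n := by omega
    exact_mod_cast this
  have hb0 : b ≠ 0 := by
    intro h
    rw [h, norm_zero] at hbn
    exact one_ne_zero hbn.symm
  set z := a / b with hz
  have hz1 : z ≠ 1 := by
    intro h
    apply hab
    rw [hz, div_eq_one_iff_eq hb0] at h
    exact h
  have hzn : z ^ n = 1 := by rw [hz, div_pow, ha, hb, div_one]
  have hznorm : ‖z‖ = 1 := by rw [hz, norm_div, han, hbn, div_one]
  have hsum : ∑ k ∈ Finset.range n, z ^ k = 0 := by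
    have h1 := geom_sum_mul z n
    rw [hzn, sub_self] at h1
    rcases mul_eq_zero.mp h1 with h | h
    · exact h
    · exact absurd (sub_eq_zero.mp h) hz1
  have h2 : (n : ℂ) = -∑ k ∈ Finset.range n, (z ^ k - 1) := by
    rw [Finset.sum_sub_distrib, hsum]
    simp
  have h3 : (n : ℝ) ≤ n * (n * ‖z - 1‖) := by
    calc (n : ℝ) = ‖(n : ℂ)‖ := by rw [Complex.norm_natCast]
      _ = ‖∑ k ∈ Finset.range n, (z ^ k - 1)‖ := by rw [h2, norm_neg]
      _ ≤ ∑ k ∈ Finset.range n, ‖z ^ k - 1‖ := norm_sum_le _ _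
      _ ≤ ∑ k ∈ Finset.range n, (n * ‖z - 1‖) := by
          apply Finset.sum_le_sum
          intro k hk
          refine (RtProd.norm_pow_sub_one_le z hznorm k).trans ?_
          apply mul_le_mul_of_nonneg_right _ (norm_nonneg _)
          exact_mod_cast (Finset.mem_range.mp hk).le
      _ = n * (n * ‖z - 1‖) := by
          rw [Finset.sum_const, Finset.card_range, nsmul_eq_mul]
  have h4 : ‖z - 1‖ = ‖a - b‖ := by
    have h5 : z - 1 = (a - b) / b := by
      rw [hz]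
      field_simp
    rw [h5, norm_div, hbn, div_one]
  rw [← h4, div_le_iff₀ hn0]
  nlinarith

theorem RtProd.rt_inj (n : ℕ) (hn : 2 ≤ n) (A : ℕ → ℝ)
    (hA : ∀ j ∈ Finset.Ico 1 n, |A j| ≤ 1 / (100 * n ^ 2)) (i j : ℕ) (hi : i < n) (hj : j < n)
    (h : rt n A i = rt n A j) : i = j := by
  by_contra hne
  have h1 := (RtProd.isRt_rt n hn A hA i).2
  have h2 := (RtProd.isRt_rt n hn A hA j).2
  have h3 : tw n i ≠ tw n j := fun h' => hne (RtProd.tw_inj n hn i j hi hj h')
  have h4 := RtProd.dist_roots n hn _ _ (RtProd.tw_pow n hn i) (RtProd.tw_pow n hn j)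
    (RtProd.norm_tw n hn i) (RtProd.norm_tw n hn j) h3
  have h5 : ‖tw n i - tw n j‖ ≤ ‖rt n A i - tw n i‖ + ‖rt n A j - tw n j‖ := by
    have h6 : tw n i - tw n j = -(rt n A i - tw n i) + (rt n A j - tw n j) := by
      rw [h]
      ring
    rw [h6]
    refine (norm_add_le _ _).trans ?_
    rw [norm_neg]
  have hn0 : (0 : ℝ) < n := by
    have : 0 < n := by omega
    exact_mod_cast this
  have h7 : (1 : ℝ) / n ≤ 1 / (4 * n) + 1 / (4 * n) := by linarith
  have h8 : (1 : ℝ) / (4 * n) + 1 / (4 * n) = (1 / 2) * (1 / n) := by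
    field_simp
    norm_num
  rw [h8] at h7
  have h9 : (0 : ℝ) < 1 / n := by positivity
  linarith

theorem rt_prod (n : ℕ) (hn : 2 ≤ n) (A : ℕ → ℝ)
    (hA : ∀ j ∈ Finset.Ico 1 n, |A j| ≤ 1 / (100 * n ^ 2)) :
    (∏ i ∈ Finset.range n, (X - C (rt n A i)) : ℂ[X]) =
      X ^ n - ∑ j ∈ Finset.Ico 1 n, C (A j : ℂ) * X ^ j - 1 := by
  have hmon1 : (∏ i ∈ Finset.range n, (X - C (rt n A i)) : ℂ[X]).Monic :=
    monic_prod_of_monic _ _ fun i _ => monic_X_sub_C _
  have hdeg1 : (∏ i ∈ Finset.range n, (X - C (rt n A i)) : ℂ[X]).natDegree = n := by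
    rw [natDegree_prod_of_monic _ _ fun i _ => monic_X_sub_C _]
    simp
  set R : ℂ[X] := -∑ j ∈ Finset.Ico 1 n, C (A j : ℂ) * X ^ j - 1 with hR
  have hRdeg : R.degree < n := by
    rw [← mem_degreeLT]
    apply Submodule.sub_mem
    · apply Submodule.neg_mem
      apply Submodule.sum_mem
      intro j hj
      rw [mem_degreeLT]
      refine (degree_C_mul_X_pow_le j _).trans_lt ?_
      exact_mod_cast (Finset.mem_Ico.mp hj).2
    · rw [mem_degreeLT]
      refine degree_one_le.trans_lt ?_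
      have : 0 < n := by omega
      exact_mod_cast this
  have hQ : X ^ n - ∑ j ∈ Finset.Ico 1 n, C (A j : ℂ) * X ^ j - 1 = X ^ n + R := by
    rw [hR]
    ring
  rw [hQ]
  have hmon2 : (X ^ n + R).Monic := monic_X_pow_add hRdeg
  have hdeg2 : (X ^ n + R).natDegree = n := by
    have h1 : R.degree < (X ^ n : ℂ[X]).degree := by
      rw [degree_X_pow]
      exact hRdeg
    rw [natDegree_eq_of_degree_eq (degree_add_eq_left_of_degree_lt h1), natDegree_X_pow]
  have hdvd : (∏ i ∈ Finset.range n, (X - C (rt n A i)) : ℂ[X]) ∣ X ^ n + R := by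
    apply Finset.prod_dvd_of_coprime
    · intro i hi j hj hij
      have hi' : i < n := by simpa using hi
      have hj' : j < n := by simpa using hj
      apply isCoprime_X_sub_C_of_isUnit_sub
      apply IsUnit.mk0
      intro h
      exact hij (RtProd.rt_inj n hn A hA i j hi' hj' (sub_eq_zero.mp h))
    · intro i _
      rw [dvd_iff_isRoot, IsRoot.def, ← hQ]
      have h1 := (RtProd.isRt_rt n hn A hA i).1
      simp only [eval_sub, eval_pow, eval_X, eval_one, eval_finsetSum, eval_mul, eval_C]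
      rw [h1]
      unfold hsum
      ring
  exact (eq_of_monic_of_dvd_of_natDegree_le hmon1 hmon2 hdvd (by rw [hdeg1, hdeg2])).symm

theorem rt_conj (n : ℕ) (hn : 2 ≤ n) (A : ℕ → ℝ)
    (hA : ∀ j ∈ Finset.Ico 1 n, |A j| ≤ 1 / (100 * n ^ 2)) (i : ℕ) (hi : i ≤ n) :
    rt n A (n - i) = (starRingEnd ℂ) (rt n A i) := by
  have h1 := RtProd.isRt_rt n hn A hA (n - i)
  have h2 := RtProd.isRt_rt n hn A hA i
  have hn0 : (n : ℂ) ≠ 0 := by
    have : n ≠ 0 := by omega
    exact_mod_cast this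
  have htw : tw n (n - i) = (starRingEnd ℂ) (tw n i) := by
    unfold tw
    rw [← Complex.exp_conj]
    rw [Complex.exp_eq_exp_iff_exists_int]
    refine ⟨1, ?_⟩
    rw [Nat.cast_sub hi]
    simp only [map_mul, map_div₀, Complex.conj_I, Complex.conj_ofReal, map_natCast, map_ofNat]
    field_simp
    push_cast
    ring
  have h3 : IsRt n A (n - i) ((starRingEnd ℂ) (rt n A i)) := by
    refine ⟨?_, ?_⟩
    · rw [← map_pow, h2.1]
      unfold hsum
      rw [map_add, map_one, map_sum]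
      congr 1
      apply Finset.sum_congr rfl
      intro j _
      rw [map_mul, map_pow, Complex.conj_ofReal]
    · rw [htw, ← map_sub, Complex.norm_conj]
      exact h2.2
  have h4 := isRt_lip n hn A A hA hA (n - i) _ _ h1 h3
  have h5 : ‖rt n A (n - i) - (starRingEnd ℂ) (rt n A i)‖ ≤ 0 := by
    refine h4.trans ?_
    simp
  exact sub_eq_zero.mp (norm_le_zero_iff.mp h5)

end Pool.Agent.H99.TN
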