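import Pool.Agent.H99.TN.Defs
import Pool.Agent.H99.TN.RtExists
import Pool.Agent.H99.TN.RtLip
import Pool.Agent.H99.TN.RtProd

/-! Basic consequences for the chosen roots. -/

namespace Pool.Agent.H99.TN

open Polynomial

theorem rt_spec (n : ℕ) (hn : 2 ≤ n) (A : ℕ → ℝ)
    (hA : ∀ j ∈ Finset.Ico 1 n, |A j| ≤ 1 / (100 * n ^ 2)) (i : ℕ) : IsRt n A i (rt n A i) := by
  classical
  obtain ⟨w, hw, -⟩ := isRt_exists n hn A _ le_rfl hA i
  have h : ∃ w, IsRt n A i w := ⟨w, hw⟩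
  unfold rt
  rw [dif_pos h]
  exact h.choose_spec

theorem rt_eq (n : ℕ) (hn : 2 ≤ n) (A : ℕ → ℝ)
    (hA : ∀ j ∈ Finset.Ico 1 n, |A j| ≤ 1 / (100 * n ^ 2)) (i : ℕ) (w : ℂ) (hw : IsRt n A i w) :
    rt n A i = w := by
  have h := isRt_lip n hn A A hA hA i _ _ (rt_spec n hn A hA i) hw
  simp only [sub_self, abs_zero, Finset.sum_const_zero, mul_zero] at h
  have h2 : ‖rt n A i - w‖ = 0 := le_antisymm h (norm_nonneg _)
  exact sub_eq_zero.mp (norm_eq_zero.mp h2)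

theorem rt_near (n : ℕ) (hn : 2 ≤ n) (A : ℕ → ℝ) (ε : ℝ) (hε : ε ≤ 1 / (100 * n ^ 2))
    (hA : ∀ j ∈ Finset.Ico 1 n, |A j| ≤ ε) (i : ℕ) : ‖rt n A i - tw n i‖ ≤ 3 * ε := by
  obtain ⟨w, hw, hw2⟩ := isRt_exists n hn A ε hε hA i
  rw [rt_eq n hn A (fun j hj => (hA j hj).trans hε) i w hw]
  exact hw2

theorem rt_lip (n : ℕ) (hn : 2 ≤ n) (A B : ℕ → ℝ)
    (hA : ∀ j ∈ Finset.Ico 1 n, |A j| ≤ 1 / (100 * n ^ 2))
    (hB : ∀ j ∈ Finset.Ico 1 n, |B j| ≤ 1 / (100 * n ^ 2)) (i : ℕ) :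
    ‖rt n A i - rt n B i‖ ≤ 2 * ∑ j ∈ Finset.Ico 1 n, |A j - B j| :=
  isRt_lip n hn A B hA hB i _ _ (rt_spec n hn A hA i) (rt_spec n hn B hB i)

theorem tw_re (m i : ℕ) (hm : 1 ≤ m) : (tw (2 * m) i).re = cc m i := by
  unfold tw cc
  have h : (2 * Real.pi * Complex.I * ((i : ℂ) / ((2 * m : ℕ) : ℂ))) =
      ((Real.pi * i / m : ℝ) : ℂ) * Complex.I := by
    push_cast
    have : (m : ℂ) ≠ 0 := by
      exact_mod_cast (by omega : m ≠ 0)
    field_simp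
  rw [h, Complex.exp_ofReal_mul_I_re]

theorem norm_tw (n i : ℕ) : ‖tw n i‖ = 1 := by
  unfold tw
  have h : (2 * Real.pi * Complex.I * ((i : ℂ) / (n : ℂ))) =
      ((2 * Real.pi * (i / n) : ℝ) : ℂ) * Complex.I := by
    push_cast
    ring
  rw [h, Complex.norm_exp_ofReal_mul_I]

theorem tw_pow (n i : ℕ) (hn : 1 ≤ n) : tw n i ^ n = 1 := by
  unfold tw
  rw [← Complex.exp_nat_mul]
  have : (n : ℂ) ≠ 0 := by
    exact_mod_cast (by omega : n ≠ 0)
  have h : (n : ℂ) * (2 * Real.pi * Complex.I * ((i : ℂ) / (n : ℂ))) =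
      i * (2 * Real.pi * Complex.I) := by
    field_simp
  rw [h, Complex.exp_nat_mul_two_pi_mul_I]

theorem rt_zero (n : ℕ) (hn : 2 ≤ n) (A : ℕ → ℝ) (hA : ∀ j ∈ Finset.Ico 1 n, A j = 0) (i : ℕ) :
    rt n A i = tw n i := by
  apply rt_eq n hn A
  · intro j hj
    rw [hA j hj, abs_zero]
    positivity
  · refine ⟨?_, ?_⟩
    · rw [tw_pow n i (by omega)]
      unfold hsum
      rw [Finset.sum_eq_zero, add_zero]
      intro j hj
      rw [hA j hj]
      simp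
    · rw [sub_self, norm_zero]
      positivity

theorem rt_zero_real (n : ℕ) (hn : 2 ≤ n) (A : ℕ → ℝ)
    (hA : ∀ j ∈ Finset.Ico 1 n, |A j| ≤ 1 / (100 * n ^ 2)) :
    rt n A 0 = (((rt n A 0).re : ℝ) : ℂ) := by
  have h1 : rt n A n = (starRingEnd ℂ) (rt n A 0) := by
    have := rt_conj n hn A hA 0 (by omega)
    simpa using this
  have h2 : rt n A n = rt n A 0 := by
    apply rt_eq n hn A hA
    have h3 := rt_spec n hn A hA 0
    unfold IsRt at h3 ⊢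
    have h4 : tw n n = tw n 0 := by
      unfold tw
      have : (n : ℂ) ≠ 0 := by
        exact_mod_cast (by omega : n ≠ 0)
      rw [div_self this]
      simp
    rw [h4]
    exact h3
  rw [h2] at h1
  exact (Complex.conj_eq_iff_re.mp h1.symm).symm

theorem rt_m_real (m : ℕ) (hm : 1 ≤ m) (A : ℕ → ℝ)
    (hA : ∀ j ∈ Finset.Ico 1 (2 * m), |A j| ≤ 1 / (100 * ((2 * m : ℕ) : ℝ) ^ 2)) :
    rt (2 * m) A m = (((rt (2 * m) A m).re : ℝ) : ℂ) := by
  have h1 := rt_conj (2 * m) (by omega) A hA m (by omega)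
  have h2 : 2 * m - m = m := by omega
  rw [h2] at h1
  exact (Complex.conj_eq_iff_re.mp h1.symm).symm

theorem FS_near (m : ℕ) (hm : 1 ≤ m) (A : ℕ → ℝ) (ε : ℝ)
    (hε : ε ≤ 1 / (100 * ((2 * m : ℕ) : ℝ) ^ 2))
    (hA : ∀ j ∈ Finset.Ico 1 (2 * m), |A j| ≤ ε) (S : Finset ℕ) :
    |FS m A S - sS m S| ≤ (S.card + 1) * (3 * ε) := by
  have hre : ∀ i, |(rt (2 * m) A i).re - cc m i| ≤ 3 * ε := by
    intro i
    rw [← tw_re m i hm, ← Complex.sub_re]
    exact (Complex.abs_re_le_norm _).trans (rt_near (2 * m) (by omega) A ε hε hA i)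
  have h0 := hre 0
  have h1 := hre m
  have hc0 : cc m 0 = 1 := by simp [cc]
  have hcm : cc m m = -1 := by
    unfold cc
    have : (m : ℝ) ≠ 0 := by
      exact_mod_cast (by omega : m ≠ 0)
    rw [mul_div_assoc, div_self this, mul_one, Real.cos_pi]
  rw [hc0] at h0
  rw [hcm] at h1
  have h2 : |∑ i ∈ S, (rt (2 * m) A i).re - sS m S| ≤ S.card * (3 * ε) := by
    unfold sS
    rw [← Finset.sum_sub_distrib]
    refine (Finset.abs_sum_le_sum_abs _ _).trans ?_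
    refine (Finset.sum_le_sum (fun i _ => hre i)).trans ?_
    rw [Finset.sum_const, nsmul_eq_mul]
  unfold FS
  rw [abs_le] at *
  constructor <;> nlinarith [h0.1, h0.2, h1.1, h1.2, h2.1, h2.2]

theorem FS_zero (m : ℕ) (hm : 1 ≤ m) (A : ℕ → ℝ) (hA : ∀ j ∈ Finset.Ico 1 (2 * m), A j = 0)
    (S : Finset ℕ) : FS m A S = sS m S := by
  have h := FS_near m hm A 0 (by positivity) (fun j hj => by rw [hA j hj, abs_zero]) S
  simp only [mul_zero] at h
  have h2 : |FS m A S - sS m S| = 0 := le_antisymm h (abs_nonneg _)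
  linarith [abs_eq_zero.mp h2]

theorem FS_cont (m : ℕ) (hm : 1 ≤ m) (a : ℕ → ℝ)
    (hA : ∀ j ∈ Finset.Ico 1 (2 * m), |a j| ≤ 1 / (100 * ((2 * m : ℕ) : ℝ) ^ 2)) (S : Finset ℕ) :
    ContinuousOn (fun x : ℝ => FS m (fun j => a j * x ^ j) S) (Set.Icc 0 1) := by
  have key : ∀ i, ContinuousOn (fun x : ℝ => (rt (2 * m) (fun j => a j * x ^ j) i).re)
      (Set.Icc 0 1) := by
    intro i
    have hb : ∀ x ∈ Set.Icc (0 : ℝ) 1, ∀ j ∈ Finset.Ico 1 (2 * m),
        |a j * x ^ j| ≤ 1 / (100 * ((2 * m : ℕ) : ℝ) ^ 2) := by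
      intro x hx j hj
      rw [abs_mul]
      have h1 : |x ^ j| ≤ 1 := by
        rw [abs_of_nonneg (pow_nonneg hx.1 _)]
        exact pow_le_one₀ hx.1 hx.2
      calc |a j| * |x ^ j| ≤ |a j| * 1 := by
            apply mul_le_mul_of_nonneg_left h1 (abs_nonneg _)
        _ ≤ _ := by rw [mul_one]; exact hA j hj
    intro x hx
    unfold ContinuousWithinAt
    rw [tendsto_iff_norm_sub_tendsto_zero]
    have hlim : Filter.Tendsto (fun y : ℝ => 2 * ∑ j ∈ Finset.Ico 1 (2 * m),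
        |a j * y ^ j - a j * x ^ j|) (nhdsWithin x (Set.Icc 0 1)) (nhds 0) := by
      have hc : Continuous (fun y : ℝ => 2 * ∑ j ∈ Finset.Ico 1 (2 * m),
        |a j * y ^ j - a j * x ^ j|) := by fun_prop
      have := (hc.tendsto x).mono_left (nhdsWithin_le_nhds (s := Set.Icc (0 : ℝ) 1))
      simpa using this
    refine squeeze_zero' (Filter.Eventually.of_forall (fun y => norm_nonneg _)) ?_ hlim
    filter_upwards [self_mem_nhdsWithin] with y hy
    rw [← Complex.sub_re, Real.norm_eq_abs]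
    exact (Complex.abs_re_le_norm _).trans (rt_lip (2 * m) (by omega) _ _ (hb y hy) (hb x hx) i)
  unfold FS
  exact (((key 0).add (key m)).div_const 2).add (continuousOn_finset_sum _ (fun i _ => key i))

end Pool.Agent.H99.TN
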